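import Mathlib
import Pool.Agent.H71.DX.Defs

/-!
Definitions for the total colouring theorem for graphs with `Δ ≥ (1/2 + ε) n`.
-/

set_option autoImplicit false

namespace Pool.Agent.H71.HL

open Finset Classical
open Pool.Agent.H71.DN Pool.Agent.H71.DX

/-- The number of neighbours of `v` in `S`. -/
noncomputable def dgi {V : Type} (G : SimpleGraph V) (S : Finset V) (v : V) : ℕ :=
  (S.filter fun u => G.Adj v u).card

/-- A total colouring of `G` with the colours `0, ..., N - 1`. -/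
def Tot {V : Type} (G : SimpleGraph V) (N : ℕ) : Prop :=
  ∃ (fV : V → ℕ) (fE : Sym2 V → ℕ),
    (∀ v, fV v < N) ∧ (∀ a b, G.Adj a b → fE s(a, b) < N) ∧
    (∀ a b, G.Adj a b → fV a ≠ fV b) ∧
    (∀ a b, G.Adj a b → fV a ≠ fE s(a, b)) ∧
    (∀ a b b', G.Adj a b → G.Adj a b' → b ≠ b' → fE s(a, b) ≠ fE s(a, b'))

/-- A total colouring of the part of `G` at `K`: the vertices of `K` and the edges that meet `K`. -/
structure PTot {V : Type} (G : SimpleGraph V) (K : Finset V) (N : ℕ) (fV : V → ℕ)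
    (fE : Sym2 V → ℕ) : Prop where
  v : ∀ a ∈ K, fV a < N
  e : ∀ a ∈ K, ∀ b, G.Adj a b → fE s(a, b) < N
  vv : ∀ a ∈ K, ∀ b ∈ K, G.Adj a b → fV a ≠ fV b
  ve : ∀ a ∈ K, ∀ b, G.Adj a b → fV a ≠ fE s(a, b)
  ee : ∀ a b b', G.Adj a b → G.Adj a b' → b ≠ b' → (a ∈ K ∨ b ∈ K) → (a ∈ K ∨ b' ∈ K) →
    fE s(a, b) ≠ fE s(a, b')

end Pool.Agent.H71.HL
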