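import Mathlib
import Pool.Agent.H71.HL.Defs
import Pool.Agent.H71.DN.Res

/-!
R1R: the enlarged graph `G'` on `V ⊕ (V × Bool)`: `G` on the left, a sparse random-like graph on the new vertices and between the
new vertices and the set `W` of vertices with slack.

Proof.  `n := card V`, `N := card (V ⊕ (V × Bool)) = 3 n`. `g := ⌈8 / δ⌉₊`, `ρ := 1 / (100 g)`, `α := 1 / (2 g)`. `lamr := θ² / 2`, `lam0 := θ² / (16 g)`.
`reserve g ρ lamr` (in `DN/Res.lean`) for the graph `G0` on `V ⊕ (V × Bool)`: two vertices `inr d`, `inr e` are adjacent iff `d ≠ e`; `inl v` and `inr d` iff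
`v ∈ W`; no edges between left vertices. It gives `R ≤ G0` with `|dg R x - dg G0 x / g| ≤ ρ N` and `ee G0 A B ≤ 4 g ee R A B` if
`lamr N² ≤ ee G0 A B`. `G'.Adj x y := (∃ a b, x = inl a ∧ y = inl b ∧ G.Adj a b) ∨ R.Adj x y`.
 * Adjacency on the left: `R ≤ G0` has no edges there. `inl v` with `v ∉ W` has no `G0`-edges.
 * Degrees: `dg G' (inl v) = dg G v` for `v ∉ W`; `dg G' (inl v) = dg G v + dg R (inl v)` for `v ∈ W`, `dg G0 (inl v) = 2 n`;
   `dg G' (inr d) = dg R (inr d)`, `2 n - 1 ≤ dg G0 (inr d) ≤ 3 n`. `ρ N = 0.03 n / g`.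
   Upper bounds: `2 n / g + 0.03 n / g ≤ 2.03 δ n / 8 ≤ δ n`; `3 n / g + 0.03 n / g ≤ 3.03 δ n / 8 ≤ n / 2 ≤ Δ`.
   Lower bounds: `α N = 1.5 n / g`; `2 n / g - 0.03 n / g`; `(2 n - 1) / g - 0.03 n / g` (`n ≥ 10`); for `v ∉ W`: `n / 2 ≥ 1.5 n / g` (`g ≥ 16`).
 * Last claim: suppose `#A, #Y > θ N`. `ee G0 A Y ≥ #A #Y - #A ≥ θ² N² - N ≥ (θ²/2) N²` (`N ≥ 2 / θ²`): all pairs `(a, y)` with `a ≠ y` are edges of `G0`.
   So `ee G' A Y ≥ ee R A Y ≥ (θ²/2) N² / (4 g) = θ² N² / (8 g) > lam0 N²`.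
-/

set_option autoImplicit false

namespace Pool.Agent.H71.HL

open Finset Classical
open Pool.Agent.H71.DN Pool.Agent.H71.DX

/-- the host graph of the reserve -/
private def r1r_G0 {V : Type} (W : Finset V) : SimpleGraph (V ⊕ (V × Bool)) where
  Adj x y := (∃ d e, x = Sum.inr d ∧ y = Sum.inr e ∧ d ≠ e) ∨
    (∃ v d, v ∈ W ∧ x = Sum.inl v ∧ y = Sum.inr d) ∨
    (∃ v d, v ∈ W ∧ x = Sum.inr d ∧ y = Sum.inl v)
  symm := by
    constructor
    intro x y h
    rcases h with ⟨d, e, h1, h2, h3⟩ | ⟨v, d, h1, h2, h3⟩ | ⟨v, d, h1, h2, h3⟩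
    · exact Or.inl ⟨e, d, h2, h1, h3.symm⟩
    · exact Or.inr (Or.inr ⟨v, d, h1, h3, h2⟩)
    · exact Or.inr (Or.inl ⟨v, d, h1, h3, h2⟩)
  loopless := by
    constructor
    intro x h
    rcases h with ⟨d, e, h1, h2, h3⟩ | ⟨v, d, h1, h2, h3⟩ | ⟨v, d, h1, h2, h3⟩
    · rw [h1] at h2
      exact h3 (Sum.inr_injective h2)
    · rw [h2] at h3
      cases h3
    · rw [h2] at h3
      cases h3

private theorem r1r_ll {V : Type} (W : Finset V) (a b : V) :
    ¬ (r1r_G0 W).Adj (Sum.inl a) (Sum.inl b) := by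
  intro h
  rcases h with ⟨d, e, h1, h2, h3⟩ | ⟨v, d, h1, h2, h3⟩ | ⟨v, d, h1, h2, h3⟩
  · cases h1
  · cases h3
  · cases h2

private theorem r1r_lr {V : Type} (W : Finset V) (a : V) (d : V × Bool) :
    (r1r_G0 W).Adj (Sum.inl a) (Sum.inr d) ↔ a ∈ W := by
  constructor
  · intro h
    rcases h with ⟨d, e, h1, h2, h3⟩ | ⟨v, d, h1, h2, h3⟩ | ⟨v, d, h1, h2, h3⟩
    · cases h1
    · rw [Sum.inl_injective h2]
      exact h1
    · cases h2
  · intro h
    exact Or.inr (Or.inl ⟨a, d, h, rfl, rfl⟩)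

private theorem r1r_rr {V : Type} (W : Finset V) (d e : V × Bool) :
    (r1r_G0 W).Adj (Sum.inr d) (Sum.inr e) ↔ d ≠ e := by
  constructor
  · intro h
    rcases h with ⟨d', e', h1, h2, h3⟩ | ⟨v, d', h1, h2, h3⟩ | ⟨v, d', h1, h2, h3⟩
    · rw [Sum.inr_injective h1, Sum.inr_injective h2]
      exact h3
    · cases h2
    · cases h3
  · intro h
    exact Or.inl ⟨d, e, rfl, rfl, h⟩

/-- the enlarged graph -/
private def r1r_G' {V : Type} (G : SimpleGraph V) (R : SimpleGraph (V ⊕ (V × Bool))) :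
    SimpleGraph (V ⊕ (V × Bool)) where
  Adj x y := (∃ a b, x = Sum.inl a ∧ y = Sum.inl b ∧ G.Adj a b) ∨ R.Adj x y
  symm := by
    constructor
    intro x y h
    rcases h with ⟨a, b, h1, h2, h3⟩ | h
    · exact Or.inl ⟨b, a, h2, h1, h3.symm⟩
    · exact Or.inr h.symm
  loopless := by
    constructor
    intro x h
    rcases h with ⟨a, b, h1, h2, h3⟩ | h
    · rw [h1] at h2
      rw [Sum.inl_injective h2] at h3
      exact G.loopless.irrefl _ h3
    · exact R.loopless.irrefl _ h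

private theorem r1r_Gll {V : Type} (W : Finset V) (G : SimpleGraph V)
    (R : SimpleGraph (V ⊕ (V × Bool))) (hR : R ≤ r1r_G0 W) (a b : V) :
    (r1r_G' G R).Adj (Sum.inl a) (Sum.inl b) ↔ G.Adj a b := by
  constructor
  · intro h
    rcases h with ⟨a', b', h1, h2, h3⟩ | h
    · rw [Sum.inl_injective h1, Sum.inl_injective h2]
      exact h3
    · exact absurd (hR h) (r1r_ll W a b)
  · intro h
    exact Or.inl ⟨a, b, rfl, rfl, h⟩

private theorem r1r_Glr {V : Type} (G : SimpleGraph V)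
    (R : SimpleGraph (V ⊕ (V × Bool))) (a : V) (d : V × Bool) :
    (r1r_G' G R).Adj (Sum.inl a) (Sum.inr d) ↔ R.Adj (Sum.inl a) (Sum.inr d) := by
  constructor
  · intro h
    rcases h with ⟨a', b', h1, h2, h3⟩ | h
    · cases h2
    · exact h
  · intro h
    exact Or.inr h

private theorem r1r_dgl {V : Type} [Fintype V] (W : Finset V) (G : SimpleGraph V)
    (R : SimpleGraph (V ⊕ (V × Bool))) (hR : R ≤ r1r_G0 W) (a : V) :
    dg (r1r_G' G R) (Sum.inl a) = dg G a + dg R (Sum.inl a) := by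
  have h1 : (univ.filter fun u => (r1r_G' G R).Adj (Sum.inl a) u) =
      ((univ.filter fun u => G.Adj a u).image (Sum.inl : V → V ⊕ (V × Bool))) ∪
        (univ.filter fun u => R.Adj (Sum.inl a) u) := by
    ext u
    rw [Finset.mem_union, Finset.mem_image, Finset.mem_filter, Finset.mem_filter]
    constructor
    · rintro ⟨_, ⟨a', b', h1, h2, h3⟩ | h⟩
      · left
        refine ⟨b', ?_, h2.symm⟩
        rw [Finset.mem_filter, Sum.inl_injective h1]
        exact ⟨Finset.mem_univ _, h3⟩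
      · right
        exact ⟨Finset.mem_univ _, h⟩
    · rintro (⟨b, hb, rfl⟩ | ⟨_, h⟩)
      · exact ⟨Finset.mem_univ _, Or.inl ⟨a, b, rfl, rfl, (Finset.mem_filter.1 hb).2⟩⟩
      · exact ⟨Finset.mem_univ _, Or.inr h⟩
  have h2 : Disjoint ((univ.filter fun u => G.Adj a u).image (Sum.inl : V → V ⊕ (V × Bool)))
      (univ.filter fun u => R.Adj (Sum.inl a) u) := by
    rw [Finset.disjoint_left]
    intro u hu hu'
    obtain ⟨b, _, rfl⟩ := Finset.mem_image.1 hu
    exact r1r_ll W a b (hR (Finset.mem_filter.1 hu').2)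
  unfold dg
  rw [h1, Finset.card_union_of_disjoint h2, Finset.card_image_of_injective _ Sum.inl_injective]

private theorem r1r_dgr {V : Type} [Fintype V] (G : SimpleGraph V)
    (R : SimpleGraph (V ⊕ (V × Bool))) (d : V × Bool) :
    dg (r1r_G' G R) (Sum.inr d) = dg R (Sum.inr d) := by
  unfold dg
  congr 1
  ext u
  rw [Finset.mem_filter, Finset.mem_filter]
  constructor
  · rintro ⟨_, ⟨a', b', h1, h2, h3⟩ | h⟩
    · cases h1
    · exact ⟨Finset.mem_univ _, h⟩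
  · rintro ⟨_, h⟩
    exact ⟨Finset.mem_univ _, Or.inr h⟩

private theorem r1r_dg0W {V : Type} [Fintype V] (W : Finset V) (a : V) (ha : a ∈ W) :
    dg (r1r_G0 W) (Sum.inl a) = 2 * Fintype.card V := by
  have h1 : (univ.filter fun u => (r1r_G0 W).Adj (Sum.inl a) u) =
      (univ : Finset (V × Bool)).image (Sum.inr : V × Bool → V ⊕ (V × Bool)) := by
    ext u
    rw [Finset.mem_filter, Finset.mem_image]
    constructor
    · rintro ⟨_, h⟩
      rcases u with b | d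
      · exact absurd h (r1r_ll W a b)
      · exact ⟨d, Finset.mem_univ _, rfl⟩
    · rintro ⟨d, _, rfl⟩
      exact ⟨Finset.mem_univ _, (r1r_lr W a d).2 ha⟩
  unfold dg
  rw [h1, Finset.card_image_of_injective _ Sum.inr_injective, Finset.card_univ,
    Fintype.card_prod, Fintype.card_bool, mul_comm]

private theorem r1r_dg0n {V : Type} [Fintype V] (W : Finset V)
    (R : SimpleGraph (V ⊕ (V × Bool))) (hR : R ≤ r1r_G0 W) (a : V) (ha : a ∉ W) :
    dg R (Sum.inl a) = 0 := by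
  unfold dg
  rw [Finset.card_eq_zero]
  apply Finset.eq_empty_of_forall_notMem
  intro u hu
  have h := hR (Finset.mem_filter.1 hu).2
  rcases u with b | d
  · exact r1r_ll W a b h
  · exact ha ((r1r_lr W a d).1 h)

private theorem r1r_dg0r {V : Type} [Fintype V] (W : Finset V) (d : V × Bool) :
    2 * Fintype.card V ≤ dg (r1r_G0 W) (Sum.inr d) + 1 ∧
      dg (r1r_G0 W) (Sum.inr d) ≤ 3 * Fintype.card V := by
  constructor
  · have h1 : ((univ : Finset (V × Bool)).erase d).image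
        (Sum.inr : V × Bool → V ⊕ (V × Bool)) ⊆
        (univ.filter fun u => (r1r_G0 W).Adj (Sum.inr d) u) := by
      intro u hu
      obtain ⟨e, he, rfl⟩ := Finset.mem_image.1 hu
      rw [Finset.mem_filter]
      exact ⟨Finset.mem_univ _, (r1r_rr W d e).2 (Finset.ne_of_mem_erase he).symm⟩
    have h2 := Finset.card_le_card h1
    rw [Finset.card_image_of_injective _ Sum.inr_injective,
      Finset.card_erase_of_mem (Finset.mem_univ _), Finset.card_univ, Fintype.card_prod,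
      Fintype.card_bool] at h2
    unfold dg
    omega
  · have h2 : dg (r1r_G0 W) (Sum.inr d) ≤ Fintype.card (V ⊕ (V × Bool)) := by
      unfold dg
      exact Finset.card_le_univ _
    rw [Fintype.card_sum, Fintype.card_prod, Fintype.card_bool] at h2
    omega

private theorem r1r_ee0 {V : Type} [Fintype V] (W : Finset V)
    (A Y : Finset (V ⊕ (V × Bool))) (hA : ∀ a ∈ A, ∃ d, a = Sum.inr d)
    (hY : ∀ y ∈ Y, (∃ d, y = Sum.inr d) ∨ ∃ w ∈ W, y = Sum.inl w) :
    A.card * Y.card ≤ ee (r1r_G0 W) A Y + A.card := by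
  have h1 : (A ×ˢ Y) ⊆ ((A ×ˢ Y).filter fun x => (r1r_G0 W).Adj x.1 x.2) ∪
      A.image (fun a => (a, a)) := by
    intro x hx
    rw [Finset.mem_union, Finset.mem_filter, Finset.mem_image]
    obtain ⟨hx1, hx2⟩ := Finset.mem_product.1 hx
    by_cases h : x.1 = x.2
    · right
      exact ⟨x.1, hx1, Prod.ext rfl h⟩
    · left
      refine ⟨hx, ?_⟩
      obtain ⟨d, hd⟩ := hA _ hx1
      rcases hY _ hx2 with ⟨e, he⟩ | ⟨w, hw, he⟩
      · rw [hd, he]
        refine (r1r_rr W d e).2 (fun hde => h ?_)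
        rw [hd, he, hde]
      · rw [hd, he]
        exact ((r1r_lr W w d).2 hw).symm
  have h2 := (Finset.card_le_card h1).trans (Finset.card_union_le _ _)
  have h3 : (A.image (fun a => (a, a))).card ≤ A.card := Finset.card_image_le
  rw [Finset.card_product] at h2
  unfold ee
  omega

private theorem r1r_eeG {V : Type} [Fintype V] (G : SimpleGraph V)
    (R : SimpleGraph (V ⊕ (V × Bool))) (A Y : Finset (V ⊕ (V × Bool))) :
    ee R A Y ≤ ee (r1r_G' G R) A Y := by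
  unfold ee
  apply Finset.card_le_card
  intro x hx
  rw [Finset.mem_filter] at hx ⊢
  exact ⟨hx.1, Or.inr hx.2⟩

theorem r1r (δ : ℝ) (hδ : 0 < δ) (hδ1 : δ ≤ 1 / 2) :
    ∃ α : ℝ, 0 < α ∧ α ≤ 1 / 2 ∧ ∀ θ : ℝ, 0 < θ → θ ≤ 1 → ∃ (lam0 : ℝ) (n0 : ℕ), 0 < lam0 ∧
      ∀ (V : Type) [Fintype V] (G : SimpleGraph V) (Δ : ℕ) (W : Finset V),
        n0 ≤ Fintype.card V → (∀ v, dg G v ≤ Δ) → (1 / 2 : ℝ) * Fintype.card V ≤ Δ →
        (∀ v ∈ W, (dg G v : ℝ) + δ * Fintype.card V ≤ Δ) →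
        (∀ v, v ∉ W → (1 / 2 : ℝ) * Fintype.card V ≤ dg G v) →
        ∃ G' : SimpleGraph (V ⊕ (V × Bool)),
          (∀ a b, G'.Adj (Sum.inl a) (Sum.inl b) ↔ G.Adj a b) ∧
          (∀ v, v ∉ W → ∀ d, ¬ G'.Adj (Sum.inl v) (Sum.inr d)) ∧
          (∀ x, dg G' x ≤ Δ) ∧
          (∀ x, α * Fintype.card (V ⊕ (V × Bool)) ≤ (dg G' x : ℝ)) ∧
          ∀ A Y : Finset (V ⊕ (V × Bool)), (∀ a ∈ A, ∃ d, a = Sum.inr d) →
            (∀ y ∈ Y, (∃ d, y = Sum.inr d) ∨ ∃ w ∈ W, y = Sum.inl w) →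
            (ee G' A Y : ℝ) ≤ lam0 * (Fintype.card (V ⊕ (V × Bool)) : ℝ) ^ 2 →
            (A.card : ℝ) ≤ θ * Fintype.card (V ⊕ (V × Bool)) ∨
              (Y.card : ℝ) ≤ θ * Fintype.card (V ⊕ (V × Bool)) := by
  set g : ℕ := ⌈8 / δ⌉₊ with hg
  have hgδ : 8 / δ ≤ (g : ℝ) := Nat.le_ceil _
  have hg16 : (16 : ℝ) ≤ g := by
    refine le_trans ?_ hgδ
    rw [le_div_iff₀ hδ]
    linarith
  have hg0 : (0 : ℝ) < g := by linarith
  have hg1 : 1 ≤ g := by
    have : (1 : ℝ) ≤ g := by linarith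
    exact_mod_cast this
  have hgi : 1 / (g : ℝ) ≤ δ / 8 := by
    rw [div_le_iff₀ hg0]
    rw [div_le_iff₀ hδ] at hgδ
    linarith
  have hgi0 : 0 < 1 / (g : ℝ) := by positivity
  refine ⟨1 / 2 * (1 / (g : ℝ)), by positivity, by linarith, ?_⟩
  intro θ hθ hθ1
  obtain ⟨n1, hn1⟩ := reserve g hg1 (1 / 100 * (1 / (g : ℝ))) (θ ^ 2 / 2) (by positivity)
    (by linarith) (by positivity)
  refine ⟨θ ^ 2 / 16 * (1 / (g : ℝ)), n1 + ⌈2 / θ ^ 2⌉₊ + 10, by positivity, ?_⟩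
  intro V _ G Δ W hn hΔ hhalf hW hnW
  have hcard : Fintype.card (V ⊕ (V × Bool)) = 3 * Fintype.card V := by
    rw [Fintype.card_sum, Fintype.card_prod, Fintype.card_bool]
    ring
  have hcR : (Fintype.card (V ⊕ (V × Bool)) : ℝ) = 3 * (Fintype.card V : ℝ) := by
    rw [hcard]
    push_cast
    ring
  obtain ⟨R, hR, hRd, hRe⟩ := hn1 (V ⊕ (V × Bool)) (r1r_G0 W) (by rw [hcard]; omega)
  have hn10 : (10 : ℝ) ≤ Fintype.card V := by
    have : 10 ≤ Fintype.card V := by omega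
    exact_mod_cast this
  have hnθ : 2 / θ ^ 2 ≤ (Fintype.card V : ℝ) := by
    refine (Nat.le_ceil _).trans ?_
    have : ⌈2 / θ ^ 2⌉₊ ≤ Fintype.card V := by omega
    exact_mod_cast this
  rw [hcR] at hRd
  have hRd' : ∀ x, |(dg R x : ℝ) - (dg (r1r_G0 W) x : ℝ) * (1 / (g : ℝ))| ≤
      1 / 100 * (1 / (g : ℝ)) * (3 * (Fintype.card V : ℝ)) := by
    intro x
    have h := hRd x
    rw [div_eq_mul_one_div (dg (r1r_G0 W) x : ℝ) (g : ℝ)] at h
    exact h
  refine ⟨r1r_G' G R, fun a b => r1r_Gll W G R hR a b, ?_, ?_, ?_, ?_⟩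
  · intro v hv d h
    exact hv ((r1r_lr W v d).1 (hR ((r1r_Glr G R v d).1 h)))
  · intro x
    rcases x with v | d
    · rw [r1r_dgl W G R hR v]
      by_cases hv : v ∈ W
      · have h1 := abs_le.1 (hRd' (Sum.inl v))
        rw [r1r_dg0W W v hv] at h1
        push_cast at h1
        have h2 := hW v hv
        have h3 : (dg G v : ℝ) + (dg R (Sum.inl v) : ℝ) ≤ Δ := by
          have h4 : 1 / (g : ℝ) * (Fintype.card V : ℝ) ≤ δ / 8 * Fintype.card V :=
            mul_le_mul_of_nonneg_right hgi (by linarith)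
          have h5 : 0 ≤ δ * (Fintype.card V : ℝ) := by positivity
          nlinarith [h1.2]
        exact_mod_cast h3
      · rw [r1r_dg0n W R hR v hv]
        exact hΔ v
    · rw [r1r_dgr]
      have h1 := abs_le.1 (hRd' (Sum.inr d))
      have h2 := (r1r_dg0r W d).2
      have h2' : (dg (r1r_G0 W) (Sum.inr d) : ℝ) ≤ 3 * (Fintype.card V : ℝ) := by
        exact_mod_cast h2
      have h3 : (dg R (Sum.inr d) : ℝ) ≤ Δ := by
        have h4 : 1 / (g : ℝ) * (Fintype.card V : ℝ) ≤ 1 / 16 * Fintype.card V :=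
          mul_le_mul_of_nonneg_right (by linarith) (by linarith)
        have h5 : (dg (r1r_G0 W) (Sum.inr d) : ℝ) * (1 / (g : ℝ)) ≤
            3 * (Fintype.card V : ℝ) * (1 / (g : ℝ)) :=
          mul_le_mul_of_nonneg_right h2' hgi0.le
        nlinarith [h1.2]
      exact_mod_cast h3
  · intro x
    rw [hcR]
    rcases x with v | d
    · rw [r1r_dgl W G R hR v]
      push_cast
      by_cases hv : v ∈ W
      · have h1 := abs_le.1 (hRd' (Sum.inl v))
        rw [r1r_dg0W W v hv] at h1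
        push_cast at h1
        have h4 : 0 ≤ 1 / (g : ℝ) * (Fintype.card V : ℝ) := by positivity
        have h5 : (0 : ℝ) ≤ dg G v := Nat.cast_nonneg _
        nlinarith [h1.1]
      · have h2 := hnW v hv
        have h4 : 1 / (g : ℝ) * (Fintype.card V : ℝ) ≤ 1 / 16 * Fintype.card V :=
          mul_le_mul_of_nonneg_right (by linarith) (by linarith)
        have h5 : (0 : ℝ) ≤ dg R (Sum.inl v) := Nat.cast_nonneg _
        nlinarith
    · rw [r1r_dgr]
      have h1 := abs_le.1 (hRd' (Sum.inr d))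
      have h2 := (r1r_dg0r W d).1
      have h2' : 2 * (Fintype.card V : ℝ) ≤ (dg (r1r_G0 W) (Sum.inr d) : ℝ) + 1 := by
        exact_mod_cast h2
      have h5 : (2 * (Fintype.card V : ℝ) - 1) * (1 / (g : ℝ)) ≤
          (dg (r1r_G0 W) (Sum.inr d) : ℝ) * (1 / (g : ℝ)) :=
        mul_le_mul_of_nonneg_right (by linarith) hgi0.le
      have h6 : 10 * (1 / (g : ℝ)) ≤ (Fintype.card V : ℝ) * (1 / (g : ℝ)) :=
        mul_le_mul_of_nonneg_right hn10 hgi0.le
      nlinarith [h1.1]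
  · intro A Y hA hY hee
    by_contra hcon
    push Not at hcon
    obtain ⟨hA', hY'⟩ := hcon
    set N : ℝ := (Fintype.card (V ⊕ (V × Bool)) : ℝ) with hN
    have hN0 : 0 < N := by rw [hcR]; linarith
    have hNθ : 2 ≤ θ ^ 2 * N := by
      have h1 : 2 / θ ^ 2 ≤ N := by rw [hcR]; linarith
      rw [div_le_iff₀ (by positivity)] at h1
      linarith
    have h0 := r1r_ee0 W A Y hA hY
    have h0' : (A.card : ℝ) * (Y.card : ℝ) ≤ (ee (r1r_G0 W) A Y : ℝ) + A.card := by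
      exact_mod_cast h0
    have hAN : (A.card : ℝ) ≤ N := by
      rw [hN]
      exact_mod_cast Finset.card_le_univ A
    have hAY : (θ * N) * (θ * N) ≤ (A.card : ℝ) * (Y.card : ℝ) :=
      mul_le_mul hA'.le hY'.le (by positivity) (Nat.cast_nonneg _)
    have h1 : θ ^ 2 / 2 * N ^ 2 ≤ (ee (r1r_G0 W) A Y : ℝ) := by
      have h2 : 2 * N ≤ θ ^ 2 * N * N := mul_le_mul_of_nonneg_right hNθ hN0.le
      nlinarith
    have h2 := hRe A Y h1
    have h3 : (ee R A Y : ℝ) ≤ (ee (r1r_G' G R) A Y : ℝ) := by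
      exact_mod_cast r1r_eeG G R A Y
    have h4 : θ ^ 2 / 2 * N ^ 2 ≤ 4 * g * (ee (r1r_G' G R) A Y : ℝ) := by
      refine (h1.trans h2).trans ?_
      exact mul_le_mul_of_nonneg_left h3 (by positivity)
    have h5 : 4 * (g : ℝ) * (ee (r1r_G' G R) A Y : ℝ) ≤
        4 * g * (θ ^ 2 / 16 * (1 / (g : ℝ)) * N ^ 2) :=
      mul_le_mul_of_nonneg_left hee (by positivity)
    have h6 : 4 * (g : ℝ) * (θ ^ 2 / 16 * (1 / (g : ℝ)) * N ^ 2) = θ ^ 2 / 4 * N ^ 2 := by
      field_simp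
      ring
    rw [h6] at h5
    have h7 : 0 < θ ^ 2 * N ^ 2 := by positivity
    linarith

end Pool.Agent.H71.HL
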