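import Mathlib
import Pool.Agent.H71.HL.Defs
import Pool.Agent.H71.DX.Mtc

/-!
MT2: an almost perfect matching of the complement of a nearly regular graph on the vertices outside `Out`.

Proof (compare the part the matching of the complement of `DR/Cs2.lean`, proved).  `n := card V`, `G1 := G.comap Subtype.val` on `{v // v ∉ Out}`,
`n1 := card {v // v ∉ Out} = #(univ \ Out)`, `dg G1 v = dgi G (univ \ Out) v ≤ dg G v ≤ Δ`. `a := n1 - (Δ + 1)`, `s := ⌊c ε1 / 200 * n⌋₊`: `a ≥ ε1 Δ - 1 ≥ (ε1/3) n` for large `n`.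
By `dgc` the degrees in `G1ᶜ` are between `a` and `a + s`. `mtch G1ᶜ a (a + s)` gives `π` with `n1 a ≤ (a + s + 1) M`, `M := #{v : π v ≠ v} ≤ n1`. So
`(a + s + 1) (n1 - M) ≤ (s + 1) n1` and `n1 - M ≤ (s + 1) n / a ≤ (c ε1 / 200 * n + 1) * 3 / ε1 = (3 c / 200) n + 3 / ε1 ≤ (c/16) n` for large `n`. `M0 := M / 2`, `n1 - 2 M0 ≤ n1 - M + 1 ≤ (c/8) n`.
-/

set_option autoImplicit false

namespace Pool.Agent.H71.HL

open Finset Classical
open Pool.Agent.H71.DN Pool.Agent.H71.DX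

theorem mt2 (ε1 c : ℝ) (hε1 : 0 < ε1) (hε1' : ε1 ≤ 1) (hc : 0 < c) (hc1 : c ≤ 1) :
    ∃ n0 : ℕ, ∀ (V : Type) [Fintype V] (G : SimpleGraph V) (Δ : ℕ) (Out : Finset V),
      n0 ≤ Fintype.card V → (1 / 2 : ℝ) * Fintype.card V ≤ Δ → (∀ v, dg G v ≤ Δ) →
      (∀ v, v ∉ Out →
        (Δ : ℝ) ≤ dgi G (univ \ Out) v + c * ε1 / 200 * Fintype.card V) →
      (1 + ε1) * (Δ : ℝ) ≤ ((univ \ Out).card : ℝ) →
      ∃ (π : {v // v ∉ Out} → {v // v ∉ Out}) (M0 : ℕ), Inv π ∧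
        (∀ v, π v ≠ v → ¬ G.Adj v.1 (π v).1) ∧
        2 * M0 ≤ (univ.filter fun v => π v ≠ v).card ∧
        ((Fintype.card {v // v ∉ Out} : ℕ) : ℝ) - 2 * M0 ≤ c / 8 * Fintype.card V := by
  refine ⟨⌈40 / (c * ε1)⌉₊, ?_⟩
  intro V _ G Δ Out hn0 hΔ1 hdΔ hOut hcard
  obtain ⟨n, hn⟩ : ∃ n : ℝ, n = Fintype.card V := ⟨_, rfl⟩
  rw [← hn] at hΔ1
  have hce : 0 < c * ε1 := by positivity
  have hn1' : 40 / (c * ε1) ≤ n := by
    rw [hn]
    refine (Nat.le_ceil _).trans ?_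
    exact_mod_cast hn0
  have hnpos : 0 < n := lt_of_lt_of_le (by positivity) hn1'
  have hn40 : 40 ≤ c * (ε1 * n) := by
    rw [div_le_iff₀ hce] at hn1'
    linarith
  have hen : 40 ≤ ε1 * n := by
    have h1 : c * (ε1 * n) ≤ 1 * (ε1 * n) := mul_le_mul_of_nonneg_right hc1 (by positivity)
    linarith
  obtain ⟨n1, hn1⟩ : ∃ n1, n1 = Fintype.card {v // v ∉ Out} := ⟨_, rfl⟩
  have hn1c : (univ \ Out).card = n1 := by
    rw [hn1, Fintype.card_subtype]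
    apply congrArg
    ext v
    simp
  rw [hn1c] at hcard
  have hn1n : (n1 : ℝ) ≤ n := by
    rw [hn, ← hn1c]
    exact_mod_cast Finset.card_le_univ _
  obtain ⟨G1, hG1⟩ : ∃ G1, G1 = G.comap (fun v : {v // v ∉ Out} => v.1) := ⟨_, rfl⟩
  have hdg1 : ∀ v, dg G1 v ≤ dg G v.1 := by
    intro v
    rw [hG1]
    exact (dgs G Out v).1
  have hdg2 : ∀ v, dgi G (univ \ Out) v.1 ≤ dg G1 v := by
    intro v
    rw [hG1]
    unfold dgi dg
    have h1 : (univ \ Out).filter (fun u => G.Adj v.1 u) ⊆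
        ((univ : Finset {v // v ∉ Out}).filter fun u =>
          (G.comap (fun v : {v // v ∉ Out} => v.1)).Adj v u).image
            (fun u : {v // v ∉ Out} => u.1) := by
      intro u hu
      obtain ⟨h2, h3⟩ := mem_filter.1 hu
      have hL : u ∉ Out := (mem_sdiff.1 h2).2
      exact mem_image.2 ⟨⟨u, hL⟩, mem_filter.2 ⟨mem_univ _, h3⟩, rfl⟩
    exact (Finset.card_le_card h1).trans Finset.card_image_le
  obtain ⟨s, hs⟩ : ∃ s : ℕ, s = ⌊c * ε1 / 200 * n⌋₊ := ⟨_, rfl⟩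
  have hs1 : (s : ℝ) ≤ c * ε1 / 200 * n := by rw [hs]; exact Nat.floor_le (by positivity)
  have hs2 : ∀ v : {v // v ∉ Out}, Δ ≤ dgi G (univ \ Out) v.1 + s := by
    intro v
    have h1 := hOut v.1 v.2
    rw [← hn] at h1
    have h3 : Δ - dgi G (univ \ Out) v.1 ≤ s := by
      rw [hs]
      apply Nat.le_floor
      rw [Nat.cast_sub ((hdg2 v).trans ((hdg1 v).trans (hdΔ _)))]
      linarith
    omega
  have hΔe : ε1 * (1 / 2 * n) ≤ ε1 * Δ := mul_le_mul_of_nonneg_left hΔ1 hε1.le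
  have hΔn1 : Δ + 1 ≤ n1 := by
    have h1 : ((Δ + 1 : ℕ) : ℝ) ≤ n1 := by
      push_cast
      linarith
    exact_mod_cast h1
  obtain ⟨a, ha⟩ : ∃ a, a + 1 + Δ = n1 := ⟨n1 - (Δ + 1), by omega⟩
  obtain ⟨π, hπ1, hπ2, hπ3⟩ := mtch G1ᶜ a (a + s) (fun v => by
      have h1 := dgc G1 v
      have h2 := hdg1 v
      have h3 := hdΔ v.1
      omega) (fun v => by
      have h1 := dgc G1 v
      have h2 := hdg2 v
      have h3 := hs2 v
      omega)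
  rw [← hn1] at hπ3
  obtain ⟨M, hM1, hM⟩ : ∃ M, n1 * a ≤ (a + s + 1) * M ∧
      M ≤ (univ.filter fun v => π v ≠ v).card := ⟨_, hπ3, card_le_card (by
    intro v hv
    simp only [mem_filter, mem_univ, true_and] at hv ⊢
    exact hv)⟩
  have hMn : M ≤ n1 := hM.trans (by rw [hn1]; exact card_le_univ _)
  have haR : (a : ℝ) + 1 + Δ = n1 := by exact_mod_cast ha
  have ha2 : ε1 * n / 3 ≤ a := by linarith
  have hMR : n1 - M ≤ 3 / ε1 * (s + 1) := by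
    have h1 : (n1 : ℝ) * a ≤ (a + s + 1) * M := by exact_mod_cast hM1
    have hMn' : (M : ℝ) ≤ n1 := by exact_mod_cast hMn
    have hM0 : (0 : ℝ) ≤ M := Nat.cast_nonneg _
    have h2 : a * ((n1 : ℝ) - M) ≤ (s + 1) * M := by linarith
    have h3 : ((s : ℝ) + 1) * M ≤ (s + 1) * n :=
      mul_le_mul_of_nonneg_left (by linarith) (by positivity)
    have h4 : (ε1 * n / 3) * ((n1 : ℝ) - M) ≤ a * ((n1 : ℝ) - M) :=
      mul_le_mul_of_nonneg_right ha2 (by linarith)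
    have h5 : n * (ε1 / 3 * ((n1 : ℝ) - M)) ≤ n * (s + 1) := by linarith
    have h6 : ε1 / 3 * ((n1 : ℝ) - M) ≤ s + 1 := le_of_mul_le_mul_left h5 hnpos
    have h7 : 3 / ε1 * (ε1 / 3 * ((n1 : ℝ) - M)) ≤ 3 / ε1 * (s + 1) :=
      mul_le_mul_of_nonneg_left h6 (by positivity)
    have h8 : 3 / ε1 * (ε1 / 3 * ((n1 : ℝ) - M)) = n1 - M := by
      field_simp
    linarith
  have hMR2 : 3 / ε1 * ((s : ℝ) + 1) ≤ 3 * c / 200 * n + 3 / ε1 := by
    have h1 : 3 / ε1 * ((s : ℝ) + 1) ≤ 3 / ε1 * (c * ε1 / 200 * n + 1) :=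
      mul_le_mul_of_nonneg_left (by linarith) (by positivity)
    have h2 : 3 / ε1 * (c * ε1 / 200 * n + 1) = 3 * c / 200 * n + 3 / ε1 := by
      field_simp
    linarith
  have hcn : 40 / ε1 ≤ c * n := by
    rw [div_le_iff₀ hε1]
    linarith
  have he1 : 1 ≤ 1 / ε1 := by
    rw [le_div_iff₀ hε1]
    linarith
  have h3e : 3 / ε1 = 3 * (1 / ε1) := by ring
  have h40e : 40 / ε1 = 40 * (1 / ε1) := by ring
  obtain ⟨M0, hM0⟩ : ∃ M0, M0 = M / 2 := ⟨_, rfl⟩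
  have hM0a : 2 * M0 ≤ M := by omega
  have hM0b : M ≤ 2 * M0 + 1 := by omega
  have hM0R : (M : ℝ) ≤ 2 * M0 + 1 := by exact_mod_cast hM0b
  refine ⟨π, M0, hπ1, ?_, ?_, ?_⟩
  · intro v hv
    have h1 := (hπ2 v hv).2
    rw [hG1] at h1
    exact h1
  · exact hM0a.trans hM
  · rw [← hn, ← hn1]
    linarith

end Pool.Agent.H71.HL
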