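import Mathlib
import Pool.Agent.H71.HL.Defs

/-!
BDQ: the number of boundaries of `B`; sizes of windows.

`bdq`.  Let `j < L` with `¬ (j ∈ B ↔ j + 1 ∈ B)`. Either `j + 1 = L` (one `j`), or `j + 1 < L` and the sets `{x ∈ Lo : j < y x}`,
`{x ∈ Lo : j + 1 < y x}` have numbers of elements of different parity, so they are different: there is `x ∈ Lo` with `y x = j + 1`;
since `j + 1 < L`, `q0 ∣ j + 1`. There are at most `L / q0` numbers `j < L` with `q0 ∣ j + 1` (`j + 1 = q0 i`, `1 ≤ i ≤ L / q0`).

`wsz`: the window of `ℓ` consists of the vertices with labels in `[ℓ + 1 - p, ℓ + p - 1]`: at most `2 p - 1` labels, each used at most `a` times.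
-/

set_option autoImplicit false

namespace Pool.Agent.H71.HL

open Finset Classical
open Pool.Agent.H71.DN Pool.Agent.H71.DX

theorem bdq {V : Type} (Lo : Finset V) (y : V → ℕ) (q0 L n1 : ℕ) (hq0 : 1 ≤ q0)
    (hy : ∀ x ∈ Lo, y x = L ∨ q0 ∣ y x) (B : Finset ℕ)
    (hB : ∀ ℓ, ℓ ∈ B ↔ ℓ < L ∧ ¬ Even (n1 + (Lo.filter fun x => ℓ < y x).card)) :
    ((range L).filter fun j => ¬ (j ∈ B ↔ j + 1 ∈ B)).card ≤ L / q0 + 2 := by
  have hsub : ((range L).filter fun j => ¬ (j ∈ B ↔ j + 1 ∈ B)) ⊆
      insert (L - 1) ((Finset.Icc 1 (L / q0)).image fun i => q0 * i - 1) := by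
    intro j hj
    rw [mem_filter, mem_range] at hj
    obtain ⟨hjL, hj⟩ := hj
    rw [mem_insert]
    by_cases h1 : j + 1 < L
    · right
      have h2 : ∃ x ∈ Lo, j < y x ∧ ¬ (j + 1 < y x) := by
        by_contra hc
        push Not at hc
        apply hj
        have h3 : (Lo.filter fun x => j < y x) = (Lo.filter fun x => j + 1 < y x) := by
          ext x
          rw [mem_filter, mem_filter]
          constructor
          · rintro ⟨hx, hxy⟩
            exact ⟨hx, hc x hx hxy⟩
          · rintro ⟨hx, hxy⟩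
            exact ⟨hx, by omega⟩
        rw [hB, hB, h3]
        constructor
        · rintro ⟨_, h⟩
          exact ⟨h1, h⟩
        · rintro ⟨_, h⟩
          exact ⟨hjL, h⟩
      obtain ⟨x, hx, hx1, hx2⟩ := h2
      have h4 : y x = j + 1 := by omega
      rcases hy x hx with h5 | h5
      · omega
      · rw [h4] at h5
        obtain ⟨i, hi⟩ := h5
        rw [mem_image]
        refine ⟨i, ?_, by omega⟩
        rw [Finset.mem_Icc]
        constructor
        · rcases Nat.eq_zero_or_pos i with h6 | h6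
          · subst h6
            simp at hi
          · exact h6
        · rw [Nat.le_div_iff_mul_le (by omega), mul_comm]
          omega
    · left
      omega
  have h1 := card_le_card hsub
  have h2 := card_insert_le (L - 1) ((Finset.Icc 1 (L / q0)).image fun i => q0 * i - 1)
  have h3 : ((Finset.Icc 1 (L / q0)).image fun i => q0 * i - 1).card ≤ (Finset.Icc 1 (L / q0)).card :=
    card_image_le
  rw [Nat.card_Icc] at h3
  generalize L / q0 = K at h1 h2 h3 ⊢
  omega

theorem wsz {V : Type} (S : Finset V) (c : V → ℕ) (p a ℓ : ℕ) (hp : 1 ≤ p)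
    (ha : ∀ i, (S.filter fun v => c v = i).card ≤ a) :
    (S.filter fun v => c v < ℓ + p ∧ ℓ < c v + p).card ≤ (2 * p - 1) * a := by
  have hsub : (S.filter fun v => c v < ℓ + p ∧ ℓ < c v + p) ⊆
      (Finset.Ico (ℓ + 1 - p) (ℓ + p)).biUnion fun i => S.filter fun v => c v = i := by
    intro v hv
    rw [mem_filter] at hv
    rw [mem_biUnion]
    refine ⟨c v, ?_, ?_⟩
    · rw [Finset.mem_Ico]
      omega
    · rw [mem_filter]
      exact ⟨hv.1, rfl⟩
  have h1 := card_le_card hsub
  have h2 : ((Finset.Ico (ℓ + 1 - p) (ℓ + p)).biUnion fun i => S.filter fun v => c v = i).card ≤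
      (Finset.Ico (ℓ + 1 - p) (ℓ + p)).card * a :=
    card_biUnion_le_card_mul _ _ _ fun i _ => ha i
  rw [Nat.card_Ico] at h2
  refine (h1.trans h2).trans (Nat.mul_le_mul_right a ?_)
  omega

end Pool.Agent.H71.HL
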