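import Mathlib
import Pool.Agent.H71.HL.Defs
import Pool.Agent.H71.DX.Glu

/-!
GL3: glue the matchings `mm1 ℓ` of the core theorem (on the vertices outside `Out`) with matchings `τ ℓ` all of whose
edges meet `Out`. `Wn c p ℓ = {v : c v < ℓ + p ∧ ℓ < c v + p}` (`DX/GluA.lean`).

Proof.  `mm ℓ v := if τ ℓ v ≠ v then τ ℓ v else if h : v ∈ Out then v else (mm1 ℓ ⟨v, h⟩).1`; use `final2` (`DX/Fn2.lean`).
Write `U ℓ` for the forbidden sets in `hm`.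
 * `hinv`: if `τ ℓ v ≠ v` then `τ ℓ (τ ℓ v) = v ≠ τ ℓ v`. Otherwise, `v ∉ Out`, `w := mm1 ℓ v ≠ v`: `w ∉ U ℓ` (elements of `U ℓ` are fixed by
   `mm1 ℓ`), so `τ ℓ w = w` and `mm ℓ w = mm1 ℓ w = v`.
 * `hadj`: clear.
 * `hdis`: two `τ`'s: `hτ.dis`; two `mm1`'s: `hm.pm.dis`; `τ ℓ v ≠ v` and `v ∉ Out`, `τ ℓ v = (mm1 ℓ' v).1` is impossible since `τ ℓ v ∈ Out` by
   `hτ2` (and the symmetric case).
 * `hfix`: `v ∈ Wn c p ℓ`: `τ ℓ v = v` by `hτ.fix`, and `v ∈ U ℓ` if `v ∉ Out`.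
 * `hd`: `v ∈ Out`: `mm ℓ v = v ↔ τ ℓ v = v`: `hout`. `v ∉ Out`: the labels `ℓ < L` with `mm ℓ v = v` have `v ∈ Wn c p ℓ` (at most `2 p - 1`; see
   `Glu_cnt` and the lemma before it in `DX/Glu.lean`), or `v ∉ U ℓ` and `mm1 ℓ v = v` (at most one by `Cnc.one`): at most `2 p`.
 * `hind`: the equality excludes `a ∈ Out` (`hout`), so `a, b ∉ Out`; and since `dg G a ≤ Δ` there is `ℓ < L` with `a ∉ U ℓ`, `mm1 ℓ a = a` (the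
   same for `b`). `Cnc.ind` gives `ℓ < L` with `mm1 ℓ a = b ≠ a`; then `a ∉ U ℓ`, `τ ℓ a = a` and `mm ℓ a = b`.
-/

set_option autoImplicit false

namespace Pool.Agent.H71.HL

open Finset Classical
open Pool.Agent.H71.DN Pool.Agent.H71.DX

/-- The glued matchings. -/
noncomputable def Gl3_m {V : Type} (Out : Finset V) (τ : ℕ → V → V)
    (mm1 : ℕ → {v // v ∉ Out} → {v // v ∉ Out}) (ℓ : ℕ) (v : V) : V :=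
  if τ ℓ v ≠ v then τ ℓ v else (if h : v ∈ Out then v else (mm1 ℓ ⟨v, h⟩).1)

section
variable {V : Type} {Out : Finset V} {τ : ℕ → V → V}
  {mm1 : ℕ → {v // v ∉ Out} → {v // v ∉ Out}}

theorem Gl3_e1 {ℓ : ℕ} {v : V} (h : τ ℓ v ≠ v) : Gl3_m Out τ mm1 ℓ v = τ ℓ v := by
  unfold Gl3_m
  rw [if_pos h]

theorem Gl3_e2 {ℓ : ℕ} {v : V} (h : τ ℓ v = v) (h1 : v ∈ Out) : Gl3_m Out τ mm1 ℓ v = v := by
  unfold Gl3_m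
  rw [if_neg (not_not.2 h), dif_pos h1]

theorem Gl3_e3 {ℓ : ℕ} {v : V} (h : τ ℓ v = v) (h1 : v ∉ Out) :
    Gl3_m Out τ mm1 ℓ v = (mm1 ℓ ⟨v, h1⟩).1 := by
  unfold Gl3_m
  rw [if_neg (not_not.2 h), dif_neg h1]

theorem Gl3_out {ℓ : ℕ} {v : V} (h1 : v ∈ Out) : Gl3_m Out τ mm1 ℓ v = τ ℓ v := by
  by_cases h : τ ℓ v = v
  · rw [Gl3_e2 h h1, h]
  · exact Gl3_e1 h

variable [Fintype V] {G : SimpleGraph V} {c : V → ℕ} {p L : ℕ}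
  {U : ℕ → Finset {v // v ∉ Out}}

/-- a vertex moved by `mm1` is not moved by `τ` -/
theorem Gl3_fr (hU : ∀ ℓ (v : {v // v ∉ Out}), v ∈ U ℓ ↔ v.1 ∈ Wn c p ℓ ∨ τ ℓ v.1 ≠ v.1)
    (hpm : PM (G.comap (fun v : {v // v ∉ Out} => v.1)) L U mm1)
    {ℓ : ℕ} (hℓ : ℓ < L) {v : {v // v ∉ Out}} (h1 : mm1 ℓ v ≠ v) : τ ℓ v.1 = v.1 := by
  by_contra h2
  exact h1 (hpm.fix ℓ hℓ v ((hU ℓ v).2 (Or.inr h2)))

theorem Gl3_inv (hU : ∀ ℓ (v : {v // v ∉ Out}), v ∈ U ℓ ↔ v.1 ∈ Wn c p ℓ ∨ τ ℓ v.1 ≠ v.1)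
    (hpm : PM (G.comap (fun v : {v // v ∉ Out} => v.1)) L U mm1)
    (hτ : PM G L (Wn c p) τ)
    {ℓ : ℕ} (hℓ : ℓ < L) (v : V) : Gl3_m Out τ mm1 ℓ (Gl3_m Out τ mm1 ℓ v) = v := by
  by_cases h : τ ℓ v = v
  · by_cases h1 : v ∈ Out
    · rw [Gl3_e2 h h1, Gl3_e2 h h1]
    · rw [Gl3_e3 h h1]
      have h4 : mm1 ℓ (mm1 ℓ ⟨v, h1⟩) = ⟨v, h1⟩ := hpm.inv ℓ hℓ _
      by_cases h2 : mm1 ℓ ⟨v, h1⟩ = ⟨v, h1⟩
      · rw [h2]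
        show Gl3_m Out τ mm1 ℓ v = v
        rw [Gl3_e3 h h1, h2]
      · have h3 : mm1 ℓ (mm1 ℓ ⟨v, h1⟩) ≠ mm1 ℓ ⟨v, h1⟩ := by
          rw [h4]
          exact fun h5 => h2 h5.symm
        rw [Gl3_e3 (Gl3_fr hU hpm hℓ h3) (mm1 ℓ ⟨v, h1⟩).2]
        exact congrArg Subtype.val h4
  · rw [Gl3_e1 h]
    have h4 : τ ℓ (τ ℓ v) = v := hτ.inv ℓ hℓ v
    have h5 : τ ℓ (τ ℓ v) ≠ τ ℓ v := by
      rw [h4]
      exact fun h6 => h h6.symm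
    rw [Gl3_e1 h5, h4]

theorem Gl3_adj (hpm : PM (G.comap (fun v : {v // v ∉ Out} => v.1)) L U mm1)
    (hτ : PM G L (Wn c p) τ)
    {ℓ : ℕ} (hℓ : ℓ < L) (v : V) (hv : Gl3_m Out τ mm1 ℓ v ≠ v) :
    G.Adj v (Gl3_m Out τ mm1 ℓ v) := by
  by_cases h : τ ℓ v = v
  · by_cases h1 : v ∈ Out
    · exact absurd (Gl3_e2 h h1) hv
    · rw [Gl3_e3 h h1] at hv ⊢
      exact hpm.adj ℓ hℓ ⟨v, h1⟩ (fun h6 => hv (congrArg Subtype.val h6))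
  · rw [Gl3_e1 h]
    exact hτ.adj ℓ hℓ v h

theorem Gl3_dis (hpm : PM (G.comap (fun v : {v // v ∉ Out} => v.1)) L U mm1)
    (hτ : PM G L (Wn c p) τ) (hτ2 : ∀ ℓ < L, ∀ v, τ ℓ v ≠ v → v ∉ Out → τ ℓ v ∈ Out)
    {ℓ ℓ' : ℕ} (hℓ : ℓ < L) (hℓ' : ℓ' < L) (hne : ℓ ≠ ℓ') (v : V)
    (hv : Gl3_m Out τ mm1 ℓ v ≠ v) :
    Gl3_m Out τ mm1 ℓ v ≠ Gl3_m Out τ mm1 ℓ' v := by
  intro heq
  by_cases h1 : v ∈ Out
  · rw [Gl3_out h1] at hv heq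
    rw [Gl3_out h1] at heq
    exact hτ.dis ℓ hℓ ℓ' hℓ' hne v hv heq
  · by_cases h : τ ℓ v = v
    · rw [Gl3_e3 h h1] at hv heq
      by_cases h' : τ ℓ' v = v
      · rw [Gl3_e3 h' h1] at heq
        exact hpm.dis ℓ hℓ ℓ' hℓ' hne ⟨v, h1⟩ (fun h6 => hv (congrArg Subtype.val h6))
          (Subtype.ext heq)
      · rw [Gl3_e1 h'] at heq
        have h3 := hτ2 ℓ' hℓ' v h' h1
        rw [← heq] at h3
        exact (mm1 ℓ ⟨v, h1⟩).2 h3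
    · rw [Gl3_e1 h] at hv heq
      by_cases h' : τ ℓ' v = v
      · rw [Gl3_e3 h' h1] at heq
        have h3 := hτ2 ℓ hℓ v h h1
        rw [heq] at h3
        exact (mm1 ℓ' ⟨v, h1⟩).2 h3
      · rw [Gl3_e1 h'] at heq
        exact hτ.dis ℓ hℓ ℓ' hℓ' hne v hv heq

theorem Gl3_fix (hU : ∀ ℓ (v : {v // v ∉ Out}), v ∈ U ℓ ↔ v.1 ∈ Wn c p ℓ ∨ τ ℓ v.1 ≠ v.1)
    (hpm : PM (G.comap (fun v : {v // v ∉ Out} => v.1)) L U mm1)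
    (hτ : PM G L (Wn c p) τ)
    {ℓ : ℕ} (hℓ : ℓ < L) (v : V) (h1 : c v < ℓ + p) (h2 : ℓ < c v + p) :
    Gl3_m Out τ mm1 ℓ v = v := by
  have hw : v ∈ Wn c p ℓ := Glu_wn.2 ⟨h1, h2⟩
  have h := hτ.fix ℓ hℓ v hw
  by_cases h3 : v ∈ Out
  · exact Gl3_e2 h h3
  · rw [Gl3_e3 h h3]
    exact congrArg Subtype.val (hpm.fix ℓ hℓ ⟨v, h3⟩ ((hU ℓ ⟨v, h3⟩).2 (Or.inl hw)))

theorem Gl3_cnt (hU : ∀ ℓ (v : {v // v ∉ Out}), v ∈ U ℓ ↔ v.1 ∈ Wn c p ℓ ∨ τ ℓ v.1 ≠ v.1)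
    (hp : 1 ≤ p) (v : V) (h : v ∉ Out) :
    ((range L).filter fun ℓ => Gl3_m Out τ mm1 ℓ v = v).card ≤ 2 * p - 1 +
      ((range L).filter fun ℓ => (⟨v, h⟩ : {v // v ∉ Out}) ∉ U ℓ ∧ mm1 ℓ ⟨v, h⟩ = ⟨v, h⟩).card := by
  have h1 : ((range L).filter fun ℓ => Gl3_m Out τ mm1 ℓ v = v) ⊆
      ((range L).filter fun ℓ => c v < ℓ + p ∧ ℓ < c v + p) ∪
      ((range L).filter fun ℓ => (⟨v, h⟩ : {v // v ∉ Out}) ∉ U ℓ ∧ mm1 ℓ ⟨v, h⟩ = ⟨v, h⟩) := by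
    intro ℓ hℓ
    obtain ⟨a1, a2⟩ := Finset.mem_filter.1 hℓ
    have h4 : τ ℓ v = v := by
      by_contra h5
      rw [Gl3_e1 h5] at a2
      exact h5 a2
    rw [Gl3_e3 h4 h] at a2
    have h5 : mm1 ℓ ⟨v, h⟩ = ⟨v, h⟩ := Subtype.ext a2
    by_cases h6 : (⟨v, h⟩ : {v // v ∉ Out}) ∈ U ℓ
    · rcases (hU ℓ ⟨v, h⟩).1 h6 with h7 | h7
      · exact Finset.mem_union_left _ (Finset.mem_filter.2 ⟨a1, Glu_wn.1 h7⟩)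
      · exact absurd h4 h7
    · exact Finset.mem_union_right _ (Finset.mem_filter.2 ⟨a1, h6, h5⟩)
  have h2 := (Finset.card_le_card h1).trans (Finset.card_union_le _ _)
  have h3 := Glu_win (L := L) (c := c) v hp
  exact h2.trans (Nat.add_le_add_right h3 _)

theorem Gl3_aux (Δ k' : ℕ) (hp : 1 ≤ p)
    (hL : k' + p - 1 ≤ L) (hL2 : L + 1 ≤ Δ + 2 * p) (hc : ∀ v, c v < k')
    (hprop : ∀ u v, G.Adj u v → c u ≠ c v) (hΔ : ∀ v, dg G v ≤ Δ)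
    (hτ : PM G L (Wn c p) τ)
    (hτ2 : ∀ ℓ < L, ∀ v, τ ℓ v ≠ v → v ∉ Out → τ ℓ v ∈ Out)
    (hout : ∀ v ∈ Out, dg G v + ((range L).filter fun ℓ => τ ℓ v = v).card + 1 ≤ Δ + 2 * p)
    (hU : ∀ ℓ (v : {v // v ∉ Out}), v ∈ U ℓ ↔ v.1 ∈ Wn c p ℓ ∨ τ ℓ v.1 ≠ v.1)
    (hm : Cnc (G.comap (fun v : {v // v ∉ Out} => v.1)) L U mm1) :
    H70.HY.HYLab G Δ p := by
  have hpm := hm.pm
  have hlo : ∀ v ∈ Out, dg G v + ((range L).filter fun ℓ => Gl3_m Out τ mm1 ℓ v = v).card + 1 ≤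
      Δ + 2 * p := by
    intro v hv
    have h1 := hout v hv
    have h2 : ((range L).filter fun ℓ => Gl3_m Out τ mm1 ℓ v = v) ⊆
        ((range L).filter fun ℓ => τ ℓ v = v) := by
      intro ℓ hℓ
      obtain ⟨a1, a2⟩ := Finset.mem_filter.1 hℓ
      rw [Gl3_out hv] at a2
      exact Finset.mem_filter.2 ⟨a1, a2⟩
    have h3 := Finset.card_le_card h2
    omega
  refine final2 G Δ p k' L hp hL hL2 c hc hprop (Gl3_m Out τ mm1) ?_ ?_ ?_ ?_ ?_ ?_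
  · intro ℓ hℓ v
    exact Gl3_inv hU hpm hτ hℓ v
  · intro ℓ hℓ v hv
    exact Gl3_adj hpm hτ hℓ v hv
  · intro ℓ hℓ ℓ' hℓ' hne v hv
    exact Gl3_dis hpm hτ hτ2 hℓ hℓ' hne v hv
  · intro ℓ hℓ v h1 h2
    exact Gl3_fix hU hpm hτ hℓ v h1 h2
  · intro v
    by_cases h : v ∈ Out
    · have h1 := hlo v h
      omega
    · have h1 := Gl3_cnt (L := L) (mm1 := mm1) hU hp v h
      have h2 : ((range L).filter fun ℓ => (⟨v, h⟩ : {v // v ∉ Out}) ∉ U ℓ ∧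
          mm1 ℓ ⟨v, h⟩ = ⟨v, h⟩).card ≤ 1 := le_trans (le_of_eq (Glu_fc _ _)) (hm.one ⟨v, h⟩)
      have h3 := hΔ v
      omega
  · have key : ∀ a, dg G a + ((range L).filter fun ℓ => Gl3_m Out τ mm1 ℓ a = a).card =
        Δ + 2 * p →
        ∃ h : a ∉ Out, ∃ ℓ < L, (⟨a, h⟩ : {v // v ∉ Out}) ∉ U ℓ ∧ mm1 ℓ ⟨a, h⟩ = ⟨a, h⟩ := by
      intro a ha
      by_cases h : a ∈ Out
      · have h1 := hlo a h
        omega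
      · refine ⟨h, ?_⟩
        have h1 := Gl3_cnt (L := L) (mm1 := mm1) hU hp a h
        have h3 := hΔ a
        have h4 : 0 < ((range L).filter fun ℓ => (⟨a, h⟩ : {v // v ∉ Out}) ∉ U ℓ ∧
            mm1 ℓ ⟨a, h⟩ = ⟨a, h⟩).card := by omega
        obtain ⟨ℓ, hℓ⟩ := Finset.card_pos.1 h4
        obtain ⟨a1, a2⟩ := Finset.mem_filter.1 hℓ
        exact ⟨ℓ, Finset.mem_range.1 a1, a2⟩
    intro a b hab ha hb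
    obtain ⟨ha', ha2⟩ := key a ha
    obtain ⟨hb', hb2⟩ := key b hb
    obtain ⟨ℓ, hℓ, h5⟩ := hm.ind ⟨a, ha'⟩ ⟨b, hb'⟩ hab ha2 hb2
    refine ⟨ℓ, hℓ, ?_⟩
    have h6 : mm1 ℓ ⟨a, ha'⟩ ≠ ⟨a, ha'⟩ := by
      rw [h5]
      intro h9
      have h10 : b = a := congrArg Subtype.val h9
      rw [h10] at hab
      exact G.irrefl hab
    rw [Gl3_e3 (Gl3_fr hU hpm hℓ h6) ha', h5]

end

theorem gl3 {V : Type} [Fintype V] (G : SimpleGraph V) (Δ p k' L : ℕ) (hp : 1 ≤ p)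
    (hL : k' + p - 1 ≤ L) (hL2 : L + 1 ≤ Δ + 2 * p) (c : V → ℕ) (hc : ∀ v, c v < k')
    (hprop : ∀ u v, G.Adj u v → c u ≠ c v) (Out : Finset V) (hΔ : ∀ v, dg G v ≤ Δ)
    (τ : ℕ → V → V) (hτ : PM G L (Wn c p) τ)
    (hτ2 : ∀ ℓ < L, ∀ v, τ ℓ v ≠ v → v ∉ Out → τ ℓ v ∈ Out)
    (hout : ∀ v ∈ Out, dg G v + ((range L).filter fun ℓ => τ ℓ v = v).card + 1 ≤ Δ + 2 * p)
    (mm1 : ℕ → {v // v ∉ Out} → {v // v ∉ Out})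
    (hm : Cnc (G.comap (fun v : {v // v ∉ Out} => v.1)) L
      (fun ℓ => univ.filter fun v : {v // v ∉ Out} => v.1 ∈ Wn c p ℓ ∨ τ ℓ v.1 ≠ v.1) mm1) :
    H70.HY.HYLab G Δ p := by
  refine Gl3_aux Δ k' hp hL hL2 hc hprop hΔ hτ hτ2 hout (fun ℓ v => ?_) hm
  rw [Finset.mem_filter]
  simp only [Finset.mem_univ, true_and]

end Pool.Agent.H71.HL
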