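import Mathlib
import Pool.Agent.H71.HL.Defs

/-!
LBS: extend a labelling of the vertices outside `Out = Lo ∪ S0`: the vertices of `Lo` get the labels
`0, ..., #Lo - 1` (one each), the vertices of `S0` are labelled greedily with labels in `[#Lo, k2)`, each label is used at
most `s1` times in `S0`.

Proof.  Induction over the subsets `T` of `S0` (`Finset.induction_on`): there is `c : V → ℕ` with: `c v` = the index of `v` in `Lo` for
`v ∈ Lo` (a bijection of `Lo` with `range #Lo`, `Lo.equivFin`), `c v = c1 v` for `v ∉ Out`, `#Lo ≤ c v < k2` for `v ∈ T`, `c u ≠ c v` for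
adjacent `u, v` in `T ∪ Lo ∪ Outᶜ`, `#{v ∈ T : c v = i} ≤ s1` for all `i`. For a new vertex `v ∈ S0 \ T` the forbidden labels in
`[#Lo, k2)` are the labels of the neighbours of `v` (at most `dg G v ≤ D`) and the labels `i` with
`#{u ∈ T : c u = i} = s1` (at most `#T / s1 ≤ card V / s1` many, since `s1 #{full labels} ≤ #T`): fewer than `k2 - #Lo`.
-/

set_option autoImplicit false

namespace Pool.Agent.H71.HL

open Finset Classical
open Pool.Agent.H71.DN Pool.Agent.H71.DX

theorem lbs {V : Type} [Fintype V] (G : SimpleGraph V) (Lo S0 Out : Finset V)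
    (hO : Out = Lo ∪ S0) (hdj : Disjoint Lo S0) (k2 s1 D : ℕ) (hs1 : 1 ≤ s1)
    (c1 : {v // v ∉ Out} → ℕ) (hc1 : ∀ v, Lo.card ≤ c1 v ∧ c1 v < k2)
    (hp : ∀ u v, c1 u = c1 v → ¬ G.Adj u.1 v.1)
    (hD : ∀ v ∈ S0, dg G v ≤ D) (hk : Lo.card + D + Fintype.card V / s1 + 1 ≤ k2) :
    ∃ c : V → ℕ, (∀ v, c v < k2) ∧ (∀ u v, G.Adj u v → c u ≠ c v) ∧
      (∀ v ∈ Lo, c v < Lo.card) ∧ (∀ v ∉ Lo, Lo.card ≤ c v) ∧
      (∀ v : {v // v ∉ Out}, c v.1 = c1 v) ∧
      (∀ i, (univ.filter fun v => v ∈ Lo ∧ c v = i).card ≤ 1) ∧
      ∀ i, (univ.filter fun v => v ∈ S0 ∧ c v = i).card ≤ s1 := by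
  subst hO
  -- the labels of `Lo`
  let e : Lo ≃ Fin Lo.card := Lo.equivFin
  let c0 : V → ℕ := fun v => if h : v ∈ Lo then (e ⟨v, h⟩ : ℕ) else if h' : v ∉ Lo ∪ S0 then c1 ⟨v, h'⟩ else Lo.card
  have hc0Lo : ∀ v (h : v ∈ Lo), c0 v = (e ⟨v, h⟩ : ℕ) := fun v h => dif_pos h
  have hc0out : ∀ v : {v // v ∉ Lo ∪ S0}, c0 v.1 = c1 v := by
    intro v
    have h : v.1 ∉ Lo := fun h => v.2 (mem_union_left _ h)
    have h1 : c0 v.1 = if h' : v.1 ∉ Lo ∪ S0 then c1 ⟨v.1, h'⟩ else Lo.card := dif_neg h
    rw [h1, dif_pos v.2]
  have hc0LoLt : ∀ v ∈ Lo, c0 v < Lo.card := by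
    intro v h
    rw [hc0Lo v h]
    exact (e ⟨v, h⟩).isLt
  have hc0inj : ∀ u ∈ Lo, ∀ v ∈ Lo, c0 u = c0 v → u = v := by
    intro u hu v hv huv
    rw [hc0Lo u hu, hc0Lo v hv] at huv
    have := e.injective (Fin.ext huv)
    exact congrArg Subtype.val this
  -- greedy
  have key : ∀ T : Finset V, T ⊆ S0 → ∃ c : V → ℕ, (∀ v ∉ T, c v = c0 v) ∧
      (∀ v ∈ T, Lo.card ≤ c v ∧ c v < k2) ∧
      (∀ u v, u ∉ S0 \ T → v ∉ S0 \ T → G.Adj u v → c u ≠ c v) ∧
      ∀ i, (T.filter fun v => c v = i).card ≤ s1 := by
    intro T
    induction T using Finset.induction_on with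
    | empty =>
      intro _
      refine ⟨c0, fun v _ => rfl, fun v hv => absurd hv (notMem_empty v), ?_, fun i => by simp⟩
      intro u v hu hv huv heq
      rw [sdiff_empty] at hu hv
      by_cases h1 : u ∈ Lo
      · by_cases h2 : v ∈ Lo
        · have := hc0inj u h1 v h2 heq
          subst this
          exact G.irrefl huv
        · have h3 : v ∉ Lo ∪ S0 := by simp [h2, hv]
          have h4 := hc0LoLt u h1
          have h5 := hc0out ⟨v, h3⟩
          have h6 := (hc1 ⟨v, h3⟩).1
          simp only at h5
          omega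
      · have h3 : u ∉ Lo ∪ S0 := by simp [h1, hu]
        have h5 := hc0out ⟨u, h3⟩
        have h6 := (hc1 ⟨u, h3⟩).1
        simp only at h5
        by_cases h2 : v ∈ Lo
        · have h4 := hc0LoLt v h2
          omega
        · have h3' : v ∉ Lo ∪ S0 := by simp [h2, hv]
          have h5' := hc0out ⟨v, h3'⟩
          simp only at h5'
          exact hp ⟨u, h3⟩ ⟨v, h3'⟩ (by rw [← h5, ← h5', heq]) huv
    | insert w T hw ih =>
      intro hT
      have hwS : w ∈ S0 := hT (mem_insert_self _ _)
      have hTS : T ⊆ S0 := fun x hx => hT (mem_insert_of_mem hx)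
      obtain ⟨c, h1, h2, h3, h4⟩ := ih hTS
      -- forbidden labels
      let FA : Finset ℕ := (univ.filter fun u => G.Adj w u).image c
      let FB : Finset ℕ := (Ico Lo.card k2).filter fun i => (T.filter fun v => c v = i).card = s1
      have hFA : FA.card ≤ D := by
        refine le_trans card_image_le ?_
        have := hD w hwS
        unfold dg at this
        exact this
      have hFB : FB.card ≤ Fintype.card V / s1 := by
        rw [Nat.le_div_iff_mul_le (by omega)]
        have e1 : FB.card * s1 = ∑ i ∈ FB, (T.filter fun v => c v = i).card := by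
          rw [sum_congr rfl (fun i hi => (mem_filter.mp hi).2), sum_const, smul_eq_mul]
        have e2 : ∑ i ∈ FB, (T.filter fun v => c v = i).card ≤ T.card := by
          rw [← card_biUnion]
          · exact card_le_card (fun x hx => by
              obtain ⟨i, _, hx⟩ := mem_biUnion.mp hx
              exact (mem_filter.mp hx).1)
          · intro i _ j _ hij
            rw [Function.onFun, disjoint_left]
            intro x hx hx'
            exact hij ((mem_filter.mp hx).2.symm.trans (mem_filter.mp hx').2)
        have e3 : T.card ≤ Fintype.card V := card_le_univ T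
        omega
      have hex : ∃ i ∈ Ico Lo.card k2, i ∉ FA ∪ FB := by
        by_contra hcon
        push Not at hcon
        have : (Ico Lo.card k2).card ≤ (FA ∪ FB).card := card_le_card hcon
        rw [Nat.card_Ico] at this
        have := card_union_le FA FB
        omega
      obtain ⟨i, hi, hi'⟩ := hex
      rw [mem_Ico] at hi
      have hiA : i ∉ FA := fun h => hi' (mem_union_left _ h)
      have hiB : (T.filter fun v => c v = i).card ≠ s1 := by
        intro h
        exact hi' (mem_union_right _ (mem_filter.mpr ⟨mem_Ico.mpr hi, h⟩))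
      have hne : ∀ v ∈ T, v ≠ w := fun v hv h => hw (h ▸ hv)
      refine ⟨Function.update c w i, ?_, ?_, ?_, ?_⟩
      · intro v hv
        have hvw : v ≠ w := fun h => hv (h ▸ mem_insert_self _ _)
        rw [Function.update_of_ne hvw]
        exact h1 v (fun h => hv (mem_insert_of_mem h))
      · intro v hv
        rcases mem_insert.mp hv with rfl | hv
        · rw [Function.update_self]
          exact hi
        · rw [Function.update_of_ne (hne v hv)]
          exact h2 v hv
      · intro u v hu hv huv
        by_cases hu' : u = w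
        · have hv' : v ≠ w := by
            rintro rfl
            subst hu'
            exact G.irrefl huv
          rw [hu', Function.update_self, Function.update_of_ne hv']
          intro h
          apply hiA
          rw [mem_image]
          exact ⟨v, mem_filter.mpr ⟨mem_univ _, hu' ▸ huv⟩, h.symm⟩
        · by_cases hv' : v = w
          · rw [hv', Function.update_self, Function.update_of_ne hu']
            intro h
            apply hiA
            rw [mem_image]
            exact ⟨u, mem_filter.mpr ⟨mem_univ _, (hv' ▸ huv).symm⟩, h⟩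
          · rw [Function.update_of_ne hu', Function.update_of_ne hv']
            refine h3 u v ?_ ?_ huv
            · intro h
              rw [mem_sdiff] at h hu
              exact hu ⟨h.1, fun h' => (mem_insert.mp h').elim hu' h.2⟩
            · intro h
              rw [mem_sdiff] at h hv
              exact hv ⟨h.1, fun h' => (mem_insert.mp h').elim hv' h.2⟩
      · intro j
        have hfe : ∀ v ∈ T, Function.update c w i v = c v := fun v hv => Function.update_of_ne (hne v hv) _ _
        rw [filter_insert]
        have hfT : (T.filter fun v => Function.update c w i v = j) = T.filter fun v => c v = j := by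
          apply filter_congr
          intro v hv
          rw [hfe v hv]
        rw [hfT, Function.update_self]
        by_cases hij : i = j
        · rw [if_pos hij]
          refine le_trans (card_insert_le _ _) ?_
          have := h4 j
          have : (T.filter fun v => c v = j).card ≠ s1 := by rw [← hij]; exact hiB
          omega
        · rw [if_neg hij]
          exact h4 j
  obtain ⟨c, h1, h2, h3, h4⟩ := key S0 (Subset.refl _)
  have hLoS : ∀ v ∈ Lo, v ∉ S0 := fun v hv => disjoint_left.mp hdj hv
  have hcLo : ∀ v ∈ Lo, c v < Lo.card := fun v hv => by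
    rw [h1 v (hLoS v hv)]
    exact hc0LoLt v hv
  have hcout : ∀ v : {v // v ∉ Lo ∪ S0}, c v.1 = c1 v := by
    intro v
    rw [h1 v.1 (fun h => v.2 (mem_union_right _ h))]
    exact hc0out v
  refine ⟨c, ?_, ?_, hcLo, ?_, hcout, ?_, ?_⟩
  · intro v
    by_cases hS : v ∈ S0
    · exact (h2 v hS).2
    · by_cases hL : v ∈ Lo
      · have := hcLo v hL
        refine lt_of_lt_of_le this ?_
        have e1 : Lo.card ≤ Lo.card + D + Fintype.card V / s1 + 1 :=
          le_trans (Nat.le_add_right _ _) (le_trans (Nat.le_add_right _ _) (Nat.le_add_right _ _))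
        exact le_trans e1 hk
      · have h := hcout ⟨v, by simp [hS, hL]⟩
        simp only at h
        rw [h]
        exact (hc1 _).2
  · intro u v huv
    refine h3 u v ?_ ?_ huv
    · rw [sdiff_self]; exact notMem_empty u
    · rw [sdiff_self]; exact notMem_empty v
  · intro v hL
    by_cases hS : v ∈ S0
    · exact (h2 v hS).1
    · have h := hcout ⟨v, by simp [hS, hL]⟩
      simp only at h
      rw [h]
      exact (hc1 _).1
  · intro i
    rw [card_le_one]
    intro a ha b hb
    simp only [mem_filter, mem_univ, true_and] at ha hb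
    refine hc0inj a ha.1 b hb.1 ?_
    rw [← h1 a (hLoS a ha.1), ← h1 b (hLoS b hb.1), ha.2, hb.2]
  · intro i
    refine le_trans (card_le_card ?_) (h4 i)
    intro v hv
    simp only [mem_filter, mem_univ, true_and] at hv ⊢
    exact hv

end Pool.Agent.H71.HL
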