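import Mathlib
import Pool.Agent.H71.HL.Defs
import Pool.Agent.H71.DX.LyV

/-!
LOT: greedy choice of the partners of the vertices of `Lo`. For the label `ℓ` the vertex `x ∈ Lo` gets a partner from the
pool `A x` (`⊆ C`) if `m x ℓ = 1`, a partner from the pool `B x` (outside `C` and `Lo`) if `m x ℓ = 2`, and no partner
otherwise. `W ℓ` are the forbidden vertices of the label `ℓ`.

Proof.  Choose `f x ℓ` for `ℓ = 0, 1, ...` (see `lwp` in `DX/LyV.lean`, proved, for the case of one pool). For given `ℓ` and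
`x ∈ Lo` with `m x ℓ = 1` the set `A x \ W ℓ \ {f x ℓ' : ℓ' < ℓ, m x ℓ' = 1}` has at least
`#(A x) - w - (#{ℓ' < L : m x ℓ' = 1} - 1) ≥ #Lo` elements; the same for `B` if `m x ℓ = 2`. `lwp_sdr` for
`{x ∈ Lo : m x ℓ = 1 ∨ m x ℓ = 2}` gives different `f x ℓ` (`x ∈ Lo`). So for `x ∈ Lo` and `ℓ ≠ ℓ'` (both with a partner) `f x ℓ ≠ f x ℓ'`
(same pool: by the choice; different pools: the elements of `A x` are in `C`, those of `B x` are not), and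
for `x ≠ y ∈ Lo` `f x ℓ ≠ f y ℓ`. The `f x ℓ` are not in `Lo` (`Lo` and `C` are disjoint).
`τ ℓ v := ` if `v ∈ Lo` and `m v ℓ = 1 ∨ m v ℓ = 2` then `f v ℓ`, else if there is `x ∈ Lo` with `m x ℓ = 1 ∨ m x ℓ = 2` and `f x ℓ = v`
then this (unique) `x`, else `v`. (For `ℓ ≥ L` take `id`.)
`PM.fix`: `v ∈ W ℓ`: if `v ∈ Lo` then `m v ℓ = 0` by `hmW`; if `v = f x ℓ` then `v ∉ W ℓ`.
The number of `v ∈ C` with `τ ℓ v ≠ v` is the number of the `x ∈ Lo` with `m x ℓ = 1` (`x ↦ f x ℓ` is a bijection between these sets; the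
`f x ℓ` with `m x ℓ = 2` are not in `C`, and `Lo` is disjoint from `C`). The last claim: for `v ∉ Lo` the `τ ℓ v ≠ v`, `ℓ < L`, are
in `Lo` and different for different `ℓ` (`PM.dis`).
-/

set_option autoImplicit false

namespace Pool.Agent.H71.HL

open Finset Classical
open Pool.Agent.H71.DN Pool.Agent.H71.DX

theorem lot_aux {V : Type} [Fintype V] (Lo : Finset V) (L w : ℕ) (Pl : V → ℕ → Finset V)
    (m : V → ℕ → ℕ) (P : ℕ → Prop) (W : ℕ → Finset V) (hW : ∀ ℓ < L, (W ℓ).card ≤ w)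
    (h : ∀ x ∈ Lo, ∀ ℓ < L, P (m x ℓ) →
      ((range L).filter fun ℓ' => m x ℓ' = m x ℓ).card + w + Lo.card ≤ (Pl x (m x ℓ)).card) :
    ∃ f : V → ℕ → V,
      (∀ x ∈ Lo, ∀ ℓ < L, P (m x ℓ) → f x ℓ ∈ Pl x (m x ℓ) ∧ f x ℓ ∉ W ℓ) ∧
      (∀ x ∈ Lo, ∀ ℓ < L, ∀ ℓ' < L, P (m x ℓ) → m x ℓ = m x ℓ' → f x ℓ = f x ℓ' → ℓ = ℓ') ∧
      (∀ x ∈ Lo, ∀ y ∈ Lo, ∀ ℓ < L, P (m x ℓ) → P (m y ℓ) → f x ℓ = f y ℓ → x = y) := by
  suffices H : ∀ M ≤ L, ∃ f : V → ℕ → V,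
      (∀ x ∈ Lo, ∀ ℓ < M, P (m x ℓ) → f x ℓ ∈ Pl x (m x ℓ) ∧ f x ℓ ∉ W ℓ) ∧
      (∀ x ∈ Lo, ∀ ℓ < M, ∀ ℓ' < M, P (m x ℓ) → m x ℓ = m x ℓ' → f x ℓ = f x ℓ' → ℓ = ℓ') ∧
      (∀ x ∈ Lo, ∀ y ∈ Lo, ∀ ℓ < M, P (m x ℓ) → P (m y ℓ) → f x ℓ = f y ℓ → x = y) from
    H L le_rfl
  intro M
  induction M with
  | zero =>
    intro _
    exact ⟨fun x _ => x, fun x _ ℓ hℓ => absurd hℓ (Nat.not_lt_zero _),
      fun x _ ℓ hℓ => absurd hℓ (Nat.not_lt_zero _),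
      fun x _ y _ ℓ hℓ => absurd hℓ (Nat.not_lt_zero _)⟩
  | succ M ih =>
    intro hM
    obtain ⟨f, hf1, hf2, hf3⟩ := ih (by omega)
    have hML : M < L := by omega
    set Q : V → Finset V := fun x =>
      (Pl x (m x M) \ W M) \ ((Finset.range M).filter fun ℓ => m x ℓ = m x M).image (f x) with hQ
    set S : Finset V := Lo.filter fun x => P (m x M) with hS
    have hcard : ∀ x ∈ S, S.card ≤ (Q x).card := by
      intro x hx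
      rw [hS, Finset.mem_filter] at hx
      have h0 := h x hx.1 M hML hx.2
      have h1 := Finset.le_card_sdiff (W M) (Pl x (m x M))
      have h2 := Finset.le_card_sdiff (((Finset.range M).filter fun ℓ => m x ℓ = m x M).image (f x))
        (Pl x (m x M) \ W M)
      have h3 : (((Finset.range M).filter fun ℓ => m x ℓ = m x M).image (f x)).card
          ≤ ((Finset.range L).filter fun ℓ' => m x ℓ' = m x M).card := by
        refine Finset.card_image_le.trans (Finset.card_le_card ?_)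
        intro ℓ hℓ
        rw [Finset.mem_filter, Finset.mem_range] at hℓ ⊢
        exact ⟨by omega, hℓ.2⟩
      have h4 := hW M hML
      have h5 : S.card ≤ Lo.card := Finset.card_le_card (Finset.filter_subset _ _)
      have h6 : (Q x).card = ((Pl x (m x M) \ W M) \
        ((Finset.range M).filter fun ℓ => m x ℓ = m x M).image (f x)).card := rfl
      omega
    obtain ⟨g, hg1, hg2⟩ := lwp_sdr Q S hcard
    have hgQ : ∀ x ∈ Lo, P (m x M) → g x ∈ Pl x (m x M) ∧ g x ∉ W M ∧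
        ∀ ℓ < M, m x ℓ = m x M → f x ℓ ≠ g x := by
      intro x hx hp
      have h1 := hg1 x (Finset.mem_filter.2 ⟨hx, hp⟩)
      simp only [hQ, Finset.mem_sdiff] at h1
      refine ⟨h1.1.1, h1.1.2, ?_⟩
      intro ℓ hℓ hs he
      apply h1.2
      rw [Finset.mem_image]
      exact ⟨ℓ, Finset.mem_filter.2 ⟨Finset.mem_range.2 hℓ, hs⟩, he⟩
    have e1 : ∀ x ℓ, ℓ < M → (if ℓ < M then f x ℓ else g x) = f x ℓ :=
      fun x ℓ hℓ => if_pos hℓ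
    have e2 : ∀ x, (if M < M then f x M else g x) = g x :=
      fun x => if_neg (lt_irrefl M)
    refine ⟨fun x ℓ => if ℓ < M then f x ℓ else g x, ?_, ?_, ?_⟩
    · intro x hx ℓ hℓ hp
      rcases Nat.lt_succ_iff_lt_or_eq.1 hℓ with h1 | h1
      · simp only [e1 x ℓ h1]
        exact hf1 x hx ℓ h1 hp
      · subst h1
        simp only [e2 x]
        obtain ⟨a, b, _⟩ := hgQ x hx hp
        exact ⟨a, b⟩
    · intro x hx ℓ hℓ ℓ' hℓ' hp hm he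
      rcases Nat.lt_succ_iff_lt_or_eq.1 hℓ with h1 | h1 <;>
        rcases Nat.lt_succ_iff_lt_or_eq.1 hℓ' with h2 | h2
      · simp only [e1 x ℓ h1, e1 x ℓ' h2] at he
        exact hf2 x hx ℓ h1 ℓ' h2 hp hm he
      · subst h2
        simp only [e1 x ℓ h1, e2 x] at he
        have hp' : P (m x ℓ') := hm ▸ hp
        exact absurd he ((hgQ x hx hp').2.2 ℓ h1 hm)
      · subst h1
        simp only [e1 x ℓ' h2, e2 x] at he
        exact absurd he.symm ((hgQ x hx hp).2.2 ℓ' h2 hm.symm)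
      · rw [h1, h2]
    · intro x hx y hy ℓ hℓ hp hp' he
      rcases Nat.lt_succ_iff_lt_or_eq.1 hℓ with h1 | h1
      · simp only [e1 x ℓ h1, e1 y ℓ h1] at he
        exact hf3 x hx y hy ℓ h1 hp hp' he
      · subst h1
        simp only [e2 x, e2 y] at he
        exact hg2 x (Finset.mem_filter.2 ⟨hx, hp⟩) y (Finset.mem_filter.2 ⟨hy, hp'⟩) he

theorem lot {V : Type} [Fintype V] (G : SimpleGraph V) (Lo C : Finset V) (L w : ℕ)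
    (A B : V → Finset V) (m : V → ℕ → ℕ) (W : ℕ → Finset V)
    (hA : ∀ x ∈ Lo, ∀ v ∈ A x, G.Adj x v ∧ v ∈ C)
    (hB : ∀ x ∈ Lo, ∀ v ∈ B x, G.Adj x v ∧ v ∉ C ∧ v ∉ Lo)
    (hC : Disjoint Lo C)
    (hmW : ∀ ℓ < L, ∀ x ∈ Lo, x ∈ W ℓ → m x ℓ = 0)
    (hW : ∀ ℓ < L, (W ℓ).card ≤ w)
    (h1 : ∀ x ∈ Lo, ∀ ℓ < L, m x ℓ = 1 →
      ((range L).filter fun ℓ => m x ℓ = 1).card + w + Lo.card ≤ (A x).card)
    (h2 : ∀ x ∈ Lo, ∀ ℓ < L, m x ℓ = 2 →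
      ((range L).filter fun ℓ => m x ℓ = 2).card + w + Lo.card ≤ (B x).card) :
    ∃ τ : ℕ → V → V, PM G L W τ ∧
      (∀ ℓ < L, ∀ x ∈ Lo, m x ℓ = 1 → τ ℓ x ∈ A x) ∧
      (∀ ℓ < L, ∀ x ∈ Lo, m x ℓ = 2 → τ ℓ x ∈ B x) ∧
      (∀ ℓ < L, ∀ x ∈ Lo, m x ℓ ≠ 1 → m x ℓ ≠ 2 → τ ℓ x = x) ∧
      (∀ ℓ < L, ∀ v, v ∉ Lo → τ ℓ v ≠ v → τ ℓ v ∈ Lo) ∧
      (∀ ℓ < L, (C.filter fun v => τ ℓ v ≠ v).card = (Lo.filter fun x => m x ℓ = 1).card) ∧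
      (∀ v, v ∉ Lo → ((range L).filter fun ℓ => τ ℓ v ≠ v).card ≤ Lo.card) := by
  obtain ⟨f, hf1, hf2, hf3⟩ := lot_aux Lo L w (fun x k => if k = 1 then A x else B x) m
    (fun k => k = 1 ∨ k = 2) W hW (by
      intro x hx ℓ hℓ hp
      rcases hp with hp | hp
      · simp only [hp, if_true]
        exact h1 x hx ℓ hℓ hp
      · have h21 : ¬ ((2 : ℕ) = 1) := by decide
        simp only [hp, if_neg h21]
        exact h2 x hx ℓ hℓ hp)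
  have hfA : ∀ x ∈ Lo, ∀ ℓ < L, m x ℓ = 1 → f x ℓ ∈ A x := by
    intro x hx ℓ hℓ hm
    have := (hf1 x hx ℓ hℓ (Or.inl hm)).1
    simpa only [hm, if_true] using this
  have hfB : ∀ x ∈ Lo, ∀ ℓ < L, m x ℓ = 2 → f x ℓ ∈ B x := by
    intro x hx ℓ hℓ hm
    have := (hf1 x hx ℓ hℓ (Or.inr hm)).1
    have h21 : ¬ ((2 : ℕ) = 1) := by decide
    simpa only [hm, if_neg h21] using this
  have hfAdj : ∀ x ∈ Lo, ∀ ℓ < L, (m x ℓ = 1 ∨ m x ℓ = 2) → G.Adj x (f x ℓ) := by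
    intro x hx ℓ hℓ hp
    rcases hp with hp | hp
    · exact (hA x hx _ (hfA x hx ℓ hℓ hp)).1
    · exact (hB x hx _ (hfB x hx ℓ hℓ hp)).1
  have hfLo : ∀ x ∈ Lo, ∀ ℓ < L, (m x ℓ = 1 ∨ m x ℓ = 2) → f x ℓ ∉ Lo := by
    intro x hx ℓ hℓ hp
    rcases hp with hp | hp
    · intro h
      exact Finset.disjoint_left.1 hC h (hA x hx _ (hfA x hx ℓ hℓ hp)).2
    · exact (hB x hx _ (hfB x hx ℓ hℓ hp)).2.2
  have hfW : ∀ x ∈ Lo, ∀ ℓ < L, (m x ℓ = 1 ∨ m x ℓ = 2) → f x ℓ ∉ W ℓ :=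
    fun x hx ℓ hℓ hp => (hf1 x hx ℓ hℓ hp).2
  have hf2' : ∀ x ∈ Lo, ∀ ℓ < L, ∀ ℓ' < L, (m x ℓ = 1 ∨ m x ℓ = 2) →
      (m x ℓ' = 1 ∨ m x ℓ' = 2) → f x ℓ = f x ℓ' → ℓ = ℓ' := by
    intro x hx ℓ hℓ ℓ' hℓ' hp hp' he
    rcases hp with hp | hp <;> rcases hp' with hp' | hp'
    · exact hf2 x hx ℓ hℓ ℓ' hℓ' (Or.inl hp) (hp.trans hp'.symm) he
    · exfalso
      have a := (hA x hx _ (hfA x hx ℓ hℓ hp)).2
      have b := (hB x hx _ (hfB x hx ℓ' hℓ' hp')).2.1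
      rw [he] at a
      exact b a
    · exfalso
      have a := (hA x hx _ (hfA x hx ℓ' hℓ' hp')).2
      have b := (hB x hx _ (hfB x hx ℓ hℓ hp)).2.1
      rw [he] at b
      exact b a
    · exact hf2 x hx ℓ hℓ ℓ' hℓ' (Or.inr hp) (hp.trans hp'.symm) he
  obtain ⟨τ, hτ⟩ : ∃ τ : ℕ → V → V, ∀ ℓ v, τ ℓ v =
      if v ∈ Lo ∧ (m v ℓ = 1 ∨ m v ℓ = 2) then f v ℓ
      else if h : ∃ x, x ∈ Lo ∧ (m x ℓ = 1 ∨ m x ℓ = 2) ∧ f x ℓ = v then h.choose else v :=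
    ⟨_, fun _ _ => rfl⟩
  have T1 : ∀ ℓ < L, ∀ v ∈ Lo, (m v ℓ = 1 ∨ m v ℓ = 2) → τ ℓ v = f v ℓ := by
    intro ℓ hℓ v hv hp
    rw [hτ, if_pos ⟨hv, hp⟩]
  have T2 : ∀ ℓ < L, ∀ x ∈ Lo, (m x ℓ = 1 ∨ m x ℓ = 2) → τ ℓ (f x ℓ) = x := by
    intro ℓ hℓ x hx hp
    have hn : ¬ (f x ℓ ∈ Lo ∧ (m (f x ℓ) ℓ = 1 ∨ m (f x ℓ) ℓ = 2)) :=
      fun h => hfLo x hx ℓ hℓ hp h.1
    have he : ∃ y, y ∈ Lo ∧ (m y ℓ = 1 ∨ m y ℓ = 2) ∧ f y ℓ = f x ℓ := ⟨x, hx, hp, rfl⟩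
    rw [hτ, if_neg hn, dif_pos he]
    have hs := he.choose_spec
    exact hf3 _ hs.1 x hx ℓ hℓ hs.2.1 hp hs.2.2
  have T3 : ∀ ℓ < L, ∀ v, (v ∈ Lo ∧ (m v ℓ = 1 ∨ m v ℓ = 2)) ∨
      (∃ x, x ∈ Lo ∧ (m x ℓ = 1 ∨ m x ℓ = 2) ∧ f x ℓ = v) ∨ τ ℓ v = v := by
    intro ℓ hℓ v
    by_cases c1 : v ∈ Lo ∧ (m v ℓ = 1 ∨ m v ℓ = 2)
    · exact Or.inl c1
    · by_cases c2 : ∃ x, x ∈ Lo ∧ (m x ℓ = 1 ∨ m x ℓ = 2) ∧ f x ℓ = v
      · exact Or.inr (Or.inl c2)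
      · right; right
        rw [hτ, if_neg c1, dif_neg c2]
  have hdis : ∀ ℓ < L, ∀ ℓ' < L, ℓ ≠ ℓ' → ∀ v, τ ℓ v ≠ v → τ ℓ v ≠ τ ℓ' v := by
    intro ℓ hℓ ℓ' hℓ' hne v hv he
    have hv' : τ ℓ' v ≠ v := he ▸ hv
    rcases T3 ℓ hℓ v with c | ⟨x, hx, hp, hfx⟩ | c
    · rcases T3 ℓ' hℓ' v with c' | ⟨x', hx', hp', hfx'⟩ | c'
      · rw [T1 ℓ hℓ v c.1 c.2, T1 ℓ' hℓ' v c'.1 c'.2] at he
        exact hne (hf2' v c.1 ℓ hℓ ℓ' hℓ' c.2 c'.2 he)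
      · exact hfLo x' hx' ℓ' hℓ' hp' (hfx'.symm ▸ c.1)
      · exact hv' c'
    · rcases T3 ℓ' hℓ' v with c' | ⟨x', hx', hp', hfx'⟩ | c'
      · exact hfLo x hx ℓ hℓ hp (hfx.symm ▸ c'.1)
      · have e1 : τ ℓ v = x := by rw [← hfx]; exact T2 ℓ hℓ x hx hp
        have e2 : τ ℓ' v = x' := by rw [← hfx']; exact T2 ℓ' hℓ' x' hx' hp'
        have e3 : x = x' := by rw [← e1, ← e2, he]
        subst e3
        exact hne (hf2' x hx ℓ hℓ ℓ' hℓ' hp hp' (hfx.trans hfx'.symm))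
      · exact hv' c'
    · exact hv c
  refine ⟨τ, ⟨?_, ?_, hdis, ?_⟩, ?_, ?_, ?_, ?_, ?_, ?_⟩
  · intro ℓ hℓ v
    rcases T3 ℓ hℓ v with c | ⟨x, hx, hp, hfx⟩ | c
    · rw [T1 ℓ hℓ v c.1 c.2, T2 ℓ hℓ v c.1 c.2]
    · rw [← hfx, T2 ℓ hℓ x hx hp, T1 ℓ hℓ x hx hp]
    · rw [c, c]
  · intro ℓ hℓ v hv
    rcases T3 ℓ hℓ v with c | ⟨x, hx, hp, hfx⟩ | c
    · rw [T1 ℓ hℓ v c.1 c.2]
      exact hfAdj v c.1 ℓ hℓ c.2
    · rw [← hfx, T2 ℓ hℓ x hx hp]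
      exact (hfAdj x hx ℓ hℓ hp).symm
    · exact absurd c hv
  · intro ℓ hℓ v hv
    rcases T3 ℓ hℓ v with c | ⟨x, hx, hp, hfx⟩ | c
    · have h0 := hmW ℓ hℓ v c.1 hv
      rcases c.2 with h | h <;> omega
    · exact absurd (hfx.symm ▸ hv) (hfW x hx ℓ hℓ hp)
    · exact c
  · intro ℓ hℓ x hx hm
    rw [T1 ℓ hℓ x hx (Or.inl hm)]
    exact hfA x hx ℓ hℓ hm
  · intro ℓ hℓ x hx hm
    rw [T1 ℓ hℓ x hx (Or.inr hm)]
    exact hfB x hx ℓ hℓ hm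
  · intro ℓ hℓ x hx hm1 hm2
    rcases T3 ℓ hℓ x with c | ⟨y, hy, hp, hfy⟩ | c
    · rcases c.2 with h | h
      · exact absurd h hm1
      · exact absurd h hm2
    · exact absurd (hfy.symm ▸ hx) (hfLo y hy ℓ hℓ hp)
    · exact c
  · intro ℓ hℓ v hv hne
    rcases T3 ℓ hℓ v with c | ⟨x, hx, hp, hfx⟩ | c
    · exact absurd c.1 hv
    · rw [← hfx, T2 ℓ hℓ x hx hp]
      exact hx
    · exact absurd c hne
  · intro ℓ hℓ
    have himg : (C.filter fun v => τ ℓ v ≠ v) =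
        (Lo.filter fun x => m x ℓ = 1).image fun x => f x ℓ := by
      ext v
      rw [Finset.mem_filter, Finset.mem_image]
      constructor
      · rintro ⟨hvC, hne⟩
        rcases T3 ℓ hℓ v with c | ⟨x, hx, hp, hfx⟩ | c
        · exact absurd hvC (Finset.disjoint_left.1 hC c.1)
        · rcases hp with hp | hp
          · exact ⟨x, Finset.mem_filter.2 ⟨hx, hp⟩, hfx⟩
          · exfalso
            have := (hB x hx _ (hfB x hx ℓ hℓ hp)).2.1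
            rw [hfx] at this
            exact this hvC
        · exact absurd c hne
      · rintro ⟨x, hx, hfx⟩
        rw [Finset.mem_filter] at hx
        have hl := hfLo x hx.1 ℓ hℓ (Or.inl hx.2)
        have ht := T2 ℓ hℓ x hx.1 (Or.inl hx.2)
        have hc := (hA x hx.1 _ (hfA x hx.1 ℓ hℓ hx.2)).2
        rw [hfx] at hl ht hc
        refine ⟨hc, ?_⟩
        rw [ht]
        intro h
        exact hl (h ▸ hx.1)
    rw [himg]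
    apply Finset.card_image_of_injOn
    intro x hx y hy he
    have hx' := Finset.mem_filter.1 (Finset.mem_coe.1 hx)
    have hy' := Finset.mem_filter.1 (Finset.mem_coe.1 hy)
    exact hf3 x hx'.1 y hy'.1 ℓ hℓ (Or.inl hx'.2) (Or.inl hy'.2) he
  · intro v hv
    apply Finset.card_le_card_of_injOn (fun ℓ => τ ℓ v)
    · intro ℓ hℓ
      have hℓ' := Finset.mem_filter.1 (Finset.mem_coe.1 hℓ)
      have hℓL := Finset.mem_range.1 hℓ'.1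
      rcases T3 ℓ hℓL v with c | ⟨x, hx, hp, hfx⟩ | c
      · exact absurd c.1 hv
      · have e1 : τ ℓ v = x := by rw [← hfx]; exact T2 ℓ hℓL x hx hp
        simp only [e1]
        exact hx
      · exact absurd c hℓ'.2
    · intro ℓ hℓ ℓ' hℓ' he
      have a := Finset.mem_filter.1 (Finset.mem_coe.1 hℓ)
      have b := Finset.mem_filter.1 (Finset.mem_coe.1 hℓ')
      by_contra hne
      exact hdis ℓ (Finset.mem_range.1 a.1) ℓ' (Finset.mem_range.1 b.1) hne v a.2 he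

end Pool.Agent.H71.HL
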