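import Mathlib
import Pool.Agent.H71.HL.Defs
import Pool.Agent.H71.DX.Nff
import Pool.Agent.H71.DX.Sas

/-!
SL: all the edges of a graph `H` are distributed to `L` labels (matchings that avoid given sets `U ℓ`), if `L` is a bit
larger than the maximum degree.

Proof.  `H28.vizing` gives a proper edge colouring `c` of `H` with `D + 1` colours (`dg H v ≤ D`; see the use in
`DX/Nff.lean`, `natf`). `ν := nff_nu H c` (lemmas `nff_adj`, `nff_eq`, `nff_inv`, ...) is an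
`NF H (D + 1) (card V) (D + 1) 0`: `unc`, `mis` are trivial bounds, `lft`: the set is empty since every edge has a
colour `< D + 1`. `permf` (with `K = D + 1`, `mul (D + 1) U v ≤ mul L U v ≤ s`) gives `μ` with the same properties and
`#{ℓ < D + 1 : μ ℓ v ≠ v ∧ μ ℓ v ∈ U ℓ} ≤ t`.
`m0 ℓ v := if v ∈ U ℓ ∨ μ ℓ v ∈ U ℓ then v else μ ℓ v` for `ℓ < D + 1` (an involution that fixes `U ℓ`; see `DX/InC.lean`).
`S.Adj a b := H.Adj a b ∧ ∀ ℓ < D + 1, m0 ℓ a ≠ b`. An edge `a b` of `S` is `μ ℓ a = b` for some `ℓ < D + 1` with `a ∈ U ℓ` or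
`μ ℓ a ∈ U ℓ`, and different `b` have different `ℓ`: `dg S a ≤ s + t`.
`sas` for `S`, `K := K2`, the sets `U (D + 1 + j)` (`mul K2 _ v ≤ mul L U v ≤ s`), `dS := s + t`,
`cap := card V * (s + t) + 2` (then `card V * (s + t) / (cap - 1) = 0`): `2 s + 2 (s + t) + 0 < K2`. It gives `σ j`, `j < K2`.
`τ ℓ := m0 ℓ` for `ℓ < D + 1`, `τ ℓ := σ (ℓ - (D + 1))` for `D + 1 ≤ ℓ < D + 1 + K2`, `τ ℓ := id` for larger `ℓ`.
`dis`: two `m0`'s: from `NF.dis`; two `σ`'s: from `sas`; `m0` and `σ`: `σ`-edges are edges of `S`, which are not in any `m0 ℓ`.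
-/

set_option autoImplicit false

namespace Pool.Agent.H71.HL

open Finset Classical
open Pool.Agent.H71.DN Pool.Agent.H71.DX

private theorem Sl_mul {V : Type} {K L : ℕ} (h : K ≤ L) (U : ℕ → Finset V) (v : V) :
    mul K U v ≤ mul L U v := by
  unfold mul
  refine card_le_card ?_
  intro j hj
  rw [mem_filter, mem_range] at hj ⊢
  exact ⟨hj.1.trans_le h, hj.2⟩

private theorem Sl_mul2 {V : Type} {K K2 L : ℕ} (h : K + K2 ≤ L) (U : ℕ → Finset V) (v : V) :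
    mul K2 (fun j => U (K + j)) v ≤ mul L U v := by
  unfold mul
  refine card_le_card_of_injOn (fun j => K + j) ?_ ?_
  · intro j hj
    rw [mem_coe, mem_filter, mem_range] at hj ⊢
    refine ⟨?_, hj.2⟩
    have := hj.1
    show K + j < L
    omega
  · intro i _ j _ hij
    have h1 : K + i = K + j := hij
    omega

private theorem Sl_nf {V : Type} [Fintype V] (H : SimpleGraph V) (D : ℕ)
    (hD : ∀ v, dg H v ≤ D) :
    ∃ ν : ℕ → V → V, NF H (D + 1) (Fintype.card V) (D + 1) 0 ν := by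
  obtain ⟨c, hc⟩ : H28.ECol H (D + 1) := H28.vizing (G := H) (d := D) (fun v => by
    have h2 : (H.neighborSet v).ncard = dg H v := by
      unfold dg
      rw [Set.ncard_eq_toFinset_card']
      congr 1
      ext u
      simp
    rw [h2]
    exact hD v)
  refine ⟨nff_nu H c, ⟨fun j _ => nff_inv hc j, fun j _ v hv => (nff_adj hv).1, ?_, ?_, ?_, ?_⟩⟩
  · intro i _ j _ hij v h1 h2
    have h3 := (nff_adj h1).2
    have h4 : nff_nu H c j v ≠ v := by
      rw [← h2]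
      exact h1
    have h5 := (nff_adj h4).2
    rw [← h2, h3] at h5
    exact hij h5
  · intro j _
    exact (card_filter_le _ _).trans (le_of_eq card_univ)
  · intro v
    exact (card_filter_le _ _).trans (le_of_eq (card_range _))
  · intro v
    rw [Nat.le_zero, card_eq_zero, filter_eq_empty_iff]
    rintro u - ⟨h1, h2⟩
    exact h2 _ (hc.1 v u h1) (nff_eq hc h1 rfl)

theorem sl {V : Type} [Fintype V] (H : SimpleGraph V) (D L s t K2 : ℕ) (U : ℕ → Finset V)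
    (hD : ∀ v, dg H v ≤ D) (hs : ∀ v, mul L U v ≤ s)
    (ht : Fintype.card V * s ^ t < t.factorial) (hL : D + 1 + K2 ≤ L)
    (hK2 : 2 * s + 3 * (s + t) < K2) :
    ∃ τ : ℕ → V → V, PM H L U τ ∧ ∀ a b, H.Adj a b → ∃ ℓ < L, τ ℓ a = b := by
  obtain ⟨K, hK⟩ : ∃ K, K = D + 1 := ⟨_, rfl⟩
  obtain ⟨ν, hν⟩ := Sl_nf H D hD
  rw [← hK] at hν hL
  have hKL : K ≤ L := by omega
  obtain ⟨μ, hμ, hμt⟩ := permf H K (Fintype.card V) K 0 s t ν hν U
    (fun v => (Sl_mul hKL U v).trans (hs v)) ht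
  obtain ⟨m0, hm0⟩ : ∃ m0 : ℕ → V → V, m0 = fun ℓ v =>
      if v ∈ U ℓ ∨ μ ℓ v ∈ U ℓ then v else μ ℓ v := ⟨_, rfl⟩
  have hmpos : ∀ ℓ v, (v ∈ U ℓ ∨ μ ℓ v ∈ U ℓ) → m0 ℓ v = v := by
    intro ℓ v h
    rw [hm0]
    show (if v ∈ U ℓ ∨ μ ℓ v ∈ U ℓ then v else μ ℓ v) = v
    rw [if_pos h]
  have hmneg : ∀ ℓ v, ¬ (v ∈ U ℓ ∨ μ ℓ v ∈ U ℓ) → m0 ℓ v = μ ℓ v := by
    intro ℓ v h
    rw [hm0]
    show (if v ∈ U ℓ ∨ μ ℓ v ∈ U ℓ then v else μ ℓ v) = μ ℓ v
    rw [if_neg h]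
  have hcase : ∀ ℓ v, m0 ℓ v = v ∨ m0 ℓ v = μ ℓ v := by
    intro ℓ v
    by_cases h : v ∈ U ℓ ∨ μ ℓ v ∈ U ℓ
    · exact Or.inl (hmpos ℓ v h)
    · exact Or.inr (hmneg ℓ v h)
  have hinv : ∀ ℓ < K, Inv (m0 ℓ) := by
    intro ℓ hℓ v
    by_cases h : v ∈ U ℓ ∨ μ ℓ v ∈ U ℓ
    · rw [hmpos ℓ v h, hmpos ℓ v h]
    · rw [hmneg ℓ v h]
      have h2 : ¬ (μ ℓ v ∈ U ℓ ∨ μ ℓ (μ ℓ v) ∈ U ℓ) := by
        rw [hμ.inv ℓ hℓ v]
        intro h3
        exact h (Or.symm h3)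
      rw [hmneg ℓ _ h2, hμ.inv ℓ hℓ v]
  obtain ⟨S, hS⟩ : ∃ S : SimpleGraph V, ∀ a b, S.Adj a b ↔
      (H.Adj a b ∧ ∀ ℓ < K, m0 ℓ a ≠ b) :=
    ⟨{ Adj := fun a b => H.Adj a b ∧ ∀ ℓ < K, m0 ℓ a ≠ b
       symm := ⟨fun a b h => ⟨h.1.symm, fun ℓ hℓ h2 => h.2 ℓ hℓ (by
         rw [← h2]
         exact hinv ℓ hℓ b)⟩⟩
       loopless := ⟨fun a h => H.irrefl h.1⟩ }, fun a b => Iff.rfl⟩
  have hdS : ∀ v, dg S v ≤ s + t := by
    intro a
    have hsub : (univ.filter fun u => S.Adj a u) ⊆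
        (((range K).filter fun ℓ => a ∈ U ℓ) ∪
          ((range K).filter fun ℓ => μ ℓ a ≠ a ∧ μ ℓ a ∈ U ℓ)).image (fun ℓ => μ ℓ a) := by
      intro u hu
      rw [mem_filter, hS] at hu
      obtain ⟨-, h1, h2⟩ := hu
      obtain ⟨ℓ, hℓ, hu2⟩ : ∃ ℓ < K, μ ℓ a = u := by
        by_contra hcon
        push Not at hcon
        have h3 := hμ.lft a
        rw [Nat.le_zero, card_eq_zero, filter_eq_empty_iff] at h3
        exact h3 (mem_univ u) ⟨h1, hcon⟩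
      refine mem_image.2 ⟨ℓ, ?_, hu2⟩
      have h4 : a ∈ U ℓ ∨ μ ℓ a ∈ U ℓ := by
        by_contra h5
        exact h2 ℓ hℓ ((hmneg ℓ a h5).trans hu2)
      rw [mem_union, mem_filter, mem_filter]
      rcases h4 with h4 | h4
      · exact Or.inl ⟨mem_range.2 hℓ, h4⟩
      · right
        refine ⟨mem_range.2 hℓ, ?_, h4⟩
        rw [hu2]
        exact h1.ne'
    have k0 : dg S a = (univ.filter fun u => S.Adj a u).card := by
      unfold dg
      rfl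
    have k1 := (card_le_card hsub).trans (card_image_le.trans (card_union_le _ _))
    have k2 := hμt a
    have k3 : ((range K).filter fun ℓ => a ∈ U ℓ).card ≤ s :=
      (Sl_mul hKL U a).trans (hs a)
    omega
  obtain ⟨σ, s1, s2, s3, s4, s5, -⟩ := sas S K2 (fun j => U (K + j)) (s + t) s
    (Fintype.card V * (s + t) + 2) hdS (fun v => (Sl_mul2 hL U v).trans (hs v)) (by omega) (by
      have h1 : Fintype.card V * (s + t) / (Fintype.card V * (s + t) + 2 - 1) = 0 :=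
        Nat.div_eq_of_lt (by omega)
      rw [h1]
      omega)
  obtain ⟨τ, hτ⟩ : ∃ τ : ℕ → V → V, τ = fun ℓ =>
      if ℓ < K then m0 ℓ else if ℓ < K + K2 then σ (ℓ - K) else fun v => v := ⟨_, rfl⟩
  have hτ1 : ∀ ℓ, ℓ < K → τ ℓ = m0 ℓ := by
    intro ℓ h
    rw [hτ]
    show (if ℓ < K then m0 ℓ else if ℓ < K + K2 then σ (ℓ - K) else fun v => v) = m0 ℓ
    rw [if_pos h]
  have hτ2 : ∀ ℓ, ¬ ℓ < K → ℓ < K + K2 → τ ℓ = σ (ℓ - K) := by
    intro ℓ h h'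
    rw [hτ]
    show (if ℓ < K then m0 ℓ else if ℓ < K + K2 then σ (ℓ - K) else fun v => v) = σ (ℓ - K)
    rw [if_neg h, if_pos h']
  have hτ3 : ∀ ℓ, ¬ ℓ < K → ¬ ℓ < K + K2 → ∀ v, τ ℓ v = v := by
    intro ℓ h h' v
    rw [hτ]
    show (if ℓ < K then m0 ℓ else if ℓ < K + K2 then σ (ℓ - K) else fun v => v) v = v
    rw [if_neg h, if_neg h']
  refine ⟨τ, ⟨?_, ?_, ?_, ?_⟩, ?_⟩
  · intro ℓ _ v
    by_cases h : ℓ < K
    · rw [hτ1 ℓ h]
      exact hinv ℓ h v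
    · by_cases h' : ℓ < K + K2
      · rw [hτ2 ℓ h h']
        exact s1 _ (by omega) v
      · rw [hτ3 ℓ h h', hτ3 ℓ h h']
  · intro ℓ _ v hv
    by_cases h : ℓ < K
    · rw [hτ1 ℓ h] at hv ⊢
      rcases hcase ℓ v with h1 | h1
      · exact absurd h1 hv
      · rw [h1] at hv ⊢
        exact hμ.adj ℓ h v hv
    · by_cases h' : ℓ < K + K2
      · rw [hτ2 ℓ h h'] at hv ⊢
        exact ((hS _ _).1 (s2 _ (by omega) v hv)).1
      · exact absurd (hτ3 ℓ h h' v) hv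
  · intro ℓ _ ℓ' _ hne v hv
    by_cases h : ℓ < K
    · rw [hτ1 ℓ h] at hv ⊢
      by_cases k : ℓ' < K
      · rw [hτ1 ℓ' k]
        rcases hcase ℓ' v with h2 | h2
        · rw [h2]
          exact hv
        · rcases hcase ℓ v with h1 | h1
          · exact absurd h1 hv
          · rw [h1] at hv ⊢
            rw [h2]
            exact hμ.dis ℓ h ℓ' k hne v hv
      · by_cases k' : ℓ' < K + K2
        · rw [hτ2 ℓ' k k']
          intro he
          rw [he] at hv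
          exact ((hS _ _).1 (s2 _ (by omega) v hv)).2 ℓ h he
        · rw [hτ3 ℓ' k k']
          exact hv
    · by_cases h' : ℓ < K + K2
      · rw [hτ2 ℓ h h'] at hv ⊢
        by_cases k : ℓ' < K
        · rw [hτ1 ℓ' k]
          exact fun he => ((hS _ _).1 (s2 _ (by omega) v hv)).2 ℓ' k he.symm
        · by_cases k' : ℓ' < K + K2
          · rw [hτ2 ℓ' k k']
            exact s3 _ (by omega) _ (by omega) (by omega) v hv
          · rw [hτ3 ℓ' k k']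
            exact hv
      · exact absurd (hτ3 ℓ h h' v) hv
  · intro ℓ _ v hv
    by_cases h : ℓ < K
    · rw [hτ1 ℓ h]
      exact hmpos ℓ v (Or.inl hv)
    · by_cases h' : ℓ < K + K2
      · rw [hτ2 ℓ h h']
        refine s5 _ (by omega) v ?_
        have h1 : K + (ℓ - K) = ℓ := by omega
        rw [h1]
        exact hv
      · exact hτ3 ℓ h h' v
  · intro a b hab
    by_cases hex : ∃ ℓ < K, m0 ℓ a = b
    · obtain ⟨ℓ, h1, h2⟩ := hex
      refine ⟨ℓ, by omega, ?_⟩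
      rw [hτ1 ℓ h1]
      exact h2
    · push Not at hex
      obtain ⟨j, h1, h2⟩ := s4 a b ((hS _ _).2 ⟨hab, hex⟩)
      refine ⟨K + j, by omega, ?_⟩
      rw [hτ2 (K + j) (by omega) (by omega), Nat.add_sub_cancel_left]
      exact h2

end Pool.Agent.H71.HL
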