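import Mathlib
import Pool.Agent.H71.HL.Sl
import Pool.Agent.H71.HL.Lot
import Pool.Agent.H71.DX.GluA

/-!
TAU: the matchings `τ ℓ`, `ℓ < L`, of the edges between `Lo` and the rest and of all the edges inside `S0`.
`Out = Lo ∪ S0`, `Wn c p ℓ = {v : c v < ℓ + p ∧ ℓ < c v + p}` (the window of `ℓ`). Use the theorems `lot` (`HL/Lot.lean`) and `sl` (`HL/Sl.lean`).

Proof.  `r := #Lo`, `C := univ \ Out`, `A x := {v ∈ C : G.Adj x v}` (so `#(A x) = dgi G (univ \ Out) x`), `B x := {v ∈ S0 : G.Adj x v}`,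
`y' x := min L (y x + (#(B x) - (w + r)))` (natural subtraction),
`m x ℓ := if x ∈ Wn c p ℓ then 0 else if ℓ < y x then 1 else if ℓ < y' x then 2 else 0`.
`lot` (`W := Wn c p`): `h1`: if `m x ℓ = 1` then `0 < y x` and `#{ℓ < L : m x ℓ = 1} ≤ y x`, use `hy1`. `h2`: if `m x ℓ = 2` then
`y x ≤ ℓ < y' x`, so `w + r < #(B x)` and `#{ℓ < L : m x ℓ = 2} ≤ y' x - y x ≤ #(B x) - (w + r)`. It gives `τ1`.
`U' ℓ := {v ∈ S0 : v ∈ Wn c p ℓ ∨ τ1 ℓ v ≠ v}`, `mul L U' v ≤ (2 p - 1) + r` (at most `2 p - 1` labels `ℓ` have `v` in their window, see the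
lemma in `DX/Glu.lean`, `... ≤ 2 * p - 1`; the last claim of `lot`; `mul = 0` if `v ∉ S0`). `H.Adj a b := G.Adj a b ∧ a ∈ S0 ∧ b ∈ S0`, `dg H v ≤ D`.
`sl` for `H`, `U'`, `s := 2 p + r` gives `τ2`: it moves only vertices of `S0` outside `U' ℓ`.
`τ ℓ v := if τ1 ℓ v ≠ v then τ1 ℓ v else τ2 ℓ v`. `PM G L (Wn c p) τ`: `dis`: the edges of `τ1` have an end in `Lo`, those of `τ2` are inside `S0`.
Second claim: for `v ∉ Out`, `τ2 ℓ v = v`, and `τ1 ℓ v ≠ v` implies `τ1 ℓ v ∈ Lo`.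
Third claim, `x ∈ Lo`: if `τ ℓ x = x`, `ℓ < L`, then `x ∈ Wn c p ℓ` (at most `2 p - 1` labels) or `y' x ≤ ℓ`: at most
`(2 p - 1) + (L - y' x)` labels. To show: `dg G x + (L - y' x) ≤ Δ`. If `y' x = L` clear. Otherwise `y' x = y x + (#(B x) - (w + r)) < L`,
`y x < L`, so by `hy2` `#(A x) ≤ y x + w + r + q0`; `dg G x ≤ #(A x) + #(B x) + r ≤ y' x + 2 w + 3 r + q0`; use `hΔL`.
`v ∈ S0`: every neighbour `u ∈ S0` is `τ2 ℓ v` for some `ℓ < L`, different `u` for different `ℓ`; so at most `L - dgi G S0 v` labels have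
`τ ℓ v = v`; use `hS`.
Fourth claim: `{v ∉ Out : τ ℓ v ≠ v} = {v ∈ C : τ1 ℓ v ≠ v}` and `m x ℓ = 1 ↔ x ∉ Wn c p ℓ ∧ ℓ < y x`. Last claim: from `lot`.
-/

set_option autoImplicit false

namespace Pool.Agent.H71.HL

open Finset Classical
open Pool.Agent.H71.DN Pool.Agent.H71.DX

/-- The edges of `G` inside `S0`. -/
private def HlTau_H {V : Type} (G : SimpleGraph V) (S0 : Finset V) : SimpleGraph V where
  Adj u v := G.Adj u v ∧ u ∈ S0 ∧ v ∈ S0
  symm := ⟨fun _ _ h => ⟨h.1.symm, h.2.2, h.2.1⟩⟩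
  loopless := ⟨fun _ h => G.irrefl h.1⟩

private theorem HlTau_win {V : Type} [Fintype V] (c : V → ℕ) (p : ℕ) (hp : 1 ≤ p) (v : V)
    (S : Finset ℕ) (hS : ∀ ℓ ∈ S, v ∈ Wn c p ℓ) : S.card ≤ 2 * p - 1 := by
  have h1 : S ⊆ Ico (c v + 1 - p) (c v + p) := by
    intro ℓ hℓ
    have h2 := hS ℓ hℓ
    unfold Wn at h2
    rw [mem_filter] at h2
    rw [mem_Ico]
    omega
  have h2 := card_le_card h1
  rw [Nat.card_Ico] at h2
  omega

/-- The number of partners from the two pools. -/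
private noncomputable def HlTau_m {V : Type} [Fintype V] (c : V → ℕ) (p : ℕ) (y y' : V → ℕ)
    (x : V) (ℓ : ℕ) : ℕ :=
  if x ∈ Wn c p ℓ then 0 else if ℓ < y x then 1 else if ℓ < y' x then 2 else 0

private theorem HlTau_m1 {V : Type} [Fintype V] {c : V → ℕ} {p : ℕ} {y y' : V → ℕ}
    {x : V} {ℓ : ℕ} : HlTau_m c p y y' x ℓ = 1 ↔ x ∉ Wn c p ℓ ∧ ℓ < y x := by
  unfold HlTau_m
  split_ifs with h1 h2 h3
  · exact ⟨fun h => absurd h (by norm_num), fun h => absurd h1 h.1⟩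
  · exact ⟨fun _ => ⟨h1, h2⟩, fun _ => rfl⟩
  · exact ⟨fun h => absurd h (by norm_num), fun h => absurd h.2 h2⟩
  · exact ⟨fun h => absurd h (by norm_num), fun h => absurd h.2 h2⟩

private theorem HlTau_m2 {V : Type} [Fintype V] {c : V → ℕ} {p : ℕ} {y y' : V → ℕ}
    {x : V} {ℓ : ℕ} : HlTau_m c p y y' x ℓ = 2 ↔ x ∉ Wn c p ℓ ∧ y x ≤ ℓ ∧ ℓ < y' x := by
  unfold HlTau_m
  split_ifs with h1 h2 h3
  · exact ⟨fun h => absurd h (by norm_num), fun h => absurd h1 h.1⟩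
  · exact ⟨fun h => absurd h (by norm_num), fun h => absurd h.2.1 (by omega)⟩
  · exact ⟨fun _ => ⟨h1, by omega, h3⟩, fun _ => rfl⟩
  · exact ⟨fun h => absurd h (by norm_num), fun h => absurd h.2.2 h3⟩

private theorem HlTau_m0 {V : Type} [Fintype V] {c : V → ℕ} {p : ℕ} {y y' : V → ℕ}
    {x : V} {ℓ : ℕ} (h : x ∈ Wn c p ℓ) : HlTau_m c p y y' x ℓ = 0 := by
  unfold HlTau_m
  rw [if_pos h]

section
variable {V : Type} [Fintype V] {G : SimpleGraph V} {Lo S0 : Finset V} {c : V → ℕ} {p L : ℕ}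
  {τ1 τ2 : ℕ → V → V} {U' : ℕ → Finset V}

/-- The union of the two families. -/
private noncomputable def HlTau_t (τ1 τ2 : ℕ → V → V) (ℓ : ℕ) (v : V) : V :=
  if τ1 ℓ v ≠ v then τ1 ℓ v else τ2 ℓ v

omit [Fintype V] in
private theorem HlTau_t1 {ℓ : ℕ} {v : V} (h : τ1 ℓ v ≠ v) : HlTau_t τ1 τ2 ℓ v = τ1 ℓ v := by
  unfold HlTau_t
  rw [if_pos h]

omit [Fintype V] in
private theorem HlTau_t2 {ℓ : ℕ} {v : V} (h : τ1 ℓ v = v) : HlTau_t τ1 τ2 ℓ v = τ2 ℓ v := by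
  unfold HlTau_t
  rw [if_neg (fun h' => h' h)]

private theorem HlTau_f1 (h2 : PM (HlTau_H G S0) L U' τ2)
    (hU : ∀ ℓ v, v ∈ U' ℓ ↔ v ∈ S0 ∧ (v ∈ Wn c p ℓ ∨ τ1 ℓ v ≠ v)) {ℓ : ℕ} (hℓ : ℓ < L) {v : V}
    (hv : τ2 ℓ v ≠ v) : G.Adj v (τ2 ℓ v) ∧ v ∈ S0 ∧ τ2 ℓ v ∈ S0 ∧ v ∉ Wn c p ℓ ∧ τ1 ℓ v = v ∧
      τ1 ℓ (τ2 ℓ v) = τ2 ℓ v := by
  have h3 : (HlTau_H G S0).Adj v (τ2 ℓ v) := h2.adj ℓ hℓ v hv
  have h4 : v ∉ U' ℓ := fun h => hv (h2.fix ℓ hℓ v h)
  have h5 : τ2 ℓ (τ2 ℓ v) = v := h2.inv ℓ hℓ v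
  have h6 : τ2 ℓ v ∉ U' ℓ := by
    intro h
    have h7 := h2.fix ℓ hℓ _ h
    rw [h5] at h7
    exact hv h7.symm
  rw [hU] at h4 h6
  refine ⟨h3.1, h3.2.1, h3.2.2, ?_, ?_, ?_⟩
  · exact fun h => h4 ⟨h3.2.1, Or.inl h⟩
  · by_contra h
    exact h4 ⟨h3.2.1, Or.inr h⟩
  · by_contra h
    exact h6 ⟨h3.2.2, Or.inr h⟩

private theorem HlTau_pm (h1 : PM G L (Wn c p) τ1) (h2 : PM (HlTau_H G S0) L U' τ2)
    (hU : ∀ ℓ v, v ∈ U' ℓ ↔ v ∈ S0 ∧ (v ∈ Wn c p ℓ ∨ τ1 ℓ v ≠ v)) (hdj : Disjoint Lo S0)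
    (hd : ∀ ℓ < L, ∀ v, v ∉ Lo → τ1 ℓ v ≠ v → τ1 ℓ v ∈ Lo) :
    PM G L (Wn c p) (HlTau_t τ1 τ2) := by
  have hsep : ∀ v, v ∈ Lo → v ∈ S0 → False := fun v a b => (disjoint_left.1 hdj) a b
  refine ⟨?_, ?_, ?_, ?_⟩
  · intro ℓ hℓ v
    have i1 : τ1 ℓ (τ1 ℓ v) = v := h1.inv ℓ hℓ v
    have i2 : τ2 ℓ (τ2 ℓ v) = v := h2.inv ℓ hℓ v
    by_cases hv : τ1 ℓ v = v
    · rw [HlTau_t2 hv]
      by_cases hw : τ2 ℓ v = v
      · rw [hw, HlTau_t2 hv, hw]
      · rw [HlTau_t2 (HlTau_f1 h2 hU hℓ hw).2.2.2.2.2, i2]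
    · rw [HlTau_t1 hv, HlTau_t1 (by rw [i1]; exact fun h => hv h.symm), i1]
  · intro ℓ hℓ v hv
    by_cases hw : τ1 ℓ v = v
    · rw [HlTau_t2 hw] at hv ⊢
      exact (HlTau_f1 h2 hU hℓ hv).1
    · rw [HlTau_t1 hw]
      exact h1.adj ℓ hℓ v hw
  · intro ℓ hℓ ℓ' hℓ' hne v hv
    have key : ∀ a < L, ∀ b < L, τ1 a v ≠ v → τ2 b v ≠ v → τ1 a v ≠ τ2 b v := by
      intro a ha b hb e1 e2 e3
      obtain ⟨-, g1, g2, -, -, -⟩ := HlTau_f1 h2 hU hb e2
      by_cases hL : v ∈ Lo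
      · exact hsep v hL g1
      · have g3 := hd a ha v hL e1
        rw [e3] at g3
        exact hsep _ g3 g2
    by_cases hw : τ1 ℓ v = v
    · rw [HlTau_t2 hw] at hv ⊢
      by_cases hw' : τ1 ℓ' v = v
      · rw [HlTau_t2 hw']
        exact h2.dis ℓ hℓ ℓ' hℓ' hne v hv
      · rw [HlTau_t1 hw']
        exact fun h => key ℓ' hℓ' ℓ hℓ hw' hv h.symm
    · rw [HlTau_t1 hw]
      by_cases hw' : τ1 ℓ' v = v
      · rw [HlTau_t2 hw']
        by_cases hw2 : τ2 ℓ' v = v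
        · rw [hw2]
          exact hw
        · exact key ℓ hℓ ℓ' hℓ' hw hw2
      · rw [HlTau_t1 hw']
        exact h1.dis ℓ hℓ ℓ' hℓ' hne v hw
  · intro ℓ hℓ v hv
    have hw : τ1 ℓ v = v := h1.fix ℓ hℓ v hv
    rw [HlTau_t2 hw]
    by_contra h
    exact (HlTau_f1 h2 hU hℓ h).2.2.2.1 hv

end

theorem tau {V : Type} [Fintype V] (G : SimpleGraph V) (Δ p L w D t K2 q0 : ℕ) (hp : 1 ≤ p)
    (hΔ : ∀ v, dg G v ≤ Δ) (Lo S0 Out : Finset V) (hO : Out = Lo ∪ S0) (hdj : Disjoint Lo S0)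
    (c : V → ℕ) (hW : ∀ ℓ < L, (Wn c p ℓ).card ≤ w) (y : V → ℕ) (hyL : ∀ x ∈ Lo, y x ≤ L)
    (hy1 : ∀ x ∈ Lo, 0 < y x → y x + w + Lo.card ≤ dgi G (univ \ Out) x)
    (hy2 : ∀ x ∈ Lo, y x = L ∨ dgi G (univ \ Out) x ≤ y x + w + Lo.card + q0)
    (hΔL : L + 3 * Lo.card + 2 * w + q0 ≤ Δ)
    (hS : ∀ v ∈ S0, dg G v + L + 1 ≤ dgi G S0 v + Δ + 2 * p)
    (hD : ∀ v ∈ S0, dgi G S0 v ≤ D) (hL : D + 1 + K2 ≤ L)
    (ht : Fintype.card V * (2 * p + Lo.card) ^ t < t.factorial)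
    (hK2 : 2 * (2 * p + Lo.card) + 3 * (2 * p + Lo.card + t) < K2) :
    ∃ τ : ℕ → V → V, PM G L (Wn c p) τ ∧
      (∀ ℓ < L, ∀ v, τ ℓ v ≠ v → v ∉ Out → τ ℓ v ∈ Out) ∧
      (∀ v ∈ Out, dg G v + ((range L).filter fun ℓ => τ ℓ v = v).card + 1 ≤ Δ + 2 * p) ∧
      (∀ ℓ < L, (univ.filter fun v => v ∉ Out ∧ τ ℓ v ≠ v).card =
        (Lo.filter fun x => x ∉ Wn c p ℓ ∧ ℓ < y x).card) ∧
      ∀ v, v ∉ Out → ((range L).filter fun ℓ => τ ℓ v ≠ v).card ≤ Lo.card := by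
  obtain ⟨C, hCd⟩ : ∃ C : Finset V, C = univ \ Out := ⟨_, rfl⟩
  have hCm : ∀ v, v ∈ C ↔ v ∉ Out := by
    intro v
    rw [hCd, mem_sdiff]
    exact ⟨fun h => h.2, fun h => ⟨mem_univ _, h⟩⟩
  have hOm : ∀ v, v ∈ Out ↔ v ∈ Lo ∨ v ∈ S0 := by
    intro v
    rw [hO, mem_union]
  have hsep : ∀ v, v ∈ Lo → v ∈ S0 → False := fun v a b => (disjoint_left.1 hdj) a b
  rw [← hCd] at hy1 hy2
  obtain ⟨A, hA⟩ : ∃ A : V → Finset V, A = fun x => C.filter fun v => G.Adj x v := ⟨_, rfl⟩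
  obtain ⟨B, hB⟩ : ∃ B : V → Finset V, B = fun x => S0.filter fun v => G.Adj x v := ⟨_, rfl⟩
  have hAm : ∀ x v, v ∈ A x ↔ v ∈ C ∧ G.Adj x v := by
    intro x v
    rw [hA]
    exact mem_filter
  have hBm : ∀ x v, v ∈ B x ↔ v ∈ S0 ∧ G.Adj x v := by
    intro x v
    rw [hB]
    exact mem_filter
  have hAc : ∀ x, dgi G C x = (A x).card := by
    intro x
    unfold dgi
    congr 1
    ext v
    rw [hAm, mem_filter]
  have hBc : ∀ x, dgi G S0 x = (B x).card := by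
    intro x
    unfold dgi
    congr 1
    ext v
    rw [hBm, mem_filter]
  obtain ⟨y', hy'⟩ : ∃ y' : V → ℕ, ∀ x, y' x = min L (y x + ((B x).card - (w + Lo.card))) :=
    ⟨_, fun _ => rfl⟩
  have hyy : ∀ x, y' x ≤ L := fun x => by rw [hy' x]; exact min_le_left _ _
  have hyy2 : ∀ x, y' x ≤ y x + ((B x).card - (w + Lo.card)) := fun x => by
    rw [hy' x]
    exact min_le_right _ _
  obtain ⟨m, hm⟩ : ∃ m : V → ℕ → ℕ, m = HlTau_m c p y y' := ⟨_, rfl⟩
  have hm1 : ∀ x ℓ, m x ℓ = 1 ↔ x ∉ Wn c p ℓ ∧ ℓ < y x := by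
    intro x ℓ
    rw [hm]
    exact HlTau_m1
  have hm2 : ∀ x ℓ, m x ℓ = 2 ↔ x ∉ Wn c p ℓ ∧ y x ≤ ℓ ∧ ℓ < y' x := by
    intro x ℓ
    rw [hm]
    exact HlTau_m2
  obtain ⟨τ1, p1, ta, tb, -, td, te, tf⟩ := lot G Lo C L w A B m (Wn c p)
    (by
      intro x _ v hv
      rw [hAm] at hv
      exact ⟨hv.2, hv.1⟩)
    (by
      intro x _ v hv
      rw [hBm] at hv
      refine ⟨hv.2, ?_, fun h => hsep v h hv.1⟩
      rw [hCm, hOm]
      exact fun h => h (Or.inr hv.1))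
    (by
      rw [disjoint_left]
      intro v hv
      rw [hCm, hOm]
      exact fun h => h (Or.inl hv))
    (by
      intro ℓ _ x _ hx
      rw [hm]
      exact HlTau_m0 hx)
    hW
    (by
      intro x hx ℓ _ hℓ
      rw [hm1] at hℓ
      have h1 := hy1 x hx (by omega)
      rw [hAc] at h1
      have h2 : ((range L).filter fun ℓ => m x ℓ = 1).card ≤ y x := by
        have h3 : ((range L).filter fun ℓ => m x ℓ = 1) ⊆ range (y x) := by
          intro k hk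
          rw [mem_filter, hm1] at hk
          exact mem_range.2 hk.2.2
        have h4 := card_le_card h3
        rwa [card_range] at h4
      omega)
    (by
      intro x hx ℓ _ hℓ
      rw [hm2] at hℓ
      have h1 := hyy2 x
      have h2 : ((range L).filter fun ℓ => m x ℓ = 2).card ≤ y' x - y x := by
        have h3 : ((range L).filter fun ℓ => m x ℓ = 2) ⊆ Ico (y x) (y' x) := by
          intro k hk
          rw [mem_filter, hm2] at hk
          exact mem_Ico.2 hk.2.2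
        have h4 := card_le_card h3
        rwa [Nat.card_Ico] at h4
      omega)
  obtain ⟨U', hU'⟩ : ∃ U' : ℕ → Finset V,
    U' = fun ℓ => S0.filter fun v => v ∈ Wn c p ℓ ∨ τ1 ℓ v ≠ v := ⟨_, rfl⟩
  have hU : ∀ ℓ v, v ∈ U' ℓ ↔ v ∈ S0 ∧ (v ∈ Wn c p ℓ ∨ τ1 ℓ v ≠ v) := by
    intro ℓ v
    rw [hU']
    exact mem_filter
  have hmul : ∀ v, mul L U' v ≤ 2 * p + Lo.card := by
    intro v
    by_cases hv : v ∈ S0
    · have hv' : v ∉ Lo := fun h => hsep v h hv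
      have h1 := tf v hv'
      have h2 : ((range L).filter fun ℓ => v ∈ Wn c p ℓ).card ≤ 2 * p - 1 :=
        HlTau_win c p hp v _ (fun ℓ hℓ => (mem_filter.1 hℓ).2)
      have h3 : mul L U' v ≤ (((range L).filter fun ℓ => v ∈ Wn c p ℓ) ∪
          ((range L).filter fun ℓ => τ1 ℓ v ≠ v)).card := by
        unfold mul
        apply card_le_card
        intro ℓ hℓ
        rw [mem_filter, hU] at hℓ
        rw [mem_union, mem_filter, mem_filter]
        rcases hℓ.2.2 with h | h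
        · exact Or.inl ⟨hℓ.1, h⟩
        · exact Or.inr ⟨hℓ.1, h⟩
      have h4 := h3.trans (card_union_le _ _)
      omega
    · have h3 : mul L U' v = 0 := by
        unfold mul
        rw [card_eq_zero, filter_eq_empty_iff]
        intro ℓ _ h
        rw [hU] at h
        exact hv h.1
      omega
  have hdH : ∀ v, dg (HlTau_H G S0) v ≤ D := by
    intro v
    by_cases hv : v ∈ S0
    · refine le_trans ?_ (hD v hv)
      unfold dg dgi
      apply card_le_card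
      intro u hu
      rw [mem_filter] at hu ⊢
      exact ⟨hu.2.2.2, hu.2.1⟩
    · have h3 : dg (HlTau_H G S0) v = 0 := by
        unfold dg
        rw [card_eq_zero, filter_eq_empty_iff]
        intro u _ h
        exact hv h.2.1
      omega
  obtain ⟨τ2, p2, hcov⟩ := sl (HlTau_H G S0) D L (2 * p + Lo.card) t K2 U' hdH hmul ht hL hK2
  have hpm := HlTau_pm p1 p2 hU hdj td
  have hout : ∀ ℓ < L, ∀ v, v ∉ Out →
      (HlTau_t τ1 τ2 ℓ v ≠ v ↔ τ1 ℓ v ≠ v) := by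
    intro ℓ hℓ v hv
    rw [hOm] at hv
    by_cases hw : τ1 ℓ v = v
    · rw [HlTau_t2 hw]
      constructor
      · intro h
        exact absurd (Or.inr (HlTau_f1 p2 hU hℓ h).2.1) hv
      · intro h
        exact absurd hw h
    · rw [HlTau_t1 hw]
  refine ⟨HlTau_t τ1 τ2, hpm, ?_, ?_, ?_, ?_⟩
  · intro ℓ hℓ v hv hvO
    have hw := (hout ℓ hℓ v hvO).1 hv
    rw [HlTau_t1 hw, hOm]
    rw [hOm] at hvO
    exact Or.inl (td ℓ hℓ v (fun h => hvO (Or.inl h)) hw)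
  · intro v hv
    rw [hOm] at hv
    rcases hv with hv | hv
    · have h1 : ((range L).filter fun ℓ => HlTau_t τ1 τ2 ℓ v = v).card ≤
          (((range L).filter fun ℓ => v ∈ Wn c p ℓ) ∪ Ico (y' v) L).card := by
        apply card_le_card
        intro ℓ hℓ
        rw [mem_filter, mem_range] at hℓ
        rw [mem_union, mem_filter, mem_Ico, mem_range]
        by_cases h2 : v ∈ Wn c p ℓ
        · exact Or.inl ⟨hℓ.1, h2⟩
        · right
          refine ⟨?_, hℓ.1⟩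
          by_contra h3
          rw [not_le] at h3
          have h5 : τ1 ℓ v ≠ v := by
            by_cases h4 : ℓ < y v
            · have h6 := ta ℓ hℓ.1 v hv ((hm1 v ℓ).2 ⟨h2, h4⟩)
              rw [hAm] at h6
              intro h7
              rw [h7] at h6
              exact G.irrefl h6.2
            · have h6 := tb ℓ hℓ.1 v hv ((hm2 v ℓ).2 ⟨h2, by omega, h3⟩)
              rw [hBm] at h6
              intro h7
              rw [h7] at h6
              exact G.irrefl h6.2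
          have h8 := hℓ.2
          rw [HlTau_t1 h5] at h8
          exact h5 h8
      have h2 : ((range L).filter fun ℓ => v ∈ Wn c p ℓ).card ≤ 2 * p - 1 :=
        HlTau_win c p hp v _ (fun ℓ hℓ => (mem_filter.1 hℓ).2)
      have h3 := h1.trans (card_union_le _ _)
      rw [Nat.card_Ico] at h3
      have h4 : dg G v + (L - y' v) ≤ Δ := by
        rcases lt_or_ge (y v + ((B v).card - (w + Lo.card))) L with h5 | h5
        · have h6 : y' v = y v + ((B v).card - (w + Lo.card)) := by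
            rw [hy' v]
            exact min_eq_right h5.le
          have h7 : dgi G C v ≤ y v + w + Lo.card + q0 := by
            rcases hy2 v hv with h | h
            · omega
            · exact h
          rw [hAc] at h7
          have h8 : dg G v ≤ (A v).card + (B v).card + Lo.card := by
            have h9 : (univ.filter fun u => G.Adj v u) ⊆ (A v ∪ B v) ∪ Lo := by
              intro u hu
              rw [mem_filter] at hu
              rw [mem_union, mem_union, hAm, hBm, hCm, hOm]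
              by_cases k1 : u ∈ Lo
              · exact Or.inr k1
              · by_cases k2 : u ∈ S0
                · exact Or.inl (Or.inr ⟨k2, hu.2⟩)
                · exact Or.inl (Or.inl ⟨fun h => h.elim k1 k2, hu.2⟩)
            have h10 := card_le_card h9
            have h11 := card_union_le (A v ∪ B v) Lo
            have h12 := card_union_le (A v) (B v)
            unfold dg
            omega
          omega
        · have h6 : y' v = L := by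
            rw [hy' v]
            exact min_eq_left h5
          have h7 := hΔ v
          omega
      omega
    · have h1 : dgi G S0 v ≤ ((range L).filter fun ℓ => ¬ HlTau_t τ1 τ2 ℓ v = v).card := by
        have h2 : (S0.filter fun u => G.Adj v u) ⊆
            ((range L).filter fun ℓ => ¬ HlTau_t τ1 τ2 ℓ v = v).image
              (fun ℓ => HlTau_t τ1 τ2 ℓ v) := by
          intro u hu
          rw [mem_filter] at hu
          obtain ⟨ℓ, hℓ, h3⟩ := hcov v u ⟨hu.2, hv, hu.1⟩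
          have h4 : τ2 ℓ v ≠ v := by
            rw [h3]
            exact hu.2.ne'
          have h5 := (HlTau_f1 p2 hU hℓ h4).2.2.2.2.1
          rw [mem_image]
          refine ⟨ℓ, ?_, ?_⟩
          · rw [mem_filter, mem_range, HlTau_t2 h5]
            exact ⟨hℓ, h4⟩
          · rw [HlTau_t2 h5, h3]
        unfold dgi
        exact (card_le_card h2).trans card_image_le
      have h2 := card_filter_add_card_filter_not (s := range L)
        (fun ℓ => HlTau_t τ1 τ2 ℓ v = v)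
      rw [card_range] at h2
      have h3 := hS v hv
      omega
  · intro ℓ hℓ
    have h1 : (univ.filter fun v => v ∉ Out ∧ HlTau_t τ1 τ2 ℓ v ≠ v) =
        C.filter fun v => τ1 ℓ v ≠ v := by
      ext v
      rw [mem_filter, mem_filter, hCm]
      constructor
      · rintro ⟨-, h2, h3⟩
        exact ⟨h2, (hout ℓ hℓ v h2).1 h3⟩
      · rintro ⟨h2, h3⟩
        exact ⟨mem_univ _, h2, (hout ℓ hℓ v h2).2 h3⟩
    have h2 : (Lo.filter fun x => x ∉ Wn c p ℓ ∧ ℓ < y x) =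
        Lo.filter fun x => m x ℓ = 1 := by
      ext x
      rw [mem_filter, mem_filter, hm1]
    rw [h1, h2]
    exact te ℓ hℓ
  · intro v hv
    refine le_trans ?_ (tf v (fun h => hv ((hOm v).2 (Or.inl h))))
    apply card_le_card
    intro ℓ hℓ
    rw [mem_filter] at hℓ ⊢
    exact ⟨hℓ.1, (hout ℓ (mem_range.1 hℓ.1) v hv).1 hℓ.2⟩

end Pool.Agent.H71.HL
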