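import Mathlib
import Pool.Agent.H71.HL.Tau
import Pool.Agent.H71.HL.Gl3
import Pool.Agent.H71.HL.Lbs
import Pool.Agent.H71.HL.Bdq
import Pool.Agent.H71.DX.LyN
import Pool.Agent.H71.DX.LyV
import Pool.Agent.H71.DX.Wnd

/-!
OUT2: from the core theorem on the vertices outside `Out = Lo ∪ S0` to a labelling of `G`. Compare `outer` in `DX/Out.lean` (proved):
the same structure; use the STATEMENTS of `tau, gl3, lbs, bdq, wsz` (`HL`), `lyN, lyV, wpar` (`DX`).

Proof.  `w := 2 p (3 + s1)`, `a x := dgi G (univ \ Out) x`, `y x := min L (q0 * ((a x - (w + r)) / q0))`. So `y x = L` or `q0 ∣ y x`; if `0 < y x` then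
`y x + w + r ≤ a x` (`q0 * (b / q0) ≤ b`, and `b = a x - (w + r) > 0`); and `y x = L` or `a x ≤ y x + w + r + q0`.
`B := {ℓ < L : ¬ Even (n1 + #{x ∈ Lo : ℓ < y x})}`, `#B ≤ L`; `bdq`: at most `rb := L / q0 + 2` boundaries. `2 M0 ≤ n1`.
`lyN n1 r L p M0 w0 rb B` gives `Y1, Y2, k'`; `lyV π` gives `c1 : {v // v ∉ Out} → ℕ` (values in `Y1 ∪ Y2`, so in `[r, k')`; vertices with the
same label are not adjacent by `hπ2`). By `hk` (and `#B ≤ L`) `k' ≤ k2 := L + 1 - p`. `lbs` with this `k2` (`hk2`) gives `c`.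
Every label is used by at most `2` vertices outside `Out` (`c1`), by at most one of `Lo` and at most `s1` of `S0`, so by `wsz`
`#(Wn c p ℓ) ≤ (2 p - 1) (3 + s1) ≤ w`. `tau` (with `D`, `t`, `K2`, `q0`; `dgi G S0 v ≤ dg G v ≤ D`) gives `τ`.
`U ℓ := {v : {v // v ∉ Out} | v.1 ∈ Wn c p ℓ ∨ τ ℓ v.1 ≠ v.1}`. `#(U ℓ) ≤ 2 (2 p - 1) + r ≤ κ1` (`wsz`, and the fourth claim of `tau`), `mul L U v ≤ (2 p - 1) + r ≤ κ1`.
Parity: `τ ℓ` fixes the window, so `#(U ℓ) = #{v ∉ Out : v ∈ Wn c p ℓ} + #{v ∉ Out : τ ℓ v ≠ v}`; the first number is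
`#(Y1 ∩ window) + 2 #(Y2 ∩ window)` (`wpar`), the second is `#{x ∈ Lo : x ∉ Wn c p ℓ, ℓ < y x}`; if `r + p ≤ ℓ` no `x ∈ Lo` is in `Wn c p ℓ` (`c x < r`), so then it is
`#{x ∈ Lo : ℓ < y x}`. Hence if `r + p ≤ ℓ < L` and `ℓ ∈ B ↔ Odd (Y1 ∩ window)` then `#(univ \ U ℓ) = n1 - #(U ℓ)` is even. So the number of `ℓ < L` with
`¬ Even #(univ \ U ℓ)` is at most `(r + p) + (the bound of lyN) ≤ w1`. `hcore` gives `mm`; `gl3` (with `k' := k2`, `k2 + p - 1 ≤ L`, `L + 1 ≤ Δ + 2 p`) finishes.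
-/

set_option autoImplicit false

namespace Pool.Agent.H71.HL

open Finset Classical
open Pool.Agent.H71.DN Pool.Agent.H71.DX

private theorem HlOut2_half {α : Type} [Fintype α] (c1 : α → ℕ) (Y1 Y2 : Finset ℕ)
    (h1 : ∀ v, c1 v ∈ Y1 ∪ Y2)
    (h2 : ∀ m ∈ Y2, (univ.filter fun v => c1 v = m).card = 2)
    (h3 : ∀ m ∈ Y1, (univ.filter fun v => c1 v = m).card = 1) (i : ℕ) :
    (univ.filter fun v => c1 v = i).card ≤ 2 := by
  by_cases hi : i ∈ Y2
  · exact (h2 i hi).le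
  by_cases hi' : i ∈ Y1
  · have := h3 i hi'
    omega
  · have h : (univ.filter fun v => c1 v = i) = ∅ := by
      rw [filter_eq_empty_iff]
      intro v _ hv
      have := h1 v
      rw [hv, mem_union] at this
      tauto
    rw [h, card_empty]
    omega

private theorem HlOut2_lab {V : Type} [Fintype V] (Lo S0 Out : Finset V) (hO : Out = Lo ∪ S0)
    (c : V → ℕ) (c1 : {v // v ∉ Out} → ℕ) (hc : ∀ v : {v // v ∉ Out}, c v.1 = c1 v) (s1 : ℕ)
    (h1 : ∀ i, (univ.filter fun v => c1 v = i).card ≤ 2)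
    (h2 : ∀ i, (univ.filter fun v => v ∈ Lo ∧ c v = i).card ≤ 1)
    (h3 : ∀ i, (univ.filter fun v => v ∈ S0 ∧ c v = i).card ≤ s1) (i : ℕ) :
    (univ.filter fun v => c v = i).card ≤ 3 + s1 := by
  have h4 : (univ.filter fun v => c v = i) ⊆
      ((univ.filter fun v => c1 v = i).image Subtype.val) ∪
      ((univ.filter fun v => v ∈ Lo ∧ c v = i) ∪ (univ.filter fun v => v ∈ S0 ∧ c v = i)) := by
    intro v hv
    rw [mem_filter] at hv
    rw [mem_union, mem_union, mem_image, mem_filter, mem_filter]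
    by_cases h : v ∈ Out
    · rw [hO, mem_union] at h
      rcases h with h | h
      · exact Or.inr (Or.inl ⟨mem_univ _, h, hv.2⟩)
      · exact Or.inr (Or.inr ⟨mem_univ _, h, hv.2⟩)
    · refine Or.inl ⟨⟨v, h⟩, ?_, rfl⟩
      rw [mem_filter]
      exact ⟨mem_univ _, by rw [← hc]; exact hv.2⟩
  have h5 := card_le_card h4
  have h6 := card_union_le ((univ.filter fun v => c1 v = i).image Subtype.val)
    ((univ.filter fun v => v ∈ Lo ∧ c v = i) ∪ (univ.filter fun v => v ∈ S0 ∧ c v = i))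
  have h7 := card_union_le (univ.filter fun v => v ∈ Lo ∧ c v = i)
    (univ.filter fun v => v ∈ S0 ∧ c v = i)
  have h8 : ((univ.filter fun v => c1 v = i).image Subtype.val).card ≤
    (univ.filter fun v => c1 v = i).card := card_image_le
  have h9 := h1 i
  have h10 := h2 i
  have h11 := h3 i
  omega

private theorem HlOut2_sub {V : Type} (Out : Finset V) (P : V → Prop)
    (A : Finset {v // v ∉ Out}) (B : Finset V) (hA : ∀ v, v ∈ A ↔ P v.1)
    (hB : ∀ v, v ∈ B ↔ v ∉ Out ∧ P v) : A.card = B.card := by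
  rw [← card_image_of_injective _ (Subtype.val_injective (p := fun v => v ∉ Out))]
  congr 1
  ext v
  rw [mem_image, hB]
  constructor
  · rintro ⟨u, hu, rfl⟩
    exact ⟨u.2, (hA u).1 hu⟩
  · rintro ⟨h1, h2⟩
    exact ⟨⟨v, h1⟩, (hA _).2 h2, rfl⟩

private theorem HlOut2_win (L p a : ℕ) (hp : 1 ≤ p) :
    ((range L).filter fun ℓ => a < ℓ + p ∧ ℓ < a + p).card ≤ 2 * p - 1 := by
  have h1 : ((range L).filter fun ℓ => a < ℓ + p ∧ ℓ < a + p) ⊆
      Finset.Ico (a + 1 - p) (a + p) := by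
    intro ℓ hℓ
    obtain ⟨_, a1, a2⟩ := Finset.mem_filter.1 hℓ
    rw [Finset.mem_Ico]
    omega
  have h2 := Finset.card_le_card h1
  rw [Nat.card_Ico] at h2
  omega

private theorem HlOut2_mf {α : Type} (p : α → Prop) (i : DecidablePred p) (s : Finset α) (a : α)
    (h : a ∈ @Finset.filter α p i s) : a ∈ s ∧ p a := (@Finset.mem_filter α p i s a).1 h

private theorem HlOut2_mul {V : Type} [Fintype V] (Out : Finset V) (c : V → ℕ) (p L r : ℕ)
    (hp : 1 ≤ p) (τ : ℕ → V → V) (U : ℕ → Finset {v // v ∉ Out})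
    (hU : ∀ ℓ v, v ∈ U ℓ ↔ (v.1 ∈ Wn c p ℓ ∨ τ ℓ v.1 ≠ v.1))
    (h : ∀ v, v ∉ Out → ((range L).filter fun ℓ => τ ℓ v ≠ v).card ≤ r)
    (v : {v // v ∉ Out}) : mul L U v ≤ (2 * p - 1) + r := by
  have h4 := HlOut2_win L p (c v.1) hp
  have h5 := h v.1 v.2
  have h3 := card_union_le ((range L).filter fun ℓ => c v.1 < ℓ + p ∧ ℓ < c v.1 + p)
    ((range L).filter fun ℓ => τ ℓ v.1 ≠ v.1)
  unfold mul
  refine le_trans (card_le_card ?_) (h3.trans (by omega))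
  intro ℓ hℓ
  replace hℓ := HlOut2_mf _ _ _ _ hℓ
  rw [mem_union, mem_filter, mem_filter]
  rcases (hU ℓ v).1 hℓ.2 with h2 | h2
  · left
    unfold Wn at h2
    rw [mem_filter] at h2
    exact ⟨hℓ.1, h2.2⟩
  · exact Or.inr ⟨hℓ.1, h2⟩

private theorem HlOut2_card {V : Type} [Fintype V] (Out : Finset V) (c : V → ℕ) (p ℓ : ℕ)
    (τ : V → V) (U : Finset {v // v ∉ Out})
    (hU : ∀ v, v ∈ U ↔ (v.1 ∈ Wn c p ℓ ∨ τ v.1 ≠ v.1))
    (hf : ∀ v ∈ Wn c p ℓ, τ v = v) :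
    U.card = (univ.filter fun v : {v // v ∉ Out} => v.1 ∈ Wn c p ℓ).card +
      (univ.filter fun v => v ∉ Out ∧ τ v ≠ v).card := by
  have h0 : (univ.filter fun v : {v // v ∉ Out} => τ v.1 ≠ v.1).card =
      (univ.filter fun v => v ∉ Out ∧ τ v ≠ v).card :=
    HlOut2_sub Out (fun v => τ v ≠ v) _ _ (fun v => by rw [mem_filter]; simp only [mem_univ, true_and])
      (fun v => by rw [mem_filter]; simp only [mem_univ, true_and])
  rw [← h0, ← card_union_of_disjoint]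
  · congr 1
    ext v
    rw [hU, mem_union, mem_filter, mem_filter]
    constructor
    · rintro (h | h)
      · exact Or.inl ⟨mem_univ _, h⟩
      · exact Or.inr ⟨mem_univ _, h⟩
    · rintro (h | h)
      · exact Or.inl h.2
      · exact Or.inr h.2
  · rw [disjoint_left]
    intro v h1 h2
    rw [mem_filter] at h1 h2
    exact h2.2 (hf v.1 h1.2)

private theorem HlOut2_par (n1 a b y1 y2 u s : ℕ) (P Q : Prop) (h1 : s + u = n1)
    (h2 : u = (y1 + 2 * y2) + a) (h3 : a = b) (h4 : P ↔ ¬ Even (n1 + b)) (h5 : P ↔ Q)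
    (h6 : Q ↔ Odd y1) : Even s := by
  have h7 : (¬ Even (n1 + b)) ↔ Odd y1 := h4.symm.trans (h5.trans h6)
  rw [Nat.not_even_iff_odd] at h7
  rw [Nat.odd_iff, Nat.odd_iff] at h7
  rw [Nat.even_iff]
  omega

theorem out2 {V : Type} [Fintype V] (G : SimpleGraph V)
    (Δ p L M0 w0 w1 κ1 n1 r s1 q0 D t K2 : ℕ) (hp : 1 ≤ p) (hs1 : 1 ≤ s1) (hq0 : 1 ≤ q0)
    (Lo S0 Out : Finset V) (hO : Out = Lo ∪ S0) (hdj : Disjoint Lo S0) (hr : r = Lo.card)
    (hn1 : n1 = Fintype.card {v // v ∉ Out}) (hΔ : ∀ v, dg G v ≤ Δ)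
    (π : {v // v ∉ Out} → {v // v ∉ Out}) (hπ : Inv π)
    (hπ2 : ∀ v, π v ≠ v → ¬ G.Adj v.1 (π v).1)
    (hM : 2 * M0 ≤ (univ.filter fun v => π v ≠ v).card) (hrw : r ≤ w0)
    (hL : 2 * L ≤ n1 + 2 * w0)
    (hk : 2 * r + max (2 * n1 - 2 * M0) (n1 + (L - w0) + 1) + 2 * p ≤ 2 * L + 2)
    (hk2 : r + D + Fintype.card V / s1 + 1 + p ≤ L + 1)
    (hL2 : L + 3 * r + 2 * (2 * p * (3 + s1)) + q0 ≤ Δ)
    (hSd : ∀ v ∈ S0, dg G v ≤ D)
    (hS : ∀ v ∈ S0, dg G v + L + 1 ≤ dgi G S0 v + Δ + 2 * p)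
    (hDL : D + 1 + K2 ≤ L) (ht : Fintype.card V * (2 * p + r) ^ t < t.factorial)
    (hK2 : 2 * (2 * p + r) + 3 * (2 * p + r + t) < K2)
    (hw1 : w0 + (n1 - 2 * M0 + 1) + p + 2 * p * (L / q0 + 2 + 4) + (r + p) ≤ w1)
    (hκ : 4 * p + r ≤ κ1)
    (hcore : ∀ U : ℕ → Finset {v // v ∉ Out}, (∀ ℓ < L, (U ℓ).card ≤ κ1) →
      (∀ v, mul L U v ≤ κ1) →
      ((range L).filter fun ℓ => ¬ Even (univ \ U ℓ).card).card ≤ w1 →
      ∃ mm, Cnc (G.comap (fun v : {v // v ∉ Out} => v.1)) L U mm) :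
    H70.HY.HYLab G Δ p := by
  have hw : (2 * p - 1) * (3 + s1) ≤ 2 * p * (3 + s1) := Nat.mul_le_mul_right _ (Nat.sub_le _ _)
  obtain ⟨w, hwdef⟩ : ∃ w, w = 2 * p * (3 + s1) := ⟨_, rfl⟩
  rw [← hwdef] at hw hL2
  obtain ⟨y, hy⟩ : ∃ y : V → ℕ, ∀ x,
      y x = min L (q0 * ((dgi G (univ \ Out) x - (w + r)) / q0)) := ⟨_, fun _ => rfl⟩
  have hyL : ∀ x, y x ≤ L := fun x => by
    rw [hy]
    exact min_le_left _ _
  have hyq : ∀ x, y x = L ∨ q0 ∣ y x := fun x => by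
    rw [hy]
    rcases min_choice L (q0 * ((dgi G (univ \ Out) x - (w + r)) / q0)) with h | h
    · exact Or.inl h
    · right
      rw [h]
      exact dvd_mul_right _ _
  have hy1 : ∀ x, 0 < y x → y x + w + r ≤ dgi G (univ \ Out) x := fun x h => by
    have h1 : y x ≤ q0 * ((dgi G (univ \ Out) x - (w + r)) / q0) := by
      rw [hy]
      exact min_le_right _ _
    have h2 := Nat.mul_div_le (dgi G (univ \ Out) x - (w + r)) q0
    omega
  have hy2 : ∀ x, y x = L ∨ dgi G (univ \ Out) x ≤ y x + w + r + q0 := fun x => by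
    have h0 := hy x
    rcases min_choice L (q0 * ((dgi G (univ \ Out) x - (w + r)) / q0)) with h | h
    · rw [h] at h0
      exact Or.inl h0
    · right
      rw [h] at h0
      have h2 := Nat.lt_mul_div_succ (dgi G (univ \ Out) x - (w + r)) (show 0 < q0 by omega)
      rw [mul_add, mul_one] at h2
      omega
  obtain ⟨B, hB⟩ : ∃ B : Finset ℕ, ∀ ℓ, ℓ ∈ B ↔
      ℓ < L ∧ ¬ Even (n1 + (Lo.filter fun x => ℓ < y x).card) :=
    ⟨(range L).filter fun ℓ => ¬ Even (n1 + (Lo.filter fun x => ℓ < y x).card), fun ℓ => by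
      simp only [mem_filter, mem_range]⟩
  have hBL : B ⊆ range L := fun ℓ hℓ => by
    rw [mem_range]
    exact ((hB ℓ).1 hℓ).1
  have hBc : B.card ≤ L := by
    have h1 := card_le_card hBL
    rwa [card_range] at h1
  have hMn : 2 * M0 ≤ n1 := hM.trans (by rw [hn1]; exact card_le_univ _)
  obtain ⟨Y1, Y2, k', hY, hYk, hY2, hYs, hk', hk3, hwr⟩ :=
    lyN n1 r L p M0 w0 (L / q0 + 2) B hp hBL
      (bdq Lo y q0 L n1 hq0 (fun x _ => hyq x) B hB) hMn hrw hL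
  obtain ⟨c1, hc1, hc2, hc3, hc4⟩ := lyV π hπ Y1 Y2 hY (by
    refine le_trans (show 2 * Y2.card ≤ 2 * M0 by omega) (hM.trans (card_le_card ?_))
    intro v hv
    simp only [mem_filter, mem_univ, true_and] at hv ⊢
    exact hv) (by rw [hYs, hn1])
  have hlk : 2 * k' ≤ 2 * r + max (2 * n1 - 2 * M0) (n1 + (L - w0) + 1) := by
    refine hk3.trans (Nat.add_le_add_left (max_le_max le_rfl ?_) _)
    omega
  have hkk : k' ≤ L + 1 - p := by omega
  obtain ⟨c, hck, hcp, hclo, hcnl, hcc, hci, hcs⟩ := lbs G Lo S0 Out hO hdj (L + 1 - p) s1 D hs1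
    c1 (fun v => by
      have h1 := hYk _ (hc1 v)
      rw [hr] at h1
      omega) (by
      intro u v huv
      rcases hc4 u v huv with h | ⟨h1, h2⟩
      · rw [h]
        exact G.irrefl
      · have h3 := hπ2 u (by rw [h2]; exact fun h => h1 h.symm)
        rwa [h2] at h3) hSd (by rw [← hr]; omega)
  have hhalf : ∀ i, (univ.filter fun v => c1 v = i).card ≤ 2 :=
    HlOut2_half c1 Y1 Y2 hc1 hc2 hc3
  have hlab := HlOut2_lab Lo S0 Out hO c c1 hcc s1 hhalf hci hcs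
  have hWc : ∀ ℓ, (Wn c p ℓ).card ≤ w := fun ℓ =>
    (wsz univ c p (3 + s1) ℓ hp hlab).trans hw
  obtain ⟨τ, hτ, hτ2, hτ3, hτ4, hτ5⟩ := tau G Δ p L w D t K2 q0 hp hΔ Lo S0 Out hO hdj c
    (fun ℓ _ => hWc ℓ) y (fun x _ => hyL x) (fun x _ h => by rw [← hr]; exact hy1 x h)
    (fun x _ => by rw [← hr]; exact hy2 x) (by rw [← hr]; omega) hS
    (fun v hv => by
      refine le_trans ?_ (hSd v hv)
      unfold dgi dg
      refine card_le_card ?_
      intro u hu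
      rw [mem_filter] at hu ⊢
      exact ⟨mem_univ _, hu.2⟩) hDL (by rw [← hr]; exact ht) (by rw [← hr]; exact hK2)
  obtain ⟨U, hUdef⟩ : ∃ U : ℕ → Finset {v // v ∉ Out},
      U = (fun ℓ => univ.filter fun v : {v // v ∉ Out} => v.1 ∈ Wn c p ℓ ∨ τ ℓ v.1 ≠ v.1) :=
    ⟨_, rfl⟩
  have hU : ∀ ℓ v, v ∈ U ℓ ↔ (v.1 ∈ Wn c p ℓ ∨ τ ℓ v.1 ≠ v.1) := by
    intro ℓ v
    rw [hUdef]
    simp only [mem_filter, mem_univ, true_and]
  have hUc : ∀ ℓ < L, (U ℓ).card = (univ.filter fun v : {v // v ∉ Out} => v.1 ∈ Wn c p ℓ).card +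
      (Lo.filter fun x => x ∉ Wn c p ℓ ∧ ℓ < y x).card := by
    intro ℓ hℓ
    rw [HlOut2_card Out c p ℓ (τ ℓ) (U ℓ) (hU ℓ) (fun v hv => hτ.fix ℓ hℓ v hv), ← hτ4 ℓ hℓ]
  obtain ⟨mm1, hmm⟩ := hcore U (fun ℓ hℓ => by
      have h1 := hUc ℓ hℓ
      have h2 : (Lo.filter fun x => x ∉ Wn c p ℓ ∧ ℓ < y x).card ≤ Lo.card := card_filter_le _ _
      have h3 : (univ.filter fun v : {v // v ∉ Out} => v.1 ∈ Wn c p ℓ).card ≤ (2 * p - 1) * 2 := by
        refine le_trans (card_le_card ?_) (wsz (univ : Finset {v // v ∉ Out}) c1 p 2 ℓ hp hhalf)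
        intro v hv
        unfold Wn at hv
        rw [mem_filter] at hv ⊢
        have h4 := (mem_filter.1 hv.2).2
        rw [hcc] at h4
        exact ⟨mem_univ _, h4⟩
      omega) (fun v => by
      have h1 := HlOut2_mul Out c p L Lo.card hp τ U hU hτ5 v
      omega) (by
      have hsub : ((range L).filter fun ℓ => ¬ Even (univ \ U ℓ).card) ⊆
          ((range L).filter fun ℓ =>
            ¬ (ℓ ∈ B ↔ Odd (Y1.filter fun m => ℓ < m + p ∧ m < ℓ + p).card)) ∪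
          range (r + p) := by
        intro ℓ hℓ
        rw [mem_filter, mem_range] at hℓ
        rw [mem_union, mem_filter, mem_range, mem_range]
        by_cases h0 : ℓ < r + p
        · exact Or.inr h0
        left
        refine ⟨hℓ.1, ?_⟩
        intro h
        apply hℓ.2
        have e1 : (univ \ U ℓ).card + (U ℓ).card = n1 := by
          rw [card_sdiff_add_card_eq_card (subset_univ (U ℓ)), card_univ, hn1]
        have e2 := hUc ℓ hℓ.1
        rw [wpar Out Y1 Y2 hY c1 hc1 hc2 hc3 c hcc p ℓ] at e2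
        have e3 : (Lo.filter fun x => x ∉ Wn c p ℓ ∧ ℓ < y x).card =
            (Lo.filter fun x => ℓ < y x).card := by
          congr 1
          ext x
          rw [mem_filter, mem_filter]
          constructor
          · rintro ⟨a1, a2, a3⟩
            exact ⟨a1, a3⟩
          · rintro ⟨a1, a2⟩
            refine ⟨a1, ?_, a2⟩
            intro a3
            unfold Wn at a3
            rw [mem_filter] at a3
            have a4 := hclo x a1
            rw [← hr] at a4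
            omega
        refine HlOut2_par n1 _ _ _ _ _ _ (ℓ ∈ B) _ e1 e2 e3 ?_ h Iff.rfl
        rw [hB]
        exact ⟨fun q => q.2, fun q => ⟨hℓ.1, q⟩⟩
      have h1 := card_le_card hsub
      have h2 := card_union_le ((range L).filter fun ℓ =>
            ¬ (ℓ ∈ B ↔ Odd (Y1.filter fun m => ℓ < m + p ∧ m < ℓ + p).card)) (range (r + p))
      rw [card_range] at h2
      omega)
  rw [hUdef] at hmm
  refine gl3 G Δ p (L + 1 - p) L hp ?_ ?_ c hck hcp Out hΔ τ hτ hτ2 hτ3 mm1 hmm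
  · omega
  · omega

end Pool.Agent.H71.HL
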