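import Mathlib
import Pool.Agent.H71.HL.Out2
import Pool.Agent.H71.HL.Mt2
import Pool.Agent.H71.DX.MnE
import Pool.Agent.H71.DN.Num

/-!
R2: the Havet-Yu bound for graphs that consist of a nearly regular part `C1 := univ \ Out` with at least `(1 + ε1) Δ` vertices, a small set `Lo` and a
set `S0` with few edges to `C1`. Use the STATEMENTS of `out2` (`HL/Out2.lean`), `mt2`, `core2` (`DX/Core2.lean`), `H28.HZ.all` and `Num_ht` (`DN/Num.lean`);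
the organisation of the numerical part can follow `caseIIa` in `DR/Cs2.lean` (proved; `evn`, `dg_bd`, `dg_eq`, `cards`).

Proof (`n := card V`, `Δ := G.maxDegree`; all claims for large `n`).  `ε2 := min ε ε1 / 2 ≤ 1/8`. `core2 ε2` gives `c, κ, ρ0` (`16 c ≤ ε2`).
`ρ := min ρ0 (min κ (c ε1 ε2)) ε2 / 10^6` (the product of the minimum with `ε2 / 10^6`; so `ρ ≤ ρ0/2`, `κ/32`, `c ε1/200`, `ε2²/10^6`, `c/100`, `c ε2/6432`, `ε2/24000`, `ε1`, `ε`).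
If `ρ n < p` use `H28.HZ.all ρ` (as in `caseIIa`). Let `p ≤ ρ n`. `n1 := card {v // v ∉ Out} = #(univ \ Out) ≥ (1 + ε1) Δ`, `G1 := G.comap Subtype.val`, `dg G1 v = dgi G (univ \ Out) v`.
`core2` for `G1` (`n1 ≥ n/2`): `(1/2 + ε2) n1 ≤ Δ - ρ n ≤ dg G1 v`, `Δ ≤ dg G1 v + ρ0 n1`, `Δ ≤ n1`: it gives `L` with `(1 - ε2/4) Δ ≤ L ≤ (1 - ε2/8) Δ`; so
 `L ≥ (1/2 + 3 ε/4) n` and `Δ - L ≥ (ε2/16) n`. `mt2 ε1 c` gives `π, M0` with `n1 - 2 M0 ≤ (c/8) n`.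
`r := #Lo ≤ ρ n`, `s1 := ⌈100 / ε2⌉₊`, `q0 := ⌊(ε2/100) n⌋₊`, `D := ⌊(1/2 - ε/2) n⌋₊`, `K2 := ⌊(ε2/50) n⌋₊`, `t := ⌈(ε2/1000) n⌉₊`, `w0 := ⌊(1/2 - 3 c) n1⌋₊`,
`w1 := ⌊(1/2 - 2 c) n1⌋₊`, `κ1 := ⌊κ n1⌋₊`. Apply `out2`. Checks:
 * `hSd`: for `v ∈ S0`: `dg G v ≤ dgi G (univ \ Out) v + #S0 + #Lo ≤ ρ n + (n - n1) + ρ n`, `n1 ≥ Δ ≥ (1/2 + ε) n`. `hS`: `dg G v ≤ dgi G S0 v + ρ n + r` and `Δ - L ≥ (ε2/16) n`.
 * `hk2`: `ρ n + (1/2 - ε/2) n + (ε2/100) n + 2 + ρ n ≤ L` (`n / s1 ≤ (ε2/100) n`). `hDL`: `(1/2 - ε/2) n + 1 + (ε2/50) n ≤ L`.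
 * `hL2`: `2 (2 p (3 + s1)) ≤ 4 ρ n (102 / ε2) ≤ (ε2/100) n`, `3 r ≤ (ε2/100) n`, `q0 ≤ (ε2/100) n`.
 * `ht`: `Num_ht` (`12 (2 p + r) ≤ 36 ρ n ≤ t`, `n ≤ t²`). `hK2`: `5 (2 p + r) + 3 t ≤ 15 ρ n + (3 ε2/1000) n + 3 < K2`.
 * `hrw`, `hL`: `2 L ≤ 2 Δ ≤ 2 n1 / (1 + ε1) ≤ (2 - ε1) n1 ≤ (2 - 6 c) n1 - 2 ≤ n1 + 2 w0` (`6 c ≤ ε1/4`).
 * `hk`: `2 n1 - 2 M0 ≤ n1 + (c/8) n` and `n1 + (1.5 ε) n ≤ 2 L`; `n1 + (L - w0) + 1 ≤ (1/2 + 3 c) n1 + L + 2` or `≤ n1 + 1`, and `(1/2 + 3 c) n1 + (ε/2) n ≤ L`.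
 * `hw1`: `w0 + (c/8) n + 1 + p + 2 p (L / q0 + 6) + r + p ≤ w1`: `L / q0 ≤ 200 / ε2`, `2 p (200 / ε2 + 6) ≤ 402 ρ n / ε2 ≤ (c/16) n`, `w1 - w0 ≥ c n1 - 1 ≥ (c/2) n - 1`.
 * `hκ`: `5 ρ n ≤ κ n1 - 1`. `hcore`: as in `caseIIa` (`Nat.floor_le`).
-/

set_option autoImplicit false

namespace Pool.Agent.H71.HL

open Finset Classical
open Pool.Agent.H71.DN Pool.Agent.H71.DX

private theorem HlR2_dgi {V : Type} [Fintype V] (G : SimpleGraph V) (Out : Finset V)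
    (v : {v // v ∉ Out}) :
    dg (G.comap (fun v : {v // v ∉ Out} => v.1)) v = dgi G (univ \ Out) v.1 := by
  unfold dg dgi
  refine card_bij (fun u _ => u.1) ?_ ?_ ?_
  · intro u hu
    rw [mem_filter] at hu ⊢
    exact ⟨mem_sdiff.2 ⟨mem_univ _, u.2⟩, hu.2⟩
  · intro u _ u' _ h
    exact Subtype.ext h
  · intro b hb
    rw [mem_filter, mem_sdiff] at hb
    exact ⟨⟨b, hb.1.2⟩, mem_filter.2 ⟨mem_univ _, hb.2⟩, rfl⟩

private theorem HlR2_le1 {V : Type} [Fintype V] (G : SimpleGraph V) (Out : Finset V) (v : V) :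
    dg G v ≤ dgi G (univ \ Out) v + Out.card := by
  unfold dg dgi
  refine (card_le_card ?_).trans (card_union_le _ _)
  intro u hu
  rw [mem_filter] at hu
  rw [mem_union, mem_filter, mem_sdiff]
  by_cases h : u ∈ Out
  · exact Or.inr h
  · exact Or.inl ⟨⟨mem_univ _, h⟩, hu.2⟩

private theorem HlR2_le2 {V : Type} [Fintype V] (G : SimpleGraph V) (Lo S0 Out : Finset V)
    (hO : Out = Lo ∪ S0) (v : V) :
    dg G v ≤ dgi G (univ \ Out) v + dgi G S0 v + Lo.card := by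
  unfold dg dgi
  refine (card_le_card ?_).trans ((card_union_le _ _).trans
    (Nat.add_le_add_right (card_union_le _ _) _))
  intro u hu
  rw [mem_filter] at hu
  rw [mem_union, mem_union, mem_filter, mem_filter, mem_sdiff, hO, mem_union]
  by_cases h : u ∈ Lo
  · exact Or.inr h
  · by_cases h' : u ∈ S0
    · exact Or.inl (Or.inr ⟨h', hu.2⟩)
    · exact Or.inl (Or.inl ⟨⟨mem_univ _, fun h2 => h2.elim h h'⟩, hu.2⟩)

private theorem HlR2_le0 {V : Type} [Fintype V] (G : SimpleGraph V) (Out : Finset V) (v : V) :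
    dgi G (univ \ Out) v ≤ dg G v := by
  unfold dg dgi
  apply card_le_card
  intro u hu
  rw [mem_filter] at hu ⊢
  exact ⟨mem_univ _, hu.2⟩

theorem r2 (ε ε1 : ℝ) (hε : 0 < ε) (hε' : ε ≤ 1 / 4) (hε1 : 0 < ε1) (hε1' : ε1 ≤ 1) :
    ∃ (ρ : ℝ) (n0 : ℕ), 0 < ρ ∧ ρ ≤ ε ∧ ρ ≤ ε1 ∧
      ∀ (V : Type) [Fintype V] (G : SimpleGraph V) [DecidableRel G.Adj] (p : ℕ)
        (Lo S0 Out : Finset V), n0 ≤ Fintype.card V → 1 ≤ p →
        (1 / 2 + ε) * Fintype.card V ≤ (G.maxDegree : ℝ) → Out = Lo ∪ S0 → Disjoint Lo S0 →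
        (Lo.card : ℝ) ≤ ρ * Fintype.card V →
        (∀ v, v ∉ Out →
          (G.maxDegree : ℝ) ≤ dgi G (univ \ Out) v + ρ * Fintype.card V) →
        (1 + ε1) * (G.maxDegree : ℝ) ≤ ((univ \ Out).card : ℝ) →
        (∀ v ∈ S0, (dgi G (univ \ Out) v : ℝ) ≤ ρ * Fintype.card V) →
        H70.HY.HYLab G G.maxDegree p := by
  obtain ⟨ε2, hε2⟩ : ∃ ε2 : ℝ, ε2 = min ε ε1 / 2 := ⟨_, rfl⟩
  have hm1 : min ε ε1 ≤ ε := min_le_left _ _
  have hm2 : min ε ε1 ≤ ε1 := min_le_right _ _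
  have hm3 : 0 < min ε ε1 := lt_min hε hε1
  have hε20 : 0 < ε2 := by rw [hε2]; linarith
  have hε2a : ε2 ≤ ε / 2 := by rw [hε2]; linarith
  have hε2b : ε2 ≤ ε1 / 2 := by rw [hε2]; linarith
  have hε2c : ε2 ≤ 1 / 8 := by linarith
  obtain ⟨c, κ, ρ0, nc, hc, hc1, hκ, hρ0, hcore⟩ := core2 ε2 hε20 (by linarith)
  have hc2 : c ≤ 1 / 128 := by linarith
  obtain ⟨μ, hμ⟩ : ∃ μ : ℝ, μ = min ρ0 (min κ (c * ε1 * ε2)) := ⟨_, rfl⟩
  have hμ0 : 0 < μ := by rw [hμ]; exact lt_min hρ0 (lt_min hκ (by positivity))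
  have hμ1 : μ ≤ ρ0 := by rw [hμ]; exact min_le_left _ _
  have hμ2 : μ ≤ κ := by rw [hμ]; exact (min_le_right _ _).trans (min_le_left _ _)
  have hμ3 : μ ≤ c * ε1 * ε2 := by rw [hμ]; exact (min_le_right _ _).trans (min_le_right _ _)
  obtain ⟨e, he⟩ : ∃ e : ℝ, e = ε2 / 10 ^ 6 := ⟨_, rfl⟩
  have he0 : 0 < e := by rw [he]; positivity
  have he1 : e ≤ 1 / 1000 := by
    rw [he]
    linarith
  have hcε1 : c * ε1 ≤ 1 := by
    have h1 : c * ε1 ≤ 1 / 128 * 1 := mul_le_mul hc2 hε1' hε1.le (by norm_num)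
    linarith
  have hεε : ε1 * ε2 ≤ 1 := by
    have h1 : ε1 * ε2 ≤ 1 * (1 / 8) := mul_le_mul hε1' hε2c hε20.le (by norm_num)
    linarith
  obtain ⟨ρ, hρ⟩ : ∃ ρ : ℝ, ρ = μ * e := ⟨_, rfl⟩
  have hρp : 0 < ρ := by rw [hρ]; positivity
  have hρ1 : ρ ≤ ρ0 / 2 := by
    rw [hρ]
    have h1 : μ * e ≤ ρ0 * (1 / 1000) := mul_le_mul hμ1 he1 he0.le hρ0.le
    linarith
  have hρ2 : ρ ≤ κ / 32 := by
    rw [hρ]
    have h1 : μ * e ≤ κ * (1 / 1000) := mul_le_mul hμ2 he1 he0.le hκ.le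
    linarith
  have hρ3 : ρ ≤ c * ε1 / 200 := by
    rw [hρ]
    have h1 : μ * e ≤ (c * ε1 * ε2) * (1 / 1000) := mul_le_mul hμ3 he1 he0.le (by positivity)
    have h2 : (c * ε1) * ε2 ≤ (c * ε1) * 1 :=
      mul_le_mul_of_nonneg_left (by linarith) (by positivity)
    have h3 : 0 < c * ε1 := by positivity
    linarith
  have hρ4 : ρ ≤ c * ε2 / 10 ^ 6 := by
    rw [hρ]
    have h1 : μ * e ≤ (c * ε1 * ε2) * e := mul_le_mul_of_nonneg_right hμ3 he0.le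
    have h2 : c * (ε1 * ε2) * e ≤ c * 1 * e :=
      mul_le_mul_of_nonneg_right (mul_le_mul_of_nonneg_left hεε hc.le) he0.le
    rw [he] at h1 h2 ⊢
    linarith
  have hρ5 : ρ ≤ ε2 * ε2 / 10 ^ 6 := by
    rw [hρ]
    have h1 : μ * e ≤ (c * ε1 * ε2) * e := mul_le_mul_of_nonneg_right hμ3 he0.le
    have h2 : (c * ε1) * (ε2 * e) ≤ 1 * (ε2 * e) :=
      mul_le_mul_of_nonneg_right hcε1 (by positivity)
    rw [he] at h1 h2 ⊢
    linarith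
  have hρ6 : ρ ≤ ε2 / 10 ^ 6 := by
    have h1 : ε2 * ε2 ≤ 1 * ε2 := mul_le_mul_of_nonneg_right (by linarith) hε20.le
    linarith
  obtain ⟨N0, hN0⟩ := H28.HZ.all ρ hρp
  obtain ⟨N1, hN1⟩ := mt2 ε1 c hε1 hε1' hc (by linarith)
  obtain ⟨M1, hM1⟩ := evn (1 / 2) N0 (by norm_num)
  obtain ⟨M2, hM2⟩ := evn (1 / 2) nc (by norm_num)
  obtain ⟨M3, hM3⟩ := evn ε2 100000 hε20
  obtain ⟨M4, hM4⟩ := evn c 1000 hc
  obtain ⟨M5, hM5⟩ := evn (ε2 / 1000 * (ε2 / 1000)) 1 (by positivity)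
  refine ⟨ρ, N1 + M1 + M2 + M3 + M4 + M5 + 1, hρp, by linarith, by linarith, ?_⟩
  intro V _ G _ p Lo S0 Out hn hp hΔ2 hO hdj hLo hhi hn1 hS
  have hn1' := hM1 (Fintype.card V) (by omega)
  have hn2 := hM2 (Fintype.card V) (by omega)
  have hn3 := hM3 (Fintype.card V) (by omega)
  have hn4 := hM4 (Fintype.card V) (by omega)
  have hn5 := hM5 (Fintype.card V) (by omega)
  have hn7 : 1 ≤ Fintype.card V := by omega
  have hmt := hN1 V G G.maxDegree Out (by omega)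
  obtain ⟨n, hnn⟩ : ∃ n : ℝ, n = (Fintype.card V : ℝ) := ⟨_, rfl⟩
  have hnpos : 0 < n := by
    rw [hnn]
    exact_mod_cast hn7
  obtain ⟨Δ, hΔd⟩ : ∃ Δ, Δ = G.maxDegree := ⟨_, rfl⟩
  have hdΔ : ∀ v, dg G v ≤ Δ := fun v => by rw [hΔd]; exact (dg_bd G v).2
  rw [← hΔd, ← hnn] at hmt hΔ2
  rw [← hnn] at hn1' hn2 hn3 hn4 hn5 hLo
  rw [← hΔd] at hn1 ⊢
  have hhi' : ∀ v, v ∉ Out → (Δ : ℝ) ≤ dgi G (univ \ Out) v + ρ * n := by
    intro v hv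
    rw [hnn, hΔd]
    exact hhi v hv
  have hS' : ∀ v ∈ S0, (dgi G (univ \ Out) v : ℝ) ≤ ρ * n := by
    intro v hv
    rw [hnn]
    exact hS v hv
  obtain ⟨n1, hn1d⟩ : ∃ n1, n1 = Fintype.card {v // v ∉ Out} := ⟨_, rfl⟩
  have hn1s : n1 + Out.card = Fintype.card V := by rw [hn1d]; exact cards Out
  have hn1c : (univ \ Out).card = n1 := by
    have h1 := card_sdiff_add_card_eq_card (subset_univ Out)
    rw [card_univ] at h1
    omega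
  have hn1' : (n1 : ℝ) + Out.card = n := by
    rw [hnn]
    exact_mod_cast hn1s
  have hO0 : (0 : ℝ) ≤ Out.card := Nat.cast_nonneg _
  have hn1n : (n1 : ℝ) ≤ n := by linarith
  have hΔε : ε1 * (Δ : ℝ) ≤ n1 - Δ := by
    rw [hn1c] at hn1
    linarith
  have hΔ0 : (0 : ℝ) ≤ Δ := Nat.cast_nonneg _
  have hΔε0 : 0 ≤ ε1 * (Δ : ℝ) := by positivity
  have hΔn : (Δ : ℝ) ≤ n := by linarith
  have hεn : 0 < ε * n := by positivity
  have hε2n : 0 < ε2 * n := by positivity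
  have hcn : 0 < c * n := by positivity
  have hρn : 0 < ρ * n := by positivity
  have b1 : ε2 * n ≤ ε * n / 2 := by
    have := mul_le_mul_of_nonneg_right hε2a hnpos.le
    linarith
  have b3 : ε2 * n ≤ n / 8 := by
    have := mul_le_mul_of_nonneg_right hε2c hnpos.le
    linarith
  have b4 : c * n ≤ ε2 * n / 16 := by
    have h1 : c ≤ ε2 / 16 := by linarith
    have := mul_le_mul_of_nonneg_right h1 hnpos.le
    linarith
  have b5 : ρ * n ≤ ε2 * n / 10 ^ 6 := by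
    have := mul_le_mul_of_nonneg_right hρ6 hnpos.le
    linarith
  have b6 : ρ * n ≤ c * n / 10 ^ 6 := by
    have h1 : ρ ≤ c / 10 ^ 6 := by
      have h2 : c * ε2 ≤ c * 1 := mul_le_mul_of_nonneg_left (by linarith) hc.le
      linarith
    have := mul_le_mul_of_nonneg_right h1 hnpos.le
    linarith
  have b7 : ε * n ≤ n / 4 := by
    have := mul_le_mul_of_nonneg_right hε' hnpos.le
    linarith
  have hn1lo : n / 2 + ε * n ≤ n1 := by linarith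
  have b8 : c * n / 2 ≤ c * n1 := by
    have h1 : c * (n / 2) ≤ c * n1 := mul_le_mul_of_nonneg_left (by linarith) hc.le
    linarith
  have b9 : c * (n1 : ℝ) ≤ c * n := mul_le_mul_of_nonneg_left hn1n hc.le
  by_cases hpκ : ρ * n < p
  · rw [hΔd]
    apply hN0 V G p
    · have h2 : (N0 : ℝ) ≤ G.maxDegree := by
        rw [← hΔd]
        linarith
      exact_mod_cast h2
    · rw [← hΔd]
      have h1 : ρ * (Δ : ℝ) ≤ ρ * n := mul_le_mul_of_nonneg_left hΔn hρp.le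
      linarith
  push Not at hpκ
  have hp0 : (1 : ℝ) ≤ p := by exact_mod_cast hp
  obtain ⟨G1, hG1⟩ : ∃ G1, G1 = G.comap (fun v : {v // v ∉ Out} => v.1) := ⟨_, rfl⟩
  have hdg1 : ∀ v, dg G1 v = dgi G (univ \ Out) v.1 := by
    intro v
    rw [hG1]
    exact HlR2_dgi G Out v
  have hdg2 : ∀ v, dgi G (univ \ Out) v ≤ dg G v := HlR2_le0 G Out
  obtain ⟨L, hL1, hL2, hcr⟩ := hcore {v // v ∉ Out} G1 Δ (by
      rw [← hn1d]
      have h1 : (nc : ℝ) ≤ n1 := by linarith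
      exact_mod_cast h1) (by
      intro v
      rw [← hn1d, hdg1]
      have h1 := hhi' v.1 v.2
      have h3 : (1 / 2 + ε2) * (n1 : ℝ) ≤ (1 / 2 + ε2) * n :=
        mul_le_mul_of_nonneg_left hn1n (by linarith)
      linarith) (by
      intro v
      rw [← hn1d, hdg1]
      refine ⟨(hdg2 v.1).trans (hdΔ _), ?_⟩
      have h1 := hhi' v.1 v.2
      have h2 : ρ * n ≤ ρ0 / 2 * n := mul_le_mul_of_nonneg_right hρ1 hnpos.le
      have h3 : ρ0 * (n / 2) ≤ ρ0 * n1 := mul_le_mul_of_nonneg_left (by linarith) hρ0.le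
      linarith) (by
      rw [← hn1d]
      have h1 : (Δ : ℝ) ≤ n1 := by linarith
      exact_mod_cast h1)
  rw [← hn1d] at hcr
  obtain ⟨π, M0, hπ1, hπ2, hπ3, hπ4⟩ := hmt (by linarith) hdΔ (by
      intro v hv
      have h1 := hhi' v hv
      have h2 : ρ * n ≤ c * ε1 / 200 * n := mul_le_mul_of_nonneg_right hρ3 hnpos.le
      linarith) hn1
  rw [← hn1d] at hπ4
  have d1 : ε2 * (Δ : ℝ) ≤ ε2 * n := mul_le_mul_of_nonneg_left hΔn hε20.le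
  have d2 : ε2 * (n / 2) ≤ ε2 * Δ := mul_le_mul_of_nonneg_left (by linarith) hε20.le
  have hLlo : n / 2 + 3 / 4 * (ε * n) ≤ L := by linarith
  have hLhi : (L : ℝ) + ε2 * n / 16 ≤ Δ := by linarith
  obtain ⟨r, hr⟩ : ∃ r, r = Lo.card := ⟨_, rfl⟩
  rw [← hr] at hLo
  have hr0 : (0 : ℝ) ≤ r := Nat.cast_nonneg _
  -- parameters
  obtain ⟨s1, hs1⟩ : ∃ s1 : ℕ, s1 = ⌈100 / ε2⌉₊ := ⟨_, rfl⟩
  have hs1a : 100 / ε2 ≤ s1 := by rw [hs1]; exact Nat.le_ceil _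
  have hs1b : (s1 : ℝ) < 100 / ε2 + 1 := by rw [hs1]; exact Nat.ceil_lt_add_one (by positivity)
  have hs1c : 100 ≤ ε2 * s1 := by
    rw [div_le_iff₀ hε20] at hs1a
    linarith
  have hs1d : ε2 * s1 ≤ 101 := by
    have h1 : ε2 * (s1 : ℝ) ≤ ε2 * (100 / ε2 + 1) := mul_le_mul_of_nonneg_left hs1b.le hε20.le
    have h2 : ε2 * (100 / ε2 + 1) = 100 + ε2 := by field_simp
    linarith
  have hs1p : 1 ≤ s1 := by
    rw [hs1]
    exact Nat.ceil_pos.2 (by positivity)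
  obtain ⟨q0, hq0⟩ : ∃ q0 : ℕ, q0 = ⌊ε2 / 100 * n⌋₊ := ⟨_, rfl⟩
  have hq0a : (q0 : ℝ) ≤ ε2 / 100 * n := by rw [hq0]; exact Nat.floor_le (by positivity)
  have hq0b : ε2 / 100 * n < q0 + 1 := by rw [hq0]; exact Nat.lt_floor_add_one _
  have hq0c : ε2 * n / 200 ≤ q0 := by linarith
  obtain ⟨D, hD⟩ : ∃ D : ℕ, D = ⌊(1 / 2 - ε / 2) * n⌋₊ := ⟨_, rfl⟩
  have hDa : (D : ℝ) ≤ (1 / 2 - ε / 2) * n := by
    rw [hD]
    apply Nat.floor_le
    apply mul_nonneg _ hnpos.le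
    linarith
  obtain ⟨K2, hK2⟩ : ∃ K2 : ℕ, K2 = ⌊ε2 / 50 * n⌋₊ := ⟨_, rfl⟩
  have hK2a : (K2 : ℝ) ≤ ε2 / 50 * n := by rw [hK2]; exact Nat.floor_le (by positivity)
  have hK2b : ε2 / 50 * n < K2 + 1 := by rw [hK2]; exact Nat.lt_floor_add_one _
  obtain ⟨t, ht⟩ : ∃ t : ℕ, t = ⌈ε2 / 1000 * n⌉₊ := ⟨_, rfl⟩
  have hta : ε2 / 1000 * n ≤ t := by rw [ht]; exact Nat.le_ceil _
  have htb : (t : ℝ) < ε2 / 1000 * n + 1 := by
    rw [ht]; exact Nat.ceil_lt_add_one (by positivity)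
  obtain ⟨w0, hw0⟩ : ∃ w0 : ℕ, w0 = ⌊(1 / 2 - 3 * c) * n1⌋₊ := ⟨_, rfl⟩
  have hn10 : (0 : ℝ) ≤ n1 := Nat.cast_nonneg _
  have hw0a : (w0 : ℝ) ≤ (1 / 2 - 3 * c) * n1 := by
    rw [hw0]
    apply Nat.floor_le
    apply mul_nonneg _ hn10
    linarith
  have hw0b : (1 / 2 - 3 * c) * n1 < w0 + 1 := by rw [hw0]; exact Nat.lt_floor_add_one _
  have hM0n : 2 * M0 ≤ n1 := hπ3.trans (by rw [hn1d]; exact card_le_univ _)
  refine out2 G Δ p L M0 w0 ⌊(1 / 2 - 2 * c) * n1⌋₊ ⌊κ * n1⌋₊ n1 r s1 q0 D t K2 hp hs1p ?_ Lo S0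
    Out hO hdj hr hn1d hdΔ π hπ1 hπ2 hπ3 ?_ ?_ ?_ ?_ ?_ ?_ ?_ ?_ ?_ ?_ ?_ ?_ ?_
  · -- q0
    rw [hq0]
    apply Nat.le_floor
    push_cast
    linarith
  · -- r ≤ w0
    have h1 : (r : ℝ) ≤ w0 := by linarith
    exact_mod_cast h1
  · -- 2 L ≤ n1 + 2 w0
    have h2 : ε1 * (n / 2) ≤ ε1 * Δ := mul_le_mul_of_nonneg_left (by linarith) hε1.le
    have h3 : ε2 * n ≤ ε1 / 2 * n := mul_le_mul_of_nonneg_right hε2b hnpos.le
    have h1 : (2 : ℝ) * L ≤ n1 + 2 * w0 := by linarith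
    exact_mod_cast h1
  · -- hk
    have h1 : 2 * r + (2 * n1 - 2 * M0) + 2 * p ≤ 2 * L + 2 := by
      have h2 : 2 * r + 2 * n1 + 2 * p ≤ 2 * L + 2 + 2 * M0 := by
        have h3 : 2 * (r : ℝ) + 2 * n1 + 2 * p ≤ 2 * L + 2 + 2 * M0 := by linarith
        exact_mod_cast h3
      omega
    have h2 : 2 * r + (n1 + (L - w0) + 1) + 2 * p ≤ 2 * L + 2 := by
      rcases le_total w0 L with h | h
      · have h3 : 2 * r + (n1 + L + 1) + 2 * p ≤ 2 * L + 2 + w0 := by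
          have h4 : 2 * (r : ℝ) + (n1 + L + 1) + 2 * p ≤ 2 * L + 2 + w0 := by linarith
          exact_mod_cast h4
        omega
      · have h3 : 2 * r + (n1 + 1) + 2 * p ≤ 2 * L + 2 := by
          have h4 : 2 * (r : ℝ) + (n1 + 1) + 2 * p ≤ 2 * L + 2 := by linarith
          exact_mod_cast h4
        omega
    rcases le_total (2 * n1 - 2 * M0) (n1 + (L - w0) + 1) with h | h
    · rw [max_eq_right h]
      exact h2
    · rw [max_eq_left h]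
      exact h1
  · -- hk2
    have h1 : ((Fintype.card V / s1 : ℕ) : ℝ) ≤ ε2 * n / 100 := by
      refine Nat.cast_div_le.trans ?_
      have h2 : (0 : ℝ) < s1 := by exact_mod_cast hs1p
      rw [div_le_iff₀ h2, ← hnn]
      have h3 : n * 100 ≤ n * (ε2 * s1) := mul_le_mul_of_nonneg_left hs1c hnpos.le
      linarith
    have h2 : (r : ℝ) + D + ((Fintype.card V / s1 : ℕ) : ℝ) + 1 + p ≤ L + 1 := by linarith
    exact_mod_cast h2
  · -- hL2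
    have h1 : (p : ℝ) * (3 + s1) ≤ (ε2 * ε2 / 10 ^ 6 * n) * (3 + s1) := by
      apply mul_le_mul_of_nonneg_right _ (by positivity)
      exact hpκ.trans (mul_le_mul_of_nonneg_right hρ5 hnpos.le)
    have h2 : ε2 * n * (ε2 * s1) ≤ ε2 * n * 101 := mul_le_mul_of_nonneg_left hs1d hε2n.le
    have h3 : ε2 * n * ε2 ≤ ε2 * n * 1 := mul_le_mul_of_nonneg_left (by linarith) hε2n.le
    have h4 : (L : ℝ) + 3 * r + 2 * (2 * p * (3 + s1)) + q0 ≤ Δ := by linarith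
    exact_mod_cast h4
  · -- hSd
    intro v hv
    rw [hD]
    apply Nat.le_floor
    have h1 : (dg G v : ℝ) ≤ dgi G (univ \ Out) v + Out.card := by
      exact_mod_cast HlR2_le1 G Out v
    have h2 := hS' v hv
    linarith
  · -- hS
    intro v hv
    have h1 : (dg G v : ℝ) ≤ dgi G (univ \ Out) v + dgi G S0 v + r := by
      rw [hr]
      exact_mod_cast HlR2_le2 G Lo S0 Out hO v
    have h2 := hS' v hv
    have h3 : (dg G v : ℝ) + L + 1 ≤ dgi G S0 v + Δ + 2 * p := by linarith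
    exact_mod_cast h3
  · -- hDL
    have h1 : (D : ℝ) + 1 + K2 ≤ L := by linarith
    exact_mod_cast h1
  · -- ht
    apply Num_ht
    · have h1 : 12 * (2 * (p : ℝ) + r) ≤ t := by linarith
      exact_mod_cast h1
    · have h1 : (Fintype.card V : ℝ) ≤ t * t := by
        rw [← hnn]
        have h2 : (ε2 / 1000 * n) * (ε2 / 1000 * n) ≤ t * t :=
          mul_le_mul hta hta (by positivity) (Nat.cast_nonneg _)
        have h3 : n * 1 ≤ n * (ε2 / 1000 * (ε2 / 1000) * n) :=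
          mul_le_mul_of_nonneg_left hn5 hnpos.le
        linarith
      exact_mod_cast h1
    · have h1 : (0 : ℝ) < t := by linarith
      exact_mod_cast h1
  · -- hK2
    have h1 : 2 * (2 * (p : ℝ) + r) + 3 * (2 * p + r + t) < K2 := by linarith
    exact_mod_cast h1
  · -- hw1
    apply Nat.le_floor
    have h2 : ((n1 - 2 * M0 : ℕ) : ℝ) = n1 - 2 * M0 := by
      rw [Nat.cast_sub hM0n]
      push_cast
      ring
    obtain ⟨Y, hY⟩ : ∃ Y : ℕ, Y = L / q0 := ⟨_, rfl⟩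
    have hYa : ε2 * (Y : ℝ) ≤ 200 := by
      have h3 : (Y : ℝ) * q0 ≤ L := by
        rw [hY]
        exact_mod_cast Nat.div_mul_le_self L q0
      have h4 : (Y : ℝ) * (ε2 * n / 200) ≤ Y * q0 :=
        mul_le_mul_of_nonneg_left hq0c (Nat.cast_nonneg _)
      have h5 : n * (ε2 * Y) ≤ n * 200 := by linarith
      exact le_of_mul_le_mul_left h5 hnpos
    have h3 : (p : ℝ) * (Y + 6) ≤ (c * ε2 / 10 ^ 6 * n) * (Y + 6) := by
      apply mul_le_mul_of_nonneg_right _ (by positivity)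
      exact hpκ.trans (mul_le_mul_of_nonneg_right hρ4 hnpos.le)
    have h4 : c * n * (ε2 * Y) ≤ c * n * 200 := mul_le_mul_of_nonneg_left hYa hcn.le
    have h5 : c * n * ε2 ≤ c * n * 1 := mul_le_mul_of_nonneg_left (by linarith) hcn.le
    rw [← hY]
    push_cast
    rw [h2]
    linarith
  · -- hκ
    apply Nat.le_floor
    push_cast
    have h1 : ρ * n ≤ κ / 32 * n := mul_le_mul_of_nonneg_right hρ2 hnpos.le
    have h2 : κ * (n / 2) ≤ κ * n1 := mul_le_mul_of_nonneg_left (by linarith) hκ.le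
    linarith
  · -- hcore
    intro U hU1 hU2 hU3
    rw [← hG1]
    have hf1 : 0 ≤ κ * (n1 : ℝ) := by positivity
    have hf2 : 0 ≤ (1 / 2 - 2 * c) * (n1 : ℝ) := by
      apply mul_nonneg
      · linarith
      · exact hn10
    refine hcr U ?_ ?_ ?_
    · intro ℓ hℓ
      refine le_trans ?_ (Nat.floor_le hf1)
      exact_mod_cast hU1 ℓ hℓ
    · intro v
      refine le_trans ?_ (Nat.floor_le hf1)
      exact_mod_cast hU2 v
    · refine le_trans ?_ (Nat.floor_le hf2)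
      refine le_trans (Nat.cast_le.2 (card_le_card ?_)) (Nat.cast_le.2 hU3)
      intro ℓ hℓ
      simp only [mem_filter, mem_range] at hℓ ⊢
      refine ⟨hℓ.1, fun h => hℓ.2 ?_⟩
      refine (congrArg Even (congrArg Finset.card ?_)).mp h
      ext v
      simp only [mem_sdiff, mem_univ, true_and]

end Pool.Agent.H71.HL
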