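import Mathlib
import Pool.Agent.H71.HL.R2

/-!
M1: the case of few edges between `univ \ W` and `W` and `#(univ \ W) ≥ (1 + ε1) Δ`. Use the STATEMENT of `r2`.

Proof.  `n := card V`, `Δ := G.maxDegree`. `r2 ε (ε1/2)` gives `ρ'`; `ρ := ρ'² / 100`. `H := univ \ W`.
`X := {v ∈ H : (ρ'/4) n ≤ dgi G W v}`: `#X (ρ'/4) n ≤ ee G H W ≤ ρ n²`, so `#X ≤ (ρ'/25) n`. `Hs := {v ∈ W : (ρ'/2) n ≤ dgi G H v}`: in the same way
`#Hs ≤ (ρ'/50) n` (`ee` is symmetric; `∑ v ∈ A, dgi G B v = ee G A B`). `Lo := X ∪ Hs`, `S0 := W \ Hs`, `Out := Lo ∪ S0 = X ∪ W`, `univ \ Out = H \ X`.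
 * `#Lo ≤ ρ' n`. * For `v ∉ Out`: `Δ ≤ dg G v + ρ n` and `dg G v = dgi G (univ \ Out) v + dgi G W v + dgi G X v ≤ dgi G (univ \ Out) v + (ρ'/4) n + (ρ'/25) n`.
 * `#(univ \ Out) ≥ (1 + ε1) Δ - (ρ'/25) n ≥ (1 + ε1/2) Δ`, since `(ε1/2) Δ ≥ (ε1/4) n` and `ρ' ≤ ε1/2`.
 * For `v ∈ S0`: `dgi G (univ \ Out) v ≤ dgi G H v < (ρ'/2) n`.
-/

set_option autoImplicit false

namespace Pool.Agent.H71.HL

open Finset Classical
open Pool.Agent.H71.DN Pool.Agent.H71.DX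

theorem m1_ee {V : Type} [Fintype V] (G : SimpleGraph V) (A B : Finset V) :
    ee G A B = ∑ v ∈ A, dgi G B v := by
  unfold ee dgi
  rw [Finset.card_filter, Finset.sum_product]
  refine Finset.sum_congr rfl fun a _ => ?_
  rw [Finset.card_filter]

theorem m1_ee' {V : Type} [Fintype V] (G : SimpleGraph V) (A B : Finset V) :
    ee G A B = ∑ v ∈ B, dgi G A v := by
  unfold ee dgi
  rw [Finset.card_filter, Finset.sum_product_right]
  refine Finset.sum_congr rfl fun a _ => ?_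
  rw [Finset.card_filter]
  refine Finset.sum_congr rfl fun b _ => ?_
  simp only [G.adj_comm]

theorem m1_count {V : Type} [Fintype V] (G : SimpleGraph V) (A B : Finset V) (t E : ℝ)
    (h : ∑ v ∈ A, (dgi G B v : ℝ) ≤ E) :
    ((A.filter fun v => t ≤ (dgi G B v : ℝ)).card : ℝ) * t ≤ E := by
  refine le_trans ?_ h
  have h1 : ((A.filter fun v => t ≤ (dgi G B v : ℝ)).card : ℝ) * t
      ≤ ∑ v ∈ A.filter (fun v => t ≤ (dgi G B v : ℝ)), (dgi G B v : ℝ) := by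
    rw [← nsmul_eq_mul]
    exact Finset.card_nsmul_le_sum _ _ _ fun v hv => (Finset.mem_filter.1 hv).2
  refine h1.trans (Finset.sum_le_sum_of_subset_of_nonneg (Finset.filter_subset _ _) ?_)
  intro v _ _
  exact Nat.cast_nonneg _

theorem m1_dgi_mono {V : Type} (G : SimpleGraph V) {S T : Finset V} (h : S ⊆ T) (v : V) :
    dgi G S v ≤ dgi G T v := Finset.card_le_card (Finset.filter_subset_filter _ h)

theorem m1_dg {V : Type} [Fintype V] (G : SimpleGraph V) (S X W : Finset V)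
    (h : ∀ u, u ∉ S → u ∈ X ∨ u ∈ W) (v : V) :
    dg G v ≤ dgi G S v + X.card + dgi G W v := by
  unfold dg dgi
  have h1 : (univ.filter fun u => G.Adj v u) ⊆
      ((S.filter fun u => G.Adj v u) ∪ X) ∪ (W.filter fun u => G.Adj v u) := by
    intro u hu
    have hu' := (Finset.mem_filter.1 hu).2
    rw [Finset.mem_union, Finset.mem_union]
    by_cases hS : u ∈ S
    · exact Or.inl (Or.inl (Finset.mem_filter.2 ⟨hS, hu'⟩))
    · rcases h u hS with h2 | h2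
      · exact Or.inl (Or.inr h2)
      · exact Or.inr (Finset.mem_filter.2 ⟨h2, hu'⟩)
  have h2 := Finset.card_le_card h1
  have h3 := Finset.card_union_le ((S.filter fun u => G.Adj v u) ∪ X)
    (W.filter fun u => G.Adj v u)
  have h4 := Finset.card_union_le (S.filter fun u => G.Adj v u) X
  omega

theorem m1 (ε ε1 : ℝ) (hε : 0 < ε) (hε' : ε ≤ 1 / 4) (hε1 : 0 < ε1) (hε1' : ε1 ≤ 1) :
    ∃ (ρ : ℝ) (n0 : ℕ), 0 < ρ ∧ ρ ≤ 1 ∧
      ∀ (V : Type) [Fintype V] (G : SimpleGraph V) [DecidableRel G.Adj] (p : ℕ)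
        (W : Finset V), n0 ≤ Fintype.card V → 1 ≤ p →
        (1 / 2 + ε) * Fintype.card V ≤ (G.maxDegree : ℝ) →
        (∀ v, v ∉ W → (G.maxDegree : ℝ) ≤ dg G v + ρ * Fintype.card V) →
        (ee G (univ \ W) W : ℝ) ≤ ρ * (Fintype.card V : ℝ) ^ 2 →
        (1 + ε1) * (G.maxDegree : ℝ) ≤ ((univ \ W).card : ℝ) →
        H70.HY.HYLab G G.maxDegree p := by
  obtain ⟨r, n0, hr0, hrε, hrε1, hr2⟩ := r2 ε (ε1 / 2) hε hε' (by linarith) (by linarith)
  refine ⟨r ^ 2 / 100, max n0 1, by positivity, ?_, ?_⟩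
  · have : r ≤ 1 := by linarith
    nlinarith
  intro V _ G _ p W hn hp hΔ hreg hee hcard
  have hn1 : n0 ≤ Fintype.card V := le_trans (le_max_left _ _) hn
  have hn2 : 1 ≤ Fintype.card V := le_trans (le_max_right _ _) hn
  have hN : (1 : ℝ) ≤ (Fintype.card V : ℝ) := by exact_mod_cast hn2
  set N : ℝ := (Fintype.card V : ℝ) with hNdef
  have hr1 : r ≤ 1 / 4 := le_trans hrε hε'
  obtain ⟨H, hH⟩ : ∃ H : Finset V, H = univ \ W := ⟨_, rfl⟩
  obtain ⟨X, hX⟩ : ∃ X : Finset V, X = H.filter fun v => r / 4 * N ≤ (dgi G W v : ℝ) := ⟨_, rfl⟩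
  obtain ⟨Hs, hHs⟩ : ∃ Hs : Finset V, Hs = W.filter fun v => r / 2 * N ≤ (dgi G H v : ℝ) :=
    ⟨_, rfl⟩
  have hmH : ∀ v, v ∈ H ↔ v ∉ W := by
    intro v
    rw [hH, Finset.mem_sdiff]
    exact ⟨fun h => h.2, fun h => ⟨Finset.mem_univ _, h⟩⟩
  have hmX : ∀ v, v ∈ X ↔ v ∉ W ∧ r / 4 * N ≤ (dgi G W v : ℝ) := by
    intro v
    rw [hX, Finset.mem_filter, hmH]
  have hmHs : ∀ v, v ∈ Hs ↔ v ∈ W ∧ r / 2 * N ≤ (dgi G H v : ℝ) := by
    intro v
    rw [hHs, Finset.mem_filter]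
  rw [← hH] at hee hcard
  have hXc : (X.card : ℝ) ≤ r / 25 * N := by
    have h1 : ∑ v ∈ H, (dgi G W v : ℝ) ≤ r ^ 2 / 100 * N ^ 2 := by
      rw [m1_ee G H W] at hee
      push_cast at hee
      exact hee
    have h2 := m1_count G H W (r / 4 * N) _ h1
    rw [← hX] at h2
    by_contra hc
    rw [not_le] at hc
    have h3 : 0 < r / 4 * N := by positivity
    have h4 : r / 25 * N * (r / 4 * N) < (X.card : ℝ) * (r / 4 * N) :=
      mul_lt_mul_of_pos_right hc h3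
    nlinarith
  have hHc : (Hs.card : ℝ) ≤ r / 50 * N := by
    have h1 : ∑ v ∈ W, (dgi G H v : ℝ) ≤ r ^ 2 / 100 * N ^ 2 := by
      rw [m1_ee' G H W] at hee
      push_cast at hee
      exact hee
    have h2 := m1_count G W H (r / 2 * N) _ h1
    rw [← hHs] at h2
    by_contra hc
    rw [not_le] at hc
    have h3 : 0 < r / 2 * N := by positivity
    have h4 : r / 50 * N * (r / 2 * N) < (Hs.card : ℝ) * (r / 2 * N) :=
      mul_lt_mul_of_pos_right hc h3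
    nlinarith
  have hmO : ∀ v, v ∈ univ \ ((X ∪ Hs) ∪ (W \ Hs)) ↔ v ∈ H ∧ v ∉ X := by
    intro v
    simp only [Finset.mem_sdiff, Finset.mem_univ, true_and, Finset.mem_union, not_or, not_and,
      not_not, hmH]
    constructor
    · rintro ⟨⟨h1, h2⟩, h3⟩
      exact ⟨fun hw => h2 (h3 hw), h1⟩
    · rintro ⟨h1, h2⟩
      exact ⟨⟨h2, fun h => h1 ((hmHs v).1 h).1⟩, fun hw => absurd hw h1⟩
  refine hr2 V G p (X ∪ Hs) (W \ Hs) ((X ∪ Hs) ∪ (W \ Hs)) hn1 hp hΔ rfl ?_ ?_ ?_ ?_ ?_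
  · rw [Finset.disjoint_left]
    intro v hv hv'
    rw [Finset.mem_sdiff] at hv'
    rw [Finset.mem_union] at hv
    rcases hv with h | h
    · exact ((hmX v).1 h).1 hv'.1
    · exact hv'.2 h
  · have h1 : ((X ∪ Hs).card : ℝ) ≤ (X.card : ℝ) + (Hs.card : ℝ) := by
      exact_mod_cast Finset.card_union_le X Hs
    have h2 : 0 ≤ r * N := by positivity
    linarith
  · intro v hv
    have hv' := (hmO v).1 (Finset.mem_sdiff.2 ⟨Finset.mem_univ _, hv⟩)
    have hvW : v ∉ W := (hmH v).1 hv'.1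
    have h1 := hreg v hvW
    have h2 : (dgi G W v : ℝ) < r / 4 * N := by
      by_contra hc
      rw [not_lt] at hc
      exact hv'.2 ((hmX v).2 ⟨hvW, hc⟩)
    have h3 := m1_dg G (univ \ ((X ∪ Hs) ∪ (W \ Hs))) X W (by
      intro u hu
      by_contra hc
      rw [not_or] at hc
      exact hu ((hmO u).2 ⟨(hmH u).2 hc.2, hc.1⟩)) v
    have h4 : (dg G v : ℝ) ≤ (dgi G (univ \ ((X ∪ Hs) ∪ (W \ Hs))) v : ℝ) + (X.card : ℝ)
        + (dgi G W v : ℝ) := by exact_mod_cast h3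
    have h5 : r ^ 2 / 100 * N ≤ r / 100 * N := by
      have : r ^ 2 ≤ r := by nlinarith
      have h6 : 0 ≤ N := by linarith
      nlinarith
    have h7 : 0 ≤ r * N := by positivity
    linarith
  · have h1 : H ⊆ (univ \ ((X ∪ Hs) ∪ (W \ Hs))) ∪ X := by
      intro v hv
      rw [Finset.mem_union]
      by_cases hx : v ∈ X
      · exact Or.inr hx
      · exact Or.inl ((hmO v).2 ⟨hv, hx⟩)
    have h2 : (H.card : ℝ) ≤ ((univ \ ((X ∪ Hs) ∪ (W \ Hs))).card : ℝ) + (X.card : ℝ) := by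
      exact_mod_cast (Finset.card_le_card h1).trans (Finset.card_union_le _ _)
    have h3 : r * N ≤ ε1 / 2 * N := mul_le_mul_of_nonneg_right hrε1 (by linarith)
    have h4 : 0 ≤ ε * N := by positivity
    have h5 : 1 / 2 * N ≤ (G.maxDegree : ℝ) := by linarith
    have h6 : ε1 / 2 * (1 / 2 * N) ≤ ε1 / 2 * (G.maxDegree : ℝ) :=
      mul_le_mul_of_nonneg_left h5 (by linarith)
    have h7 : 0 ≤ r * N := by positivity
    linarith
  · intro v hv
    rw [Finset.mem_sdiff] at hv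
    have h2 : (dgi G H v : ℝ) < r / 2 * N := by
      by_contra hc
      rw [not_lt] at hc
      exact hv.2 ((hmHs v).2 ⟨hv.1, hc⟩)
    have h3 : dgi G (univ \ ((X ∪ Hs) ∪ (W \ Hs))) v ≤ dgi G H v :=
      m1_dgi_mono G (fun u hu => ((hmO u).1 hu).1) v
    have h4 : (dgi G (univ \ ((X ∪ Hs) ∪ (W \ Hs))) v : ℝ) ≤ (dgi G H v : ℝ) := by
      exact_mod_cast h3
    have h7 : 0 ≤ r * N := by positivity
    linarith

end Pool.Agent.H71.HL
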