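import Mathlib
import Pool.Agent.H71.HL.Sl

/-!
EXT: a total colouring of the part of `G` at `K0` extends to a total colouring of `G`.

Proof.  1. Vertices. Colour the vertices outside `K0` one after the other: there is `fV' : V → ℕ`, equal to `fV` on `K0`, with
`fV' v < N`, `fV' a ≠ fV' b` for all edges `a b`, and `fV' v ≠ fE s(v, u)` for `v ∉ K0`, `u ∈ K0`, `G.Adj v u`
(induction on a finite set `S ⊆ univ \ K0` of coloured vertices; for the next vertex `v` the colours of the at most `D` neighbours and the at most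
`β` colours `fE s(v, u)`, `u ∈ K0`, are forbidden, and `D + β < N`).
2. `H.Adj a b := G.Adj a b ∧ a ∉ K0 ∧ b ∉ K0`, `dg H v ≤ D` (it is `0` for `v ∈ K0`).
`U ℓ := {v ∉ K0 : fV' v = ℓ ∨ ∃ u ∈ K0, G.Adj v u ∧ fE s(v, u) = ℓ}`, `mul N U v ≤ 1 + β`
(the `ℓ` with `v ∈ U ℓ` are `fV' v` and the `fE s(v, u)`). `sl` (`HL/Sl.lean`) for `H`, `L := N`, `s := β + 1` gives `τ`.
3. `fE' s(a, b) := fE s(a, b)` if `a ∈ K0` or `b ∈ K0`, and otherwise a number `ℓ < N` with `τ ℓ a = b` (it exists for the edges of `H`, it is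
unique by `PM.dis`; note that `τ ℓ a = b ↔ τ ℓ b = a`; define the function on `Sym2 V` by
`fun e => if ∃ a ∈ K0, a ∈ e then fE e else if h : ∃ ℓ < N, ∃ a b, e = s(a, b) ∧ τ ℓ a = b then h.choose else 0`, see the
end of `DX/Fn2.lean`, proved, for a similar function).
Check `Tot`: edges that meet `K0` are fine by `PTot` (fields `e`, `ve`, and step 1 for `fV' v ≠ fE s(v, u)`, `v ∉ K0`). For an edge `a b`
outside `K0` with number `ℓ`: `a ∉ U ℓ` since `τ ℓ a ≠ a` (`PM.fix`), so `fV' a ≠ ℓ` and no edge from `a` to `K0` has the number `ℓ`;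
two edges `a b`, `a b'` outside `K0` with the same `ℓ`: `b = τ ℓ a = b'`. Two edges `a b`, `a b'` that both meet `K0`: field `ee`.
-/

set_option autoImplicit false

namespace Pool.Agent.H71.HL

open Finset Classical
open Pool.Agent.H71.DN Pool.Agent.H71.DX

private theorem ext_vc {V : Type} [Fintype V] (G : SimpleGraph V) (K0 : Finset V) (N β D : ℕ)
    (fV : V → ℕ) (fE : Sym2 V → ℕ) (h : PTot G K0 N fV fE)
    (hβ : ∀ v, v ∉ K0 → dgi G K0 v ≤ β) (hD : ∀ v, v ∉ K0 → dg G v ≤ D)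
    (hN : D + β + 1 ≤ N) (S : Finset V) :
    (∀ v ∈ S, v ∉ K0) → ∃ f : V → ℕ, (∀ a ∈ K0, f a = fV a) ∧
      (∀ a, (a ∈ K0 ∨ a ∈ S) → f a < N) ∧
      (∀ a, (a ∈ K0 ∨ a ∈ S) → ∀ b, (b ∈ K0 ∨ b ∈ S) → G.Adj a b → f a ≠ f b) ∧
      (∀ v ∈ S, ∀ u ∈ K0, G.Adj v u → f v ≠ fE s(v, u)) := by
  refine Finset.induction_on S ?_ ?_
  · intro _
    refine ⟨fV, fun a _ => rfl, ?_, ?_, ?_⟩
    · rintro a (ha | ha)
      · exact h.v a ha
      · exact absurd ha (Finset.notMem_empty a)
    · rintro a (ha | ha) b (hb | hb) hab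
      · exact h.vv a ha b hb hab
      · exact absurd hb (Finset.notMem_empty b)
      · exact absurd ha (Finset.notMem_empty a)
      · exact absurd ha (Finset.notMem_empty a)
    · intro v hv
      exact absurd hv (Finset.notMem_empty v)
  · intro v S hvS ih hS
    have hvK : v ∉ K0 := hS v (Finset.mem_insert_self v S)
    obtain ⟨f, f1, f2, f3, f4⟩ := ih (fun w hw => hS w (Finset.mem_insert_of_mem hw))
    have hcard : ((univ.filter fun u => G.Adj v u).image f ∪
        (K0.filter fun u => G.Adj v u).image (fun u => fE s(v, u))).card <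
        (Finset.range N).card := by
      have h1 := Finset.card_union_le ((univ.filter fun u => G.Adj v u).image f)
        ((K0.filter fun u => G.Adj v u).image (fun u => fE s(v, u)))
      have h2 : ((univ.filter fun u => G.Adj v u).image f).card ≤ dg G v := Finset.card_image_le
      have h3 : ((K0.filter fun u => G.Adj v u).image (fun u => fE s(v, u))).card ≤
          dgi G K0 v := Finset.card_image_le
      have h4 := hβ v hvK
      have h5 := hD v hvK
      rw [Finset.card_range]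
      omega
    obtain ⟨c, hc1, hc2⟩ := Finset.exists_mem_notMem_of_card_lt_card hcard
    rw [Finset.mem_range] at hc1
    rw [Finset.mem_union, not_or] at hc2
    have hcA : ∀ u, G.Adj v u → c ≠ f u := by
      intro u hu hcu
      apply hc2.1
      rw [Finset.mem_image]
      exact ⟨u, Finset.mem_filter.2 ⟨Finset.mem_univ _, hu⟩, hcu.symm⟩
    have hcB : ∀ u ∈ K0, G.Adj v u → c ≠ fE s(v, u) := by
      intro u hu0 hu hcu
      apply hc2.2
      rw [Finset.mem_image]
      exact ⟨u, Finset.mem_filter.2 ⟨hu0, hu⟩, hcu.symm⟩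
    have hS' : ∀ a, (a ∈ K0 ∨ a ∈ insert v S) → a ≠ v → (a ∈ K0 ∨ a ∈ S) := by
      rintro a (ha | ha) hav
      · exact Or.inl ha
      · exact Or.inr (Finset.mem_of_mem_insert_of_ne ha hav)
    refine ⟨Function.update f v c, ?_, ?_, ?_, ?_⟩
    · intro a ha
      have hav : a ≠ v := fun hh => hvK (hh ▸ ha)
      rw [Function.update_of_ne hav]
      exact f1 a ha
    · intro a ha
      by_cases hav : a = v
      · rw [hav, Function.update_self]
        exact hc1
      · rw [Function.update_of_ne hav]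
        exact f2 a (hS' a ha hav)
    · intro a ha b hb hab
      by_cases hav : a = v
      · by_cases hbv : b = v
        · rw [hav, hbv] at hab
          exact absurd hab (G.loopless.irrefl v)
        · rw [hav, Function.update_self, Function.update_of_ne hbv]
          rw [hav] at hab
          exact hcA b hab
      · by_cases hbv : b = v
        · rw [hbv, Function.update_self, Function.update_of_ne hav]
          rw [hbv] at hab
          exact (hcA a hab.symm).symm
        · rw [Function.update_of_ne hav, Function.update_of_ne hbv]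
          exact f3 a (hS' a ha hav) b (hS' b hb hbv) hab
    · intro w hw u hu hwu
      by_cases hwv : w = v
      · rw [hwv, Function.update_self]
        rw [hwv] at hwu
        exact hcB u hu hwu
      · rw [Function.update_of_ne hwv]
        exact f4 w (Finset.mem_of_mem_insert_of_ne hw hwv) u hu hwu

theorem ext {V : Type} [Fintype V] (G : SimpleGraph V) (K0 : Finset V) (N β D t K2 : ℕ)
    (fV : V → ℕ) (fE : Sym2 V → ℕ) (h : PTot G K0 N fV fE)
    (hβ : ∀ v, v ∉ K0 → dgi G K0 v ≤ β) (hD : ∀ v, v ∉ K0 → dg G v ≤ D)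
    (hN : D + β + 1 ≤ N) (hL : D + 1 + K2 ≤ N)
    (ht : Fintype.card V * (β + 1) ^ t < t.factorial)
    (hK2 : 2 * (β + 1) + 3 * (β + 1 + t) < K2) : Tot G N := by
  obtain ⟨f, f1, f2, f3, f4⟩ := ext_vc G K0 N β D fV fE h hβ hD hN
    (univ.filter fun v => v ∉ K0) (fun v hv => (Finset.mem_filter.1 hv).2)
  have hmem : ∀ a, a ∈ K0 ∨ a ∈ (univ.filter fun v => v ∉ K0) := by
    intro a
    by_cases ha : a ∈ K0
    · exact Or.inl ha
    · exact Or.inr (Finset.mem_filter.2 ⟨Finset.mem_univ _, ha⟩)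
  have g2 : ∀ a, f a < N := fun a => f2 a (hmem a)
  have g3 : ∀ a b, G.Adj a b → f a ≠ f b := fun a b hab => f3 a (hmem a) b (hmem b) hab
  have g4 : ∀ a, a ∉ K0 → ∀ u ∈ K0, G.Adj a u → f a ≠ fE s(a, u) := fun a ha u hu hau =>
    f4 a (Finset.mem_filter.2 ⟨Finset.mem_univ _, ha⟩) u hu hau
  obtain ⟨H, hH⟩ : ∃ H : SimpleGraph V, ∀ a b, H.Adj a b ↔ G.Adj a b ∧ a ∉ K0 ∧ b ∉ K0 :=
    ⟨{ Adj := fun a b => G.Adj a b ∧ a ∉ K0 ∧ b ∉ K0
       symm := ⟨fun a b hab => ⟨hab.1.symm, hab.2.2, hab.2.1⟩⟩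
       loopless := ⟨fun a hab => G.loopless.irrefl a hab.1⟩ }, fun a b => Iff.rfl⟩
  let U : ℕ → Finset V := fun ℓ => univ.filter fun v => v ∉ K0 ∧
    (f v = ℓ ∨ ∃ u ∈ K0, G.Adj v u ∧ fE s(v, u) = ℓ)
  have hU : ∀ ℓ v, v ∈ U ℓ ↔ v ∉ K0 ∧ (f v = ℓ ∨ ∃ u ∈ K0, G.Adj v u ∧ fE s(v, u) = ℓ) := by
    intro ℓ v
    simp only [U, Finset.mem_filter, Finset.mem_univ, true_and]
  have hdH : ∀ v, dg H v ≤ D := by
    intro v
    by_cases hv : v ∈ K0
    · have h0 : dg H v = 0 := by
        unfold dg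
        rw [Finset.card_eq_zero]
        apply Finset.eq_empty_of_forall_notMem
        intro u hu
        exact ((hH v u).1 (Finset.mem_filter.1 hu).2).2.1 hv
      rw [h0]
      exact Nat.zero_le _
    · refine le_trans ?_ (hD v hv)
      unfold dg
      apply Finset.card_le_card
      intro u hu
      rw [Finset.mem_filter] at hu ⊢
      exact ⟨hu.1, ((hH v u).1 hu.2).1⟩
  have hmul : ∀ v, mul N U v ≤ β + 1 := by
    intro v
    unfold mul
    by_cases hv : v ∈ K0
    · have h0 : ((range N).filter fun ℓ => v ∈ U ℓ) = ∅ := by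
        apply Finset.eq_empty_of_forall_notMem
        intro ℓ hℓ
        exact ((hU ℓ v).1 (Finset.mem_filter.1 hℓ).2).1 hv
      rw [h0, Finset.card_empty]
      exact Nat.zero_le _
    · have h1 : ((range N).filter fun ℓ => v ∈ U ℓ) ⊆
          {f v} ∪ (K0.filter fun u => G.Adj v u).image (fun u => fE s(v, u)) := by
        intro ℓ hℓ
        rw [Finset.mem_union, Finset.mem_singleton, Finset.mem_image]
        rcases ((hU ℓ v).1 (Finset.mem_filter.1 hℓ).2).2 with h2 | ⟨u, hu, h3, h4⟩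
        · exact Or.inl h2.symm
        · exact Or.inr ⟨u, Finset.mem_filter.2 ⟨hu, h3⟩, h4⟩
      have h2 := (Finset.card_le_card h1).trans (Finset.card_union_le _ _)
      have h3 : ((K0.filter fun u => G.Adj v u).image (fun u => fE s(v, u))).card ≤
          dgi G K0 v := Finset.card_image_le
      have h4 := hβ v hv
      rw [Finset.card_singleton] at h2
      omega
  obtain ⟨τ, hPM, hcov⟩ := sl H D N (β + 1) t K2 U hdH hmul ht hL hK2
  have hinv' : ∀ ℓ < N, ∀ u v, τ ℓ u = v → τ ℓ v = u := by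
    intro ℓ hℓ u v huv
    rw [← huv]
    exact hPM.inv ℓ hℓ u
  let Q : ℕ → Sym2 V → Prop := fun ℓ e => ∃ u v, e = s(u, v) ∧ τ ℓ u = v
  have hQ : ∀ ℓ < N, ∀ u v, Q ℓ s(u, v) → τ ℓ u = v := by
    rintro ℓ hℓ u v ⟨u', v', he, hm⟩
    rcases Sym2.eq_iff.1 he with ⟨h1, h2⟩ | ⟨h1, h2⟩
    · rw [h1, h2]; exact hm
    · rw [h1, h2]; exact hinv' ℓ hℓ _ _ hm
  let fE' : Sym2 V → ℕ := fun e => if ∃ a ∈ K0, a ∈ e then fE e else
    if h : ∃ ℓ, ℓ < N ∧ Q ℓ e then h.choose else 0
  have hA : ∀ a b, (a ∈ K0 ∨ b ∈ K0) → fE' s(a, b) = fE s(a, b) := by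
    intro a b hab
    have h1 : ∃ c ∈ K0, c ∈ s(a, b) := by
      rcases hab with ha | hb
      · exact ⟨a, ha, Sym2.mem_mk_left a b⟩
      · exact ⟨b, hb, Sym2.mem_mk_right a b⟩
    simp only [fE']
    rw [if_pos h1]
  have hB : ∀ a b, G.Adj a b → a ∉ K0 → b ∉ K0 →
      ∃ ℓ < N, fE' s(a, b) = ℓ ∧ τ ℓ a = b := by
    intro a b hab ha hb
    have h1 : ¬ ∃ c ∈ K0, c ∈ s(a, b) := by
      rintro ⟨c, hc, hce⟩
      rcases Sym2.mem_iff.1 hce with h2 | h2
      · exact ha (h2 ▸ hc)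
      · exact hb (h2 ▸ hc)
    have h2 : ∃ ℓ, ℓ < N ∧ Q ℓ s(a, b) := by
      obtain ⟨ℓ, hℓ, h3⟩ := hcov a b ((hH a b).2 ⟨hab, ha, hb⟩)
      exact ⟨ℓ, hℓ, a, b, rfl, h3⟩
    refine ⟨h2.choose, h2.choose_spec.1, ?_, hQ _ h2.choose_spec.1 _ _ h2.choose_spec.2⟩
    simp only [fE']
    rw [if_neg h1, dif_pos h2]
  refine ⟨f, fE', g2, ?_, g3, ?_, ?_⟩
  · intro a b hab
    by_cases ha : a ∈ K0
    · rw [hA a b (Or.inl ha)]
      exact h.e a ha b hab
    · by_cases hb : b ∈ K0
      · rw [hA a b (Or.inr hb), Sym2.eq_swap]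
        exact h.e b hb a hab.symm
      · obtain ⟨ℓ, hℓ, h1, _⟩ := hB a b hab ha hb
        rw [h1]
        exact hℓ
  · intro a b hab
    by_cases ha : a ∈ K0
    · rw [hA a b (Or.inl ha), f1 a ha]
      exact h.ve a ha b hab
    · by_cases hb : b ∈ K0
      · rw [hA a b (Or.inr hb)]
        exact g4 a ha b hb hab
      · obtain ⟨ℓ, hℓ, h1, h2⟩ := hB a b hab ha hb
        rw [h1]
        intro h3
        have h4 := hPM.fix ℓ hℓ a ((hU ℓ a).2 ⟨ha, Or.inl h3⟩)
        rw [h2] at h4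
        rw [h4] at hab
        exact G.loopless.irrefl a hab
  · intro a b b' hab hab' hbb
    by_cases h1 : a ∈ K0 ∨ b ∈ K0
    · by_cases h2 : a ∈ K0 ∨ b' ∈ K0
      · rw [hA a b h1, hA a b' h2]
        exact h.ee a b b' hab hab' hbb h1 h2
      · rw [not_or] at h2
        obtain ⟨ℓ, hℓ, h3, h4⟩ := hB a b' hab' h2.1 h2.2
        have hb : b ∈ K0 := h1.resolve_left h2.1
        rw [hA a b h1, h3]
        intro h5
        have h6 := hPM.fix ℓ hℓ a ((hU ℓ a).2 ⟨h2.1, Or.inr ⟨b, hb, hab, h5⟩⟩)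
        rw [h4] at h6
        rw [h6] at hab'
        exact G.loopless.irrefl a hab'
    · rw [not_or] at h1
      obtain ⟨ℓ, hℓ, h3, h4⟩ := hB a b hab h1.1 h1.2
      by_cases h2 : a ∈ K0 ∨ b' ∈ K0
      · have hb' : b' ∈ K0 := h2.resolve_left h1.1
        rw [hA a b' h2, h3]
        intro h5
        have h6 := hPM.fix ℓ hℓ a ((hU ℓ a).2 ⟨h1.1, Or.inr ⟨b', hb', hab', h5.symm⟩⟩)
        rw [h4] at h6
        rw [h6] at hab
        exact G.loopless.irrefl a hab
      · rw [not_or] at h2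
        obtain ⟨ℓ', hℓ', h3', h4'⟩ := hB a b' hab' h2.1 h2.2
        rw [h3, h3']
        intro h5
        rw [h5, h4'] at h4
        exact hbb h4.symm

end Pool.Agent.H71.HL
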