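import Mathlib
import Pool.Agent.H70.HY.Defs
import Pool.Agent.H71.HL.Defs

/-!
HYR: a labelling of a larger graph restricts to a smaller one; total colourings are the case `p = 1`.

`hyr`: `fV := fV' ∘ f`, `fE := fE' ∘ Sym2.map f` (`Sym2.map f s(u, v) = s(f u, f v)` by `rfl` / `Sym2.map_pair_eq`), `n' + 2 p - 1 ≤ n + 2 p - 1`.
`hyt`: `p = 1`: the labels `≤ n + 1` are those `< n + 2`; `1 ≤ |a - b|` for natural numbers `a ≠ b` as integers. For edges of `G.edgeSet` use `Sym2.ind`.
-/

set_option autoImplicit false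

namespace Pool.Agent.H71.HL

open Finset Classical
open Pool.Agent.H71.DN Pool.Agent.H71.DX

theorem hyr {V V' : Type} (G : SimpleGraph V) (G' : SimpleGraph V') (f : V → V')
    (hf : Function.Injective f) (h : ∀ a b, G.Adj a b → G'.Adj (f a) (f b)) (n n' p : ℕ)
    (hn : n' ≤ n) (hG : H70.HY.HYLab G' n' p) : H70.HY.HYLab G n p := by
  obtain ⟨fV, fE, h1, h2, h3, h4, h5⟩ := hG
  refine ⟨fun v => fV (f v), fun e => fE (Sym2.map f e), fun v => ?_, ?_, fun u v huv => ?_,
    fun u v huv => ?_, fun u v w huv huw hvw => ?_⟩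
  · have h6 := h1 (f v)
    show fV (f v) ≤ n + 2 * p - 1
    omega
  · intro e
    induction e using Sym2.ind with
    | _ a b =>
      intro he
      have hab : G.Adj a b := he
      have h6 := h2 s(f a, f b) (h a b hab)
      show fE s(f a, f b) ≤ n + 2 * p - 1
      omega
  · exact h3 (f u) (f v) (h u v huv)
  · exact h4 (f u) (f v) (h u v huv)
  · exact h5 (f u) (f v) (f w) (h u v huv) (h u w huw) (fun hh => hvw (hf hh))

theorem hyt {V : Type} (G : SimpleGraph V) (n : ℕ) (h : Tot G (n + 2)) :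
    H70.HY.HYLab G n 1 := by
  obtain ⟨fV, fE, h1, h2, h3, h4, h5⟩ := h
  refine ⟨fV, fE, fun v => ?_, ?_, h3, fun u v huv => ?_, h5⟩
  · have h6 := h1 v
    omega
  · intro e
    induction e using Sym2.ind with
    | _ a b =>
      intro he
      have hab : G.Adj a b := he
      have h6 := h2 a b hab
      omega
  · have h6 := h4 u v huv
    have h7 : (fV u : ℤ) - (fE s(u, v) : ℤ) ≠ 0 := by
      intro h8
      exact h6 (by omega)
    have h8 := Int.one_le_abs h7
    simpa using h8

end Pool.Agent.H71.HL
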