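import Mathlib
import Pool.Agent.H71.HL.Defs

/-!
MMK: a graph in which all vertices of `S` have at least `k` neighbours in `S`, `2 k ≤ #S`, has a matching with `k` edges
inside `S`.

Proof of `mmk`.  Among the involutions `π` of `V` with `π v ≠ v → H.Adj v (π v) ∧ v ∈ S ∧ π v ∈ S` (for example `id`)
take one with the largest number of moved vertices (`Finset.exists_max_image` over `univ : Finset (V → V)` filtered).
The moved vertices are in `S`; let `m` be their number, it is even (involution without fixed points on them; or use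
`Finset.card_involution`-like lemmas, or `DN.par` from `DN/Alt.lean`). Suppose `m < 2 k`. Then `m + 2 ≤ 2 k ≤ #S`, so there are
two different vertices `u, v ∈ S` with `π u = u`, `π v = v`. They are not adjacent, and no fixed `x ∈ S` is adjacent to `u`
or to `v` (otherwise interchange `u` and `x` in addition: more moved vertices). So all the `≥ k` neighbours of `u` in `S` are moved,
and so are those of `v`. The sets `{x moved : H.Adj u x}` and `{x moved : H.Adj v (π x)}` (the image of the
neighbours of `v` under `π`) have together `≥ 2 k > m` elements, so they have a common element `x`. Put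
`π' u = x`, `π' x = u`, `π' v = π x`, `π' (π x) = v`, `π' = π` elsewhere (`u, v, x, π x` are four different vertices): two more
moved vertices, a contradiction.

`mmp`: `k = #S / 2`; `#S` is even, so all vertices of `S` are moved.
-/

set_option autoImplicit false

namespace Pool.Agent.H71.HL

open Finset Classical
open Pool.Agent.H71.DN Pool.Agent.H71.DX

theorem mmk_even {V : Type} [Fintype V] (π : V → V) (hπ : Inv π) :
    Even (univ.filter fun v => π v ≠ v).card := by
  have h3 : (∑ v ∈ univ.filter (fun v => π v ≠ v), (1 : ZMod 2)) = 0 := by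
    refine Finset.sum_involution (fun v _ => π v) ?_ ?_ ?_ ?_
    · intro v _
      decide
    · intro v hv _ h
      simp only [mem_filter, mem_univ, true_and] at hv
      exact hv h
    · intro v hv
      simp only [mem_filter, mem_univ, true_and] at hv ⊢
      rw [hπ v]
      exact fun h => hv h.symm
    · intro v _
      exact hπ v
  rw [Finset.sum_const, nsmul_eq_mul, mul_one] at h3
  exact (ZMod.natCast_eq_zero_iff_even).1 h3

theorem mmk_s1 {V : Type} [Fintype V] (H : SimpleGraph V) (S : Finset V) (π : V → V) (hπ : Inv π)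
    (hP : ∀ v, π v ≠ v → H.Adj v (π v) ∧ v ∈ S ∧ π v ∈ S) (u v : V) (hu : π u = u)
    (hv : π v = v) (huS : u ∈ S) (hvS : v ∈ S) (ha : H.Adj u v) :
    ∃ π' : V → V, Inv π' ∧ (∀ v, π' v ≠ v → H.Adj v (π' v) ∧ v ∈ S ∧ π' v ∈ S) ∧
      (univ.filter fun v => π v ≠ v).card < (univ.filter fun v => π' v ≠ v).card := by
  have huv : u ≠ v := ha.ne
  refine ⟨fun w => if w = u then v else if w = v then u else π w, ?_, ?_, ?_⟩
  · intro w
    by_cases h1 : w = u
    · subst h1
      simp [huv.symm]
    · by_cases h2 : w = v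
      · subst h2
        simp [h1]
      · have h3 : π w ≠ u := fun h => h1 (by rw [← hπ w, h, hu])
        have h4 : π w ≠ v := fun h => h2 (by rw [← hπ w, h, hv])
        simp [h1, h2, h3, h4, hπ w]
  · intro w hw
    by_cases h1 : w = u
    · subst h1
      simp only [if_true]
      exact ⟨ha, huS, hvS⟩
    · by_cases h2 : w = v
      · subst h2
        simp only [h1, if_false, if_true]
        exact ⟨ha.symm, hvS, huS⟩
      · simp only [h1, h2, if_false] at hw ⊢
        exact hP w hw
  · apply Finset.card_lt_card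
    rw [Finset.ssubset_iff_of_subset]
    · refine ⟨u, ?_, ?_⟩
      · simp only [mem_filter, mem_univ, true_and, if_true]
        exact huv.symm
      · simp only [mem_filter, mem_univ, true_and, not_not]
        exact hu
    · intro w hw
      simp only [mem_filter, mem_univ, true_and] at hw ⊢
      have h1 : w ≠ u := fun h => hw (by rw [h, hu])
      have h2 : w ≠ v := fun h => hw (by rw [h, hv])
      simp only [h1, h2, if_false]
      exact hw

theorem mmk_s2 {V : Type} [Fintype V] (H : SimpleGraph V) (S : Finset V) (π : V → V) (hπ : Inv π)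
    (hP : ∀ v, π v ≠ v → H.Adj v (π v) ∧ v ∈ S ∧ π v ∈ S) (u v x : V) (huv : u ≠ v)
    (hu : π u = u) (hv : π v = v) (huS : u ∈ S) (hvS : v ∈ S) (hx : π x ≠ x)
    (ha : H.Adj u x) (hb : H.Adj v (π x)) :
    ∃ π' : V → V, Inv π' ∧ (∀ v, π' v ≠ v → H.Adj v (π' v) ∧ v ∈ S ∧ π' v ∈ S) ∧
      (univ.filter fun v => π v ≠ v).card < (univ.filter fun v => π' v ≠ v).card := by
  obtain ⟨y, hy⟩ : ∃ y, y = π x := ⟨_, rfl⟩
  rw [← hy] at hx hb
  have hyx : π y = x := by rw [hy, hπ x]
  have hxS := hP x (by rw [← hy]; exact hx)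
  rw [← hy] at hxS
  have e1 : u ≠ x := ha.ne
  have e2 : v ≠ y := hb.ne
  have e3 : u ≠ y := fun h => e1 (by rw [← hyx, ← h, hu])
  have e4 : v ≠ x := fun h => e2 (by rw [hy, ← h, hv])
  refine ⟨fun w => if w = u then x else if w = x then u else if w = v then y else
    if w = y then v else π w, ?_, ?_, ?_⟩
  · intro w
    by_cases h1 : w = u
    · subst h1
      simp [e1.symm]
    · by_cases h2 : w = x
      · subst h2
        simp [h1]
      · by_cases h3 : w = v
        · subst h3
          simp [h1, h2, e3.symm, hx, e2.symm]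
        · by_cases h4 : w = y
          · subst h4
            simp [h1, h2, h3, huv.symm, e4]
          · have g1 : π w ≠ u := fun h => h1 (by rw [← hπ w, h, hu])
            have g2 : π w ≠ x := fun h => h4 (by rw [← hπ w, h, hy])
            have g3 : π w ≠ v := fun h => h3 (by rw [← hπ w, h, hv])
            have g4 : π w ≠ y := fun h => h2 (by rw [← hπ w, h, hyx])
            simp [h1, h2, h3, h4, g1, g2, g3, g4, hπ w]
  · intro w hw
    by_cases h1 : w = u
    · subst h1
      simp only [if_true]
      exact ⟨ha, huS, hxS.2.1⟩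
    · by_cases h2 : w = x
      · subst h2
        simp only [h1, if_false, if_true]
        exact ⟨ha.symm, hxS.2.1, huS⟩
      · by_cases h3 : w = v
        · subst h3
          simp only [h1, h2, if_false, if_true]
          exact ⟨hb, hvS, hxS.2.2⟩
        · by_cases h4 : w = y
          · subst h4
            simp only [h1, h2, h3, if_false, if_true]
            exact ⟨hb.symm, hxS.2.2, hvS⟩
          · simp only [h1, h2, h3, h4, if_false] at hw ⊢
            exact hP w hw
  · apply Finset.card_lt_card
    rw [Finset.ssubset_iff_of_subset]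
    · refine ⟨u, ?_, ?_⟩
      · simp only [mem_filter, mem_univ, true_and, if_true]
        exact e1.symm
      · simp only [mem_filter, mem_univ, true_and, not_not]
        exact hu
    · intro w hw
      simp only [mem_filter, mem_univ, true_and] at hw ⊢
      have h1 : w ≠ u := fun h => hw (by rw [h, hu])
      have h3 : w ≠ v := fun h => hw (by rw [h, hv])
      by_cases h2 : w = x
      · subst h2
        simp only [h1, if_false, if_true]
        exact e1
      · by_cases h4 : w = y
        · subst h4
          simp only [h1, h2, h3, if_false, if_true]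
          exact e2
        · simp only [h1, h2, h3, h4, if_false]
          exact hw

theorem mmk {V : Type} [Fintype V] (H : SimpleGraph V) (S : Finset V) (k : ℕ)
    (h2 : 2 * k ≤ S.card) (hd : ∀ v ∈ S, k ≤ dgi H S v) :
    ∃ π : V → V, Inv π ∧ (∀ v, π v ≠ v → H.Adj v (π v) ∧ v ∈ S ∧ π v ∈ S) ∧
      2 * k ≤ (univ.filter fun v => π v ≠ v).card := by
  obtain ⟨T, hT⟩ : ∃ T : Finset (V → V), T = univ.filter fun π : V → V =>
      Inv π ∧ (∀ v, π v ≠ v → H.Adj v (π v) ∧ v ∈ S ∧ π v ∈ S) := ⟨_, rfl⟩
  have hTn : T.Nonempty := by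
    refine ⟨id, ?_⟩
    rw [hT, mem_filter]
    exact ⟨mem_univ _, fun v => rfl, fun v h => absurd rfl h⟩
  obtain ⟨π, hπT, hmax⟩ := Finset.exists_max_image T
    (fun π : V → V => (univ.filter fun v => π v ≠ v).card) hTn
  rw [hT, mem_filter] at hπT
  obtain ⟨_, hπ, hP⟩ := hπT
  refine ⟨π, hπ, hP, ?_⟩
  have hcon : ∀ π' : V → V, Inv π' →
      (∀ v, π' v ≠ v → H.Adj v (π' v) ∧ v ∈ S ∧ π' v ∈ S) →
      ¬ (univ.filter fun v => π v ≠ v).card < (univ.filter fun v => π' v ≠ v).card := by
    intro π' h1 h3 h4
    have h5 := hmax π' (by rw [hT, mem_filter]; exact ⟨mem_univ _, h1, h3⟩)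
    exact absurd h4 (not_lt.2 h5)
  by_contra hlt
  obtain ⟨M, hM⟩ : ∃ M : Finset V, M = univ.filter fun v => π v ≠ v := ⟨_, rfl⟩
  have hev : Even M.card := by
    rw [hM]
    exact mmk_even π hπ
  rw [← hM] at hlt hcon
  have hMS : M ⊆ S := by
    intro v hv
    rw [hM, mem_filter] at hv
    exact (hP v hv.2).2.1
  have hm2 : M.card + 2 ≤ 2 * k := by
    obtain ⟨r, hr⟩ := hev
    omega
  have hcd : 1 < (S \ M).card := by
    rw [Finset.card_sdiff_of_subset hMS]
    omega
  obtain ⟨u, hu, v, hv, huv⟩ := Finset.one_lt_card.1 hcd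
  have hfix : ∀ w ∈ S \ M, w ∈ S ∧ π w = w := by
    intro w hw
    rw [mem_sdiff, hM, mem_filter] at hw
    refine ⟨hw.1, ?_⟩
    by_contra h
    exact hw.2 ⟨mem_univ _, h⟩
  obtain ⟨huS, hu⟩ := hfix u hu
  obtain ⟨hvS, hv⟩ := hfix v hv
  have hnb : ∀ w ∈ S, π w = w → ∀ x ∈ S, H.Adj w x → x ∈ M := by
    intro w hw hfw x hx ha
    by_contra hxM
    obtain ⟨_, hfx⟩ := hfix x (by rw [mem_sdiff]; exact ⟨hx, hxM⟩)
    obtain ⟨π', h1, h3, h4⟩ := mmk_s1 H S π hπ hP w x hfw hfx hw hx ha
    rw [← hM] at h4
    exact hcon π' h1 h3 h4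
  have hku := hd u huS
  have hkv := hd v hvS
  unfold dgi at hku hkv
  have hinj : Function.Injective π := fun a b h => by rw [← hπ a, h, hπ b]
  have hcB : ((S.filter fun w => H.Adj v w).image π).card = (S.filter fun w => H.Adj v w).card :=
    Finset.card_image_of_injective _ hinj
  have hsub : (S.filter fun w => H.Adj u w) ∪ ((S.filter fun w => H.Adj v w).image π) ⊆ M := by
    intro x hx
    rw [mem_union] at hx
    rcases hx with hx | hx
    · rw [mem_filter] at hx
      exact hnb u huS hu x hx.1 hx.2
    · rw [mem_image] at hx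
      obtain ⟨y, hy, rfl⟩ := hx
      rw [mem_filter] at hy
      have h1 := hnb v hvS hv y hy.1 hy.2
      rw [hM, mem_filter] at h1 ⊢
      refine ⟨mem_univ _, ?_⟩
      rw [hπ y]
      exact fun h => h1.2 h.symm
  have hcard := Finset.card_le_card hsub
  have hui := Finset.card_union_add_card_inter (S.filter fun w => H.Adj u w)
    ((S.filter fun w => H.Adj v w).image π)
  have hne : ((S.filter fun w => H.Adj u w) ∩ ((S.filter fun w => H.Adj v w).image π)).Nonempty := by
    rw [← Finset.card_pos]
    omega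
  obtain ⟨x, hx⟩ := hne
  rw [mem_inter, mem_filter, mem_image] at hx
  obtain ⟨⟨hxS, hux⟩, y, hy, hyx⟩ := hx
  rw [mem_filter] at hy
  have hpx : π x = y := by rw [← hyx, hπ y]
  have hxM := hnb u huS hu x hxS hux
  rw [hM, mem_filter] at hxM
  obtain ⟨π', h1, h3, h4⟩ := mmk_s2 H S π hπ hP u v x huv hu hv huS hvS hxM.2 hux
    (by rw [hpx]; exact hy.2)
  rw [← hM] at h4
  exact hcon π' h1 h3 h4

theorem mmp {V : Type} [Fintype V] (H : SimpleGraph V) (S : Finset V)
    (he : Even S.card) (hd : ∀ v ∈ S, S.card ≤ 2 * dgi H S v) :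
    ∃ π : V → V, Inv π ∧ (∀ v, π v ≠ v → H.Adj v (π v) ∧ v ∈ S ∧ π v ∈ S) ∧
      ∀ v ∈ S, π v ≠ v := by
  obtain ⟨r, hr⟩ := he
  obtain ⟨π, h1, h3, h4⟩ := mmk H S r (by omega) (fun v hv => by
    have := hd v hv
    omega)
  refine ⟨π, h1, h3, ?_⟩
  have hsub : (univ.filter fun v => π v ≠ v) ⊆ S := by
    intro v hv
    rw [mem_filter] at hv
    exact (h3 v hv.2).2.1
  have heq : (univ.filter fun v => π v ≠ v) = S :=
    Finset.eq_of_subset_of_card_le hsub (by omega)
  intro v hv
  rw [← heq, mem_filter] at hv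
  exact hv.2

end Pool.Agent.H71.HL
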