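import Mathlib
import Pool.Agent.H71.HL.Mmk

/-!
NCB: for each label `ℓ < L` a matching of all the vertices of `C \ X ℓ`, edge-disjoint, without edges inside `Z`, in a graph in
which the vertices of `C` have more than `#C / 2` neighbours in `C`.

Proof.  Induction on the number of labels done (for `L' ≤ L` there are `μ ℓ`, `ℓ < L'`, with the properties). For the label
`ℓ` let `H'.Adj a b := G.Adj a b ∧ ¬ (a ∈ Z ∧ b ∈ Z) ∧ ∀ ℓ' < ℓ, μ ℓ' a ≠ b` (symmetric since the `μ ℓ'` are involutions) and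
`S := C \ X ℓ`. For `v ∈ S` the neighbours of `v` in `C` in the graph `G` which are not neighbours of `v` in `S` in the graph `H'` are in
`X ℓ ∩ C`, or in `Z`, or one of the `μ ℓ' v`, `ℓ' < ℓ`: `dgi G C v ≤ dgi H' S v + x0 + #Z + L`. So `#S ≤ #C ≤ 2 dgi H' S v` by `hd`, and `#S` is
even: `mmp` (`HL/Mmk.lean`) gives `π =: μ ℓ`. (`PM.fix`: `μ ℓ` moves only vertices of `S`.)
-/

set_option autoImplicit false

namespace Pool.Agent.H71.HL

open Finset Classical
open Pool.Agent.H71.DN Pool.Agent.H71.DX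

theorem ncb {V : Type} [Fintype V] (G : SimpleGraph V) (C Z : Finset V) (L x0 : ℕ)
    (X : ℕ → Finset V)
    (hX : ∀ ℓ < L, (X ℓ ∩ C).card ≤ x0)
    (he : ∀ ℓ < L, Even (C \ X ℓ).card)
    (hd : ∀ v ∈ C, C.card + 2 * (x0 + L + Z.card) ≤ 2 * dgi G C v) :
    ∃ μ : ℕ → V → V, PM G L (fun ℓ => univ \ (C \ X ℓ)) μ ∧
      (∀ ℓ < L, ∀ v ∈ C \ X ℓ, μ ℓ v ≠ v) ∧
      (∀ ℓ < L, ∀ v ∈ Z, μ ℓ v ≠ v → μ ℓ v ∉ Z) := by
  have key : ∀ L' ≤ L, ∃ μ : ℕ → V → V, PM G L' (fun ℓ => univ \ (C \ X ℓ)) μ ∧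
      (∀ ℓ < L', ∀ v ∈ C \ X ℓ, μ ℓ v ≠ v) ∧
      (∀ ℓ < L', ∀ v ∈ Z, μ ℓ v ≠ v → μ ℓ v ∉ Z) := by
    intro L'
    induction L' with
    | zero =>
      intro _
      refine ⟨fun _ v => v, ⟨?_, ?_, ?_, ?_⟩, ?_, ?_⟩
      all_goals
        intro ℓ hℓ
        exact absurd hℓ (Nat.not_lt_zero _)
    | succ n ih =>
      intro hn
      obtain ⟨μ, hPM, h1, h2⟩ := ih (by omega)
      have hnL : n < L := by omega
      obtain ⟨H, hH⟩ : ∃ H : SimpleGraph V, ∀ a b, H.Adj a b ↔
          (G.Adj a b ∧ ¬ (a ∈ Z ∧ b ∈ Z) ∧ ∀ ℓ' < n, μ ℓ' a ≠ b) := by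
        refine ⟨⟨fun a b => G.Adj a b ∧ ¬ (a ∈ Z ∧ b ∈ Z) ∧ ∀ ℓ' < n, μ ℓ' a ≠ b, ?_, ?_⟩,
          fun a b => Iff.rfl⟩
        · constructor
          intro a b hab
          refine ⟨hab.1.symm, fun h => hab.2.1 ⟨h.2, h.1⟩, fun ℓ' hℓ' h => ?_⟩
          apply hab.2.2 ℓ' hℓ'
          rw [← h]
          exact hPM.inv ℓ' hℓ' b
        · exact ⟨fun a h => G.loopless.irrefl a h.1⟩
      have hdeg : ∀ v ∈ C \ X n, (C \ X n).card ≤ 2 * dgi H (C \ X n) v := by
        intro v hv
        have hvC : v ∈ C := (mem_sdiff.1 hv).1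
        have hsub : (C.filter fun u => G.Adj v u) ⊆
            ((((C \ X n).filter fun u => H.Adj v u) ∪ (X n ∩ C)) ∪ Z) ∪
              ((range n).image fun ℓ' => μ ℓ' v) := by
          intro u hu
          rw [mem_filter] at hu
          rw [mem_union, mem_union, mem_union]
          by_cases hX1 : u ∈ X n
          · exact Or.inl (Or.inl (Or.inr (mem_inter.2 ⟨hX1, hu.1⟩)))
          · by_cases hZ1 : u ∈ Z
            · exact Or.inl (Or.inr hZ1)
            · by_cases hm : ∀ ℓ' < n, μ ℓ' v ≠ u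
              · refine Or.inl (Or.inl (Or.inl ?_))
                rw [mem_filter, mem_sdiff]
                exact ⟨⟨hu.1, hX1⟩, (hH v u).2 ⟨hu.2, fun h => hZ1 h.2, hm⟩⟩
              · push Not at hm
                obtain ⟨ℓ', hℓ', hm⟩ := hm
                exact Or.inr (mem_image.2 ⟨ℓ', mem_range.2 hℓ', hm⟩)
        have hc := Finset.card_le_card hsub
        have hc1 := Finset.card_union_le
          ((((C \ X n).filter fun u => H.Adj v u) ∪ (X n ∩ C)) ∪ Z)
          ((range n).image fun ℓ' => μ ℓ' v)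
        have hc2 := Finset.card_union_le
          (((C \ X n).filter fun u => H.Adj v u) ∪ (X n ∩ C)) Z
        have hc3 := Finset.card_union_le
          ((C \ X n).filter fun u => H.Adj v u) (X n ∩ C)
        have hc4 : ((range n).image fun ℓ' => μ ℓ' v).card ≤ n := by
          refine (Finset.card_image_le).trans ?_
          rw [card_range]
        have hc5 := hX n hnL
        have hc6 := hd v hvC
        have hc7 : (C \ X n).card ≤ C.card := Finset.card_le_card sdiff_subset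
        have e1 : dgi G C v = (C.filter fun u => G.Adj v u).card := rfl
        have e2 : dgi H (C \ X n) v = ((C \ X n).filter fun u => H.Adj v u).card := rfl
        rw [← e1] at hc
        rw [← e2] at hc3
        omega
      obtain ⟨π, p1, p2, p3⟩ := mmp H (C \ X n) (he n hnL) hdeg
      have hμ1 : ∀ ℓ, ℓ < n → (fun ℓ => if ℓ = n then π else μ ℓ) ℓ = μ ℓ := by
        intro ℓ hℓ
        simp only [if_neg (Nat.ne_of_lt hℓ)]
      have hμ2 : (fun ℓ => if ℓ = n then π else μ ℓ) n = π := by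
        simp only [if_true]
      obtain ⟨ν, hν⟩ : ∃ ν : ℕ → V → V, ν = fun ℓ => if ℓ = n then π else μ ℓ := ⟨_, rfl⟩
      rw [← hν] at hμ1 hμ2
      have hcase : ∀ ℓ, ℓ < n + 1 → ℓ < n ∨ ℓ = n := fun ℓ h => by omega
      refine ⟨ν, ⟨?_, ?_, ?_, ?_⟩, ?_, ?_⟩
      · intro ℓ hℓ
        rcases hcase ℓ hℓ with h | h
        · rw [hμ1 ℓ h]
          exact hPM.inv ℓ h
        · rw [h, hμ2]
          exact p1
      · intro ℓ hℓ v hv
        rcases hcase ℓ hℓ with h | h
        · rw [hμ1 ℓ h] at hv ⊢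
          exact hPM.adj ℓ h v hv
        · rw [h, hμ2] at hv ⊢
          exact ((hH _ _).1 (p2 v hv).1).1
      · intro ℓ hℓ ℓ' hℓ' hne v hv
        rcases hcase ℓ hℓ with h | h
        · rcases hcase ℓ' hℓ' with h' | h'
          · rw [hμ1 ℓ h] at hv ⊢
            rw [hμ1 ℓ' h']
            exact hPM.dis ℓ h ℓ' h' hne v hv
          · rw [hμ1 ℓ h] at hv ⊢
            rw [h', hμ2]
            intro heq
            have hv2 : π v ≠ v := by rw [← heq]; exact hv
            exact ((hH _ _).1 (p2 v hv2).1).2.2 ℓ h heq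
        · rcases hcase ℓ' hℓ' with h' | h'
          · rw [h, hμ2] at hv ⊢
            rw [hμ1 ℓ' h']
            intro heq
            exact ((hH _ _).1 (p2 v hv).1).2.2 ℓ' h' heq.symm
          · exact absurd (h.trans h'.symm) hne
      · intro ℓ hℓ v hv
        rcases hcase ℓ hℓ with h | h
        · rw [hμ1 ℓ h]
          exact hPM.fix ℓ h v hv
        · rw [h, hμ2]
          rw [h] at hv
          by_contra hcon
          exact (mem_sdiff.1 hv).2 (p2 v hcon).2.1
      · intro ℓ hℓ v hv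
        rcases hcase ℓ hℓ with h | h
        · rw [hμ1 ℓ h]
          exact h1 ℓ h v hv
        · rw [h, hμ2]
          rw [h] at hv
          exact p3 v hv
      · intro ℓ hℓ v hv hne
        rcases hcase ℓ hℓ with h | h
        · rw [hμ1 ℓ h] at hne ⊢
          exact h2 ℓ h v hv hne
        · rw [h, hμ2] at hne ⊢
          intro hz
          exact ((hH _ _).1 (p2 v hne).1).2.1 ⟨hv, hz⟩
  exact key L le_rfl

end Pool.Agent.H71.HL
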