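import Mathlib
import Pool.Agent.H71.HL.Mmk

/-!
NCP: `P` disjoint independent pairs in a set of `Δ + 1 + P` vertices.

Proof.  `mmk` (`HL/Mmk.lean`) for `Gᶜ`, `S := K0`, `k := P`: a vertex `v ∈ K0` has at most `Δ` neighbours in `K0` in `G`, so at least
`#K0 - 1 - Δ = P` in `Gᶜ`. It gives an involution `π` with at least `2 P` moved vertices, all in `K0`, `v` and `π v` not adjacent in `G` if
`π v ≠ v`. The sets `{v, π v}`, `v` moved, are pairwise equal or disjoint, and each is obtained from two `v`; so the image of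
`v ↦ {v, π v}` on the moved vertices has at least `P` elements; `U ℓ`, `ℓ < P`, are `P` different elements of it
(for example an injection `Fin P → image`, `Finset.exists_subset_card_eq` and `Finset.equivFin`). Or: induction on `P'` ≤ `P`: as long as
`P' < P` the union of the `U ℓ`, `ℓ < P'`, (closed under `π`) has `2 P'` elements, so there is a moved vertex outside.
-/

set_option autoImplicit false

namespace Pool.Agent.H71.HL

open Finset Classical
open Pool.Agent.H71.DN Pool.Agent.H71.DX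

theorem ncp_pair {V : Type} (π : V → V) (hπ : Inv π) (x v : V)
    (hx : x ∈ ({v, π v} : Finset V)) : ({x, π x} : Finset V) = {v, π v} := by
  rw [mem_insert, mem_singleton] at hx
  rcases hx with rfl | rfl
  · rfl
  · rw [hπ v]
    exact Finset.pair_comm _ _

theorem ncp_deg {V : Type} [Fintype V] (G : SimpleGraph V) (K0 : Finset V) (Δ P : ℕ)
    (hd : ∀ v, dg G v ≤ Δ) (hK : K0.card = Δ + 1 + P) (v : V) : P ≤ dgi Gᶜ K0 v := by
  have hsub : K0 ⊆ insert v ((univ.filter fun u => G.Adj v u) ∪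
      (K0.filter fun u => Gᶜ.Adj v u)) := by
    intro u hu
    rw [mem_insert, mem_union, mem_filter, mem_filter, SimpleGraph.compl_adj]
    by_cases h1 : u = v
    · exact Or.inl h1
    · by_cases h2 : G.Adj v u
      · exact Or.inr (Or.inl ⟨mem_univ _, h2⟩)
      · exact Or.inr (Or.inr ⟨hu, fun h => h1 h.symm, h2⟩)
  have h1 := Finset.card_le_card hsub
  have h2 := Finset.card_insert_le v ((univ.filter fun u => G.Adj v u) ∪
      (K0.filter fun u => Gᶜ.Adj v u))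
  have h3 := Finset.card_union_le (univ.filter fun u => G.Adj v u)
      (K0.filter fun u => Gᶜ.Adj v u)
  have h4 := hd v
  unfold dg at h4
  have h5 : dgi Gᶜ K0 v = (K0.filter fun u => Gᶜ.Adj v u).card := by
    unfold dgi
    exact congrArg Finset.card (Finset.ext fun x => by simp only [mem_filter])
  rw [h5]
  omega

theorem ncp {V : Type} [Fintype V] (G : SimpleGraph V) (K0 : Finset V) (Δ P : ℕ)
    (hd : ∀ v, dg G v ≤ Δ) (hK : K0.card = Δ + 1 + P) (hP : 2 * P ≤ K0.card) :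
    ∃ U : ℕ → Finset V, (∀ ℓ < P, U ℓ ⊆ K0) ∧ (∀ ℓ < P, (U ℓ).card = 2) ∧
      (∀ ℓ < P, ∀ a ∈ U ℓ, ∀ b ∈ U ℓ, ¬ G.Adj a b) ∧
      ∀ ℓ < P, ∀ ℓ' < P, ℓ ≠ ℓ' → Disjoint (U ℓ) (U ℓ') := by
  obtain ⟨π, hπ, hm, hc⟩ := mmk Gᶜ K0 P hP (fun v _ => ncp_deg G K0 Δ P hd hK v)
  obtain ⟨M, hM⟩ : ∃ M : Finset V, M = univ.filter fun v => π v ≠ v := ⟨_, rfl⟩
  rw [← hM] at hc
  obtain ⟨I, hI⟩ : ∃ I : Finset (Finset V), I = M.image (fun v => {v, π v}) := ⟨_, rfl⟩
  have hIc : P ≤ I.card := by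
    have h1 := Finset.card_le_mul_card_image (f := fun v => ({v, π v} : Finset V)) M 2 (by
      intro a ha
      rw [mem_image] at ha
      obtain ⟨w, _, rfl⟩ := ha
      have h2 : (M.filter fun x => ({x, π x} : Finset V) = {w, π w}) ⊆ {w, π w} := by
        intro x hx
        rw [mem_filter] at hx
        rw [← hx.2, mem_insert]
        exact Or.inl rfl
      exact (Finset.card_le_card h2).trans Finset.card_le_two)
    rw [← hI] at h1
    omega
  have hImem : ∀ A ∈ I, ∃ v, π v ≠ v ∧ A = {v, π v} := by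
    intro A hA
    rw [hI, mem_image] at hA
    obtain ⟨v, hv, rfl⟩ := hA
    rw [hM, mem_filter] at hv
    exact ⟨v, hv.2, rfl⟩
  obtain ⟨e, he⟩ : ∃ e : Fin I.card ≃ I, e = I.equivFin.symm := ⟨_, rfl⟩
  obtain ⟨U, hU⟩ : ∃ U : ℕ → Finset V, ∀ ℓ, U ℓ = if h : ℓ < I.card then
      ((e ⟨ℓ, h⟩ : I) : Finset V) else ∅ := ⟨_, fun _ => rfl⟩
  have hUm : ∀ ℓ < P, U ℓ ∈ I := by
    intro ℓ hℓ
    rw [hU, dif_pos (lt_of_lt_of_le hℓ hIc)]
    exact (e ⟨ℓ, _⟩).2
  have hUi : ∀ ℓ < P, ∀ ℓ' < P, U ℓ = U ℓ' → ℓ = ℓ' := by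
    intro ℓ hℓ ℓ' hℓ' h
    rw [hU, hU, dif_pos (lt_of_lt_of_le hℓ hIc), dif_pos (lt_of_lt_of_le hℓ' hIc)] at h
    have h1 := e.injective (Subtype.ext h)
    exact congrArg Fin.val h1
  refine ⟨U, ?_, ?_, ?_, ?_⟩
  · intro ℓ hℓ
    obtain ⟨v, hv, hA⟩ := hImem _ (hUm ℓ hℓ)
    obtain ⟨_, h1, h2⟩ := hm v hv
    rw [hA]
    intro x hx
    rw [mem_insert, mem_singleton] at hx
    rcases hx with rfl | rfl
    · exact h1
    · exact h2
  · intro ℓ hℓ
    obtain ⟨v, hv, hA⟩ := hImem _ (hUm ℓ hℓ)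
    rw [hA]
    exact Finset.card_pair (fun h => hv h.symm)
  · intro ℓ hℓ a ha b hb hab
    obtain ⟨v, hv, hA⟩ := hImem _ (hUm ℓ hℓ)
    obtain ⟨h0, _, _⟩ := hm v hv
    rw [SimpleGraph.compl_adj] at h0
    rw [hA, mem_insert, mem_singleton] at ha hb
    rcases ha with rfl | rfl
    · rcases hb with rfl | rfl
      · exact hab.ne rfl
      · exact h0.2 hab
    · rcases hb with rfl | rfl
      · exact h0.2 hab.symm
      · exact hab.ne rfl
  · intro ℓ hℓ ℓ' hℓ' hne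
    obtain ⟨v, _, hA⟩ := hImem _ (hUm ℓ hℓ)
    obtain ⟨w, _, hB⟩ := hImem _ (hUm ℓ' hℓ')
    rw [Finset.disjoint_left]
    intro x hx hx'
    apply hne
    apply hUi ℓ hℓ ℓ' hℓ'
    rw [hA] at hx ⊢
    rw [hB] at hx' ⊢
    rw [← ncp_pair π hπ x v hx, ncp_pair π hπ x w hx']

end Pool.Agent.H71.HL
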