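import Mathlib
import Pool.Agent.H71.HL.Defs
import Pool.Agent.H71.DX.Four

/-!
NCU: a total colouring of the part of `G` at `K0` with `Δ + 2` colours from matchings `mm ℓ`, `ℓ < L`, of `G - U ℓ` (the vertices of the independent
sets `U ℓ` get the colour `ℓ`); all the other vertices of `K0` get different colours `≥ L`.

Proof.  `K := Δ + 2 - L` (`L ≤ Δ + 1` by `hK`). The graph `F` on `Option V`: `F.Adj (some a) (some b)` iff `G.Adj a b`, `a ∈ K0 ∨ b ∈ K0`, and
`mm ℓ a ≠ b` for all `ℓ < L`; `F.Adj none (some v)` iff `v ∈ K0` and `v ∉ U ℓ` for all `ℓ < L` (and symmetric; `F.Adj none none` false).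
Degrees in `F`:
 * `none`: `#{v ∈ K0 : ∀ ℓ < L, v ∉ U ℓ} ≤ Δ + 1 - L = K - 1`.
 * `some v`, `v ∉ K0`: at most `dgi G K0 v ≤ Δ + 1 - L = K - 1`.
 * `some v`, `v ∈ K0`, `v ∉ U ℓ` for all `ℓ < L`: `1 + (dg G v - #{ℓ < L : mm ℓ v ≠ v})` (the `mm ℓ v ≠ v`, `ℓ < L`, are different neighbours of `v` by
   `PM.dis`), `= 1 + dg G v - L + #{ℓ < L : mm ℓ v = v} ≤ K - 1 + [v ∈ Z]` by `hd`.
 * `some v`, `v ∈ U ℓ0`, `ℓ0 < L`: `v ∉ U ℓ` for `ℓ ≠ ℓ0`, and no neighbour `none`; `dg G v - #{ℓ < L : mm ℓ v ≠ v}` where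
   `L - #{ℓ < L : mm ℓ v ≠ v} = #{ℓ < L : mm ℓ v = v} = 1 + #{ℓ < L : v ∉ U ℓ ∧ mm ℓ v = v}` (`PM.fix`), so again `≤ K - 1 + [v ∈ Z]`.
So all degrees are `≤ K`, and vertices of degree `K` are `some v` with `v ∈ Z ∩ K0`; two of them are not adjacent in `F` by `hZ`.
`four` (`DX/Four.lean`, proved; see `DX/Fn2.lean`, proved, for its use and for the counting of the degree) gives a proper edge colouring `ec` of `F` with
colours `< K`.
`fV v := ` if `∃ ℓ < L, v ∈ U ℓ` then this `ℓ`, else `L + ec s(none, some v)`.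
`fE e := ` if there are `ℓ < L` and `a b` with `e = s(a, b)`, `a ≠ b` and `mm ℓ a = b` then this `ℓ` (unique for given `e`), else
`L + ec (e.map some)` (see the end of `DX/Fn2.lean` for such a function; `Sym2.map_mk`).
`PTot`: `v`, `e`: `L + ec _ < L + K = Δ + 2`. `vv`: `a ≠ b` adjacent: not both in the same `U ℓ` (`hUi`); both outside: the colours at `none` are different.
`ve`: `a ∈ K0`: `fE s(a, b) = ℓ < L` means `mm ℓ a = b ≠ a`, so `a ∉ U ℓ`; if `fE s(a, b) ≥ L` and `a` outside all `U ℓ` then the colours at `some a`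
are different; `ee`: both `< L`: `mm ℓ a = b` and `mm ℓ a = b'`; both `≥ L`: the colours at `some a` are different (both edges are edges of `F`).
-/

set_option autoImplicit false

namespace Pool.Agent.H71.HL

open Finset Classical
open Pool.Agent.H71.DN Pool.Agent.H71.DX

theorem ncu {V : Type} [Fintype V] (G : SimpleGraph V) (Δ L : ℕ) (K0 Z : Finset V)
    (U : ℕ → Finset V) (mm : ℕ → V → V)
    (hUd : ∀ ℓ < L, ∀ ℓ' < L, ℓ ≠ ℓ' → Disjoint (U ℓ) (U ℓ'))
    (hUi : ∀ ℓ < L, ∀ a ∈ U ℓ, ∀ b ∈ U ℓ, ¬ G.Adj a b)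
    (hK : (K0.filter fun v => ∀ ℓ < L, v ∉ U ℓ).card + L ≤ Δ + 1)
    (hm : PM G L U mm)
    (hd : ∀ v ∈ K0, dg G v + ((range L).filter fun ℓ => v ∉ U ℓ ∧ mm ℓ v = v).card ≤
      Δ + (if v ∈ Z then 1 else 0))
    (hZ : ∀ a ∈ Z, ∀ b ∈ Z, G.Adj a b → ∃ ℓ < L, mm ℓ a = b)
    (ho : ∀ v, v ∉ K0 → dgi G K0 v + L ≤ Δ + 1) :
    ∃ (fV : V → ℕ) (fE : Sym2 V → ℕ), PTot G K0 (Δ + 2) fV fE := by
  obtain ⟨K, hKd⟩ : ∃ K, K = Δ + 2 - L := ⟨_, rfl⟩
  have hKL : K + L = Δ + 2 := by omega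
  have hinv' : ∀ ℓ < L, ∀ u v, mm ℓ u = v → mm ℓ v = u := by
    intro ℓ hℓ u v h
    rw [← h]
    exact hm.inv ℓ hℓ u
  -- the auxiliary graph
  obtain ⟨F, hF1, hF2⟩ : ∃ F : SimpleGraph (Option V),
      (∀ a b, F.Adj (some a) (some b) ↔
        G.Adj a b ∧ (a ∈ K0 ∨ b ∈ K0) ∧ ∀ ℓ < L, mm ℓ a ≠ b) ∧
      (∀ v, F.Adj none (some v) ↔ v ∈ K0 ∧ ∀ ℓ < L, v ∉ U ℓ) := by
    let R : Option V → Option V → Prop := fun x y =>
      (∃ a b, x = some a ∧ y = some b ∧ G.Adj a b ∧ (a ∈ K0 ∨ b ∈ K0) ∧ ∀ ℓ < L, mm ℓ a ≠ b) ∨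
      (∃ v, x = none ∧ y = some v ∧ v ∈ K0 ∧ ∀ ℓ < L, v ∉ U ℓ) ∨
      (∃ v, x = some v ∧ y = none ∧ v ∈ K0 ∧ ∀ ℓ < L, v ∉ U ℓ)
    refine ⟨{ Adj := R, symm := ⟨?_⟩, loopless := ⟨?_⟩ }, ?_, ?_⟩
    · rintro x y (⟨a, b, rfl, rfl, h1, h2, h3⟩ | ⟨v, rfl, rfl, h1, h2⟩ | ⟨v, rfl, rfl, h1, h2⟩)
      · exact Or.inl ⟨b, a, rfl, rfl, h1.symm, h2.symm,
          fun ℓ hℓ h => h3 ℓ hℓ (hinv' ℓ hℓ _ _ h)⟩
      · exact Or.inr (Or.inr ⟨v, rfl, rfl, h1, h2⟩)
      · exact Or.inr (Or.inl ⟨v, rfl, rfl, h1, h2⟩)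
    · rintro x (⟨a, b, h, h', h1, h2, h3⟩ | ⟨v, h, h', h1, h2⟩ | ⟨v, h, h', h1, h2⟩)
      · rw [h] at h'
        exact h1.ne (Option.some.inj h')
      · rw [h] at h'
        exact absurd h' (by simp)
      · rw [h] at h'
        exact absurd h' (by simp)
    · intro a b
      constructor
      · rintro (⟨a', b', h, h', h1, h2, h3⟩ | ⟨v, h, h', h1, h2⟩ | ⟨v, h, h', h1, h2⟩)
        · rw [Option.some.inj h, Option.some.inj h']
          exact ⟨h1, h2, h3⟩
        · exact absurd h (by simp)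
        · exact absurd h' (by simp)
      · rintro ⟨h1, h2, h3⟩
        exact Or.inl ⟨a, b, rfl, rfl, h1, h2, h3⟩
    · intro v
      constructor
      · rintro (⟨a', b', h, h', h1, h2, h3⟩ | ⟨w, h, h', h1, h2⟩ | ⟨w, h, h', h1, h2⟩)
        · exact absurd h (by simp)
        · rw [Option.some.inj h']
          exact ⟨h1, h2⟩
        · exact absurd h (by simp)
      · rintro ⟨h1, h2⟩
        exact Or.inr (Or.inl ⟨v, rfl, rfl, h1, h2⟩)
  -- degree of the new vertex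
  have hdn : (F.neighborSet none).ncard + 1 ≤ K := by
    have h1 : (F.neighborSet none).ncard ≤
        (((K0.filter fun v => ∀ ℓ < L, v ∉ U ℓ).image some : Finset (Option V)) :
          Set (Option V)).ncard := by
      refine Set.ncard_le_ncard ?_ (Finset.finite_toSet _)
      intro x hx
      rw [SimpleGraph.mem_neighborSet] at hx
      rw [Finset.mem_coe, Finset.mem_image]
      cases x with
      | none => exact absurd hx (F.irrefl)
      | some w =>
        refine ⟨w, ?_, rfl⟩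
        rw [Finset.mem_filter]
        exact (hF2 w).1 hx
    rw [Set.ncard_coe_finset] at h1
    have h2 := Finset.card_image_le (s := K0.filter fun v => ∀ ℓ < L, v ∉ U ℓ)
      (f := (some : V → Option V))
    omega
  -- degrees of the old vertices
  obtain ⟨nb, hnb⟩ : ∃ nb : V → Finset V, ∀ v w, w ∈ nb v ↔
      (G.Adj v w ∧ (v ∈ K0 ∨ w ∈ K0) ∧ ∀ ℓ < L, mm ℓ v ≠ w) :=
    ⟨fun v => univ.filter fun w => G.Adj v w ∧ (v ∈ K0 ∨ w ∈ K0) ∧ ∀ ℓ < L, mm ℓ v ≠ w,
      fun v w => by rw [Finset.mem_filter]; exact ⟨fun h => h.2, fun h => ⟨Finset.mem_univ _, h⟩⟩⟩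
  have hds : ∀ v, (F.neighborSet (some v)).ncard ≤
      (nb v).card + (if v ∈ K0 ∧ ∀ ℓ < L, v ∉ U ℓ then 1 else 0) := by
    intro v
    have h1 : (F.neighborSet (some v)).ncard ≤
        (((nb v).image some ∪ (if v ∈ K0 ∧ ∀ ℓ < L, v ∉ U ℓ then {none} else ∅) :
          Finset (Option V)) : Set (Option V)).ncard := by
      refine Set.ncard_le_ncard ?_ (Finset.finite_toSet _)
      intro x hx
      rw [SimpleGraph.mem_neighborSet] at hx
      rw [Finset.mem_coe, Finset.mem_union]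
      cases x with
      | none =>
        right
        rw [if_pos ((hF2 v).1 hx.symm)]
        exact Finset.mem_singleton_self _
      | some w =>
        left
        rw [Finset.mem_image]
        exact ⟨w, (hnb v w).2 ((hF1 v w).1 hx), rfl⟩
    rw [Set.ncard_coe_finset] at h1
    refine h1.trans ((Finset.card_union_le _ _).trans (add_le_add Finset.card_image_le ?_))
    by_cases h : v ∈ K0 ∧ ∀ ℓ < L, v ∉ U ℓ
    · rw [if_pos h, if_pos h, Finset.card_singleton]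
    · rw [if_neg h, if_neg h, Finset.card_empty]
  have hout : ∀ v, v ∉ K0 → (F.neighborSet (some v)).ncard + 1 ≤ K := by
    intro v hv
    have h1 := hds v
    rw [if_neg (fun h => hv h.1)] at h1
    have h2 : (nb v).card ≤ dgi G K0 v := by
      unfold dgi
      refine Finset.card_le_card fun w hw => ?_
      have h3 := (hnb v w).1 hw
      rw [Finset.mem_filter]
      rcases h3.2.1 with h4 | h4
      · exact absurd h4 hv
      · exact ⟨h4, h3.1⟩
    have h3 := ho v hv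
    omega
  have hin : ∀ v, v ∈ K0 → (F.neighborSet (some v)).ncard + 1 ≤ K + (if v ∈ Z then 1 else 0) := by
    intro v hv
    have h1 := hds v
    have h2 : ((range L).filter fun ℓ => mm ℓ v ≠ v).card + (nb v).card ≤ dg G v := by
      have h3 : (((range L).filter fun ℓ => mm ℓ v ≠ v).image fun ℓ => mm ℓ v).card =
          ((range L).filter fun ℓ => mm ℓ v ≠ v).card := by
        refine Finset.card_image_of_injOn ?_
        intro a ha b hb hab
        have ha' := Finset.mem_filter.1 (Finset.mem_coe.1 ha)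
        have hb' := Finset.mem_filter.1 (Finset.mem_coe.1 hb)
        by_contra hne
        exact hm.dis a (Finset.mem_range.1 ha'.1) b (Finset.mem_range.1 hb'.1) hne v ha'.2 hab
      rw [← h3]
      unfold dg
      rw [← Finset.card_union_of_disjoint]
      · refine Finset.card_le_card fun w hw => ?_
        rw [Finset.mem_union] at hw
        rw [Finset.mem_filter]
        refine ⟨Finset.mem_univ _, ?_⟩
        rcases hw with hw | hw
        · obtain ⟨ℓ, hℓ, rfl⟩ := Finset.mem_image.1 hw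
          rw [Finset.mem_filter, Finset.mem_range] at hℓ
          exact hm.adj ℓ hℓ.1 v hℓ.2
        · exact ((hnb v w).1 hw).1
      · rw [Finset.disjoint_left]
        intro w hw hw'
        obtain ⟨ℓ, hℓ, rfl⟩ := Finset.mem_image.1 hw
        rw [Finset.mem_filter, Finset.mem_range] at hℓ
        exact ((hnb v _).1 hw').2.2 ℓ hℓ.1 rfl
    have h4 : ((range L).filter fun ℓ => mm ℓ v = v).card +
        ((range L).filter fun ℓ => mm ℓ v ≠ v).card = L := by
      rw [Finset.card_filter_add_card_filter_not, Finset.card_range]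
    have h5 : ((range L).filter fun ℓ => mm ℓ v = v).card ≤
        ((range L).filter fun ℓ => v ∉ U ℓ ∧ mm ℓ v = v).card +
          ((range L).filter fun ℓ => v ∈ U ℓ).card := by
      refine le_trans (Finset.card_le_card ?_) (Finset.card_union_le _ _)
      intro ℓ hℓ
      rw [Finset.mem_filter] at hℓ
      rw [Finset.mem_union, Finset.mem_filter, Finset.mem_filter]
      by_cases h : v ∈ U ℓ
      · exact Or.inr ⟨hℓ.1, h⟩
      · exact Or.inl ⟨hℓ.1, h, hℓ.2⟩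
    have h6 : ((range L).filter fun ℓ => v ∈ U ℓ).card +
        (if v ∈ K0 ∧ ∀ ℓ < L, v ∉ U ℓ then 1 else 0) ≤ 1 := by
      by_cases h : ∀ ℓ < L, v ∉ U ℓ
      · have h7 : ((range L).filter fun ℓ => v ∈ U ℓ) = ∅ := by
          rw [Finset.filter_eq_empty_iff]
          intro ℓ hℓ
          exact h ℓ (Finset.mem_range.1 hℓ)
        rw [h7, Finset.card_empty, if_pos ⟨hv, h⟩]
      · rw [if_neg (fun h' => h h'.2), Nat.add_zero, Finset.card_le_one]
        intro a ha b hb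
        rw [Finset.mem_filter, Finset.mem_range] at ha hb
        by_contra hne
        exact (Finset.disjoint_left.1 (hUd a ha.1 b hb.1 hne)) ha.2 hb.2
    have h7 := hd v hv
    omega
  have hdeg : ∀ x, (F.neighborSet x).ncard ≤ K := by
    intro x
    cases x with
    | none => omega
    | some v =>
      by_cases hv : v ∈ K0
      · have h1 := hin v hv
        have h2 : (if v ∈ Z then 1 else 0) ≤ 1 := by
          by_cases h : v ∈ Z
          · rw [if_pos h]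
          · rw [if_neg h]; exact Nat.zero_le _
        omega
      · have h1 := hout v hv
        omega
  have hmax : ∀ x, (F.neighborSet x).ncard = K → ∃ v, x = some v ∧ v ∈ Z := by
    intro x hx
    cases x with
    | none => omega
    | some v =>
      refine ⟨v, rfl, ?_⟩
      by_cases hv : v ∈ K0
      · have h1 := hin v hv
        by_contra h
        rw [if_neg h] at h1
        omega
      · have h1 := hout v hv
        omega
  have hcol : H28.ECol F K := by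
    refine four hdeg fun x y hxy hh => ?_
    obtain ⟨a, rfl, ha⟩ := hmax x hh.1
    obtain ⟨b, rfl, hb⟩ := hmax y hh.2
    have h1 := (hF1 a b).1 hxy
    obtain ⟨ℓ, hℓ, h2⟩ := hZ a ha b hb h1.1
    exact h1.2.2 ℓ hℓ h2
  obtain ⟨ec, hec1, hec2⟩ := hcol
  -- the labels of the vertices
  obtain ⟨fV, hfV⟩ : ∃ fV : V → ℕ, ∀ a, a ∈ K0 → (∃ ℓ < L, fV a = ℓ ∧ a ∈ U ℓ) ∨
      (fV a = L + ec s(none, some a) ∧ F.Adj none (some a)) := by
    refine ⟨fun v => if h : ∃ ℓ, ℓ < L ∧ v ∈ U ℓ then h.choose else L + ec s(none, some v), ?_⟩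
    intro a ha
    by_cases h : ∃ ℓ, ℓ < L ∧ a ∈ U ℓ
    · left
      refine ⟨h.choose, h.choose_spec.1, ?_, h.choose_spec.2⟩
      show (if h : ∃ ℓ, ℓ < L ∧ a ∈ U ℓ then h.choose else L + ec s(none, some a)) = _
      rw [dif_pos h]
    · right
      refine ⟨?_, (hF2 a).2 ⟨ha, fun ℓ hℓ hm' => h ⟨ℓ, hℓ, hm'⟩⟩⟩
      show (if h : ∃ ℓ, ℓ < L ∧ a ∈ U ℓ then h.choose else L + ec s(none, some a)) = _
      rw [dif_neg h]
  -- the labels of the edges
  obtain ⟨fE, hfE⟩ : ∃ fE : Sym2 V → ℕ, ∀ a b, G.Adj a b → (a ∈ K0 ∨ b ∈ K0) →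
      (∃ ℓ < L, fE s(a, b) = ℓ ∧ mm ℓ a = b) ∨
      (fE s(a, b) = L + ec s(some a, some b) ∧ F.Adj (some a) (some b)) := by
    let Q : ℕ → Sym2 V → Prop := fun ℓ e => ∃ u v, e = s(u, v) ∧ mm ℓ u = v
    have hQ : ∀ ℓ < L, ∀ u v, Q ℓ s(u, v) → mm ℓ u = v := by
      rintro ℓ hℓ u v ⟨u', v', he, hm'⟩
      rcases Sym2.eq_iff.1 he with ⟨h1, h2⟩ | ⟨h1, h2⟩
      · rw [h1, h2]; exact hm'
      · rw [h1, h2]; exact hinv' ℓ hℓ _ _ hm'
    refine ⟨fun e => if h : ∃ ℓ, ℓ < L ∧ Q ℓ e then h.choose else L + ec (e.map some), ?_⟩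
    intro u v huv hK0
    by_cases h : ∃ ℓ, ℓ < L ∧ Q ℓ s(u, v)
    · left
      refine ⟨h.choose, h.choose_spec.1, ?_, hQ _ h.choose_spec.1 _ _ h.choose_spec.2⟩
      show (if h : ∃ ℓ, ℓ < L ∧ Q ℓ s(u, v) then h.choose else _) = _
      rw [dif_pos h]
    · right
      refine ⟨?_, (hF1 u v).2 ⟨huv, hK0, fun ℓ hℓ hm' => h ⟨ℓ, hℓ, u, v, rfl, hm'⟩⟩⟩
      show (if h : ∃ ℓ, ℓ < L ∧ Q ℓ s(u, v) then h.choose else
        L + ec (Sym2.map some s(u, v))) = _
      rw [dif_neg h, Sym2.map_mk]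
  refine ⟨fV, fE, ⟨?_, ?_, ?_, ?_, ?_⟩⟩
  · intro a ha
    rcases hfV a ha with ⟨ℓ, hℓ, h1, _⟩ | ⟨h1, h2⟩
    · omega
    · have h3 := hec1 _ _ h2
      omega
  · intro a ha b hab
    rcases hfE a b hab (Or.inl ha) with ⟨ℓ, hℓ, h1, _⟩ | ⟨h1, h2⟩
    · omega
    · have h3 := hec1 _ _ h2
      omega
  · intro a ha b hb hab
    rcases hfV a ha with ⟨ℓ, hℓ, h1, h2⟩ | ⟨h1, h2⟩ <;>
      rcases hfV b hb with ⟨ℓ', hℓ', h1', h2'⟩ | ⟨h1', h2'⟩
    · intro h
      rw [h1, h1'] at h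
      rw [← h] at h2'
      exact hUi ℓ hℓ a h2 b h2' hab
    · omega
    · omega
    · intro h
      have h3 := hec2 none (some a) (some b) h2 h2' (fun h4 => hab.ne (Option.some.inj h4))
      omega
  · intro a ha b hab
    rcases hfV a ha with ⟨ℓ, hℓ, h1, h2⟩ | ⟨h1, h2⟩ <;>
      rcases hfE a b hab (Or.inl ha) with ⟨ℓ', hℓ', h1', h2'⟩ | ⟨h1', h2'⟩
    · intro h
      rw [h1, h1'] at h
      rw [← h] at h2'
      rw [hm.fix ℓ hℓ a h2] at h2'
      exact hab.ne h2'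
    · omega
    · omega
    · intro h
      have h3 := hec2 (some a) none (some b) h2.symm h2' (by simp)
      rw [Sym2.eq_swap] at h3
      omega
  · intro a b b' hab hab' hbb' hK1 hK2
    rcases hfE a b hab hK1 with ⟨ℓ, hℓ, h1, h2⟩ | ⟨h1, h2⟩ <;>
      rcases hfE a b' hab' hK2 with ⟨ℓ', hℓ', h1', h2'⟩ | ⟨h1', h2'⟩
    · intro h
      rw [h1, h1'] at h
      rw [← h, h2] at h2'
      exact hbb' h2'
    · omega
    · omega
    · intro h
      have h3 := hec2 (some a) (some b) (some b') h2 h2'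
        (fun h4 => hbb' (Option.some.inj h4))
      omega

end Pool.Agent.H71.HL
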