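import Mathlib
import Pool.Agent.H71.HL.Ncb
import Pool.Agent.H71.HL.Ncu
import Pool.Agent.H71.HL.Ncp
import Pool.Agent.H71.DX.Sas

/-!
NCD: the total colouring of the part of `G` at the near-complete cluster `C`, case `E = ∅`.

Proof.  `ncp` (`HL/Ncp.lean`) for `K0 := C` gives the pairs `U ℓ`, `ℓ < P`.
Case 1: `#C` even. `L := P`, `Z := ∅`, `X := U`: `#(C \ U ℓ) = #C - 2` is even, `#(X ℓ ∩ C) ≤ 2 ≤ 3 + P`. `ncb` (`HL/Ncb.lean`) gives `μ =: mm`, all vertices of `C \ U ℓ` are moved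
(`PM G P U mm` since `U ℓ ⊆ univ \ (C \ U ℓ)`). `ncu` (`HL/Ncu.lean`) with `L := P`, `K0 := C`, `Z := ∅`: `hK`: `#C - 2 P + P = Δ + 1`; `hd`: the set is empty.
Case 2: `#C` odd. The pairs cover `2 P` vertices of `C`; choose in the rest of `C` (`#C ≥ 5 P + 1`) a set `Z` with `P` elements, `Z = {z ℓ : ℓ < P}`
(`z` injective on `range P`), and different vertices `u j`, `P ≤ j < 3 P + 1`, outside `Z` and outside the pairs. `L := 3 P + 1`; `U j := {u j}` for `P ≤ j < 3 P + 1` (redefine `U` there); the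
`U ℓ`, `ℓ < L`, are pairwise disjoint, independent, subsets of `C \ Z`.
`S.Adj a b := G.Adj a b ∧ a ∈ Z ∧ b ∈ Z`, `dg S v ≤ P`. `sas` (`DX/Sas.lean`, proved) for `S`, `K := 2 P + 1`, `fun _ => ∅`, `dS := P`, `s := 0`,
`cap := card V * P + 2` (then `card V * P / (cap - 1) = 0`, `2 P < 2 P + 1`) gives `σ j`, `j < 2 P + 1`. The `σ j` move only vertices of `Z` (`S`-edges), an even number of them (see `DN.par` in `DN/Alt.lean`
or `mmk_even` in `HL/Mmk.lean`).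
`X ℓ := U ℓ ∪ {z ℓ}` for `ℓ < P`; `X ℓ := U ℓ ∪ {v ∈ Z : σ (ℓ - P) v ≠ v}` for `P ≤ ℓ < L`. `#(C \ X ℓ) = #C - 3` for `ℓ < P`, `#C - 1 - even` for `P ≤ ℓ < L`: even.
`#(X ℓ ∩ C) ≤ 3 + P`. `ncb` for `C`, `Z`, `L := 3 P + 1`, `x0 := 3 + P`: `x0 + L + #Z = 5 P + 4`, `hC`. It gives `μ`.
`mm ℓ v := if P ≤ ℓ ∧ σ (ℓ - P) v ≠ v then σ (ℓ - P) v else μ ℓ v`. `PM G L U mm`: `σ (ℓ - P)` moves only vertices of `Z ∩ X ℓ`, `μ ℓ` only vertices of `C \ X ℓ`; the edges of `σ` are inside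
`Z`, those of `μ` are not inside `Z` (last claim of `ncb`); `fix`: `U ℓ` is disjoint from `Z` and contained in `X ℓ`.
`ncu` with `L := 3 P + 1`, `K0 := C`, `Z`: `hK`: `#C - 2 P - (2 P + 1) + 3 P + 1 = #C - P = Δ + 1`. `hd`: if `v ∈ C`, `v ∉ U ℓ`, `mm ℓ v = v` then `v ∈ X ℓ \ U ℓ` and so `ℓ < P` and `v = z ℓ`: at most one `ℓ`,
none if `v ∉ Z`; `dg G v ≤ Δ`. `hZ`: an edge `a b` inside `Z` is `σ j a = b` for some `j < 2 P + 1`, `a ≠ b`, so `mm (P + j) a = b`. `ho`: hypothesis.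
-/

set_option autoImplicit false

namespace Pool.Agent.H71.HL

open Finset Classical
open Pool.Agent.H71.DN Pool.Agent.H71.DX

theorem ncd_enum {V : Type} [Nonempty V] (S : Finset V) (k : ℕ) (h : k ≤ S.card) :
    ∃ w : ℕ → V, (∀ i < k, w i ∈ S) ∧ ∀ i < k, ∀ j < k, w i = w j → i = j := by
  refine ⟨fun i => if h : i < S.card then (S.equivFin.symm ⟨i, h⟩ : V) else
    Classical.arbitrary V, ?_, ?_⟩
  · intro i hi
    have h1 : i < S.card := lt_of_lt_of_le hi h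
    simp only [h1, dite_true]
    exact (S.equivFin.symm ⟨i, h1⟩).2
  · intro i hi j hj hij
    have h1 : i < S.card := lt_of_lt_of_le hi h
    have h2 : j < S.card := lt_of_lt_of_le hj h
    simp only [h1, h2, dite_true] at hij
    have h3 := S.equivFin.symm.injective (Subtype.ext hij)
    exact congrArg Fin.val h3

theorem ncd_cnt {V : Type} (C B : Finset V) (p : V → Prop) [DecidablePred p] (hBC : B ⊆ C)
    (h : ∀ v ∈ C, p v → v ∉ B) : (C.filter p).card + B.card ≤ C.card := by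
  have h1 : C.filter p ⊆ C \ B := by
    intro v hv
    rw [mem_filter] at hv
    exact mem_sdiff.2 ⟨hv.1, h v hv.1 hv.2⟩
  have h2 := card_le_card h1
  have h3 := card_sdiff_add_card_eq_card hBC
  omega

theorem ncd_bi {V : Type} (U : ℕ → Finset V) (P : ℕ) (h2 : ∀ ℓ < P, (U ℓ).card = 2)
    (h4 : ∀ ℓ < P, ∀ ℓ' < P, ℓ ≠ ℓ' → Disjoint (U ℓ) (U ℓ')) :
    ((range P).biUnion U).card = 2 * P := by
  rw [card_biUnion (fun i hi j hj hij => h4 i (mem_range.1 hi) j (mem_range.1 hj) hij),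
    sum_congr rfl fun i hi => h2 i (mem_range.1 hi), sum_const, card_range, smul_eq_mul, mul_comm]

theorem ncd_even {V : Type} [Fintype V] (G : SimpleGraph V) (Δ P : ℕ) (C : Finset V)
    (hd : ∀ v, dg G v ≤ Δ) (hK : C.card = Δ + 1 + P)
    (hC : ∀ v ∈ C, C.card + 2 * (5 * P + 4) ≤ 2 * dgi G C v)
    (ho : ∀ v, v ∉ C → dgi G C v + (3 * P + 1) ≤ Δ + 1)
    (hPK : 5 * P + 1 ≤ C.card) (hev : Even C.card) :
    ∃ (fV : V → ℕ) (fE : Sym2 V → ℕ), PTot G C (Δ + 2) fV fE := by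
  obtain ⟨U, hU1, hU2, hU3, hU4⟩ := ncp G C Δ P hd hK (by omega)
  have he : ∀ ℓ < P, Even (C \ U ℓ).card := by
    intro ℓ hℓ
    have h1 := card_sdiff_add_card_eq_card (hU1 ℓ hℓ)
    have h2 := hU2 ℓ hℓ
    obtain ⟨r, hr⟩ := hev
    exact ⟨r - 1, by omega⟩
  obtain ⟨μ, m1, m2, -⟩ := ncb G C ∅ P 2 U
    (fun ℓ hℓ => (card_le_card inter_subset_left).trans (hU2 ℓ hℓ).le) he (by
      intro v hv
      have h1 := hC v hv
      rw [card_empty]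
      omega)
  have hPM : PM G P U μ := by
    refine ⟨m1.inv, m1.adj, m1.dis, ?_⟩
    intro ℓ hℓ v hv
    refine m1.fix ℓ hℓ v ?_
    simp only [mem_sdiff, mem_univ, true_and, not_and, not_not]
    exact fun _ => hv
  have hKc : (C.filter fun v => ∀ ℓ < P, v ∉ U ℓ).card + P ≤ Δ + 1 := by
    have h1 := ncd_cnt C ((range P).biUnion U) (fun v => ∀ ℓ < P, v ∉ U ℓ) (by
      intro v hv
      rw [mem_biUnion] at hv
      obtain ⟨ℓ, hℓ, hv⟩ := hv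
      exact hU1 ℓ (mem_range.1 hℓ) hv) (by
      intro v _ h hv
      rw [mem_biUnion] at hv
      obtain ⟨ℓ, hℓ, hv⟩ := hv
      exact h ℓ (mem_range.1 hℓ) hv)
    rw [ncd_bi U P hU2 hU4] at h1
    omega
  refine ncu G Δ P C ∅ U μ hU4 hU3 hKc hPM ?_ ?_ ?_
  · intro v hv
    have h1 : ((range P).filter fun ℓ => v ∉ U ℓ ∧ μ ℓ v = v) = ∅ := by
      rw [filter_eq_empty_iff]
      rintro ℓ hℓ ⟨h2, h3⟩
      exact m2 ℓ (mem_range.1 hℓ) v (mem_sdiff.2 ⟨hv, h2⟩) h3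
    rw [h1, card_empty]
    have := hd v
    omega
  · intro a ha
    exact absurd ha (notMem_empty a)
  · intro v hv
    have := ho v hv
    omega

theorem ncd_odd {V : Type} [Fintype V] (G : SimpleGraph V) (Δ P : ℕ) (C : Finset V)
    (hd : ∀ v, dg G v ≤ Δ) (hK : C.card = Δ + 1 + P)
    (hC : ∀ v ∈ C, C.card + 2 * (5 * P + 4) ≤ 2 * dgi G C v)
    (ho : ∀ v, v ∉ C → dgi G C v + (3 * P + 1) ≤ Δ + 1)
    (hPK : 5 * P + 1 ≤ C.card) (hodd : Odd C.card) :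
    ∃ (fV : V → ℕ) (fE : Sym2 V → ℕ), PTot G C (Δ + 2) fV fE := by
  obtain ⟨U0, hU1, hU2, hU3, hU4⟩ := ncp G C Δ P hd hK (by omega)
  have hne : Nonempty V := by
    have h1 : 0 < C.card := by omega
    obtain ⟨v, _⟩ := card_pos.1 h1
    exact ⟨v⟩
  obtain ⟨B, hB⟩ : ∃ B : Finset V, B = (range P).biUnion U0 := ⟨_, rfl⟩
  have hBC : B ⊆ C := by
    intro v hv
    rw [hB, mem_biUnion] at hv
    obtain ⟨ℓ, hℓ, hv⟩ := hv
    exact hU1 ℓ (mem_range.1 hℓ) hv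
  have hBcard : B.card = 2 * P := by
    rw [hB]
    exact ncd_bi U0 P hU2 hU4
  have hUB : ∀ ℓ < P, U0 ℓ ⊆ B := by
    intro ℓ hℓ v hv
    rw [hB, mem_biUnion]
    exact ⟨ℓ, mem_range.2 hℓ, hv⟩
  obtain ⟨w, hw1, hw2⟩ := ncd_enum (C \ B) (3 * P + 1) (by
    have h3 := card_sdiff_add_card_eq_card hBC
    omega)
  have hwC : ∀ i < 3 * P + 1, w i ∈ C := fun i hi => (mem_sdiff.1 (hw1 i hi)).1
  have hwB : ∀ i < 3 * P + 1, w i ∉ B := fun i hi => (mem_sdiff.1 (hw1 i hi)).2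
  obtain ⟨Z, hZ⟩ : ∃ Z : Finset V, Z = (range P).image w := ⟨_, rfl⟩
  have memZ : ∀ v, v ∈ Z ↔ ∃ i < P, w i = v := by
    intro v
    rw [hZ, mem_image]
    constructor
    · rintro ⟨i, hi, h⟩
      exact ⟨i, mem_range.1 hi, h⟩
    · rintro ⟨i, hi, h⟩
      exact ⟨i, mem_range.2 hi, h⟩
  have hZC : Z ⊆ C := by
    intro v hv
    obtain ⟨i, hi, rfl⟩ := (memZ v).1 hv
    exact hwC i (by omega)
  have hZcard : Z.card ≤ P := by
    rw [hZ]
    exact card_image_le.trans (card_range P).le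
  have hwZ : ∀ i < 3 * P + 1, P ≤ i → w i ∉ Z := by
    intro i hi hPi h
    obtain ⟨j, hj, h⟩ := (memZ _).1 h
    have := hw2 j (by omega) i hi h
    omega
  obtain ⟨S, hS⟩ : ∃ S : SimpleGraph V, ∀ a b, S.Adj a b ↔ G.Adj a b ∧ a ∈ Z ∧ b ∈ Z :=
    ⟨{ Adj := fun a b => G.Adj a b ∧ a ∈ Z ∧ b ∈ Z
       symm := ⟨fun a b h => ⟨h.1.symm, h.2.2, h.2.1⟩⟩
       loopless := ⟨fun a h => G.irrefl h.1⟩ }, fun _ _ => Iff.rfl⟩
  have hSd : ∀ v, dg S v ≤ P := by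
    intro v
    unfold dg
    refine (card_le_card ?_).trans hZcard
    intro u hu
    rw [mem_filter, hS] at hu
    exact hu.2.2.2
  obtain ⟨σ, s1, s2, s3, s4, -, -⟩ := sas S (2 * P + 1) (fun _ => ∅) P 0
    (Fintype.card V * P + 2) hSd (by
      intro v
      unfold mul
      simp) (by omega) (by
      have h1 : Fintype.card V * P / (Fintype.card V * P + 2 - 1) = 0 :=
        Nat.div_eq_of_lt (by omega)
      rw [h1]
      omega)
  have sZ : ∀ j < 2 * P + 1, ∀ v, σ j v ≠ v → v ∈ Z ∧ σ j v ∈ Z ∧ G.Adj v (σ j v) := by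
    intro j hj v hv
    have h1 := (hS _ _).1 (s2 j hj v hv)
    exact ⟨h1.2.1, h1.2.2, h1.1⟩
  obtain ⟨X, hXa, hXb⟩ : ∃ X : ℕ → Finset V, (∀ ℓ < P, X ℓ = insert (w ℓ) (U0 ℓ)) ∧
      ∀ ℓ, P ≤ ℓ → X ℓ = insert (w ℓ) (univ.filter fun v => σ (ℓ - P) v ≠ v) := by
    refine ⟨fun ℓ => if ℓ < P then insert (w ℓ) (U0 ℓ) else
      insert (w ℓ) (univ.filter fun v => σ (ℓ - P) v ≠ v), ?_, ?_⟩
    · intro ℓ hℓ
      exact if_pos hℓ
    · intro ℓ hℓ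
      exact if_neg (not_lt.2 hℓ)
  have hX1 : ∀ ℓ < P, (X ℓ).card = 3 ∧ X ℓ ⊆ C := by
    intro ℓ hℓ
    rw [hXa ℓ hℓ]
    constructor
    · rw [card_insert_of_notMem (fun h => hwB ℓ (by omega) (hUB ℓ hℓ h)), hU2 ℓ hℓ]
    · exact insert_subset (hwC ℓ (by omega)) (hU1 ℓ hℓ)
  have hX2 : ∀ ℓ < 3 * P + 1, P ≤ ℓ → Odd (X ℓ).card ∧ (X ℓ).card ≤ 1 + P ∧ X ℓ ⊆ C := by
    intro ℓ hℓ hPℓ
    rw [hXb ℓ hPℓ]
    have h0 : (univ.filter fun v => σ (ℓ - P) v ≠ v) ⊆ Z := by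
      intro v hv
      rw [mem_filter] at hv
      exact (sZ (ℓ - P) (by omega) v hv.2).1
    have h1 : w ℓ ∉ univ.filter fun v => σ (ℓ - P) v ≠ v := fun h => hwZ ℓ hℓ hPℓ (h0 h)
    have h2 := mmk_even (σ (ℓ - P)) (s1 (ℓ - P) (by omega))
    have h3 := (card_le_card h0).trans hZcard
    rw [card_insert_of_notMem h1]
    refine ⟨h2.add_one, by omega, insert_subset (hwC ℓ hℓ) (h0.trans hZC)⟩
  obtain ⟨μ, m1, m2, m3⟩ := ncb G C Z (3 * P + 1) (3 + P) X (by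
      intro ℓ hℓ
      refine (card_le_card inter_subset_left).trans ?_
      rcases lt_or_ge ℓ P with h | h
      · have := (hX1 ℓ h).1
        omega
      · have := (hX2 ℓ hℓ h).2.1
        omega) (by
      intro ℓ hℓ
      have h0 : Odd (X ℓ).card ∧ X ℓ ⊆ C := by
        rcases lt_or_ge ℓ P with h | h
        · refine ⟨?_, (hX1 ℓ h).2⟩
          rw [(hX1 ℓ h).1]
          exact ⟨1, rfl⟩
        · exact ⟨(hX2 ℓ hℓ h).1, (hX2 ℓ hℓ h).2.2⟩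
      have h1 := card_sdiff_add_card_eq_card h0.2
      obtain ⟨r, hr⟩ := hodd
      obtain ⟨t, ht⟩ := h0.1
      exact ⟨r - t, by omega⟩) (by
      intro v hv
      have h1 := hC v hv
      omega)
  have hfix : ∀ ℓ < 3 * P + 1, ∀ v, μ ℓ v ≠ v → v ∈ C ∧ v ∉ X ℓ := by
    intro ℓ hℓ v hv
    by_contra hcon
    apply hv
    refine m1.fix ℓ hℓ v ?_
    simp only [mem_sdiff, mem_univ, true_and]
    exact hcon
  obtain ⟨mm, hmm⟩ : ∃ mm : ℕ → V → V, ∀ ℓ v, mm ℓ v =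
      if P ≤ ℓ ∧ σ (ℓ - P) v ≠ v then σ (ℓ - P) v else μ ℓ v := ⟨_, fun _ _ => rfl⟩
  have mm1 : ∀ ℓ v, P ≤ ℓ → σ (ℓ - P) v ≠ v → mm ℓ v = σ (ℓ - P) v := by
    intro ℓ v h1 h2
    rw [hmm, if_pos ⟨h1, h2⟩]
  have mm2 : ∀ ℓ v, ¬ (P ≤ ℓ ∧ σ (ℓ - P) v ≠ v) → mm ℓ v = μ ℓ v := by
    intro ℓ v h1
    rw [hmm, if_neg h1]
  obtain ⟨U, hUa, hUb⟩ : ∃ U : ℕ → Finset V, (∀ ℓ < P, U ℓ = U0 ℓ) ∧ ∀ ℓ, P ≤ ℓ → U ℓ = {w ℓ} := by
    refine ⟨fun ℓ => if ℓ < P then U0 ℓ else {w ℓ}, ?_, ?_⟩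
    · intro ℓ hℓ
      exact if_pos hℓ
    · intro ℓ hℓ
      exact if_neg (not_lt.2 hℓ)
  have hUX : ∀ ℓ, U ℓ ⊆ X ℓ := by
    intro ℓ v hv
    rcases lt_or_ge ℓ P with h | h
    · rw [hUa ℓ h] at hv
      rw [hXa ℓ h]
      exact mem_insert_of_mem hv
    · rw [hUb ℓ h, mem_singleton] at hv
      rw [hXb ℓ h, hv]
      exact mem_insert_self _ _
  have hPM : PM G (3 * P + 1) U mm := by
    refine ⟨?_, ?_, ?_, ?_⟩
    · intro ℓ hℓ v
      by_cases h1 : P ≤ ℓ ∧ σ (ℓ - P) v ≠ v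
      · rw [mm1 ℓ v h1.1 h1.2]
        have h2 : σ (ℓ - P) (σ (ℓ - P) v) = v := s1 (ℓ - P) (by omega) v
        rw [mm1 ℓ (σ (ℓ - P) v) h1.1 (by rw [h2]; exact fun h => h1.2 h.symm), h2]
      · rw [mm2 ℓ v h1]
        have h2 : μ ℓ (μ ℓ v) = v := m1.inv ℓ hℓ v
        by_cases h3 : μ ℓ v = v
        · rw [h3, mm2 ℓ v h1, h3]
        · have h4 : μ ℓ (μ ℓ v) ≠ μ ℓ v := by
            rw [h2]
            exact fun h => h3 h.symm
          have h5 := hfix ℓ hℓ _ h4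
          rw [mm2 ℓ (μ ℓ v) ?_, h2]
          rintro ⟨h6, h7⟩
          apply h5.2
          rw [hXb ℓ h6]
          exact mem_insert_of_mem (mem_filter.2 ⟨mem_univ _, h7⟩)
    · intro ℓ hℓ v hv
      by_cases h1 : P ≤ ℓ ∧ σ (ℓ - P) v ≠ v
      · rw [mm1 ℓ v h1.1 h1.2]
        exact (sZ (ℓ - P) (by omega) v h1.2).2.2
      · rw [mm2 ℓ v h1] at hv ⊢
        exact m1.adj ℓ hℓ v hv
    · intro ℓ hℓ ℓ' hℓ' hne v hv
      by_cases h1 : P ≤ ℓ ∧ σ (ℓ - P) v ≠ v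
      · rw [mm1 ℓ v h1.1 h1.2]
        have h3 := sZ (ℓ - P) (by omega) v h1.2
        by_cases h2 : P ≤ ℓ' ∧ σ (ℓ' - P) v ≠ v
        · rw [mm1 ℓ' v h2.1 h2.2]
          exact s3 (ℓ - P) (by omega) (ℓ' - P) (by omega) (by omega) v h1.2
        · rw [mm2 ℓ' v h2]
          by_cases h4 : μ ℓ' v = v
          · rw [h4]
            exact h1.2
          · have h5 := m3 ℓ' hℓ' v h3.1 h4
            intro h6
            rw [← h6] at h5
            exact h5 h3.2.1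
      · rw [mm2 ℓ v h1] at hv ⊢
        by_cases h2 : P ≤ ℓ' ∧ σ (ℓ' - P) v ≠ v
        · rw [mm1 ℓ' v h2.1 h2.2]
          have h3 := sZ (ℓ' - P) (by omega) v h2.2
          have h5 := m3 ℓ hℓ v h3.1 hv
          intro h6
          rw [h6] at h5
          exact h5 h3.2.1
        · rw [mm2 ℓ' v h2]
          exact m1.dis ℓ hℓ ℓ' hℓ' hne v hv
    · intro ℓ hℓ v hv
      have h1 : μ ℓ v = v := by
        by_contra h
        exact (hfix ℓ hℓ v h).2 (hUX ℓ hv)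
      rw [mm2 ℓ v ?_, h1]
      rintro ⟨h2, h3⟩
      rw [hUb ℓ h2, mem_singleton] at hv
      rw [hv] at h3
      exact hwZ ℓ hℓ h2 (sZ (ℓ - P) (by omega) _ h3).1
  have hUd : ∀ ℓ < 3 * P + 1, ∀ ℓ' < 3 * P + 1, ℓ ≠ ℓ' → Disjoint (U ℓ) (U ℓ') := by
    intro ℓ hℓ ℓ' hℓ' hne
    rcases lt_or_ge ℓ P with h | h
    · rcases lt_or_ge ℓ' P with h' | h'
      · rw [hUa ℓ h, hUa ℓ' h']
        exact hU4 ℓ h ℓ' h' hne
      · rw [hUa ℓ h, hUb ℓ' h', disjoint_singleton_right]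
        exact fun h1 => hwB ℓ' hℓ' (hUB ℓ h h1)
    · rcases lt_or_ge ℓ' P with h' | h'
      · rw [hUb ℓ h, hUa ℓ' h', disjoint_singleton_left]
        exact fun h1 => hwB ℓ hℓ (hUB ℓ' h' h1)
      · rw [hUb ℓ h, hUb ℓ' h', disjoint_singleton_left, mem_singleton]
        exact fun h1 => hne (hw2 ℓ hℓ ℓ' hℓ' h1)
  have hUi : ∀ ℓ < 3 * P + 1, ∀ a ∈ U ℓ, ∀ b ∈ U ℓ, ¬ G.Adj a b := by
    intro ℓ hℓ a ha b hb
    rcases lt_or_ge ℓ P with h | h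
    · rw [hUa ℓ h] at ha hb
      exact hU3 ℓ h a ha b hb
    · rw [hUb ℓ h, mem_singleton] at ha hb
      rw [ha, hb]
      exact G.irrefl
  have hKc : (C.filter fun v => ∀ ℓ < 3 * P + 1, v ∉ U ℓ).card + (3 * P + 1) ≤ Δ + 1 := by
    obtain ⟨Y, hY⟩ : ∃ Y : Finset V, Y = (Ico P (3 * P + 1)).image w := ⟨_, rfl⟩
    have hYc : Y.card = 2 * P + 1 := by
      rw [hY, card_image_of_injOn, Nat.card_Ico]
      · omega
      · intro i hi j hj hij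
        rw [coe_Ico, Set.mem_Ico] at hi hj
        exact hw2 i hi.2 j hj.2 hij
    have hYm : ∀ v ∈ Y, ∃ i < 3 * P + 1, P ≤ i ∧ w i = v := by
      intro v hv
      rw [hY, mem_image] at hv
      obtain ⟨i, hi, h⟩ := hv
      rw [mem_Ico] at hi
      exact ⟨i, hi.2, hi.1, h⟩
    have hBY : Disjoint B Y := by
      rw [disjoint_left]
      intro v hv hv'
      obtain ⟨i, hi, _, rfl⟩ := hYm v hv'
      exact hwB i hi hv
    have h1 := ncd_cnt C (B ∪ Y) (fun v => ∀ ℓ < 3 * P + 1, v ∉ U ℓ) (by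
      refine union_subset hBC ?_
      intro v hv
      obtain ⟨i, hi, _, rfl⟩ := hYm v hv
      exact hwC i hi) (by
      intro v _ h hv
      rcases mem_union.1 hv with hv | hv
      · rw [hB, mem_biUnion] at hv
        obtain ⟨ℓ, hℓ, hv⟩ := hv
        rw [mem_range] at hℓ
        apply h ℓ (by omega)
        rw [hUa ℓ hℓ]
        exact hv
      · obtain ⟨i, hi, hPi, h2⟩ := hYm v hv
        apply h i hi
        rw [hUb i hPi, mem_singleton]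
        exact h2.symm)
    rw [card_union_of_disjoint hBY, hBcard, hYc] at h1
    omega
  refine ncu G Δ (3 * P + 1) C Z U mm hUd hUi hKc hPM ?_ ?_ ho
  · intro v hv
    have key : ∀ ℓ < 3 * P + 1, v ∉ U ℓ → mm ℓ v = v → ℓ < P ∧ w ℓ = v := by
      intro ℓ hℓ h1 h2
      have h3 : ¬ (P ≤ ℓ ∧ σ (ℓ - P) v ≠ v) := by
        intro h3
        rw [mm1 ℓ v h3.1 h3.2] at h2
        exact h3.2 h2
      rw [mm2 ℓ v h3] at h2
      have h4 : v ∈ X ℓ := by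
        by_contra h4
        exact m2 ℓ hℓ v (mem_sdiff.2 ⟨hv, h4⟩) h2
      rcases lt_or_ge ℓ P with h | h
      · refine ⟨h, ?_⟩
        rw [hXa ℓ h, mem_insert] at h4
        rw [hUa ℓ h] at h1
        rcases h4 with h4 | h4
        · exact h4.symm
        · exact absurd h4 h1
      · exfalso
        rw [hXb ℓ h, mem_insert] at h4
        rw [hUb ℓ h, mem_singleton] at h1
        rcases h4 with h4 | h4
        · exact h1 h4
        · exact h3 ⟨h, (mem_filter.1 h4).2⟩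
    have hdv := hd v
    by_cases hvZ : v ∈ Z
    · rw [if_pos hvZ]
      have h1 : ((range (3 * P + 1)).filter fun ℓ => v ∉ U ℓ ∧ mm ℓ v = v).card ≤ 1 := by
        rw [card_le_one]
        intro i hi j hj
        rw [mem_filter, mem_range] at hi hj
        have h2 := key i hi.1 hi.2.1 hi.2.2
        have h3 := key j hj.1 hj.2.1 hj.2.2
        exact hw2 i hi.1 j hj.1 (h2.2.trans h3.2.symm)
      omega
    · rw [if_neg hvZ]
      have h1 : ((range (3 * P + 1)).filter fun ℓ => v ∉ U ℓ ∧ mm ℓ v = v) = ∅ := by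
        rw [filter_eq_empty_iff]
        rintro i hi ⟨h2, h3⟩
        have h4 := key i (mem_range.1 hi) h2 h3
        exact hvZ ((memZ v).2 ⟨i, h4.1, h4.2⟩)
      rw [h1, card_empty]
      omega
  · intro a ha b hb hab
    obtain ⟨j, hj, h⟩ := s4 a b ((hS a b).2 ⟨hab, ha, hb⟩)
    refine ⟨P + j, by omega, ?_⟩
    have h1 : P + j - P = j := by omega
    rw [mm1 (P + j) a (by omega) (by rw [h1, h]; exact hab.ne'), h1, h]

theorem ncd {V : Type} [Fintype V] (G : SimpleGraph V) (Δ P : ℕ) (C : Finset V)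
    (hd : ∀ v, dg G v ≤ Δ) (hK : C.card = Δ + 1 + P)
    (hC : ∀ v ∈ C, C.card + 2 * (5 * P + 4) ≤ 2 * dgi G C v)
    (ho : ∀ v, v ∉ C → dgi G C v + (3 * P + 1) ≤ Δ + 1)
    (hPK : 5 * P + 1 ≤ C.card) :
    ∃ (fV : V → ℕ) (fE : Sym2 V → ℕ), PTot G C (Δ + 2) fV fE := by
  rcases Nat.even_or_odd C.card with h | h
  · exact ncd_even G Δ P C hd hK hC ho hPK h
  · exact ncd_odd G Δ P C hd hK hC ho hPK h

end Pool.Agent.H71.HL
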