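import Mathlib
import Pool.Agent.H71.HL.Ncb
import Pool.Agent.H71.HL.Ncu
import Pool.Agent.H71.HL.Ncp
import Pool.Agent.H71.HL.Lot

/-!
NCE: the total colouring of the part of `G` at the near-complete cluster `K0 = C ∪ E`, case `E ≠ ∅`.

Proof.  `ncp` (`HL/Ncp.lean`) gives the pairs `U ℓ`, `ℓ < P`. `L := P`. For `ℓ < P` let `O' := univ \ K0` and
`odd ℓ := ¬ Even (C \ U ℓ).card`. Choose `yy ℓ ∈ E \ U ℓ` if `E \ U ℓ` is not empty (`Function`/choice). At most one `ℓ < P` has `E ⊆ U ℓ` (`E ≠ ∅`, the `U ℓ` are disjoint).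
If there is `ℓ* < P` with `E ⊆ U ℓ*` and `odd ℓ*` choose `z ∈ C \ U ℓ*` (not empty: its size is odd) and put `Z := {z}`, `Zm ℓ* := {z}`;
`Zm ℓ := ∅` for all other `ℓ`; if there is no such `ℓ*` put `Z := ∅`, `Zm ℓ := ∅` for all `ℓ`.
Modes for `lot` (`HL/Lot.lean`, proved): `m y ℓ := ` if `y ∈ U ℓ` then `0`, else if `odd ℓ ∧ y = yy ℓ` then `1`, else if
`P + 3 + #E ≤ dgi G O' y` then `2`, else `0`. Apply `lot` with `Lo := E`, `C`, `L := P`, `w := 3`, `A y := {v ∈ C : G.Adj y v}`,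
`B y := {v ∈ O' : G.Adj y v}`, `W ℓ := U ℓ ∪ Zm ℓ` (at most 3 elements; `E` and `Z ⊆ C` are disjoint, so `y ∈ E`, `y ∈ W ℓ` implies `y ∈ U ℓ`, mode 0):
`h1`: `#{ℓ : m y ℓ = 1} + 3 + #E ≤ P + 3 + #E ≤ dgi G C y = #(A y)` by `hE1`; `h2`: mode 2 only if `P + 3 + #E ≤ dgi G O' y = #(B y)`. It gives `τ`.
`X ℓ := U ℓ ∪ Zm ℓ ∪ {v ∈ C : τ ℓ v ≠ v}`.
Parity of `C \ X ℓ`: `#{v ∈ C : τ ℓ v ≠ v} = #{y ∈ E : m y ℓ = 1}` (`lot`), which is `1` if `odd ℓ` and `E \ U ℓ ≠ ∅` (then `yy ℓ` is the only one), and `0`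
otherwise. These vertices are not in `U ℓ ∪ Zm ℓ` (`PM.fix`). So `#(C \ X ℓ) = #(C \ U ℓ)` if this is even; `#(C \ U ℓ) - 1` if `odd ℓ` (if `E \ U ℓ ≠ ∅` because of `τ`,
if `E ⊆ U ℓ` then `ℓ = ℓ*` because of `Zm ℓ* = {z}`, `z ∈ C \ U ℓ*`). Always even. And `#(X ℓ ∩ C) ≤ 2 + 1 = 3`.
`ncb` (`HL/Ncb.lean`) for `C`, `Z`, `L := P`, `x0 := 3` (`#Z ≤ 1`, `hC`) gives `μ`.
`mm ℓ v := if τ ℓ v ≠ v then τ ℓ v else μ ℓ v` for `ℓ < P`. `PM G P U mm`: `τ ℓ` moves only vertices of `E`, of `O'` and of `C ∩ X ℓ`, `μ ℓ` only vertices of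
`C \ X ℓ`; the edges of `τ` have exactly one end in `E` (`τ ℓ v ∈ E` for `v ∉ E` moved; for `v ∈ E` moved `τ ℓ v ∈ A v ∪ B v`), the
edges of `μ` none; `dis` follows from this and from `PM.dis` of the two.
`ncu` (`HL/Ncu.lean`) with `Δ`, `L := P`, `K0`, `Z`, `U`, `mm`: `hK`: `#K0 - 2 P + P = Δ + 1` (the `U ℓ` are disjoint subsets of `K0` with two elements).
`hd`: `y ∈ E`: if `dg G y + P ≤ Δ` clear. Otherwise `P + 3 + #E ≤ dgi G O' y` and `m y ℓ ∈ {1, 2}` for all `ℓ < P` with `y ∉ U ℓ`, so `τ ℓ y ∈ A y ∪ B y` is not `y`: the set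
is empty. `v ∈ C`, `v ∉ U ℓ`, `mm ℓ v = v`: `v ∈ C \ X ℓ` is impossible (`ncb`), so `v ∈ X ℓ \ U ℓ`, `τ ℓ v = v`, so `v ∈ Zm ℓ`, `ℓ = ℓ*` and `v = z ∈ Z`: at most one `ℓ`, and none if `v ∉ Z`.
`hZ`: `Z` has at most one element. `ho`: hypothesis.
-/

set_option autoImplicit false

namespace Pool.Agent.H71.HL

open Finset Classical
open Pool.Agent.H71.DN Pool.Agent.H71.DX

/-- the choice of a vertex of `E` outside `U ℓ` -/
theorem nce_yy {V : Type} (E : Finset V) (U : ℕ → Finset V) (hE : E.Nonempty) :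
    ∃ yy : ℕ → V, ∀ ℓ, ¬ E ⊆ U ℓ → yy ℓ ∈ E ∧ yy ℓ ∉ U ℓ := by
  have h : ∀ ℓ, ∃ y : V, ¬ E ⊆ U ℓ → y ∈ E ∧ y ∉ U ℓ := by
    intro ℓ
    by_cases h1 : E ⊆ U ℓ
    · obtain ⟨y, _⟩ := hE
      exact ⟨y, fun h2 => absurd h1 h2⟩
    · obtain ⟨y, hy1, hy2⟩ := Finset.not_subset.1 h1
      exact ⟨y, fun _ => ⟨hy1, hy2⟩⟩
  choose yy hyy using h
  exact ⟨yy, hyy⟩

/-- the exceptional vertex -/
theorem nce_Z {V : Type} (P : ℕ) (C E : Finset V) (U : ℕ → Finset V) (hE : E.Nonempty)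
    (hUd : ∀ ℓ < P, ∀ ℓ' < P, ℓ ≠ ℓ' → Disjoint (U ℓ) (U ℓ')) :
    ∃ (Z : Finset V) (Zm : ℕ → Finset V), Z.card ≤ 1 ∧ (∀ ℓ, Zm ℓ ⊆ C \ U ℓ) ∧ (∀ ℓ, Zm ℓ ⊆ Z) ∧
      (∀ ℓ < P, (Zm ℓ).card = if (¬ Even (C \ U ℓ).card ∧ E ⊆ U ℓ) then 1 else 0) ∧
      (∀ ℓ < P, ∀ ℓ' < P, ∀ v, v ∈ Zm ℓ → v ∈ Zm ℓ' → ℓ = ℓ') := by
  by_cases h : ∃ s < P, ¬ Even (C \ U s).card ∧ E ⊆ U s
  · obtain ⟨s, hs, ho, hEs⟩ := h
    have hne : (C \ U s).Nonempty := by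
      rw [Finset.nonempty_iff_ne_empty]
      intro he
      apply ho
      rw [he, Finset.card_empty]
      exact Even.zero
    obtain ⟨z, hz⟩ := hne
    obtain ⟨f, e2, e1⟩ : ∃ f : ℕ → Finset V, f s = {z} ∧ ∀ ℓ, ℓ ≠ s → f ℓ = ∅ :=
      ⟨fun ℓ => if ℓ = s then {z} else ∅, if_pos rfl, fun ℓ hℓ => if_neg hℓ⟩
    refine ⟨{z}, f, by rw [Finset.card_singleton], ?_, ?_, ?_, ?_⟩
    · intro ℓ
      by_cases hℓ : ℓ = s
      · rw [hℓ, e2]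
        exact Finset.singleton_subset_iff.2 hz
      · rw [e1 ℓ hℓ]
        exact Finset.empty_subset _
    · intro ℓ
      by_cases hℓ : ℓ = s
      · rw [hℓ, e2]
      · rw [e1 ℓ hℓ]
        exact Finset.empty_subset _
    · intro ℓ hℓP
      by_cases hℓ : ℓ = s
      · rw [hℓ, e2, if_pos ⟨ho, hEs⟩, Finset.card_singleton]
      · rw [e1 ℓ hℓ, if_neg, Finset.card_empty]
        rintro ⟨-, h2⟩
        obtain ⟨y, hy⟩ := hE
        exact Finset.disjoint_left.1 (hUd ℓ hℓP s hs hℓ) (h2 hy) (hEs hy)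
    · intro ℓ _ ℓ' _ v h1 h2
      have g1 : ℓ = s := by
        by_contra hℓ
        rw [e1 ℓ hℓ] at h1
        exact Finset.notMem_empty v h1
      have g2 : ℓ' = s := by
        by_contra hℓ
        rw [e1 ℓ' hℓ] at h2
        exact Finset.notMem_empty v h2
      rw [g1, g2]
  · refine ⟨∅, fun _ => ∅, by rw [Finset.card_empty]; exact Nat.zero_le _,
      fun ℓ => Finset.empty_subset _, fun ℓ => Finset.empty_subset _, ?_, ?_⟩
    · intro ℓ hℓ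
      rw [if_neg (fun h2 => h ⟨ℓ, hℓ, h2⟩)]
      exact Finset.card_empty
    · intro ℓ _ ℓ' _ v h1
      exact absurd h1 (Finset.notMem_empty v)

/-- the modes -/
noncomputable def nce_m {V : Type} [Fintype V] (G : SimpleGraph V) (P : ℕ) (K0 C E : Finset V)
    (U : ℕ → Finset V) (yy : ℕ → V) (y : V) (ℓ : ℕ) : ℕ :=
  if y ∈ U ℓ then 0 else if ¬ Even (C \ U ℓ).card ∧ y = yy ℓ then 1 else
    if P + 3 + E.card ≤ dgi G (univ \ K0) y then 2 else 0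

theorem nce_m_cases {V : Type} [Fintype V] (G : SimpleGraph V) (P : ℕ) (K0 C E : Finset V)
    (U : ℕ → Finset V) (yy : ℕ → V) (y : V) (ℓ : ℕ) :
    (y ∈ U ℓ → nce_m G P K0 C E U yy y ℓ = 0) ∧
    (nce_m G P K0 C E U yy y ℓ = 1 ↔ y ∉ U ℓ ∧ ¬ Even (C \ U ℓ).card ∧ y = yy ℓ) ∧
    (nce_m G P K0 C E U yy y ℓ = 2 → P + 3 + E.card ≤ dgi G (univ \ K0) y) ∧
    (y ∉ U ℓ → P + 3 + E.card ≤ dgi G (univ \ K0) y → nce_m G P K0 C E U yy y ℓ = 1 ∨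
      nce_m G P K0 C E U yy y ℓ = 2) := by
  unfold nce_m
  by_cases h1 : y ∈ U ℓ
  · rw [if_pos h1]
    refine ⟨fun _ => rfl, ⟨fun h => absurd h (by norm_num), fun h => absurd h1 h.1⟩,
      fun h => absurd h (by norm_num), fun h => absurd h1 h⟩
  · rw [if_neg h1]
    by_cases h2 : ¬ Even (C \ U ℓ).card ∧ y = yy ℓ
    · rw [if_pos h2]
      exact ⟨fun h => absurd h h1, ⟨fun _ => ⟨h1, h2⟩, fun _ => rfl⟩, fun h => absurd h (by norm_num),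
        fun _ _ => Or.inl rfl⟩
    · rw [if_neg h2]
      by_cases h3 : P + 3 + E.card ≤ dgi G (univ \ K0) y
      · rw [if_pos h3]
        exact ⟨fun h => absurd h h1, ⟨fun h => absurd h (by norm_num), fun h => absurd h.2 h2⟩,
          fun _ => h3, fun _ _ => Or.inr rfl⟩
      · rw [if_neg h3]
        exact ⟨fun h => absurd h h1, ⟨fun h => absurd h (by norm_num), fun h => absurd h.2 h2⟩,
          fun h => absurd h (by norm_num), fun _ h => absurd h h3⟩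

/-- the number of vertices in mode one -/
theorem nce_m_one {V : Type} [Fintype V] (G : SimpleGraph V) (P : ℕ) (K0 C E : Finset V)
    (U : ℕ → Finset V) (yy : ℕ → V) (hyy : ∀ ℓ, ¬ E ⊆ U ℓ → yy ℓ ∈ E ∧ yy ℓ ∉ U ℓ) (ℓ : ℕ) :
    (E.filter fun x => nce_m G P K0 C E U yy x ℓ = 1).card =
      if (¬ Even (C \ U ℓ).card ∧ ¬ E ⊆ U ℓ) then 1 else 0 := by
  by_cases h : ¬ Even (C \ U ℓ).card ∧ ¬ E ⊆ U ℓ
  · rw [if_pos h, Finset.card_eq_one]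
    refine ⟨yy ℓ, ?_⟩
    ext x
    rw [Finset.mem_filter, Finset.mem_singleton, (nce_m_cases G P K0 C E U yy x ℓ).2.1]
    constructor
    · exact fun hx => hx.2.2.2
    · rintro rfl
      exact ⟨(hyy ℓ h.2).1, (hyy ℓ h.2).2, h.1, rfl⟩
  · rw [if_neg h, Finset.card_eq_zero, Finset.filter_eq_empty_iff]
    intro x hx hm
    rw [(nce_m_cases G P K0 C E U yy x ℓ).2.1] at hm
    exact h ⟨hm.2.1, fun hs => hm.1 (hs hx)⟩

/-- parity -/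
theorem nce_par {V : Type} (C Uℓ Zℓ T : Finset V) (E : Finset V) (hZ : Zℓ ⊆ C \ Uℓ)
    (hT : T ⊆ (C \ Uℓ) \ Zℓ)
    (hz : Zℓ.card = if (¬ Even (C \ Uℓ).card ∧ E ⊆ Uℓ) then 1 else 0)
    (ht : T.card = if (¬ Even (C \ Uℓ).card ∧ ¬ E ⊆ Uℓ) then 1 else 0) :
    Even (C \ (Uℓ ∪ Zℓ ∪ T)).card ∧ Zℓ.card + T.card ≤ 1 := by
  have e1 : C \ (Uℓ ∪ Zℓ ∪ T) = ((C \ Uℓ) \ Zℓ) \ T := by
    ext x
    simp only [Finset.mem_sdiff, Finset.mem_union]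
    tauto
  have c1 := Finset.card_sdiff_add_card_eq_card hZ
  have c2 := Finset.card_sdiff_add_card_eq_card hT
  rw [e1]
  by_cases ho : Even (C \ Uℓ).card
  · rw [if_neg (fun h => h.1 ho)] at hz ht
    have : (((C \ Uℓ) \ Zℓ) \ T).card = (C \ Uℓ).card := by omega
    rw [this]
    exact ⟨ho, by omega⟩
  · have h2 : Zℓ.card + T.card = 1 := by
      by_cases hs : E ⊆ Uℓ
      · rw [if_pos ⟨ho, hs⟩] at hz
        rw [if_neg (fun h => h.2 hs)] at ht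
        omega
      · rw [if_neg (fun h => hs h.2)] at hz
        rw [if_pos ⟨ho, hs⟩] at ht
        omega
    refine ⟨?_, h2.le⟩
    rw [Nat.not_even_iff_odd] at ho
    obtain ⟨k, hk⟩ := ho
    exact ⟨k, by omega⟩

/-- the union of the two families of matchings -/
theorem nce_PM {V : Type} [Fintype V] (G : SimpleGraph V) (P : ℕ) (C E : Finset V)
    (U W X : ℕ → Finset V) (τ μ : ℕ → V → V) (hdj : Disjoint C E)
    (hUW : ∀ ℓ < P, U ℓ ⊆ W ℓ) (hUX : ∀ ℓ < P, U ℓ ⊆ X ℓ)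
    (hτ : PM G P W τ) (hμ : PM G P (fun ℓ => univ \ (C \ X ℓ)) μ)
    (hE : ∀ ℓ < P, ∀ v, v ∉ E → τ ℓ v ≠ v → τ ℓ v ∈ E)
    (hX : ∀ ℓ < P, ∀ v ∈ C, τ ℓ v ≠ v → v ∈ X ℓ) :
    PM G P U (fun ℓ v => if τ ℓ v ≠ v then τ ℓ v else μ ℓ v) := by
  have b1 : ∀ ℓ < P, ∀ v, μ ℓ v ≠ v → v ∈ C \ X ℓ := by
    intro ℓ hℓ v hv
    by_contra hcon
    exact hv (hμ.fix ℓ hℓ v (Finset.mem_sdiff.2 ⟨Finset.mem_univ _, hcon⟩))
  have b2 : ∀ ℓ < P, ∀ v, μ ℓ v ≠ v → μ ℓ v ∈ C \ X ℓ := by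
    intro ℓ hℓ v hv
    apply b1 ℓ hℓ
    rw [hμ.inv ℓ hℓ v]
    exact hv.symm
  have b3 : ∀ ℓ < P, ∀ v ∈ C \ X ℓ, τ ℓ v = v := by
    intro ℓ hℓ v hv
    rw [Finset.mem_sdiff] at hv
    by_contra hcon
    exact hv.2 (hX ℓ hℓ v hv.1 hcon)
  have f1 : ∀ ℓ v, τ ℓ v ≠ v → (if τ ℓ v ≠ v then τ ℓ v else μ ℓ v) = τ ℓ v := fun ℓ v h => if_pos h
  have f2 : ∀ ℓ v, τ ℓ v = v → (if τ ℓ v ≠ v then τ ℓ v else μ ℓ v) = μ ℓ v :=
    fun ℓ v h => if_neg (fun h' => h' h)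
  have cE : ∀ v ∈ C, v ∉ E := fun v hv hv' => Finset.disjoint_left.1 hdj hv hv'
  refine ⟨?_, ?_, ?_, ?_⟩
  · intro ℓ hℓ v
    by_cases h : τ ℓ v = v
    · simp only [f2 ℓ v h]
      by_cases h2 : μ ℓ v = v
      · rw [h2, f2 ℓ v h, h2]
      · rw [f2 ℓ (μ ℓ v) (b3 ℓ hℓ _ (b2 ℓ hℓ v h2))]
        exact hμ.inv ℓ hℓ v
    · simp only [f1 ℓ v h]
      have h2 : τ ℓ (τ ℓ v) = v := hτ.inv ℓ hℓ v
      rw [f1 ℓ (τ ℓ v) (by rw [h2]; exact fun h' => h h'.symm), h2]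
  · intro ℓ hℓ v hv
    by_cases h : τ ℓ v = v
    · simp only [f2 ℓ v h] at hv ⊢
      exact hμ.adj ℓ hℓ v hv
    · simp only [f1 ℓ v h]
      exact hτ.adj ℓ hℓ v h
  · intro ℓ hℓ ℓ' hℓ' hne v hv
    by_cases h : τ ℓ v = v
    · simp only [f2 ℓ v h] at hv ⊢
      have hvC := (Finset.mem_sdiff.1 (b1 ℓ hℓ v hv)).1
      have hvC' := (Finset.mem_sdiff.1 (b2 ℓ hℓ v hv)).1
      by_cases h' : τ ℓ' v = v
      · rw [f2 ℓ' v h']
        exact hμ.dis ℓ hℓ ℓ' hℓ' hne v hv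
      · rw [f1 ℓ' v h']
        intro he
        rw [he] at hvC'
        exact cE _ hvC' (hE ℓ' hℓ' v (cE v hvC) h')
    · simp only [f1 ℓ v h]
      by_cases h' : τ ℓ' v = v
      · rw [f2 ℓ' v h']
        intro he
        by_cases h2 : μ ℓ' v = v
        · rw [h2] at he
          exact h he
        · have hvC := (Finset.mem_sdiff.1 (b1 ℓ' hℓ' v h2)).1
          have hvC' := (Finset.mem_sdiff.1 (b2 ℓ' hℓ' v h2)).1
          rw [← he] at hvC'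
          exact cE _ hvC' (hE ℓ hℓ v (cE v hvC) h)
      · rw [f1 ℓ' v h']
        exact hτ.dis ℓ hℓ ℓ' hℓ' hne v h
  · intro ℓ hℓ v hv
    have h : τ ℓ v = v := hτ.fix ℓ hℓ v (hUW ℓ hℓ hv)
    simp only [f2 ℓ v h]
    exact hμ.fix ℓ hℓ v (Finset.mem_sdiff.2 ⟨Finset.mem_univ _, fun h2 =>
      (Finset.mem_sdiff.1 h2).2 (hUX ℓ hℓ hv)⟩)

/-- the number of classes -/
theorem nce_K {V : Type} (Δ P : ℕ) (K0 : Finset V) (U : ℕ → Finset V)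
    (hK : K0.card = Δ + 1 + P) (hUK : ∀ ℓ < P, U ℓ ⊆ K0) (hU2 : ∀ ℓ < P, (U ℓ).card = 2)
    (hUd : ∀ ℓ < P, ∀ ℓ' < P, ℓ ≠ ℓ' → Disjoint (U ℓ) (U ℓ')) :
    (K0.filter fun v => ∀ ℓ < P, v ∉ U ℓ).card + P ≤ Δ + 1 := by
  have h1 : ((range P).biUnion U).card = 2 * P := by
    rw [Finset.card_biUnion]
    · rw [Finset.sum_congr rfl (fun ℓ hℓ => hU2 ℓ (Finset.mem_range.1 hℓ)), Finset.sum_const,
        Finset.card_range, smul_eq_mul, mul_comm]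
    · intro ℓ hℓ ℓ' hℓ' hne
      exact hUd ℓ (Finset.mem_range.1 hℓ) ℓ' (Finset.mem_range.1 hℓ') hne
  have h2 : (range P).biUnion U ⊆ K0 := by
    intro v hv
    rw [Finset.mem_biUnion] at hv
    obtain ⟨ℓ, hℓ, hv⟩ := hv
    exact hUK ℓ (Finset.mem_range.1 hℓ) hv
  have h3 : (K0.filter fun v => ∀ ℓ < P, v ∉ U ℓ) = K0 \ (range P).biUnion U := by
    ext v
    rw [Finset.mem_filter, Finset.mem_sdiff, Finset.mem_biUnion]
    constructor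
    · rintro ⟨a, b⟩
      refine ⟨a, ?_⟩
      rintro ⟨ℓ, hℓ, hv⟩
      exact b ℓ (Finset.mem_range.1 hℓ) hv
    · rintro ⟨a, b⟩
      exact ⟨a, fun ℓ hℓ hv => b ⟨ℓ, Finset.mem_range.2 hℓ, hv⟩⟩
  have h4 := Finset.card_sdiff_add_card_eq_card h2
  rw [h3]
  omega

theorem nce {V : Type} [Fintype V] (G : SimpleGraph V) (Δ P : ℕ) (K0 C E : Finset V)
    (hd : ∀ v, dg G v ≤ Δ) (hK : K0.card = Δ + 1 + P) (hCE : K0 = C ∪ E)
    (hdj : Disjoint C E) (hE : E.Nonempty)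
    (hE1 : ∀ y ∈ E, P + 3 + E.card ≤ dgi G C y)
    (hE2 : ∀ y ∈ E, dg G y + P ≤ Δ ∨ P + 3 + E.card ≤ dgi G (univ \ K0) y)
    (hC : ∀ v ∈ C, C.card + 2 * (P + 4) ≤ 2 * dgi G C v)
    (ho : ∀ v, v ∉ K0 → dgi G K0 v + P ≤ Δ + 1)
    (hPK : 2 * P ≤ K0.card) :
    ∃ (fV : V → ℕ) (fE : Sym2 V → ℕ), PTot G K0 (Δ + 2) fV fE := by
  obtain ⟨U, hUK, hU2, hUi, hUd⟩ := ncp G K0 Δ P hd hK hPK
  obtain ⟨yy, hyy⟩ := nce_yy E U hE
  obtain ⟨Z, Zm, hZ1, hZmC, hZmZ, hZmc, hZmu⟩ := nce_Z P C E U hE hUd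
  have hm := nce_m_cases G P K0 C E U yy
  have hm1 := nce_m_one G P K0 C E U yy hyy
  obtain ⟨m, hmd⟩ : ∃ m, m = nce_m G P K0 C E U yy := ⟨_, rfl⟩
  rw [← hmd] at hm hm1
  have hEC : ∀ v ∈ E, v ∉ C := fun v hv hv' => Finset.disjoint_left.1 hdj hv' hv
  have hZm1 : ∀ ℓ < P, (Zm ℓ).card ≤ 1 := by
    intro ℓ hℓ
    exact (Finset.card_le_card (hZmZ ℓ)).trans hZ1
  obtain ⟨τ, hτ, hτ1, hτ2, hτ0, hτE, hτC, -⟩ := lot G E C P 3
    (fun y => C.filter fun v => G.Adj y v) (fun y => (univ \ K0).filter fun v => G.Adj y v) m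
    (fun ℓ => U ℓ ∪ Zm ℓ)
    (by
      intro x _ v hv
      rw [Finset.mem_filter] at hv
      exact ⟨hv.2, hv.1⟩)
    (by
      intro x _ v hv
      rw [Finset.mem_filter, Finset.mem_sdiff, hCE, Finset.mem_union] at hv
      exact ⟨hv.2, fun h => hv.1.2 (Or.inl h), fun h => hv.1.2 (Or.inr h)⟩)
    hdj.symm
    (by
      intro ℓ hℓ x hx hxW
      rcases Finset.mem_union.1 hxW with h | h
      · exact (hm x ℓ).1 h
      · exact absurd (Finset.mem_sdiff.1 (hZmC ℓ h)).1 (hEC x hx))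
    (by
      intro ℓ hℓ
      have h1 := Finset.card_union_le (U ℓ) (Zm ℓ)
      have h2 := hU2 ℓ hℓ
      have h3 := hZm1 ℓ hℓ
      show (U ℓ ∪ Zm ℓ).card ≤ 3
      omega)
    (by
      intro x hx ℓ _ _
      have h1 := hE1 x hx
      have h2 : ((range P).filter fun ℓ => m x ℓ = 1).card ≤ P :=
        (Finset.card_filter_le _ _).trans (Finset.card_range P).le
      show _ ≤ dgi G C x
      omega)
    (by
      intro x hx ℓ _ h2m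
      have h1 := (hm x ℓ).2.2.1 h2m
      have h2 : ((range P).filter fun ℓ => m x ℓ = 2).card ≤ P :=
        (Finset.card_filter_le _ _).trans (Finset.card_range P).le
      show _ ≤ dgi G (univ \ K0) x
      omega)
  have hτfix : ∀ ℓ < P, ∀ v, v ∈ U ℓ ∨ v ∈ Zm ℓ → τ ℓ v = v := fun ℓ hℓ v hv =>
    hτ.fix ℓ hℓ v (Finset.mem_union.2 hv)
  have hpar : ∀ ℓ < P, Even (C \ (U ℓ ∪ Zm ℓ ∪ C.filter fun v => τ ℓ v ≠ v)).card ∧
      (Zm ℓ).card + (C.filter fun v => τ ℓ v ≠ v).card ≤ 1 := by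
    intro ℓ hℓ
    refine nce_par C (U ℓ) (Zm ℓ) _ E (hZmC ℓ) ?_ (hZmc ℓ hℓ) ?_
    · intro v hv
      rw [Finset.mem_filter] at hv
      rw [Finset.mem_sdiff, Finset.mem_sdiff]
      exact ⟨⟨hv.1, fun h => hv.2 (hτfix ℓ hℓ v (Or.inl h))⟩,
        fun h => hv.2 (hτfix ℓ hℓ v (Or.inr h))⟩
    · rw [hτC ℓ hℓ]
      exact hm1 ℓ
  obtain ⟨X, hXd⟩ : ∃ X : ℕ → Finset V, X = fun ℓ => U ℓ ∪ Zm ℓ ∪ C.filter fun v => τ ℓ v ≠ v :=
    ⟨_, rfl⟩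
  have hXm : ∀ ℓ v, v ∈ X ℓ ↔ (v ∈ U ℓ ∨ v ∈ Zm ℓ) ∨ (v ∈ C ∧ τ ℓ v ≠ v) := by
    intro ℓ v
    rw [hXd, Finset.mem_union, Finset.mem_union, Finset.mem_filter]
  obtain ⟨μ, hμ, hμC, -⟩ := ncb G C Z P 3 X
    (by
      intro ℓ hℓ
      have h1 : X ℓ ∩ C ⊆ U ℓ ∪ (Zm ℓ ∪ C.filter fun v => τ ℓ v ≠ v) := by
        intro v hv
        have h2 := (hXm ℓ v).1 (Finset.mem_inter.1 hv).1
        rw [Finset.mem_union, Finset.mem_union, Finset.mem_filter]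
        tauto
      have h2 := Finset.card_le_card h1
      have h3 := Finset.card_union_le (U ℓ) (Zm ℓ ∪ C.filter fun v => τ ℓ v ≠ v)
      have h4 := Finset.card_union_le (Zm ℓ) (C.filter fun v => τ ℓ v ≠ v)
      have h5 := hU2 ℓ hℓ
      have h6 := (hpar ℓ hℓ).2
      omega)
    (by
      intro ℓ hℓ
      rw [hXd]
      exact (hpar ℓ hℓ).1)
    (by
      intro v hv
      have h1 := hC v hv
      omega)
  have hPM := nce_PM G P C E U (fun ℓ => U ℓ ∪ Zm ℓ) X τ μ hdj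
    (fun ℓ _ => Finset.subset_union_left) (fun ℓ _ v hv => (hXm ℓ v).2 (Or.inl (Or.inl hv)))
    hτ hμ hτE (fun ℓ _ v hv hv' => (hXm ℓ v).2 (Or.inr ⟨hv, hv'⟩))
  refine ncu G Δ P K0 Z U _ hUd hUi (nce_K Δ P K0 U hK hUK hU2 hUd) hPM ?_ ?_ ho
  · intro v hv
    rw [hCE, Finset.mem_union] at hv
    rcases hv with hv | hv
    · have hsub : ((range P).filter fun ℓ => v ∉ U ℓ ∧
          (if τ ℓ v ≠ v then τ ℓ v else μ ℓ v) = v) ⊆ (range P).filter fun ℓ => v ∈ Zm ℓ := by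
        intro ℓ hℓ
        rw [Finset.mem_filter, Finset.mem_range] at hℓ ⊢
        obtain ⟨hℓP, hU, hmm⟩ := hℓ
        refine ⟨hℓP, ?_⟩
        have h1 : τ ℓ v = v := by
          by_contra h
          rw [if_pos h] at hmm
          exact h hmm
        rw [if_neg (fun h => h h1)] at hmm
        by_contra hz
        refine hμC ℓ hℓP v (Finset.mem_sdiff.2 ⟨hv, fun hX => ?_⟩) hmm
        rcases (hXm ℓ v).1 hX with (h | h) | h
        · exact hU h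
        · exact hz h
        · exact h.2 h1
      have hle := Finset.card_le_card hsub
      have hdv := hd v
      by_cases hvZ : v ∈ Z
      · rw [if_pos hvZ]
        have h1 : ((range P).filter fun ℓ => v ∈ Zm ℓ).card ≤ 1 := by
          rw [Finset.card_le_one]
          intro a ha b hb
          rw [Finset.mem_filter, Finset.mem_range] at ha hb
          exact hZmu a ha.1 b hb.1 v ha.2 hb.2
        omega
      · rw [if_neg hvZ]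
        have h1 : ((range P).filter fun ℓ => v ∈ Zm ℓ).card = 0 := by
          rw [Finset.card_eq_zero, Finset.filter_eq_empty_iff]
          intro ℓ _ h
          exact hvZ (hZmZ ℓ h)
        omega
    · have hdv := hd v
      rcases hE2 v hv with h | h
      · have h2 : ((range P).filter fun ℓ => v ∉ U ℓ ∧
          (if τ ℓ v ≠ v then τ ℓ v else μ ℓ v) = v).card ≤ P :=
          (Finset.card_filter_le _ _).trans (Finset.card_range P).le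
        omega
      · have h2 : ((range P).filter fun ℓ => v ∉ U ℓ ∧
          (if τ ℓ v ≠ v then τ ℓ v else μ ℓ v) = v).card = 0 := by
          rw [Finset.card_eq_zero, Finset.filter_eq_empty_iff]
          rintro ℓ hℓ ⟨hU, hmm⟩
          rw [Finset.mem_range] at hℓ
          have h3 : G.Adj v (τ ℓ v) := by
            rcases (hm v ℓ).2.2.2 hU h with h4 | h4
            · exact (Finset.mem_filter.1 (hτ1 ℓ hℓ v hv h4)).2
            · exact (Finset.mem_filter.1 (hτ2 ℓ hℓ v hv h4)).2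
          have h5 : τ ℓ v ≠ v := h3.ne'
          rw [if_pos h5] at hmm
          exact h5 hmm
        omega
  · intro a ha b hb hab
    exact absurd (Finset.card_le_one.1 hZ1 a ha b hb) hab.ne

end Pool.Agent.H71.HL
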