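import Mathlib
import Pool.Agent.H71.HL.Nce
import Pool.Agent.H71.HL.Ncd
import Pool.Agent.H71.HL.Ext
import Pool.Agent.H71.HL.Hyr

/-!
NCN: the total colouring of a graph with a near-complete cluster `K0`, all parameters natural numbers.
-/

set_option autoImplicit false

namespace Pool.Agent.H71.HL

open Finset Classical
open Pool.Agent.H71.DN Pool.Agent.H71.DX

theorem ncn {V : Type} [Fintype V] (G : SimpleGraph V) (Δ k β D t K2 : ℕ) (K0 C E : Finset V)
    (hd : ∀ v, dg G v ≤ Δ) (hCE : K0 = C ∪ E) (hdj : Disjoint C E)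
    (hK : K0.card ≤ Δ + 1 + k)
    (hE1 : ∀ y ∈ E, k + 3 + E.card ≤ dgi G C y)
    (hE2 : ∀ y ∈ E, dg G y + k ≤ Δ ∨ k + 3 + E.card ≤ dgi G (univ \ K0) y)
    (hC : ∀ v ∈ C, C.card + 2 * (5 * k + 4) ≤ 2 * dgi G C v)
    (hβ : ∀ v, v ∉ K0 → dgi G K0 v ≤ β) (hβk : β + (3 * k + 1) ≤ Δ + 1)
    (hD : ∀ v, v ∉ K0 → dg G v ≤ D)
    (hN : D + β + 1 ≤ Δ + 2) (hL : D + 1 + K2 ≤ Δ + 2)
    (ht : Fintype.card V * (β + 1) ^ t < t.factorial)
    (hK2 : 2 * (β + 1) + 3 * (β + 1 + t) < K2) (hk : 4 * k ≤ Δ) :
    H70.HY.HYLab G Δ 1 := by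
  have key : ∃ (fV : V → ℕ) (fE : Sym2 V → ℕ), PTot G K0 (Δ + 2) fV fE := by
    by_cases h1 : K0.card ≤ Δ + 1
    · refine ncu G Δ 0 K0 ∅ (fun _ => ∅) (fun _ v => v) ?_ ?_ ?_ ⟨?_, ?_, ?_, ?_⟩ ?_ ?_ ?_
      · intro ℓ hℓ
        omega
      · intro ℓ hℓ
        omega
      · refine le_trans (Nat.add_le_add_right (Finset.card_le_card (Finset.filter_subset _ _)) 0) ?_
        omega
      · intro ℓ hℓ
        omega
      · intro ℓ hℓ
        omega
      · intro ℓ hℓ
        omega
      · intro ℓ hℓ
        omega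
      · intro v _
        have h2 := hd v
        simp only [Finset.range_zero, Finset.filter_empty, Finset.card_empty]
        omega
      · intro a ha
        exact absurd ha (Finset.notMem_empty a)
      · intro v hv
        have h2 := hβ v hv
        omega
    · obtain ⟨P, hP⟩ : ∃ P, K0.card = Δ + 1 + P := ⟨K0.card - (Δ + 1), by omega⟩
      have hPk : P ≤ k := by omega
      rcases E.eq_empty_or_nonempty with hE | hE
      · have hKC : K0 = C := by rw [hCE, hE, Finset.union_empty]
        rw [hKC] at hP hβ ⊢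
        refine ncd G Δ P C hd hP ?_ ?_ ?_
        · intro v hv
          have h2 := hC v hv
          omega
        · intro v hv
          have h2 := hβ v hv
          omega
        · omega
      · refine nce G Δ P K0 C E hd hP hCE hdj hE ?_ ?_ ?_ ?_ ?_
        · intro y hy
          have h2 := hE1 y hy
          omega
        · intro y hy
          rcases hE2 y hy with h2 | h2
          · left
            omega
          · right
            omega
        · intro v hv
          have h2 := hC v hv
          omega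
        · intro v hv
          have h2 := hβ v hv
          omega
        · omega
  obtain ⟨fV, fE, hT⟩ := key
  exact hyt G Δ (ext G K0 (Δ + 2) β D t K2 fV fE hT hβ hD hN hL ht hK2)

end Pool.Agent.H71.HL
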