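import Mathlib
import Pool.Agent.H71.HL.Ncn
import Pool.Agent.H71.DN.Num

/-!
NCM: the case of a near-complete cluster: choice of the parameters for `ncn` (`HL/Ncn.lean`, use its STATEMENT).

Proof.  `n := card V`, `Δ := G.maxDegree`, `H := univ \ W`. Constants: `θ' := ε/200`, `μ' := 1/100`, `ε1 := ε/4000`, `lam := 3 ε1`, `ρ := ε²/10^7`, `n0 := ⌈10^5/ε²⌉`.
`K0 := {v : θ' n ≤ dgi G H v}`, `O := univ \ K0`, `C := {v ∈ K0 : Δ ≤ dg G v + lam n ∧ dgi G O v < μ' n}`, `E := K0 \ C`.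
 * `H ⊆ K0`: for `v ∈ H`: `dgi G H v ≥ dg G v - #W ≥ (Δ - ρ n) - (1/2 - ε/4) n ≥ ε n` (`dg G v = dgi G H v + dgi G W v`, `#W = n - #H`). So `O ⊆ W`.
 * `#(K0 \ H) ≤ (ρ/θ') n ≤ 2·10^(-5) ε n`: for `v ∈ K0 \ H ⊆ W` `dgi G H v ≥ θ' n`, and `∑ v ∈ W, dgi G H v = ee G H W ≤ ρ n²`.
 * `#(E ∩ H) ≤ (ρ/μ') n ≤ 10^(-5) ε² n`: for `v ∈ E ∩ H`: `Δ ≤ dg G v + ρ n ≤ dg G v + lam n`, so `dgi G W v ≥ dgi G O v ≥ μ' n`, and `∑ v ∈ H, dgi G W v = ee G H W`.
 So `#E ≤ 2.25·10^(-5) ε n`.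
 * `#K0 ≤ #H + #(K0 \ H) ≤ (1 + ε1) Δ + 2·10^(-5) ε n ≤ (1 + 2 ε1) Δ` (since `Δ ≥ n/2`). `k := ⌊2 ε1 n⌋₊`: `#K0 ≤ Δ + 2 ε1 n < Δ + k + 1`.
 * `hE1`: `y ∈ E ⊆ K0`: `θ' n ≤ dgi G H y ≤ dgi G C y + #E` (`H ⊆ C ∪ E`); `k + 3 + 2 #E ≤ ε n/2000 + 3 + 4.5·10^(-5) ε n ≤ ε n/200`.
 * `hE2`: `y ∈ E`: `dg G y + lam n < Δ`, then `dg G y + k ≤ Δ`; or `dgi G O y ≥ μ' n ≥ k + 3 + #E`.
 * `hC`: `v ∈ C`: `dg G v = dgi G C v + dgi G E v + dgi G O v`, so `dgi G C v ≥ Δ - lam n - μ' n - #E`; `#C ≤ (1 + 2 ε1) Δ`; to show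
   `(1 + 2 ε1) Δ + 10 k + 8 ≤ 2 Δ - 2 (lam n + μ' n + #E)`: use `Δ ≥ n/2`, `ε ≤ 1/4`, `n ≥ 10^5`.
 * `hβ`: `v ∉ K0`: `dgi G K0 v ≤ dgi G H v + #(K0 \ H) ≤ 2 θ' n = ε n/100`; `β := ⌊ε n/100⌋₊`. `hβk`: clear.
 * `hD`: `v ∉ K0`: `dg G v = dgi G H v + dgi G W v ≤ θ' n + #W ≤ (1/2 - ε/8) n`; `D := ⌊(1/2 - ε/8) n⌋₊`. `hN`: clear.
 * `t := 12 (β + 1)`, `K2 := 2 (β + 1) + 3 (β + 1 + t) + 1 = 41 (β + 1) + 1 ≤ 0.41 ε n + 42`. `hL`: `D + 1 + K2 ≤ (1/2 + 0.285 ε) n + 43 ≤ Δ + 2`.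
   `ht`: `Num_ht` (`DN/Num.lean`): `t ≥ 0.12 ε n`, `t² ≥ 0.0144 ε² n² ≥ n`.
 * `hk`: clear. `hd`: `dg G v ≤ G.maxDegree` (see `dg_eq`, `dg_bd` in `DR`, or `MnE.lean`).
-/

set_option autoImplicit false

namespace Pool.Agent.H71.HL

open Finset Classical
open Pool.Agent.H71.DN Pool.Agent.H71.DX

theorem Ncm_dgi_union {V : Type} (G : SimpleGraph V) (S T : Finset V) (h : Disjoint S T) (v : V) :
    dgi G (S ∪ T) v = dgi G S v + dgi G T v := by
  unfold dgi
  rw [Finset.filter_union, Finset.card_union_of_disjoint]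
  exact Finset.disjoint_filter_filter h

theorem Ncm_dg {V : Type} [Fintype V] (G : SimpleGraph V) (S : Finset V) (v : V) :
    dg G v = dgi G (univ \ S) v + dgi G S v := by
  rw [← Ncm_dgi_union G _ _ Finset.sdiff_disjoint v, Finset.sdiff_union_of_subset (Finset.subset_univ S)]
  rfl

theorem Ncm_dgi_le {V : Type} (G : SimpleGraph V) (S : Finset V) (v : V) : dgi G S v ≤ S.card :=
  Finset.card_filter_le _ _

theorem Ncm_dgi_mono {V : Type} (G : SimpleGraph V) {S T : Finset V} (h : S ⊆ T) (v : V) :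
    dgi G S v ≤ dgi G T v :=
  Finset.card_le_card (Finset.filter_subset_filter _ h)

theorem Ncm_dgi_sdiff {V : Type} (G : SimpleGraph V) (S T : Finset V) (v : V) :
    dgi G T v ≤ dgi G S v + (T \ S).card := by
  have h1 : T ⊆ S ∪ (T \ S) := by
    intro x hx
    by_cases hxS : x ∈ S
    · exact Finset.mem_union_left _ hxS
    · exact Finset.mem_union_right _ (Finset.mem_sdiff.2 ⟨hx, hxS⟩)
  have h2 := Ncm_dgi_mono G h1 v
  rw [Ncm_dgi_union G _ _ Finset.disjoint_sdiff v] at h2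
  have h3 := Ncm_dgi_le G (T \ S) v
  omega

theorem Ncm_ee_left {V : Type} [Fintype V] (G : SimpleGraph V) (A B : Finset V) :
    ee G A B = ∑ a ∈ A, dgi G B a := by
  unfold ee dgi
  rw [Finset.card_filter, Finset.sum_product]
  refine Finset.sum_congr rfl fun a _ => ?_
  rw [Finset.card_filter]

theorem Ncm_ee_right {V : Type} [Fintype V] (G : SimpleGraph V) (A B : Finset V) :
    ee G A B = ∑ b ∈ B, dgi G A b := by
  unfold ee dgi
  rw [Finset.card_filter, Finset.sum_product_right]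
  refine Finset.sum_congr rfl fun b _ => ?_
  rw [Finset.card_filter]
  refine Finset.sum_congr rfl fun a _ => ?_
  simp only [G.adj_comm]

theorem Ncm_markov {V : Type} (f : V → ℕ) (X B : Finset V) (hX : X ⊆ B) (c m : ℝ)
    (h : ∀ x ∈ X, c ≤ (f x : ℝ)) (hm : ((∑ b ∈ B, f b : ℕ) : ℝ) ≤ m) : (X.card : ℝ) * c ≤ m := by
  refine le_trans ?_ hm
  push_cast
  calc (X.card : ℝ) * c = ∑ _x ∈ X, c := by rw [Finset.sum_const, nsmul_eq_mul]
    _ ≤ ∑ x ∈ X, (f x : ℝ) := Finset.sum_le_sum h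
    _ ≤ ∑ b ∈ B, (f b : ℝ) :=
      Finset.sum_le_sum_of_subset_of_nonneg hX (fun _ _ _ => Nat.cast_nonneg _)

theorem Ncm_dg_le {V : Type} [Fintype V] (G : SimpleGraph V) [inst : DecidableRel G.Adj] (v : V) :
    dg G v ≤ G.maxDegree := by
  have h1 : dg G v = G.degree v := by
    rw [SimpleGraph.degree, SimpleGraph.neighborFinset_eq_filter]
    unfold dg
    congr 1
    ext u
    simp only [Finset.mem_filter]
  rw [h1]
  exact G.degree_le_maxDegree v

theorem ncm (ε : ℝ) (hε : 0 < ε) (hε1 : ε ≤ 1 / 4) :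
    ∃ (ρ : ℝ) (n0 : ℕ), 0 < ρ ∧ ρ ≤ 1 ∧
      ∀ (V : Type) [Fintype V] (G : SimpleGraph V) [DecidableRel G.Adj]
        (W : Finset V), n0 ≤ Fintype.card V →
        (1 / 2 + ε) * Fintype.card V ≤ (G.maxDegree : ℝ) →
        (∀ v, v ∉ W → (G.maxDegree : ℝ) ≤ dg G v + ρ * Fintype.card V) →
        (ee G (univ \ W) W : ℝ) ≤ ρ * (Fintype.card V : ℝ) ^ 2 →
        ((univ \ W).card : ℝ) ≤ (1 + ε / 4000) * (G.maxDegree : ℝ) →
        (1 / 2 + ε / 4) * Fintype.card V ≤ ((univ \ W).card : ℝ) →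
        H70.HY.HYLab G G.maxDegree 1 := by
  refine ⟨ε ^ 2 / 10 ^ 7, ⌈(10 : ℝ) ^ 5 / ε ^ 2⌉₊, by positivity, ?_, ?_⟩
  · rw [div_le_one (by positivity)]
    nlinarith
  intro V _ G _ W hn0 hΔ hW hee hH1 hH2
  -- real parameters
  have hn1 : (10 : ℝ) ^ 5 / ε ^ 2 ≤ (Fintype.card V : ℝ) :=
    (Nat.le_ceil _).trans (by exact_mod_cast hn0)
  set n : ℝ := (Fintype.card V : ℝ) with hn
  set Δ : ℕ := G.maxDegree with hΔdef
  set H : Finset V := univ \ W with hHdef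
  have hn2 : (10 : ℝ) ^ 5 ≤ ε ^ 2 * n := by
    rw [div_le_iff₀ (by positivity)] at hn1
    linarith
  have hnpos : 0 < n := lt_of_lt_of_le (by positivity) hn1
  obtain ⟨s, hs⟩ : ∃ s : ℝ, s = ε * n := ⟨_, rfl⟩
  have hspos : 0 < s := by rw [hs]; positivity
  have hes : (10 : ℝ) ^ 5 ≤ ε * s := by rw [hs]; linarith [hn2, sq ε, (by ring : ε * (ε * n) = ε ^ 2 * n)]
  have hs4 : s ≤ n / 4 := by rw [hs]; nlinarith
  have hs5 : (400000 : ℝ) ≤ s := by
    have : ε * s ≤ 1 / 4 * s := mul_le_mul_of_nonneg_right hε1 hspos.le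
    norm_num at hes ⊢
    linarith
  have hΔ1 : n / 2 + s ≤ (Δ : ℝ) := by rw [hs]; linarith
  have hρn : ε ^ 2 / 10 ^ 7 * n ≤ s / 10 ^ 7 := by
    have : ε ^ 2 / 10 ^ 7 * n = ε * s / 10 ^ 7 := by rw [hs]; ring
    rw [this]
    apply div_le_div_of_nonneg_right _ (by norm_num)
    nlinarith
  have hdle : ∀ v, dg G v ≤ Δ := fun v => Ncm_dg_le G v
  have hΔn : (Δ : ℝ) ≤ n := by
    by_cases hne : Nonempty V
    · have h1 : Δ < Fintype.card V := by
        rw [hΔdef]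
        exact G.maxDegree_lt_card_verts
      rw [hn]
      exact_mod_cast h1.le
    · exfalso
      have : Fintype.card V = 0 := Fintype.card_eq_zero_iff.2 (not_nonempty_iff.1 hne)
      rw [hn, this] at hnpos
      simp at hnpos
  have hWc : (W.card : ℝ) ≤ n / 2 - s / 4 := by
    have h1 : W.card + H.card = Fintype.card V := by
      rw [hHdef, ← Finset.card_univ, add_comm]
      exact Finset.card_sdiff_add_card_eq_card (Finset.subset_univ W)
    have h2 : (W.card : ℝ) + (H.card : ℝ) = n := by rw [hn]; exact_mod_cast h1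
    have h3 : (1 / 2 + ε / 4) * n = n / 2 + s / 4 := by rw [hs]; ring
    linarith
  -- the sets
  set K0 : Finset V := univ.filter (fun v => s / 200 ≤ (dgi G H v : ℝ)) with hK0
  set O : Finset V := univ \ K0 with hO
  set C : Finset V := K0.filter (fun v => (Δ : ℝ) ≤ dg G v + 3 * s / 4000 ∧
    (dgi G O v : ℝ) < n / 100) with hC
  set E : Finset V := K0 \ C with hE
  have hCK : C ⊆ K0 := Finset.filter_subset _ _
  have hCE : K0 = C ∪ E := (Finset.union_sdiff_of_subset hCK).symm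
  have hdj : Disjoint C E := Finset.disjoint_sdiff
  have hmemK : ∀ v, v ∈ K0 ↔ s / 200 ≤ (dgi G H v : ℝ) := by
    intro v
    rw [hK0, Finset.mem_filter]
    exact ⟨fun h => h.2, fun h => ⟨Finset.mem_univ _, h⟩⟩
  have hsplit : ∀ v, (dg G v : ℝ) = dgi G H v + dgi G W v := by
    intro v
    rw [Ncm_dg G W v, hHdef]
    push_cast
    ring
  have hWle : ∀ v, (dgi G W v : ℝ) ≤ W.card := fun v => by exact_mod_cast Ncm_dgi_le G W v
  have hmemH : ∀ v, v ∈ H ↔ v ∉ W := by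
    intro v
    rw [hHdef, Finset.mem_sdiff]
    exact ⟨fun h => h.2, fun h => ⟨Finset.mem_univ _, h⟩⟩
  have hHK : H ⊆ K0 := by
    intro v hv
    rw [hmemK]
    have h1 := hW v ((hmemH v).1 hv)
    have h2 := hsplit v
    have h3 := hWle v
    linarith
  have hOW : O ⊆ W := by
    intro v hv
    by_contra hvW
    rw [hO, Finset.mem_sdiff] at hv
    exact hv.2 (hHK ((hmemH v).2 hvW))
  have ha : ((K0 \ H).card : ℝ) ≤ s / 50000 := by
    have h1 := Ncm_markov (fun b => dgi G H b) (K0 \ H) W (by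
        intro v hv
        rw [Finset.mem_sdiff] at hv
        by_contra hvW
        exact hv.2 ((hmemH v).2 hvW)) (s / 200) (ε ^ 2 / 10 ^ 7 * n ^ 2) (by
        intro v hv
        rw [Finset.mem_sdiff] at hv
        exact (hmemK v).1 hv.1) (by
        rw [← Ncm_ee_right G H W]
        exact hee)
    have h2 : ε ^ 2 / 10 ^ 7 * n ^ 2 = s / 50000 * (s / 200) := by rw [hs]; ring
    rw [h2] at h1
    exact le_of_mul_le_mul_right h1 (by positivity)
  have hb : ((E ∩ H).card : ℝ) ≤ s / 400000 := by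
    have h1 := Ncm_markov (fun b => dgi G W b) (E ∩ H) H Finset.inter_subset_right
        (n / 100) (ε ^ 2 / 10 ^ 7 * n ^ 2) (by
        intro v hv
        rw [Finset.mem_inter, hE, Finset.mem_sdiff] at hv
        obtain ⟨⟨hv1, hv2⟩, hv3⟩ := hv
        have h2 := hW v ((hmemH v).1 hv3)
        by_contra hlt
        push Not at hlt
        apply hv2
        rw [hC, Finset.mem_filter]
        refine ⟨hv1, by linarith, ?_⟩
        have h3 : (dgi G O v : ℝ) ≤ dgi G W v := by exact_mod_cast Ncm_dgi_mono G hOW v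
        linarith) (by
        rw [← Ncm_ee_left G H W]
        exact hee)
    have h2 : ε ^ 2 / 10 ^ 7 * n ^ 2 = (ε * s / 100000) * (n / 100) := by rw [hs]; ring
    rw [h2] at h1
    have h3 := le_of_mul_le_mul_right h1 (by positivity)
    have h4 : ε * s ≤ 1 / 4 * s := mul_le_mul_of_nonneg_right hε1 hspos.le
    linarith
  have hEc : (E.card : ℝ) ≤ 9 * s / 400000 := by
    have h1 : E.card ≤ (K0 \ H).card + (E ∩ H).card := by
      have h2 : E ⊆ (K0 \ H) ∪ (E ∩ H) := by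
        intro v hv
        by_cases hvH : v ∈ H
        · exact Finset.mem_union_right _ (Finset.mem_inter.2 ⟨hv, hvH⟩)
        · refine Finset.mem_union_left _ (Finset.mem_sdiff.2 ⟨?_, hvH⟩)
          rw [hE] at hv
          exact (Finset.mem_sdiff.1 hv).1
      exact (Finset.card_le_card h2).trans (Finset.card_union_le _ _)
    have h3 : (E.card : ℝ) ≤ (K0 \ H).card + (E ∩ H).card := by exact_mod_cast h1
    linarith
  obtain ⟨k, hk⟩ : ∃ k : ℕ, k = ⌊s / 2000⌋₊ := ⟨_, rfl⟩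
  have hk1 : (k : ℝ) ≤ s / 2000 := by rw [hk]; exact Nat.floor_le (by positivity)
  have hk2 : s / 2000 < (k : ℝ) + 1 := by rw [hk]; exact Nat.lt_floor_add_one _
  obtain ⟨β, hβ⟩ : ∃ β : ℕ, β = ⌊s / 100⌋₊ := ⟨_, rfl⟩
  have hβ1 : (β : ℝ) ≤ s / 100 := by rw [hβ]; exact Nat.floor_le (by positivity)
  have hβ2 : s / 100 < (β : ℝ) + 1 := by rw [hβ]; exact Nat.lt_floor_add_one _
  have hDpos : 0 ≤ n / 2 - s / 8 := by linarith
  obtain ⟨D, hD⟩ : ∃ D : ℕ, D = ⌊n / 2 - s / 8⌋₊ := ⟨_, rfl⟩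
  have hD1 : (D : ℝ) ≤ n / 2 - s / 8 := by rw [hD]; exact Nat.floor_le hDpos
  have hKc : (K0.card : ℝ) ≤ Δ + 27 * s / 100000 := by
    have h1 : K0.card ≤ H.card + (K0 \ H).card := by
      have h2 : K0 ⊆ H ∪ (K0 \ H) := by
        intro v hv
        by_cases hvH : v ∈ H
        · exact Finset.mem_union_left _ hvH
        · exact Finset.mem_union_right _ (Finset.mem_sdiff.2 ⟨hv, hvH⟩)
      exact (Finset.card_le_card h2).trans (Finset.card_union_le _ _)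
    have h3 : (K0.card : ℝ) ≤ H.card + (K0 \ H).card := by exact_mod_cast h1
    have h4 : ε / 4000 * (Δ : ℝ) ≤ ε / 4000 * n := mul_le_mul_of_nonneg_left hΔn (by positivity)
    have h5 : ε / 4000 * n = s / 4000 := by rw [hs]; ring
    linarith
  refine ncn G Δ k β D (12 * (β + 1)) (41 * (β + 1) + 1) K0 C E hdle hCE hdj ?_ ?_ ?_ ?_ ?_ ?_ ?_
    ?_ ?_ ?_ ?_ ?_
  · have h1 : (K0.card : ℝ) < ((Δ + 1 + k : ℕ) : ℝ) := by push_cast; linarith
    exact_mod_cast h1.le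
  · intro y hy
    have hyK : y ∈ K0 := by rw [hCE]; exact Finset.mem_union_right _ hy
    have h1 := (hmemK y).1 hyK
    have h2 : (dgi G H y : ℝ) ≤ dgi G C y + E.card := by
      have h3 : dgi G H y ≤ dgi G K0 y := Ncm_dgi_mono G hHK y
      have h4 : dgi G K0 y = dgi G C y + dgi G E y := by
        conv_lhs => rw [hCE]
        exact Ncm_dgi_union G C E hdj y
      have h5 := Ncm_dgi_le G E y
      have h6 : dgi G H y ≤ dgi G C y + E.card := by omega
      exact_mod_cast h6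
    have h7 : ((k + 3 + E.card : ℕ) : ℝ) ≤ (dgi G C y : ℝ) := by push_cast; linarith
    exact_mod_cast h7
  · intro y hy
    have hy' := hy
    rw [hE, Finset.mem_sdiff] at hy'
    by_cases h1 : (Δ : ℝ) ≤ dg G y + 3 * s / 4000
    · right
      have h2 : n / 100 ≤ (dgi G O y : ℝ) := by
        by_contra h3
        push Not at h3
        exact hy'.2 (by rw [hC, Finset.mem_filter]; exact ⟨hy'.1, h1, h3⟩)
      have h7 : ((k + 3 + E.card : ℕ) : ℝ) ≤ (dgi G O y : ℝ) := by push_cast; linarith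
      exact_mod_cast h7
    · left
      push Not at h1
      have h7 : ((dg G y + k : ℕ) : ℝ) ≤ (Δ : ℝ) := by push_cast; linarith
      exact_mod_cast h7
  · intro v hv
    have hv' := hv
    rw [hC, Finset.mem_filter] at hv'
    obtain ⟨-, h1, h2⟩ := hv'
    have h3 : (dg G v : ℝ) = dgi G O v + (dgi G C v + dgi G E v) := by
      have h4 : dgi G K0 v = dgi G C v + dgi G E v := by
        conv_lhs => rw [hCE]
        exact Ncm_dgi_union G C E hdj v
      rw [Ncm_dg G K0 v, h4]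
      push_cast
      rfl
    have h5 : (dgi G E v : ℝ) ≤ E.card := by exact_mod_cast Ncm_dgi_le G E v
    have h6 : (C.card : ℝ) ≤ K0.card := by exact_mod_cast Finset.card_le_card hCK
    have h7 : ((C.card + 2 * (5 * k + 4) : ℕ) : ℝ) ≤ ((2 * dgi G C v : ℕ) : ℝ) := by
      push_cast
      linarith
    exact_mod_cast h7
  · intro v hv
    rw [hmemK] at hv
    push Not at hv
    have h1 : (dgi G K0 v : ℝ) ≤ dgi G H v + (K0 \ H).card := by
      exact_mod_cast Ncm_dgi_sdiff G H K0 v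
    rw [hβ]
    exact Nat.le_floor (by linarith)
  · have h7 : ((β + (3 * k + 1) : ℕ) : ℝ) ≤ ((Δ + 1 : ℕ) : ℝ) := by push_cast; linarith
    exact_mod_cast h7
  · intro v hv
    rw [hmemK] at hv
    push Not at hv
    have h2 := hsplit v
    have h3 := hWle v
    rw [hD]
    exact Nat.le_floor (by linarith)
  · have h7 : ((D + β + 1 : ℕ) : ℝ) ≤ ((Δ + 2 : ℕ) : ℝ) := by push_cast; linarith
    exact_mod_cast h7
  · have h7 : ((D + 1 + (41 * (β + 1) + 1) : ℕ) : ℝ) ≤ ((Δ + 2 : ℕ) : ℝ) := by push_cast; linarith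
    exact_mod_cast h7
  · refine Num_ht (Fintype.card V) (β + 1) (12 * (β + 1)) le_rfl ?_ (by positivity)
    have h1 : (n : ℝ) ≤ (((12 * (β + 1)) * (12 * (β + 1)) : ℕ) : ℝ) := by
      push_cast
      have h2 : 12 * (s / 100) ≤ 12 * ((β : ℝ) + 1) := by linarith
      have h3 : (12 * (s / 100)) * (12 * (s / 100)) ≤ (12 * ((β : ℝ) + 1)) * (12 * ((β : ℝ) + 1)) :=
        mul_self_le_mul_self (by positivity) h2
      have h4 : (12 * (s / 100)) * (12 * (s / 100)) = 144 / 10000 * (ε ^ 2 * n) * n := by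
        rw [hs]; ring
      have h5 : (100000 : ℝ) * n ≤ (ε ^ 2 * n) * n := by
        apply mul_le_mul_of_nonneg_right _ hnpos.le
        norm_num at hn2 ⊢
        linarith
      nlinarith
    rw [hn] at h1
    exact_mod_cast h1
  · omega
  · have h7 : ((4 * k : ℕ) : ℝ) ≤ (Δ : ℝ) := by push_cast; linarith
    exact_mod_cast h7

end Pool.Agent.H71.HL
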