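import Mathlib
import Pool.Agent.H71.DR.MnR

/-!
MX: the Havet-Yu bound for graphs with the edge form of robust expansion.
-/

set_option autoImplicit false

namespace Pool.Agent.H71.HL

open Finset Classical
open Pool.Agent.H71.DN Pool.Agent.H71.DX Pool.Agent.H71.DR

/-- The Havet-Yu bound for robust expanders. -/
theorem mainX (α ν lam : ℝ) (hα : 0 < α) (hν : 0 < ν) (hν1 : ν ≤ 1) (hl : 0 < lam) :
    ∃ n0 : ℕ,
      ∀ (V : Type) [Fintype V] (G : SimpleGraph V) [DecidableRel G.Adj] (p : ℕ),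
        n0 ≤ Fintype.card V → 1 ≤ p →
        α * Fintype.card V ≤ G.minDegree →
        (G.maxDegree : ℝ) ≤ (1 - α) * Fintype.card V →
        XP G (α / 128) ν lam → H70.HY.HYLab G G.maxDegree p := by
  by_cases hα1 : α ≤ 1
  swap
  · refine ⟨1, fun V _ G _ p hn hp hδ hΔ _ => ?_⟩
    exfalso
    push Not at hα1
    have h1 : (1 : ℝ) ≤ Fintype.card V := by exact_mod_cast hn
    have h2 : (0 : ℝ) ≤ G.maxDegree := Nat.cast_nonneg _
    nlinarith
  obtain ⟨τ, hτ⟩ : ∃ τ : ℝ, τ = α / 128 := ⟨_, rfl⟩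
  have hτ0 : 0 < τ := by rw [hτ]; positivity
  obtain ⟨η, nc, hη, hη1, hchi⟩ := chi α τ ν lam hα hα1 (by linarith)
    hν hl
  obtain ⟨ε, hε⟩ : ∃ ε : ℝ, ε = min η α := ⟨_, rfl⟩
  have hε0 : 0 < ε := by rw [hε]; exact lt_min hη hα
  have hεη : ε ≤ η := by rw [hε]; exact min_le_left _ _
  have hεα : ε ≤ α := by rw [hε]; exact min_le_right _ _
  have hε1 : ε ≤ 1 / 4 := hεη.trans hη1
  obtain ⟨ρB, nF, hρB, hF⟩ := mainF ε α τ ν lam hε0 hεα hα1 (by linarith)
    hν hν1 hl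
  obtain ⟨c, nb, hc, hcε, hb⟩ := caseIIb ε α τ ν lam hε0 hε1 hεα hα1 hτ0
    (by linarith) hν hν1 hl ρB hρB
  obtain ⟨na, ha⟩ := caseIIa c α hc (by linarith) hα ρB hρB
  refine ⟨nc + nF + nb + na, ?_⟩
  intro V _ G _ p hn hp hδ hΔ hR
  have hX := hR
  rw [← hτ] at hX
  have hn0 : (0 : ℝ) ≤ Fintype.card V := Nat.cast_nonneg _
  have hδΔ : (G.minDegree : ℝ) ≤ G.maxDegree := by exact_mod_cast G.minDegree_le_maxDegree
  obtain ⟨k, hk1, hk2⟩ := hchi V G G.maxDegree (by omega) (fun v => (dg_bd G v).2)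
    (hδ.trans hδΔ) hΔ hX
  have hk3 : (k : ℝ) ≤ (1 - ε) * G.maxDegree := by
    refine hk2.trans (mul_le_mul_of_nonneg_right ?_ (Nat.cast_nonneg _))
    linarith
  rcases le_or_gt (Fintype.card V : ℝ)
    (∑ v, min ((G.maxDegree : ℝ) - G.degree v) (ρB * Fintype.card V)) with h | h
  · exact hF V G p k (by omega) hp h hδ hX hk1 hk3
  · rcases le_or_gt ((1 / 2 + c) * (Fintype.card V : ℝ)) G.maxDegree with h2 | h2
    · refine ha V G p (by omega) hp hδ h2 ?_ h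
      have h3 : c ≤ α := by linarith
      have h4 := mul_le_mul_of_nonneg_right h3 hn0
      linarith
    · exact hb V G p k (by omega) hp hδ h2.le hX hk1 hk3 h


end Pool.Agent.H71.HL
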