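import Mathlib
import Pool.Agent.H71.HL.Defs
import Pool.Agent.H71.DR.Defs

/-!
R1X: the enlarged graph expands. `V = H ∪ W ∪ D` (disjoint), `#H + #W = n`, `#D = 2 n`, `N := card V = 3 n`. `H`: the vertices of large
degree, `W`: the other old vertices, `D`: the new vertices. Every vertex of `H` has at least `(1/2 + ε/2) n` neighbours in `V0 := H ∪ W`.

Proof.  If `n = 0` then `V` is empty and everything is 0. Let `n ≥ 1`. Let `A, Y` with `τ N ≤ #A ≤ (1 - τ) N`, `ee G A Y ≤ lam N²`. Write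
`aH = #(A ∩ H)`, `aW`, `aD`, `yH`, `yW`, `yD`, `h = #H`, `w = #W`. To show: `aH + aW + aD + yH + yW + yD + ν N ≤ N = 3 n = h + w + 2 n`.
(Facts: `ee` is monotone in both sets and symmetric, see `DR/Exk.lean`: `Exk_ee`, `Exk_lowL`, `Exk_lowR`, `Exk_mono`, `Exk_nb`. `9 lam ≤ θ/8`.)
(F2) If `A' ⊆ A ∩ H`, `#A' ≥ θ N`, then `#(Y ∩ V0) ≤ (1/2 - ε/4) n`: every `a ∈ A'` has at least `(1/2 + ε/2) n - (n - #(Y ∩ V0))` neighbours in
 `Y ∩ V0`, so `θ N (#(Y ∩ V0) - (1/2 - ε/2) n) ≤ lam N²`, and `lam N / θ ≤ (ε/36) 3 n = (ε/12) n`.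
(F3) If `#(A ∩ V0) ≥ (1/2 - ε/4) n` then `yH ≤ θ N`: every `y ∈ Y ∩ H` has at least `(1/2 + ε/2) n - (n - #(A ∩ V0)) ≥ (ε/4) n` neighbours in `A ∩ V0`, so
 `yH (ε/4) n ≤ lam N² = 9 lam n²`, `yH ≤ (36 lam / ε) n ≤ θ n`.
Case D: `aD > θ N`. `hF` for `A ∩ D` and `Y ∩ D` resp. `Y ∩ W`: `yD ≤ θ N`, `yW ≤ θ N`. Let `x = (2 n - aD) + (w - aW) ≥ 0`. It suffices:
 (*) `aH + yH + (2 θ + ν) N ≤ h + x`. Note `(h - aH) + x = N - #A ≥ τ N`.
 (i) `(h - aH) + x ≤ (1/2 + ε/4) n`: then `#(A ∩ V0) ≥ (1/2 - ε/4) n`, (F3) `yH ≤ θ N`, and (*) follows from `(3 θ + ν) N ≤ τ N ≤ (h - aH) + x`.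
 (ii) `(h - aH) + x > (1/2 + ε/4) n`, `aH ≥ θ N`: (F2) `yH ≤ (1/2 - ε/4) n`, and `(1/2 - ε/4) n + 3 θ 3 n ≤ (1/2 + ε/4) n`.
 (iii) `aH < θ N`. If `x ≥ 4 θ N`: (*) from `yH ≤ h`, `aH ≤ θ N`. Otherwise `x < 4 θ N = 12 θ n`, so `w - aW < 12 θ n` and
   `ee G (Y ∩ H) W ≤ ee G (Y ∩ H) (A ∩ W) + (w - aW) n ≤ 9 lam n² + 12 θ n² ≤ 13 θ n²`.
   - If `η n² ≤ ee G H W`: `ee G (H \ Y) W ≥ (η - 13 θ) n² ≥ (η/2) n²`, and it is `≤ #(H \ Y) n`; so `h - yH ≥ (η/2) n ≥ 12 θ n = 4 θ N`, (*) follows.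
   - If `h ≤ (1/2 + ε/4) n`: every `y ∈ H` has at least `(1/2 + ε/2) n - h ≥ (ε/4) n` neighbours in `W`, so `yH (ε/4) n ≤ 13 θ n²`, `yH ≤ (52 θ / ε) n`; and
     `h ≥ τ N - x ≥ τ N - 4 θ N`. (*) from `52 θ / ε + 24 θ ≤ 3 τ`.
Case D': `aD ≤ θ N`.
 (iv) `aW > θ N`: `hF` for `Y ∩ D` and `A ∩ W` (symmetry): `yD ≤ θ N`. So `#A ≤ n + θ N`, `#Y ≤ n + θ N`, the sum is `≤ 2 n + 6 θ n`.
 (v) `aW ≤ θ N`: `aH ≥ τ N - 2 θ N ≥ θ N`; (F2): `yH + yW ≤ (1/2 - ε/4) n`. It suffices (**): `aH + (yH + yW) + 3 θ N ≤ n`.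
   - `aH ≤ (1/2 + ε/8) n`: the sum is `≤ (1 - ε/8) n + 9 θ n`.
   - `aH > (1/2 + ε/8) n`: (F3): `yH ≤ θ N`. It suffices `aH + yW + 4 θ N ≤ h + w`. If `h - aH ≥ 4 θ N` clear (`yW ≤ w`). Otherwise
     `ee G H (Y ∩ W) ≤ ee G (A ∩ H) (Y ∩ W) + (h - aH) n ≤ 13 θ n²`. `ee G H W ≥ min η (ε/8) n²`: if `h ≤ (1/2 + ε/4) n`, every vertex of `H` has at least
     `(ε/4) n` neighbours in `W` and `h ≥ aH ≥ n/2`. So `ee G H (W \ Y) ≥ (min η (ε/8) - 13 θ) n²`, `#(W \ Y) ≥ (min η (ε/8) - 13 θ) n ≥ 12 θ n = 4 θ N`.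
(`10^4 θ ≤ ε η τ` with `ε, η, τ ≤ 1` gives all the numerical claims.)
-/

set_option autoImplicit false

namespace Pool.Agent.H71.HL

open Finset Classical
open Pool.Agent.H71.DN Pool.Agent.H71.DX Pool.Agent.H71.DR

theorem r1x_mono {V : Type} [Fintype V] (G : SimpleGraph V) {A A' B B' : Finset V}
    (hA : A' ⊆ A) (hB : B' ⊆ B) : ee G A' B' ≤ ee G A B := by
  unfold ee
  exact card_le_card (filter_subset_filter _ (product_subset_product hA hB))

theorem r1x_symm {V : Type} [Fintype V] (G : SimpleGraph V) (A B : Finset V) :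
    ee G A B = ee G B A := by
  unfold ee
  refine card_bij (fun x _ => (x.2, x.1)) ?_ ?_ ?_
  · intro x hx
    simp only [mem_filter, mem_product] at hx ⊢
    exact ⟨⟨hx.1.2, hx.1.1⟩, hx.2.symm⟩
  · intro x _ y _ h
    simp only [Prod.mk.injEq] at h
    exact Prod.ext h.2 h.1
  · intro y hy
    simp only [mem_filter, mem_product] at hy
    refine ⟨(y.2, y.1), ?_, rfl⟩
    simp only [mem_filter, mem_product]
    exact ⟨⟨hy.1.2, hy.1.1⟩, hy.2.symm⟩

theorem r1x_split {V : Type} [Fintype V] (G : SimpleGraph V) (A B C : Finset V) :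
    ee G A B ≤ ee G A (B ∩ C) + A.card * (B \ C).card := by
  unfold ee
  have h : (A ×ˢ B).filter (fun x => G.Adj x.1 x.2) ⊆
      ((A ×ˢ (B ∩ C)).filter fun x => G.Adj x.1 x.2) ∪ (A ×ˢ (B \ C)) := by
    intro x hx
    simp only [mem_filter, mem_product, mem_union, mem_inter, mem_sdiff] at hx ⊢
    tauto
  have h1 := (card_le_card h).trans (card_union_le _ _)
  rw [card_product A (B \ C)] at h1
  exact h1

theorem r1x_ee {V : Type} [Fintype V] (G : SimpleGraph V) (A B : Finset V) :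
    ee G A B = ∑ a ∈ A, (B.filter fun y => G.Adj a y).card := by
  unfold ee
  rw [card_filter, sum_product]
  refine sum_congr rfl fun a _ => ?_
  rw [card_filter]

theorem r1x_low {V : Type} [Fintype V] (G : SimpleGraph V) (A B : Finset V) (t : ℝ)
    (h : ∀ a ∈ A, t ≤ ((B.filter fun y => G.Adj a y).card : ℝ)) :
    (A.card : ℝ) * t ≤ ee G A B := by
  have h1 : (A.card : ℝ) * t ≤ ∑ a ∈ A, ((B.filter fun y => G.Adj a y).card : ℝ) := by
    rw [← nsmul_eq_mul]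
    exact card_nsmul_le_sum A _ _ h
  have h2 : ∑ a ∈ A, ((B.filter fun y => G.Adj a y).card : ℝ) = ee G A B := by
    rw [r1x_ee]
    push_cast
    rfl
  linarith

theorem r1x_nb {V : Type} [Fintype V] (G : SimpleGraph V) {S T : Finset V} (hST : S ⊆ T) (v : V) :
    dgi G T v + S.card ≤ (S.filter fun y => G.Adj v y).card + T.card := by
  have h1 : (T.filter fun u => G.Adj v u) ⊆ (S.filter fun y => G.Adj v y) ∪ (T \ S) := by
    intro u hu
    rw [mem_filter] at hu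
    by_cases h : u ∈ S
    · exact mem_union_left _ (mem_filter.2 ⟨h, hu.2⟩)
    · exact mem_union_right _ (mem_sdiff.2 ⟨hu.1, h⟩)
  have h2 := (card_le_card h1).trans (card_union_le _ _)
  have h3 := card_sdiff_add_card_eq_card hST
  unfold dgi
  omega

theorem r1x_two {V : Type} [Fintype V] (A B C : Finset V) (h : Disjoint B C) :
    (A ∩ (B ∪ C)).card = (A ∩ B).card + (A ∩ C).card := by
  rw [inter_union_distrib_left,
    card_union_of_disjoint (h.mono inter_subset_right inter_subset_right)]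

theorem r1x_part {V : Type} [Fintype V] (H W D A : Finset V)
    (hHW : Disjoint H W) (hHD : Disjoint H D) (hWD : Disjoint W D) (hun : H ∪ W ∪ D = univ) :
    A.card = (A ∩ H).card + (A ∩ W).card + (A ∩ D).card := by
  have h1 : A = A ∩ (H ∪ W ∪ D) := by rw [hun, inter_univ]
  have h3 : Disjoint (H ∪ W) D := by
    rw [disjoint_union_left]
    exact ⟨hHD, hWD⟩
  have h4 := congrArg card h1
  rw [r1x_two A (H ∪ W) D h3, r1x_two A H W hHW] at h4
  exact h4

theorem r1x_num (m ε η τ θ ν h w a1 a2 a3 y1 y2 y3 e0 e1 e2 : ℝ) (hm : 1 ≤ m)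
    (hε : 0 < ε) (hε1 : ε ≤ 1 / 2) (hη : 0 < η) (hη1 : η ≤ 1)
    (hτ : 0 < τ) (hτ1 : τ ≤ 1) (hθ : 0 < θ) (hθ1 : 10 ^ 4 * θ ≤ ε * η * τ) (hν1 : ν ≤ θ)
    (hhw : h + w = m) (p1 : 0 ≤ a1) (p2 : a1 ≤ h) (p3 : 0 ≤ a2) (p4 : a2 ≤ w) (p5 : 0 ≤ a3)
    (p6 : a3 ≤ 2 * m) (_ : 0 ≤ y1) (r2 : y1 ≤ h) (r3 : 0 ≤ y2) (r4 : y2 ≤ w) (_ : 0 ≤ y3)
    (r6 : y3 ≤ 2 * m) (hA1 : τ * (3 * m) ≤ a1 + a2 + a3) (hA2 : a1 + a2 + a3 ≤ (1 - τ) * (3 * m))
    (F2 : 3 * (θ * m) ≤ a1 → y1 + y2 ≤ (1 / 2 - ε / 4) * m)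
    (F3 : (1 / 2 - ε / 4) * m ≤ a1 + a2 → y1 ≤ θ * m)
    (FD1 : a3 ≤ 3 * (θ * m) ∨ y3 + y2 ≤ 3 * (θ * m))
    (FD2 : y3 ≤ 3 * (θ * m) ∨ a3 + a2 ≤ 3 * (θ * m))
    (E1 : e1 ≤ ε * θ / 4 * m ^ 2 + y1 * (w - a2)) (E2 : e2 ≤ ε * θ / 4 * m ^ 2 + y2 * (h - a1))
    (E3 : e0 ≤ e1 + w * (h - y1)) (E4 : e0 ≤ e2 + h * (w - y2))
    (F4 : h ≤ (1 / 2 + ε / 4) * m → y1 * (ε / 4 * m) ≤ e1 ∧ h * (ε / 4 * m) ≤ e0)
    (hc : η * m ^ 2 ≤ e0 ∨ h ≤ (1 / 2 + ε / 4) * m) :
    a1 + a2 + a3 + (y1 + y2 + y3) + ν * (3 * m) ≤ 3 * m := by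
  have hm0 : 0 < m := by linarith
  obtain ⟨T, hT⟩ : ∃ T : ℝ, T = θ * m := ⟨_, rfl⟩
  obtain ⟨E, hE⟩ : ∃ E : ℝ, E = ε * m := ⟨_, rfl⟩
  obtain ⟨Q, hQ⟩ : ∃ Q : ℝ, Q = η * m := ⟨_, rfl⟩
  obtain ⟨R, hR⟩ : ∃ R : ℝ, R = τ * m := ⟨_, rfl⟩
  have hT0 : 0 < T := by rw [hT]; positivity
  have hE0 : 0 < E := by rw [hE]; positivity
  have hQ0 : 0 < Q := by rw [hQ]; positivity
  have hR0 : 0 < R := by rw [hR]; positivity
  have k1 : η * τ ≤ 1 := mul_le_one₀ hη1 hτ.le hτ1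
  have k2 : ε * τ ≤ 1 := mul_le_one₀ (by linarith) hτ.le hτ1
  have k3 : ε * η ≤ 1 := mul_le_one₀ (by linarith) hη.le hη1
  have q1 : 10 ^ 4 * θ ≤ ε := by
    have : ε * (η * τ) ≤ ε * 1 := mul_le_mul_of_nonneg_left k1 hε.le
    nlinarith
  have q2 : 10 ^ 4 * θ ≤ η := by
    have : η * (ε * τ) ≤ η * 1 := mul_le_mul_of_nonneg_left k2 hη.le
    nlinarith
  have q3 : 10 ^ 4 * θ ≤ τ := by
    have : τ * (ε * η) ≤ τ * 1 := mul_le_mul_of_nonneg_left k3 hτ.le
    nlinarith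
  have q4 : 10 ^ 4 * θ ≤ ε * τ := by
    have : ε * τ * η ≤ ε * τ * 1 := mul_le_mul_of_nonneg_left hη1 (by positivity)
    nlinarith
  have t1 : 10 ^ 4 * T ≤ E := by
    rw [hT, hE]
    have := mul_le_mul_of_nonneg_right q1 hm0.le
    linarith
  have t2 : 10 ^ 4 * T ≤ Q := by
    rw [hT, hQ]
    have := mul_le_mul_of_nonneg_right q2 hm0.le
    linarith
  have t3 : 10 ^ 4 * T ≤ R := by
    rw [hT, hR]
    have := mul_le_mul_of_nonneg_right q3 hm0.le
    linarith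
  have t4 : 10 ^ 4 * (T * m) ≤ E * R := by
    have := mul_le_mul_of_nonneg_right q4 (by positivity : 0 ≤ m ^ 2)
    rw [hT, hE, hR]
    linarith
  have t5 : E ≤ m / 2 := by
    rw [hE]
    have := mul_le_mul_of_nonneg_right hε1 hm0.le
    linarith
  have t6 : ν * (3 * m) ≤ 3 * T := by
    rw [hT]
    have := mul_le_mul_of_nonneg_right hν1 hm0.le
    linarith
  have t7 : ε * θ / 4 * m ^ 2 ≤ T * m := by
    have h1 : ε * θ / 4 * m ^ 2 = ε * (T * m) / 4 := by rw [hT]; ring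
    have h2 : ε * (T * m) ≤ 1 / 2 * (T * m) := mul_le_mul_of_nonneg_right hε1 (by positivity)
    have h3 : 0 < T * m := by positivity
    rw [h1]
    linarith
  have G2 : 3 * T ≤ a1 → y1 + y2 ≤ m / 2 - E / 4 := by
    intro h1
    have := F2 (by rw [← hT]; exact h1)
    rw [hE]
    linarith
  have G3 : m / 2 - E / 4 ≤ a1 + a2 → y1 ≤ T := by
    intro h1
    rw [hT]
    apply F3
    rw [hE] at h1
    linarith
  rw [← hT] at FD1 FD2
  have gA1 : 3 * R ≤ a1 + a2 + a3 := by rw [hR]; linarith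
  have gA2 : a1 + a2 + a3 + 3 * R ≤ 3 * m := by rw [hR]; linarith
  have G4 : h ≤ m / 2 + E / 4 → y1 * (E / 4) ≤ e1 ∧ h * (E / 4) ≤ e0 := by
    intro h1
    have h2 : ε / 4 * m = E / 4 := by rw [hE]; ring
    have h3 := F4 (by rw [hE] at h1; linarith)
    rw [h2] at h3
    exact h3
  have hc' : Q * m ≤ e0 ∨ h ≤ m / 2 + E / 4 := by
    rcases hc with h1 | h1
    · left
      rw [hQ]
      linarith
    · right
      rw [hE]
      linarith
  have hh : h ≤ m := by linarith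
  have hw : w ≤ m := by linarith
  have hh0 : 0 ≤ h := by linarith
  have hw0 : 0 ≤ w := by linarith
  rcases lt_or_ge (3 * T) a3 with hD | hD
  · -- case D
    have f1 : y3 + y2 ≤ 3 * T := by
      rcases FD1 with h1 | h1
      · linarith
      · exact h1
    rcases le_or_gt ((h - a1) + ((2 * m - a3) + (w - a2))) (m / 2 + E / 4) with h1 | h1
    · -- (i)
      have h2 := G3 (by linarith)
      linarith
    · rcases le_or_gt (3 * T) a1 with h2 | h2
      · -- (ii)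
        have h3 := G2 h2
        linarith
      · -- (iii)
        rcases le_or_gt (12 * T) ((2 * m - a3) + (w - a2)) with h3 | h3
        · linarith
        · have h4 : w - a2 ≤ 12 * T := by linarith
          have h5 : y1 * (w - a2) ≤ m * (12 * T) :=
            mul_le_mul (by linarith) h4 (by linarith) hm0.le
          have h6 : e1 ≤ 13 * (T * m) := by linarith
          rcases hc' with h7 | h7
          · have h8 : w * (h - y1) ≤ m * (h - y1) :=
              mul_le_mul_of_nonneg_right hw (by linarith)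
            have h9 : (Q - 13 * T - (h - y1)) * m ≤ 0 := by
              have : (Q - 13 * T - (h - y1)) * m = Q * m - 13 * (T * m) - m * (h - y1) := by ring
              rw [this]
              linarith
            have h10 : Q - 13 * T - (h - y1) ≤ 0 := by
              by_contra hcon
              have := mul_pos (not_le.1 hcon) hm0
              linarith
            linarith
          · have h8 := (G4 h7).1
            have h9 : y1 * E ≤ (52 / 10 ^ 4 * R) * E := by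
              have : (52 / 10 ^ 4 * R) * E = 52 / 10 ^ 4 * (E * R) := by ring
              rw [this]
              linarith
            have h10 : y1 ≤ 52 / 10 ^ 4 * R := le_of_mul_le_mul_right h9 hE0
            linarith
  · -- case D'
    rcases lt_or_ge (3 * T) a2 with hW | hW
    · -- (iv)
      have f1 : y3 ≤ 3 * T := by
        rcases FD2 with h1 | h1
        · exact h1
        · linarith
      linarith
    · -- (v)
      have f1 : 3 * T ≤ a1 := by linarith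
      have f2 := G2 f1
      rcases le_or_gt a1 (m / 2 + E / 8) with h1 | h1
      · linarith
      · have f3 := G3 (by linarith)
        rcases le_or_gt (12 * T) (h - a1) with h2 | h2
        · linarith
        · have h5 : y2 * (h - a1) ≤ m * (12 * T) :=
            mul_le_mul (by linarith) h2.le (by linarith) hm0.le
          have h6 : e2 ≤ 13 * (T * m) := by linarith
          have h8 : h * (w - y2) ≤ m * (w - y2) :=
            mul_le_mul_of_nonneg_right hh (by linarith)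
          have h7 : E / 8 * m ≤ e0 ∨ Q * m ≤ e0 := by
            rcases hc' with h9 | h9
            · right
              exact h9
            · left
              have h10 := (G4 h9).2
              have h11 : m / 2 * (E / 4) ≤ h * (E / 4) :=
                mul_le_mul_of_nonneg_right (by linarith) (by linarith)
              linarith
          have h9 : E / 8 - 13 * T - (w - y2) ≤ 0 ∨ Q - 13 * T - (w - y2) ≤ 0 := by
            rcases h7 with h9 | h9
            · left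
              by_contra hcon
              have h10 := mul_pos (not_le.1 hcon) hm0
              have : (E / 8 - 13 * T - (w - y2)) * m = E / 8 * m - 13 * (T * m) - m * (w - y2) := by
                ring
              linarith
            · right
              by_contra hcon
              have h10 := mul_pos (not_le.1 hcon) hm0
              have : (Q - 13 * T - (w - y2)) * m = Q * m - 13 * (T * m) - m * (w - y2) := by
                ring
              linarith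
          rcases h9 with h9 | h9
          · linarith
          · linarith

theorem r1x {V : Type} [Fintype V] (G : SimpleGraph V) (H W D : Finset V) (n : ℕ)
    (ε η τ θ ν lam : ℝ) (hε : 0 < ε) (hε1 : ε ≤ 1 / 2) (hη : 0 < η) (hη1 : η ≤ 1)
    (hτ : 0 < τ) (hτ1 : τ ≤ 1) (hθ : 0 < θ) (hθ1 : 10 ^ 4 * θ ≤ ε * η * τ)
    (hν : 0 < ν) (hν1 : ν ≤ θ) (hl : 0 < lam) (hl1 : 36 * lam ≤ ε * θ)
    (hHW : Disjoint H W) (hHD : Disjoint H D) (hWD : Disjoint W D) (hun : H ∪ W ∪ D = univ)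
    (hn : H.card + W.card = n) (hD : D.card = 2 * n)
    (hdeg : ∀ v ∈ H, (1 / 2 + ε / 2) * (n : ℝ) ≤ dgi G (H ∪ W) v)
    (hc : η * (n : ℝ) ^ 2 ≤ ee G H W ∨ (H.card : ℝ) ≤ (1 / 2 + ε / 4) * n)
    (hF : ∀ A Y : Finset V, A ⊆ D → Y ⊆ D ∪ W →
      (ee G A Y : ℝ) ≤ lam * (Fintype.card V : ℝ) ^ 2 →
      (A.card : ℝ) ≤ θ * Fintype.card V ∨ (Y.card : ℝ) ≤ θ * Fintype.card V) :
    XP G τ ν lam := by
  intro A Y hA1 hA2 hAY
  have _ := hν
  have _ := hl
  have hcV : Fintype.card V = 3 * n := by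
    have h := r1x_part H W D univ hHW hHD hWD hun
    rw [univ_inter, univ_inter, univ_inter, card_univ] at h
    omega
  rcases Nat.eq_zero_or_pos n with hn0 | hn0
  · have h1 : Fintype.card V = 0 := by rw [hcV, hn0]
    have h2 : A.card = 0 := Nat.le_zero.1 (h1 ▸ card_le_univ A)
    have h3 : Y.card = 0 := Nat.le_zero.1 (h1 ▸ card_le_univ Y)
    rw [h1, h2, h3]
    simp
  have hcV' : (Fintype.card V : ℝ) = 3 * (n : ℝ) := by
    rw [hcV]
    push_cast
    ring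
  obtain ⟨m, hm⟩ : ∃ m : ℝ, m = (n : ℝ) := ⟨_, rfl⟩
  have hm1 : 1 ≤ m := by
    rw [hm]
    exact_mod_cast hn0
  have hm0 : 0 < m := by linarith
  rw [← hm] at hcV' hdeg hc
  rw [hcV'] at hA1 hA2 hAY ⊢
  have hF' : ∀ A Y : Finset V, A ⊆ D → Y ⊆ D ∪ W → (ee G A Y : ℝ) ≤ lam * (3 * m) ^ 2 →
      (A.card : ℝ) ≤ 3 * (θ * m) ∨ (Y.card : ℝ) ≤ 3 * (θ * m) := by
    intro A Y h1 h2 h3
    have h4 := hF A Y h1 h2 (by rw [hcV']; exact h3)
    rw [hcV'] at h4
    rcases h4 with h4 | h4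
    · left
      linarith
    · right
      linarith
  have hV0 : ((H ∪ W).card : ℝ) = m := by
    rw [hm, card_union_of_disjoint hHW, hn]
  have hlm : lam * (3 * m) ^ 2 ≤ ε * θ / 4 * m ^ 2 := by
    have h1 : 36 * lam * m ^ 2 ≤ ε * θ * m ^ 2 :=
      mul_le_mul_of_nonneg_right hl1 (by positivity)
    have h2 : lam * (3 * m) ^ 2 = 36 * lam * m ^ 2 / 4 := by ring
    rw [h2]
    linarith
  have hsub : ∀ A' Y' : Finset V, A' ⊆ A → Y' ⊆ Y → (ee G A' Y' : ℝ) ≤ lam * (3 * m) ^ 2 := by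
    intro A' Y' h1 h2
    have h3 : (ee G A' Y' : ℝ) ≤ ee G A Y := by exact_mod_cast r1x_mono G h1 h2
    linarith
  have hsub' : ∀ A' Y' : Finset V, A' ⊆ A → Y' ⊆ Y → (ee G Y' A' : ℝ) ≤ lam * (3 * m) ^ 2 := by
    intro A' Y' h1 h2
    rw [r1x_symm]
    exact hsub A' Y' h1 h2
  -- neighbours inside `H ∪ W`
  have hnb : ∀ S : Finset V, S ⊆ H ∪ W → ∀ v ∈ H,
      (1 / 2 + ε / 2) * m + S.card - m ≤ ((S.filter fun y => G.Adj v y).card : ℝ) := by
    intro S hS v hv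
    have h1 := hdeg v hv
    have h2 : (dgi G (H ∪ W) v : ℝ) + S.card ≤ (S.filter fun y => G.Adj v y).card + (H ∪ W).card := by
      exact_mod_cast r1x_nb G hS v
    rw [hV0] at h2
    linarith
  have eA := r1x_part H W D A hHW hHD hWD hun
  have eY := r1x_part H W D Y hHW hHD hWD hun
  have eA0 := r1x_two A H W hHW
  have eY0 := r1x_two Y H W hHW
  have eAW := r1x_two A D W hWD.symm
  have eYW := r1x_two Y D W hWD.symm
  have F2 : 3 * (θ * m) ≤ ((A ∩ H).card : ℝ) →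
      ((Y ∩ H).card : ℝ) + (Y ∩ W).card ≤ (1 / 2 - ε / 4) * m := by
    intro h1
    have h0 : ((Y ∩ H).card : ℝ) + (Y ∩ W).card = (Y ∩ (H ∪ W)).card := by
      rw [eY0]
      push_cast
      ring
    rw [h0]
    by_contra hcon
    have hcon' := not_le.1 hcon
    have h2 := r1x_low G (A ∩ H) (Y ∩ (H ∪ W)) (ε / 4 * m) (by
      intro a ha
      have h3 := hnb (Y ∩ (H ∪ W)) inter_subset_right a (mem_inter.1 ha).2
      linarith)
    have h3 := hsub (A ∩ H) (Y ∩ (H ∪ W)) inter_subset_left inter_subset_left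
    have h4 : 3 * (θ * m) * (ε / 4 * m) ≤ ((A ∩ H).card : ℝ) * (ε / 4 * m) :=
      mul_le_mul_of_nonneg_right h1 (by positivity)
    have h5 : 3 * (θ * m) * (ε / 4 * m) = 3 * (ε * θ / 4 * m ^ 2) := by ring
    have h6 : 0 < ε * θ / 4 * m ^ 2 := by positivity
    linarith
  have F3 : (1 / 2 - ε / 4) * m ≤ ((A ∩ H).card : ℝ) + (A ∩ W).card →
      ((Y ∩ H).card : ℝ) ≤ θ * m := by
    intro h1
    have h0 : ((A ∩ H).card : ℝ) + (A ∩ W).card = (A ∩ (H ∪ W)).card := by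
      rw [eA0]
      push_cast
      ring
    rw [h0] at h1
    have h2 := r1x_low G (Y ∩ H) (A ∩ (H ∪ W)) (ε / 4 * m) (by
      intro a ha
      have h3 := hnb (A ∩ (H ∪ W)) inter_subset_right a (mem_inter.1 ha).2
      linarith)
    have h3 := hsub' (A ∩ (H ∪ W)) (Y ∩ H) inter_subset_left inter_subset_left
    have h4 : ((Y ∩ H).card : ℝ) * (ε / 4 * m) ≤ θ * m * (ε / 4 * m) := by
      have h5 : θ * m * (ε / 4 * m) = ε * θ / 4 * m ^ 2 := by ring
      rw [h5]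
      linarith
    exact le_of_mul_le_mul_right h4 (by positivity)
  have FD1 : ((A ∩ D).card : ℝ) ≤ 3 * (θ * m) ∨
      ((Y ∩ D).card : ℝ) + (Y ∩ W).card ≤ 3 * (θ * m) := by
    have h1 := hF' (A ∩ D) (Y ∩ (D ∪ W)) inter_subset_right inter_subset_right
      (hsub _ _ inter_subset_left inter_subset_left)
    rw [eYW] at h1
    push_cast at h1
    exact h1
  have FD2 : ((Y ∩ D).card : ℝ) ≤ 3 * (θ * m) ∨
      ((A ∩ D).card : ℝ) + (A ∩ W).card ≤ 3 * (θ * m) := by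
    have h1 := hF' (Y ∩ D) (A ∩ (D ∪ W)) inter_subset_right inter_subset_right
      (hsub' _ _ inter_subset_left inter_subset_left)
    rw [eAW] at h1
    push_cast at h1
    exact h1
  -- differences
  have dWA : ((W \ A).card : ℝ) = W.card - (A ∩ W).card := by
    have h1 := card_sdiff_add_card_inter W A
    rw [inter_comm W A] at h1
    have h2 : ((W \ A).card : ℝ) + (A ∩ W).card = W.card := by exact_mod_cast h1
    linarith
  have dHA : ((H \ A).card : ℝ) = H.card - (A ∩ H).card := by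
    have h1 := card_sdiff_add_card_inter H A
    rw [inter_comm H A] at h1
    have h2 : ((H \ A).card : ℝ) + (A ∩ H).card = H.card := by exact_mod_cast h1
    linarith
  have dHY : ((H \ Y).card : ℝ) = H.card - (Y ∩ H).card := by
    have h1 := card_sdiff_add_card_inter H Y
    rw [inter_comm H Y] at h1
    have h2 : ((H \ Y).card : ℝ) + (Y ∩ H).card = H.card := by exact_mod_cast h1
    linarith
  have dWY : ((W \ Y).card : ℝ) = W.card - (Y ∩ W).card := by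
    have h1 := card_sdiff_add_card_inter W Y
    rw [inter_comm W Y] at h1
    have h2 : ((W \ Y).card : ℝ) + (Y ∩ W).card = W.card := by exact_mod_cast h1
    linarith
  have E1 : (ee G (Y ∩ H) W : ℝ) ≤ ε * θ / 4 * m ^ 2 +
      ((Y ∩ H).card : ℝ) * (W.card - (A ∩ W).card) := by
    have h1 : (ee G (Y ∩ H) W : ℝ) ≤ ee G (Y ∩ H) (W ∩ A) + (Y ∩ H).card * (W \ A).card := by
      exact_mod_cast r1x_split G (Y ∩ H) W A
    have h2 := hsub' (W ∩ A) (Y ∩ H) inter_subset_right inter_subset_left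
    rw [dWA] at h1
    linarith
  have E2 : (ee G H (Y ∩ W) : ℝ) ≤ ε * θ / 4 * m ^ 2 +
      ((Y ∩ W).card : ℝ) * (H.card - (A ∩ H).card) := by
    have h1 : (ee G (Y ∩ W) H : ℝ) ≤ ee G (Y ∩ W) (H ∩ A) + (Y ∩ W).card * (H \ A).card := by
      exact_mod_cast r1x_split G (Y ∩ W) H A
    have h2 := hsub' (H ∩ A) (Y ∩ W) inter_subset_right inter_subset_left
    rw [dHA] at h1
    rw [r1x_symm G H (Y ∩ W)]
    linarith
  have E3 : (ee G H W : ℝ) ≤ ee G (Y ∩ H) W + (W.card : ℝ) * (H.card - (Y ∩ H).card) := by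
    have h1 : (ee G W H : ℝ) ≤ ee G W (H ∩ Y) + W.card * (H \ Y).card := by
      exact_mod_cast r1x_split G W H Y
    rw [dHY, inter_comm H Y, r1x_symm G W H, r1x_symm G W (Y ∩ H)] at h1
    exact h1
  have E4 : (ee G H W : ℝ) ≤ ee G H (Y ∩ W) + (H.card : ℝ) * (W.card - (Y ∩ W).card) := by
    have h1 : (ee G H W : ℝ) ≤ ee G H (W ∩ Y) + H.card * (W \ Y).card := by
      exact_mod_cast r1x_split G H W Y
    rw [dWY, inter_comm W Y] at h1
    exact h1
  have hhw : (H.card : ℝ) + W.card = m := by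
    rw [hm]
    exact_mod_cast hn
  have F4 : (H.card : ℝ) ≤ (1 / 2 + ε / 4) * m →
      ((Y ∩ H).card : ℝ) * (ε / 4 * m) ≤ ee G (Y ∩ H) W ∧
        (H.card : ℝ) * (ε / 4 * m) ≤ ee G H W := by
    intro h1
    have h2 : ∀ v ∈ H, ε / 4 * m ≤ ((W.filter fun y => G.Adj v y).card : ℝ) := by
      intro v hv
      have h3 := hnb W subset_union_right v hv
      linarith
    exact ⟨r1x_low G (Y ∩ H) W _ fun a ha => h2 a (mem_inter.1 ha).2, r1x_low G H W _ h2⟩
  have cA : (A.card : ℝ) = (A ∩ H).card + (A ∩ W).card + (A ∩ D).card := by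
    exact_mod_cast eA
  have cY : (Y.card : ℝ) = (Y ∩ H).card + (Y ∩ W).card + (Y ∩ D).card := by
    exact_mod_cast eY
  have hDm : (D.card : ℝ) = 2 * m := by
    rw [hm]
    exact_mod_cast hD
  have le : ∀ S T : Finset V, ((S ∩ T).card : ℝ) ≤ T.card := by
    intro S T
    exact_mod_cast card_le_card (inter_subset_right : S ∩ T ⊆ T)
  have hAD := le A D
  have hYD := le Y D
  rw [hDm] at hAD hYD
  rw [cA] at hA1 hA2 ⊢
  rw [cY]
  exact r1x_num m ε η τ θ ν H.card W.card (A ∩ H).card (A ∩ W).card (A ∩ D).card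
    (Y ∩ H).card (Y ∩ W).card (Y ∩ D).card (ee G H W) (ee G (Y ∩ H) W) (ee G H (Y ∩ W))
    hm1 hε hε1 hη hη1 hτ hτ1 hθ hθ1 hν1 hhw (Nat.cast_nonneg _) (le A H) (Nat.cast_nonneg _)
    (le A W) (Nat.cast_nonneg _) hAD (Nat.cast_nonneg _) (le Y H) (Nat.cast_nonneg _) (le Y W)
    (Nat.cast_nonneg _) hYD hA1 hA2 F2 F3 FD1 FD2 E1 E2 E3 E4 F4 hc

end Pool.Agent.H71.HL
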