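import Mathlib
import Pool.Agent.H71.HL.Mx
import Pool.Agent.H71.HL.Hyr
import Pool.Agent.H71.HL.R1x
import Pool.Agent.H71.HL.R1r

/-!
R1: the Havet-Yu bound if there are many edges between `Wᶜ` (vertices of almost maximum degree) and `W` (vertices with slack
`δ n`), or if `Wᶜ` is small. Use the STATEMENTS of `mainX` (`HL/Mx.lean`), `hyr`, `r1x`, `r1r`.

Proof.  `n := card V`, `Δ := G.maxDegree`. `r1r δ` gives `α`. `τ := α / 128`, `η' := min η 1`, `θ := ε η' τ / 10^4` (`≤ 1`). `r1r` for `θ`: `lam0, n1`.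
`lam := min lam0 (ε θ / 36)`, `ν := θ`. `mainX α ν lam` gives `n2`. `n0 := n1 + n2 + 1`.
For `v ∉ W`: `dg G v > Δ - δ n ≥ (1/2 + ε/2) n` (`δ ≤ ε/2`). `r1r` gives `G'` on `V' = V ⊕ (V × Bool)` (`card V' = 3 n`).
`XP G' τ ν lam` by `r1x` with `H, W, D` := the images of `univ \ W`, `W` under `Sum.inl` and of `univ` under `Sum.inr`: `dgi G' (H ∪ W) (inl v) = dg G v`;
`ee G' H W = ee G (univ \ W) W`; `hF` from the last claim of `r1r` (`lam ≤ lam0`).
`mainX` for `G'` (a `DecidableRel` instance by `Classical`): `α card V' ≤ G'.minDegree` (from the degrees, `V'` is not empty; `dg` and `degree`: see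
`dg_eq`, `dg_bd` used in `DR/MnR.lean`, `DR/Cs2.lean`), `G'.maxDegree ≤ Δ ≤ n = card V' / 3 ≤ (1 - α) card V'` (`α ≤ 1/2`). So `HYLab G' G'.maxDegree p`, and
`hyr` (`f := Sum.inl`, `n' := G'.maxDegree ≤ Δ`) gives `HYLab G Δ p`.
-/

set_option autoImplicit false

namespace Pool.Agent.H71.HL

open Finset Classical
open Pool.Agent.H71.DN Pool.Agent.H71.DX Pool.Agent.H71.DR

theorem HlR1_ee {V β : Type} [Fintype V] [Fintype β] (G : SimpleGraph V)
    (G' : SimpleGraph (V ⊕ β)) (h : ∀ a b, G'.Adj (Sum.inl a) (Sum.inl b) ↔ G.Adj a b)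
    (A B : Finset V) :
    ee G' (A.map Function.Embedding.inl) (B.map Function.Embedding.inl) = ee G A B := by
  unfold ee
  symm
  apply Finset.card_bij (fun (x : V × V) _ => ((Sum.inl x.1 : V ⊕ β), (Sum.inl x.2 : V ⊕ β)))
  · intro x hx
    simp only [Finset.mem_filter, Finset.mem_product] at hx ⊢
    exact ⟨⟨Finset.mem_map_of_mem _ hx.1.1, Finset.mem_map_of_mem _ hx.1.2⟩, (h _ _).2 hx.2⟩
  · intro x _ y _ hxy
    simp only [Prod.mk.injEq, Sum.inl.injEq] at hxy
    exact Prod.ext hxy.1 hxy.2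
  · intro y hy
    simp only [Finset.mem_filter, Finset.mem_product, Finset.mem_map] at hy
    obtain ⟨⟨⟨a, ha, ha1⟩, ⟨b, hb, hb1⟩⟩, hab⟩ := hy
    refine ⟨(a, b), ?_, ?_⟩
    · simp only [Finset.mem_filter, Finset.mem_product]
      refine ⟨⟨ha, hb⟩, (h a b).1 ?_⟩
      rw [← ha1, ← hb1] at hab
      exact hab
    · exact Prod.ext ha1 hb1

theorem HlR1_dgi {V β : Type} [Fintype V] [Fintype β] (G : SimpleGraph V)
    (G' : SimpleGraph (V ⊕ β)) (h : ∀ a b, G'.Adj (Sum.inl a) (Sum.inl b) ↔ G.Adj a b)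
    (S : Finset (V ⊕ β)) (hS : ∀ u : V, Sum.inl u ∈ S)
    (hS2 : ∀ x ∈ S, ∃ u : V, x = Sum.inl u) (v : V) :
    dgi G' S (Sum.inl v) = dg G v := by
  unfold dgi dg
  symm
  apply Finset.card_bij (fun (u : V) _ => (Sum.inl u : V ⊕ β))
  · intro u hu
    simp only [Finset.mem_filter, Finset.mem_univ, true_and] at hu ⊢
    exact ⟨hS u, (h v u).2 hu⟩
  · intro a _ b _ hab
    exact Sum.inl_injective hab
  · intro x hx
    simp only [Finset.mem_filter] at hx
    obtain ⟨u, rfl⟩ := hS2 x hx.1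
    refine ⟨u, ?_, rfl⟩
    simp only [Finset.mem_filter, Finset.mem_univ, true_and]
    exact (h v u).1 hx.2

theorem r1 (ε δ η : ℝ) (hε : 0 < ε) (hε1 : ε ≤ 1 / 2) (hδ : 0 < δ) (hδ1 : δ ≤ ε / 2)
    (hη : 0 < η) :
    ∃ n0 : ℕ, ∀ (V : Type) [Fintype V] (G : SimpleGraph V) [DecidableRel G.Adj] (p : ℕ)
      (W : Finset V), n0 ≤ Fintype.card V → 1 ≤ p →
      (1 / 2 + ε) * Fintype.card V ≤ (G.maxDegree : ℝ) →
      (∀ v, v ∈ W ↔ (dg G v : ℝ) + δ * Fintype.card V ≤ G.maxDegree) →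
      (η * (Fintype.card V : ℝ) ^ 2 ≤ ee G (univ \ W) W ∨
        ((univ \ W).card : ℝ) ≤ (1 / 2 + ε / 4) * Fintype.card V) →
      H70.HY.HYLab G G.maxDegree p := by
  obtain ⟨α, hα, hα1, hr⟩ := r1r δ hδ (by linarith)
  obtain ⟨τ, hτ⟩ : ∃ τ : ℝ, τ = α / 128 := ⟨_, rfl⟩
  have hτ0 : 0 < τ := by rw [hτ]; positivity
  have hτ1 : τ ≤ 1 := by rw [hτ]; linarith
  obtain ⟨η', hη'⟩ : ∃ η' : ℝ, η' = min η 1 := ⟨_, rfl⟩
  have hη0 : 0 < η' := by rw [hη']; exact lt_min hη one_pos
  have hη1 : η' ≤ 1 := by rw [hη']; exact min_le_right _ _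
  have hηη : η' ≤ η := by rw [hη']; exact min_le_left _ _
  obtain ⟨θ, hθ⟩ : ∃ θ : ℝ, θ = ε * η' * τ / 10 ^ 4 := ⟨_, rfl⟩
  have hθ0 : 0 < θ := by rw [hθ]; positivity
  have hθe : 10 ^ 4 * θ = ε * η' * τ := by rw [hθ]; ring
  have hθ1 : θ ≤ 1 := by
    have h1 : ε * η' ≤ 1 := by
      calc ε * η' ≤ 1 * 1 := mul_le_mul (by linarith) hη1 hη0.le zero_le_one
        _ = 1 := one_mul 1
    have h2 : ε * η' * τ ≤ 1 := by
      calc ε * η' * τ ≤ 1 * 1 := mul_le_mul h1 hτ1 hτ0.le zero_le_one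
        _ = 1 := one_mul 1
    linarith
  obtain ⟨lam0, n1, hl0, hr1⟩ := hr θ hθ0 hθ1
  obtain ⟨lam, hlam⟩ : ∃ lam : ℝ, lam = min lam0 (ε * θ / 36) := ⟨_, rfl⟩
  have hlamp : 0 < lam := by rw [hlam]; exact lt_min hl0 (by positivity)
  have hlam0 : lam ≤ lam0 := by rw [hlam]; exact min_le_left _ _
  have hlam1 : 36 * lam ≤ ε * θ := by
    have h1 : lam ≤ ε * θ / 36 := by rw [hlam]; exact min_le_right _ _
    linarith
  obtain ⟨n2, hm⟩ := mainX α θ lam hα hθ0 hθ1 hlamp
  refine ⟨n1 + n2 + 1, ?_⟩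
  intro V _ G _ p W hn hp hΔ hW hc
  have hn0 : (0 : ℝ) ≤ Fintype.card V := Nat.cast_nonneg _
  have hεn : 0 ≤ ε * (Fintype.card V : ℝ) := mul_nonneg hε.le hn0
  have hδn : δ * (Fintype.card V : ℝ) ≤ ε / 2 * (Fintype.card V : ℝ) :=
    mul_le_mul_of_nonneg_right hδ1 hn0
  have hbig : ∀ v, v ∉ W → (1 / 2 + ε / 2) * (Fintype.card V : ℝ) ≤ dg G v := by
    intro v hv
    have h1 : ¬ ((dg G v : ℝ) + δ * Fintype.card V ≤ G.maxDegree) := fun h => hv ((hW v).2 h)
    push Not at h1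
    nlinarith
  obtain ⟨G', hl, hwd, hdu, hdl, hF⟩ := hr1 V G G.maxDegree W (by omega)
    (fun v => (dg_bd G v).2) (by nlinarith) (fun v hv => (hW v).1 hv)
    (fun v hv => by
      have := hbig v hv
      nlinarith)
  have hX : XP G' (α / 128) θ lam := by
    rw [← hτ]
    refine r1x G' ((univ \ W).map Function.Embedding.inl) (W.map Function.Embedding.inl)
      ((univ : Finset (V × Bool)).map Function.Embedding.inr) (Fintype.card V) ε η' τ θ θ lam
      hε hε1 hη0 hη1 hτ0 hτ1 hθ0 hθe.le hθ0 le_rfl hlamp hlam1 ?_ ?_ ?_ ?_ ?_ ?_ ?_ ?_ ?_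
    · rw [Finset.disjoint_left]
      intro x hx hx2
      simp only [Finset.mem_map, Finset.mem_sdiff, Finset.mem_univ, true_and] at hx hx2
      obtain ⟨a, ha, rfl⟩ := hx
      obtain ⟨b, hb, hab⟩ := hx2
      have : b = a := Sum.inl_injective hab
      exact ha (this ▸ hb)
    · rw [Finset.disjoint_left]
      intro x hx hx2
      simp only [Finset.mem_map, Finset.mem_sdiff, Finset.mem_univ, true_and] at hx hx2
      obtain ⟨a, ha, rfl⟩ := hx
      obtain ⟨b, hab⟩ := hx2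
      exact Sum.inr_ne_inl hab
    · rw [Finset.disjoint_left]
      intro x hx hx2
      simp only [Finset.mem_map, Finset.mem_univ, true_and] at hx hx2
      obtain ⟨a, ha, rfl⟩ := hx
      obtain ⟨b, hab⟩ := hx2
      exact Sum.inr_ne_inl hab
    · ext x
      simp only [Finset.mem_union, Finset.mem_map, Finset.mem_sdiff, Finset.mem_univ, true_and,
        iff_true]
      rcases x with v | d
      · by_cases hv : v ∈ W
        · exact Or.inl (Or.inr ⟨v, hv, rfl⟩)
        · exact Or.inl (Or.inl ⟨v, hv, rfl⟩)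
      · exact Or.inr ⟨d, rfl⟩
    · rw [Finset.card_map, Finset.card_map]
      have h1 := Finset.card_sdiff_add_card_eq_card (Finset.subset_univ W)
      rw [Finset.card_univ] at h1
      exact h1
    · rw [Finset.card_map, Finset.card_univ, Fintype.card_prod, Fintype.card_bool, mul_comm]
    · intro x hx
      simp only [Finset.mem_map, Finset.mem_sdiff, Finset.mem_univ, true_and] at hx
      obtain ⟨v, hv, rfl⟩ := hx
      refine (hbig v hv).trans (le_of_eq ?_)
      congr 1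
      refine (HlR1_dgi G G' hl _ ?_ ?_ v).symm
      · intro u
        simp only [Finset.mem_union, Finset.mem_map, Finset.mem_sdiff, Finset.mem_univ, true_and]
        by_cases hu : u ∈ W
        · exact Or.inr ⟨u, hu, rfl⟩
        · exact Or.inl ⟨u, hu, rfl⟩
      · intro x hx
        simp only [Finset.mem_union, Finset.mem_map, Finset.mem_sdiff, Finset.mem_univ,
          true_and] at hx
        rcases hx with ⟨a, _, rfl⟩ | ⟨a, _, rfl⟩
        · exact ⟨a, rfl⟩
        · exact ⟨a, rfl⟩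
    · rcases hc with hc | hc
      · left
        rw [HlR1_ee G G' hl]
        refine le_trans ?_ hc
        exact mul_le_mul_of_nonneg_right hηη (by positivity)
      · right
        rw [Finset.card_map]
        exact hc
    · intro A Y hA hY hAY
      refine hF A Y ?_ ?_ ?_
      · intro a ha
        have h1 := hA ha
        simp only [Finset.mem_map, Finset.mem_univ, true_and] at h1
        obtain ⟨d, rfl⟩ := h1
        exact ⟨d, rfl⟩
      · intro y hy
        have h1 := hY hy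
        simp only [Finset.mem_union, Finset.mem_map, Finset.mem_univ, true_and] at h1
        rcases h1 with ⟨d, rfl⟩ | ⟨w, hw, rfl⟩
        · exact Or.inl ⟨d, rfl⟩
        · exact Or.inr ⟨w, hw, rfl⟩
      · refine hAY.trans ?_
        exact mul_le_mul_of_nonneg_right hlam0 (by positivity)
  have hcard : Fintype.card (V ⊕ (V × Bool)) = 3 * Fintype.card V := by
    rw [Fintype.card_sum, Fintype.card_prod, Fintype.card_bool]
    ring
  have : Nonempty (V ⊕ (V × Bool)) := by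
    apply Fintype.card_pos_iff.1
    omega
  have hmin : α * Fintype.card (V ⊕ (V × Bool)) ≤ (G'.minDegree : ℝ) := by
    obtain ⟨x, hx⟩ := G'.exists_minimal_degree_vertex
    rw [hx, ← dg_eq]
    exact hdl x
  have hmax : G'.maxDegree ≤ G.maxDegree := by
    apply SimpleGraph.maxDegree_le_of_forall_degree_le
    intro x
    rw [← dg_eq]
    exact hdu x
  have hmaxn : G.maxDegree ≤ Fintype.card V := by
    apply SimpleGraph.maxDegree_le_of_forall_degree_le
    intro x
    exact (G.degree_lt_card_verts x).le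
  have hmax2 : (G'.maxDegree : ℝ) ≤ (1 - α) * Fintype.card (V ⊕ (V × Bool)) := by
    rw [hcard]
    push_cast
    have h1 : (G'.maxDegree : ℝ) ≤ Fintype.card V := by exact_mod_cast hmax.trans hmaxn
    nlinarith
  exact hyr G G' Sum.inl Sum.inl_injective (fun a b h => (hl a b).2 h) G.maxDegree G'.maxDegree p
    hmax (hm (V ⊕ (V × Bool)) G' p (by omega) hp hmin hmax2 hX)

end Pool.Agent.H71.HL
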