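import Mathlib
import Pool.Agent.H71.HL.R1
import Pool.Agent.H71.HL.M1
import Pool.Agent.H71.HL.Ncm

/-!
MNH: all large graphs with `Δ ≥ (1/2 + ε) n`: total colouring with `Δ + 2` colours (`p = 1`) and the Havet-Yu bound
for all `p` if there is no near-clique with about `Δ` vertices.
-/

set_option autoImplicit false

namespace Pool.Agent.H71.HL

open Finset Classical
open Pool.Agent.H71.DN Pool.Agent.H71.DX

/-- `#H (Δ - δ n) ≤ e(H, H) + e(H, W)`. -/
theorem mnh_cnt {V : Type} [Fintype V] (G : SimpleGraph V) (W : Finset V) (d : ℝ)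
    (hd : ∀ v, v ∉ W → d ≤ (dg G v : ℝ)) :
    ((univ \ W).card : ℝ) * d ≤ (ee G (univ \ W) (univ \ W) : ℝ) + (ee G (univ \ W) W : ℝ) := by
  have h1 : ee G (univ \ W) (univ \ W) + ee G (univ \ W) W = ∑ v ∈ univ \ W, dg G v := by
    unfold ee dg
    have h2 : ∀ A B : Finset V, ((A ×ˢ B).filter fun x => G.Adj x.1 x.2).card =
        ∑ v ∈ A, (B.filter fun u => G.Adj v u).card := by
      intro A B
      rw [Finset.card_filter, Finset.sum_product]
      refine Finset.sum_congr rfl fun v _ => ?_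
      rw [Finset.card_filter]
    rw [h2, h2, ← Finset.sum_add_distrib]
    refine Finset.sum_congr rfl fun v _ => ?_
    rw [← Finset.card_union_of_disjoint, ← Finset.filter_union]
    · rw [Finset.sdiff_union_of_subset (Finset.subset_univ W)]
    · refine Finset.disjoint_filter_filter ?_
      exact Finset.sdiff_disjoint
  have h3 : ((univ \ W).card : ℝ) * d ≤ ∑ v ∈ univ \ W, (dg G v : ℝ) := by
    rw [← nsmul_eq_mul, ← Finset.sum_const]
    refine Finset.sum_le_sum fun v hv => hd v ?_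
    rw [Finset.mem_sdiff] at hv
    exact hv.2
  have h4 : ((ee G (univ \ W) (univ \ W) + ee G (univ \ W) W : ℕ) : ℝ) =
      ∑ v ∈ univ \ W, (dg G v : ℝ) := by
    rw [h1]
    push_cast
    rfl
  push_cast at h4
  linarith

theorem mnh_le {V : Type} [Fintype V] (G : SimpleGraph V) (A : Finset V) :
    ee G A A ≤ A.card * A.card := by
  unfold ee
  refine (Finset.card_filter_le _ _).trans ?_
  rw [Finset.card_product]

theorem mnh (ε : ℝ) (hε : 0 < ε) (hε1 : ε ≤ 1 / 4) :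
    ∃ n0 : ℕ, ∀ (V : Type) [Fintype V] (G : SimpleGraph V) [DecidableRel G.Adj] (p : ℕ),
      n0 ≤ Fintype.card V → 1 ≤ p →
      (1 / 2 + ε) * Fintype.card V ≤ (G.maxDegree : ℝ) →
      (p = 1 ∨ ∀ S : Finset V, (S.card : ℝ) ≤ (1 + ε) * (G.maxDegree : ℝ) →
        (ee G S S : ℝ) ≤ (1 - ε) * (G.maxDegree : ℝ) ^ 2) →
      H70.HY.HYLab G G.maxDegree p := by
  obtain ⟨ρ1, n1, hρ1, hρ1', h1⟩ := m1 ε (ε / 4000) hε hε1 (by positivity) (by linarith)
  obtain ⟨ρ2, n2, hρ2, hρ2', h2⟩ := ncm ε hε hε1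
  obtain ⟨δ, hδd⟩ : ∃ δ : ℝ, δ = min (min ρ1 ρ2) (ε / 40) := ⟨_, rfl⟩
  have hδ0 : 0 < δ := by
    rw [hδd]
    exact lt_min (lt_min hρ1 hρ2) (by positivity)
  have hδ1 : δ ≤ ρ1 := by
    rw [hδd]
    exact (min_le_left _ _).trans (min_le_left _ _)
  have hδ2 : δ ≤ ρ2 := by
    rw [hδd]
    exact (min_le_left _ _).trans (min_le_right _ _)
  have hδ3 : δ ≤ ε / 40 := by
    rw [hδd]
    exact min_le_right _ _
  obtain ⟨n3, h3⟩ := r1 ε δ δ hε (by linarith) hδ0 (by linarith) hδ0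
  refine ⟨n1 + n2 + n3 + 1, ?_⟩
  intro V _ G _ p hn hp hΔ hcase
  obtain ⟨n, hnd⟩ : ∃ n : ℝ, n = Fintype.card V := ⟨_, rfl⟩
  obtain ⟨D, hDd⟩ : ∃ D : ℝ, D = G.maxDegree := ⟨_, rfl⟩
  have hn1 : 1 ≤ n := by
    rw [hnd]
    exact_mod_cast (by omega : 1 ≤ Fintype.card V)
  obtain ⟨W, hW⟩ : ∃ W : Finset V, ∀ v, v ∈ W ↔
      (dg G v : ℝ) + δ * Fintype.card V ≤ G.maxDegree :=
    ⟨univ.filter fun v => (dg G v : ℝ) + δ * Fintype.card V ≤ G.maxDegree, fun v => by
      rw [Finset.mem_filter]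
      exact ⟨fun h => h.2, fun h => ⟨Finset.mem_univ _, h⟩⟩⟩
  by_cases hA : δ * (Fintype.card V : ℝ) ^ 2 ≤ ee G (univ \ W) W ∨
      ((univ \ W).card : ℝ) ≤ (1 / 2 + ε / 4) * Fintype.card V
  · exact h3 V G p W (by omega) hp hΔ hW hA
  push Not at hA
  obtain ⟨hA1, hA2⟩ := hA
  have hW' : ∀ v, v ∉ W → (G.maxDegree : ℝ) < dg G v + δ * Fintype.card V := by
    intro v hv
    rw [hW] at hv
    push Not at hv
    exact hv
  have hn2 : (0 : ℝ) ≤ (Fintype.card V : ℝ) ^ 2 := by positivity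
  have hn3 : (0 : ℝ) ≤ Fintype.card V := Nat.cast_nonneg _
  by_cases hB : (1 + ε / 4000) * (G.maxDegree : ℝ) ≤ ((univ \ W).card : ℝ)
  · refine h1 V G p W (by omega) hp hΔ ?_ ?_ hB
    · intro v hv
      have h4 := hW' v hv
      have h5 := mul_le_mul_of_nonneg_right hδ1 hn3
      linarith
    · have h5 := mul_le_mul_of_nonneg_right hδ1 hn2
      linarith
  push Not at hB
  rcases hcase with hp1 | hS
  · rw [hp1]
    refine h2 V G W (by omega) hΔ ?_ ?_ hB.le hA2.le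
    · intro v hv
      have h4 := hW' v hv
      have h5 := mul_le_mul_of_nonneg_right hδ2 hn3
      linarith
    · have h5 := mul_le_mul_of_nonneg_right hδ2 hn2
      linarith
  · exfalso
    have hD0 : (0 : ℝ) ≤ G.maxDegree := Nat.cast_nonneg _
    have h4 := hS (univ \ W) (by
      have h6 : ε / 4000 * (G.maxDegree : ℝ) ≤ ε * (G.maxDegree : ℝ) :=
        mul_le_mul_of_nonneg_right (by linarith) hD0
      nlinarith)
    have h5 := mnh_cnt G W ((G.maxDegree : ℝ) - δ * Fintype.card V) (fun v hv => by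
      have h6 := hW' v hv
      linarith)
    have h6 : (ee G (univ \ W) (univ \ W) : ℝ) ≤ ((univ \ W).card : ℝ) ^ 2 := by
      have h7 : ee G (univ \ W) (univ \ W) ≤ (univ \ W).card * (univ \ W).card :=
        mnh_le G (univ \ W)
      have h8 : ((ee G (univ \ W) (univ \ W) : ℕ) : ℝ) ≤
          (((univ \ W).card * (univ \ W).card : ℕ) : ℝ) := by exact_mod_cast h7
      push_cast at h8
      rw [sq]
      exact h8
    rw [← hnd] at hA1 hA2 h5 hΔ
    rw [← hDd] at hB h4 h5 hΔ hD0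
    obtain ⟨h, hh⟩ : ∃ h : ℝ, h = ((univ \ W).card : ℝ) := ⟨_, rfl⟩
    obtain ⟨a, ha⟩ : ∃ a : ℝ, a = (ee G (univ \ W) (univ \ W) : ℝ) := ⟨_, rfl⟩
    obtain ⟨b, hb⟩ : ∃ b : ℝ, b = (ee G (univ \ W) W : ℝ) := ⟨_, rfl⟩
    rw [← hh] at h5 h6 hA2 hB
    rw [← ha] at h4 h5 h6
    rw [← hb] at h5 hA1
    have hnD : n ≤ 2 * D := by
      have : 0 ≤ ε * n := by positivity
      nlinarith
    have hhn : n / 2 ≤ h := by
      have : 0 ≤ ε * n := by positivity
      nlinarith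
    -- a lower bound of `h`
    have h7 : D - δ * n - 2 * δ * n ≤ h := by
      have h8 : h * (D - δ * n) ≤ h ^ 2 + δ * n ^ 2 := by linarith
      have h9 : δ * n ^ 2 ≤ h * (2 * δ * n) := by
        have h10 : (n / 2) * (2 * δ * n) ≤ h * (2 * δ * n) :=
          mul_le_mul_of_nonneg_right hhn (by positivity)
        nlinarith
      have h10 : h * (D - δ * n) ≤ h * (h + 2 * δ * n) := by nlinarith
      have h11 : D - δ * n ≤ h + 2 * δ * n :=
        le_of_mul_le_mul_left h10 (by linarith)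
      linarith
    have hδn : δ * n ≤ ε / 20 * D := by
      have h8 : δ * n ≤ ε / 40 * n := mul_le_mul_of_nonneg_right hδ3 (by linarith)
      have h9 : ε / 40 * n ≤ ε / 40 * (2 * D) := mul_le_mul_of_nonneg_left hnD (by positivity)
      linarith
    have hDpos : 0 < D := by linarith
    have hεD : 0 < ε * D := by positivity
    have h8 : D - 3 * (ε / 20 * D) ≤ h := by nlinarith
    have h9 : D - ε / 20 * D ≤ D - δ * n := by linarith
    have h10 : (D - 3 * (ε / 20 * D)) * (D - ε / 20 * D) ≤ h * (D - δ * n) := by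
      refine mul_le_mul h8 h9 ?_ (by linarith)
      nlinarith
    have h11 : δ * n ^ 2 ≤ ε / 20 * D * (2 * D) := by
      have h12 : δ * n * n ≤ ε / 20 * D * (2 * D) :=
        mul_le_mul hδn hnD (by linarith) (by positivity)
      nlinarith
    have h12 : (1 - 6 * ε / 20) * D ^ 2 ≤ a := by
      have h13 : (D - 3 * (ε / 20 * D)) * (D - ε / 20 * D) =
          D ^ 2 - 4 * ε / 20 * D ^ 2 + 3 * (ε / 20) ^ 2 * D ^ 2 := by ring
      have h14 : 0 ≤ 3 * (ε / 20) ^ 2 * D ^ 2 := by positivity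
      nlinarith
    have h13 : 0 < ε * D ^ 2 := by positivity
    nlinarith

end Pool.Agent.H71.HL
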